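import Pool.Agent.RSF.DYW

/-!
# DYM: the Carleson embedding

Hypothesis `hA` (Carleson packing): for every measurable `Ω`, the integral of the sum of the `a n x` over those `n` with
`Cel c n x ⊆ Ω` is at most `A μ(Ω)`. Then `∫ ∑_n a n (av f n)^p ≤ C A ∫ f^p`, `p ≥ 2` an integer.
-/

namespace Pool.Agent.RSF

open MeasureTheory Set
open scoped ENNReal NNReal

variable {X I : Type} [MeasurableSpace X] [Countable I] [MeasurableSpace I]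
  [MeasurableSingletonClass I]

private theorem z_ne_zero (m : ℤ) : (2 : ℝ≥0∞) ^ m ≠ 0 :=
  (ENNReal.zpow_pos (by norm_num) (by norm_num) m).ne'

private theorem z_ne_top (m : ℤ) : (2 : ℝ≥0∞) ^ m ≠ ∞ :=
  (ENNReal.zpow_lt_top (by norm_num) (by norm_num) m).ne

private theorem z_add (m n : ℤ) : (2 : ℝ≥0∞) ^ (m + n) = 2 ^ m * 2 ^ n :=
  ENNReal.zpow_add (by norm_num) (by norm_num) m n

open Classical in
private theorem dym_up (p : ℕ) (hp : 1 ≤ p) (v : ℝ≥0∞) :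
    v ^ p ≤ ∑' m : ℤ, (if 2 * (2 : ℝ≥0∞) ^ m < v then 4 ^ p * ((2 : ℝ≥0∞) ^ m) ^ p else 0) := by
  rcases eq_or_ne v 0 with rfl | h0
  · rw [zero_pow (by omega)]
    exact zero_le
  rcases eq_or_ne v ∞ with rfl | h1
  · have h2 : ∑' n : ℕ, (fun m : ℤ => (if 2 * (2 : ℝ≥0∞) ^ m < ∞ then
        4 ^ p * ((2 : ℝ≥0∞) ^ m) ^ p else 0)) ((n : ℕ) : ℤ) ≤
        ∑' m : ℤ, (fun m : ℤ => (if 2 * (2 : ℝ≥0∞) ^ m < ∞ then
        4 ^ p * ((2 : ℝ≥0∞) ^ m) ^ p else 0)) m :=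
      ENNReal.tsum_comp_le_tsum_of_injective Nat.cast_injective _
    have h3 : ∑' _ : ℕ, (1 : ℝ≥0∞) ≤ ∑' n : ℕ, (fun m : ℤ => (if 2 * (2 : ℝ≥0∞) ^ m < ∞ then
        4 ^ p * ((2 : ℝ≥0∞) ^ m) ^ p else 0)) ((n : ℕ) : ℤ) := by
      refine ENNReal.tsum_le_tsum fun n => ?_
      have h4 : 2 * (2 : ℝ≥0∞) ^ ((n : ℕ) : ℤ) < ∞ :=
        ENNReal.mul_lt_top (by norm_num) (lt_top_iff_ne_top.2 (z_ne_top _))
      simp only [h4, if_true]
      have h5 : (1 : ℝ≥0∞) ≤ 4 ^ p := one_le_pow₀ (by norm_num)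
      have h6 : (1 : ℝ≥0∞) ≤ ((2 : ℝ≥0∞) ^ ((n : ℕ) : ℤ)) ^ p := by
        apply one_le_pow₀
        rw [zpow_natCast]
        exact one_le_pow₀ (by norm_num)
      calc (1 : ℝ≥0∞) = 1 * 1 := (mul_one 1).symm
        _ ≤ _ := mul_le_mul' h5 h6
    rw [ENNReal.tsum_const_eq_top_of_ne_zero one_ne_zero] at h3
    exact (le_top.trans h3).trans h2
  · obtain ⟨l, hl1, hl2⟩ := ENNReal.exists_mem_Ioc_zpow h0 h1 (by norm_num : (1 : ℝ≥0∞) < 2) (by norm_num)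
    have h3 : (2 : ℝ≥0∞) ^ l = 2 * 2 ^ (l - 1) := by
      have := z_add 1 (l - 1)
      rw [zpow_one] at this
      rw [← this]
      congr 1
      ring
    have h4 : (2 : ℝ≥0∞) ^ (l + 1) = 4 * 2 ^ (l - 1) := by
      rw [z_add, zpow_one, h3]
      ring
    have h5 : v ^ p ≤ 4 ^ p * ((2 : ℝ≥0∞) ^ (l - 1)) ^ p := by
      rw [← mul_pow, ← h4]
      exact pow_le_pow_left' hl2 p
    have h6 : 2 * (2 : ℝ≥0∞) ^ (l - 1) < v := by
      rw [← h3]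
      exact hl1
    have h7 := ENNReal.le_tsum (f := fun m : ℤ => (if 2 * (2 : ℝ≥0∞) ^ m < v then
      4 ^ p * ((2 : ℝ≥0∞) ^ m) ^ p else 0)) (l - 1)
    simp only [h6, if_true] at h7
    exact h5.trans h7

open Classical in
private theorem dym_down (q : ℕ) (hq : 1 ≤ q) (v : ℝ≥0∞) :
    ∑' m : ℤ, (if (2 : ℝ≥0∞) ^ m < v then ((2 : ℝ≥0∞) ^ m) ^ q else 0) ≤ 2 * v ^ q := by
  rcases eq_or_ne v 0 with rfl | h0
  · simp
  rcases eq_or_ne v ∞ with rfl | h1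
  · rw [ENNReal.top_pow (by omega), ENNReal.mul_top (by norm_num)]
    exact le_top
  obtain ⟨l, hl1, hl2⟩ := ENNReal.exists_mem_Ioc_zpow h0 h1 (by norm_num : (1 : ℝ≥0∞) < 2) (by norm_num)
  have hinj : Function.Injective (fun j : ℕ => l - (j : ℤ)) := by
    intro i j hij
    simp only at hij
    omega
  have hsupp : Function.support (fun m : ℤ => (if (2 : ℝ≥0∞) ^ m < v then ((2 : ℝ≥0∞) ^ m) ^ q else 0)) ⊆
      Set.range (fun j : ℕ => l - (j : ℤ)) := by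
    intro m hm
    rw [Function.mem_support] at hm
    have h2 : (2 : ℝ≥0∞) ^ m < v := by
      by_contra h
      simp only [h, if_false] at hm
      exact hm rfl
    have h3 : m ≤ l := by
      by_contra h
      push Not at h
      have h4 : (2 : ℝ≥0∞) ^ (l + 1) ≤ 2 ^ m := ENNReal.zpow_le_of_le (by norm_num) (by omega)
      exact absurd (h2.trans_le hl2) (not_lt.2 h4)
    exact ⟨(l - m).toNat, by simp only; omega⟩
  rw [← hinj.tsum_eq hsupp]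
  have h3 : ∀ j : ℕ, (if (2 : ℝ≥0∞) ^ (l - (j : ℤ)) < v then ((2 : ℝ≥0∞) ^ (l - (j : ℤ))) ^ q else 0) ≤
      v ^ q * (2⁻¹ : ℝ≥0∞) ^ j := by
    intro j
    have h4 : (2 : ℝ≥0∞) ^ (l - (j : ℤ)) = 2 ^ l * (2⁻¹) ^ j := by
      rw [sub_eq_add_neg, z_add, ENNReal.zpow_neg, zpow_natCast, ENNReal.inv_pow]
    have h5 : ((2⁻¹ : ℝ≥0∞) ^ j) ^ q ≤ (2⁻¹) ^ j := by
      have h6 : (2⁻¹ : ℝ≥0∞) ^ j ≤ 1 := pow_le_one' (by norm_num) j
      calc ((2⁻¹ : ℝ≥0∞) ^ j) ^ q ≤ ((2⁻¹ : ℝ≥0∞) ^ j) ^ 1 := pow_le_pow_right_of_le_one' h6 hq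
        _ = _ := pow_one _
    split_ifs
    · rw [h4, mul_pow]
      exact mul_le_mul' (pow_le_pow_left' hl1.le q) h5
    · exact zero_le
  refine (ENNReal.tsum_le_tsum h3).trans ?_
  rw [ENNReal.tsum_mul_left, ENNReal.tsum_geometric, ENNReal.one_sub_inv_two, inv_inv, mul_comm]

open Classical in
theorem dym (p : ℕ) (hp : 2 ≤ p) : ∃ C : ℝ≥0, ∀ (c : ℕ → X → I), (∀ n, Measurable (c n)) →
    (∀ n x y, c (n + 1) x = c (n + 1) y → c n x = c n y) → ∀ (μ : Measure X) (a : ℕ → X → ℝ≥0∞),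
    (∀ n, Measurable (a n)) → ∀ A : ℝ≥0,
    (∀ Ω : Set X, MeasurableSet Ω →
      ∫⁻ x, ∑' n, (if Cel c n x ⊆ Ω then a n x else 0) ∂μ ≤ (A : ℝ≥0∞) * μ Ω) →
    ∀ f : X → ℝ≥0∞, Measurable f →
      ∫⁻ x, ∑' n, a n x * av c μ f n x ^ p ∂μ ≤ (C : ℝ≥0∞) * A * ∫⁻ x, f x ^ p ∂μ := by
  obtain ⟨q, rfl⟩ : ∃ q, p = q + 1 := ⟨p - 1, by omega⟩
  refine ⟨2 * 4 ^ (q + 1), fun c hc hn μ a ha A hA f hf => ?_⟩
  obtain ⟨Ω, hΩ⟩ : ∃ Ω : ℤ → Set X, Ω = fun m => {x | ∃ n, 2 * (2 : ℝ≥0∞) ^ m < av c μ f n x} := ⟨_, rfl⟩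
  have hΩm : ∀ m, MeasurableSet (Ω m) := by
    intro m
    rw [hΩ]
    have : {x | ∃ n, 2 * (2 : ℝ≥0∞) ^ m < av c μ f n x} = ⋃ n, {x | 2 * (2 : ℝ≥0∞) ^ m < av c μ f n x} := by
      ext x
      simp
    change MeasurableSet {x | ∃ n, 2 * (2 : ℝ≥0∞) ^ m < av c μ f n x}
    rw [this]
    exact MeasurableSet.iUnion fun n => measurableSet_lt measurable_const (measurable_av c hc μ f n)
  have hcell : ∀ m n x, 2 * (2 : ℝ≥0∞) ^ m < av c μ f n x → Cel c n x ⊆ Ω m := by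
    intro m n x hx y hy
    rw [hΩ]
    refine ⟨n, ?_⟩
    have h1 : Cel c n y = Cel c n x := by
      ext z
      have hy' : c n y = c n x := hy
      simp only [Cel, Set.mem_ofPred_eq, hy']
    simp only [av, h1]
    exact hx
  obtain ⟨g, hg⟩ : ∃ g : ℤ → X → ℝ≥0∞, g = fun m x => ∑' n, (if Cel c n x ⊆ Ω m then a n x else 0) :=
    ⟨_, rfl⟩
  have hgm : ∀ m, Measurable (g m) := by
    intro m
    rw [hg]
    refine Measurable.tsum fun n => ?_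
    refine Measurable.ite ?_ (ha n) measurable_const
    have h1 : {x | Cel c n x ⊆ Ω m} = c n ⁻¹' {i | ∀ y, c n y = i → y ∈ Ω m} := by
      ext x
      rfl
    rw [h1]
    exact hc n (Set.to_countable _).measurableSet
  have step1 : ∀ x, ∑' n, a n x * av c μ f n x ^ (q + 1) ≤
      ∑' m : ℤ, (4 ^ (q + 1) * ((2 : ℝ≥0∞) ^ m) ^ (q + 1)) * g m x := by
    intro x
    calc ∑' n, a n x * av c μ f n x ^ (q + 1)
        ≤ ∑' n, a n x * ∑' m : ℤ, (if 2 * (2 : ℝ≥0∞) ^ m < av c μ f n x then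
            4 ^ (q + 1) * ((2 : ℝ≥0∞) ^ m) ^ (q + 1) else 0) :=
          ENNReal.tsum_le_tsum fun n => by
            gcongr
            exact dym_up (q + 1) (by omega) _
      _ = ∑' n, ∑' m : ℤ, a n x * (if 2 * (2 : ℝ≥0∞) ^ m < av c μ f n x then
            4 ^ (q + 1) * ((2 : ℝ≥0∞) ^ m) ^ (q + 1) else 0) := by
          simp only [ENNReal.tsum_mul_left]
      _ = ∑' m : ℤ, ∑' n, a n x * (if 2 * (2 : ℝ≥0∞) ^ m < av c μ f n x then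
            4 ^ (q + 1) * ((2 : ℝ≥0∞) ^ m) ^ (q + 1) else 0) := ENNReal.tsum_comm
      _ ≤ ∑' m : ℤ, ∑' n, (4 ^ (q + 1) * ((2 : ℝ≥0∞) ^ m) ^ (q + 1)) *
            (if Cel c n x ⊆ Ω m then a n x else 0) := by
          refine ENNReal.tsum_le_tsum fun m => ENNReal.tsum_le_tsum fun n => ?_
          by_cases h : 2 * (2 : ℝ≥0∞) ^ m < av c μ f n x
          · rw [if_pos h, if_pos (hcell m n x h), mul_comm]
          · rw [if_neg h, mul_zero]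
            exact zero_le
      _ = _ := by
          simp only [ENNReal.tsum_mul_left, hg]
  have step3 : ∀ m : ℤ, (4 ^ (q + 1) * ((2 : ℝ≥0∞) ^ m) ^ (q + 1)) * ((A : ℝ≥0∞) * μ (Ω m)) ≤
      (4 ^ (q + 1) * (A : ℝ≥0∞)) * ∫⁻ x, (if (2 : ℝ≥0∞) ^ m < f x then ((2 : ℝ≥0∞) ^ m) ^ q else 0) * f x ∂μ := by
    intro m
    have h1 := weak' c hc hn μ f hf (2 * (2 : ℝ≥0∞) ^ m)
      (mul_ne_zero (by norm_num) (z_ne_zero m)) (ENNReal.mul_ne_top (by norm_num) (z_ne_top m))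
    have h2 : 2 * (2 : ℝ≥0∞) ^ m / 2 = 2 ^ m := by
      rw [mul_comm, mul_div_assoc, ENNReal.div_self (by norm_num) (by norm_num), mul_one]
    rw [h2] at h1
    have h3 : ∫⁻ x, (if (2 : ℝ≥0∞) ^ m < f x then ((2 : ℝ≥0∞) ^ m) ^ q else 0) * f x ∂μ =
        ((2 : ℝ≥0∞) ^ m) ^ q * ∫⁻ x in {x | (2 : ℝ≥0∞) ^ m < f x}, f x ∂μ := by
      rw [← lintegral_const_mul _ hf, ← lintegral_indicator (measurableSet_lt measurable_const hf)]
      congr 1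
      ext x
      by_cases hx : (2 : ℝ≥0∞) ^ m < f x
      · rw [if_pos hx, Set.indicator_of_mem (show x ∈ {x | (2 : ℝ≥0∞) ^ m < f x} from hx)]
      · rw [if_neg hx, Set.indicator_of_notMem (show x ∉ {x | (2 : ℝ≥0∞) ^ m < f x} from hx), zero_mul]
    rw [h3]
    have h4 : μ (Ω m) = μ {x | ∃ n, 2 * (2 : ℝ≥0∞) ^ m < av c μ f n x} := by rw [hΩ]
    rw [← h4] at h1
    calc (4 ^ (q + 1) * ((2 : ℝ≥0∞) ^ m) ^ (q + 1)) * ((A : ℝ≥0∞) * μ (Ω m))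
        = (4 ^ (q + 1) * (A : ℝ≥0∞)) * (((2 : ℝ≥0∞) ^ m) ^ q * ((2 : ℝ≥0∞) ^ m * μ (Ω m))) := by
          rw [pow_succ ((2 : ℝ≥0∞) ^ m) q]
          ring
      _ ≤ _ := by gcongr
  calc ∫⁻ x, ∑' n, a n x * av c μ f n x ^ (q + 1) ∂μ
      ≤ ∫⁻ x, ∑' m : ℤ, (4 ^ (q + 1) * ((2 : ℝ≥0∞) ^ m) ^ (q + 1)) * g m x ∂μ := lintegral_mono step1
    _ = ∑' m : ℤ, ∫⁻ x, (4 ^ (q + 1) * ((2 : ℝ≥0∞) ^ m) ^ (q + 1)) * g m x ∂μ :=
        lintegral_tsum fun m => ((hgm m).const_mul _).aemeasurable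
    _ = ∑' m : ℤ, (4 ^ (q + 1) * ((2 : ℝ≥0∞) ^ m) ^ (q + 1)) * ∫⁻ x, g m x ∂μ := by
        congr 1
        ext m
        exact lintegral_const_mul _ (hgm m)
    _ ≤ ∑' m : ℤ, (4 ^ (q + 1) * ((2 : ℝ≥0∞) ^ m) ^ (q + 1)) * ((A : ℝ≥0∞) * μ (Ω m)) := by
        refine ENNReal.tsum_le_tsum fun m => ?_
        gcongr
        rw [hg]
        exact hA (Ω m) (hΩm m)
    _ ≤ ∑' m : ℤ, (4 ^ (q + 1) * (A : ℝ≥0∞)) *
          ∫⁻ x, (if (2 : ℝ≥0∞) ^ m < f x then ((2 : ℝ≥0∞) ^ m) ^ q else 0) * f x ∂μ :=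
        ENNReal.tsum_le_tsum step3
    _ = (4 ^ (q + 1) * (A : ℝ≥0∞)) *
          ∑' m : ℤ, ∫⁻ x, (if (2 : ℝ≥0∞) ^ m < f x then ((2 : ℝ≥0∞) ^ m) ^ q else 0) * f x ∂μ :=
        ENNReal.tsum_mul_left
    _ = (4 ^ (q + 1) * (A : ℝ≥0∞)) *
          ∫⁻ x, ∑' m : ℤ, (if (2 : ℝ≥0∞) ^ m < f x then ((2 : ℝ≥0∞) ^ m) ^ q else 0) * f x ∂μ := by
        rw [lintegral_tsum]
        intro m
        exact ((Measurable.ite (measurableSet_lt measurable_const hf) measurable_const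
          measurable_const).mul hf).aemeasurable
    _ ≤ (4 ^ (q + 1) * (A : ℝ≥0∞)) * ∫⁻ x, 2 * f x ^ (q + 1) ∂μ := by
        gcongr with x
        rw [ENNReal.tsum_mul_right, pow_succ, ← mul_assoc]
        gcongr
        exact dym_down q (by omega) (f x)
    _ = _ := by
        rw [lintegral_const_mul _ (hf.pow_const _)]
        push_cast
        ring

end Pool.Agent.RSF
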