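import Pool.Agent.RSF.PAK
import Pool.Agent.RSF.DYM

/-!
# CRL: the embeddings on the grids

Let `I_k(x) = 2^(ks) ∫_{Ce α k x} f dμ`. Cells are bounded (`cl_diam`), so of finite measure.
* For every `K : ℤ` apply `dym` to `c n = cl α (K + n)` (`n : ℕ`), `a n x = (2^((K+n)s) μ(Ce α (K+n) x))²`, and `pak`.
* `crl3`: for fixed `k`, `∫ I_k(x)² f(x) dμ = ∫ (2^(ks) μ(D))² (∫_D f / μ D)³ dμ`. Then `dym` with `p = 3`.
-/

namespace Pool.Agent.RSF

open MeasureTheory Metric Set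
open scoped ENNReal NNReal

variable {d : ℕ}

private theorem Ce_meas (α : Fin d → Bool) (k : ℤ) (x : E d) : MeasurableSet (Ce α k x) :=
  measurable_cl α k (measurableSet_singleton (cl α k x))

private theorem Ce_fin (μ : Measure (E d)) [IsLocallyFiniteMeasure μ] (α : Fin d → Bool) (k : ℤ) (x : E d) :
    μ (Ce α k x) ≠ ∞ := by
  have h1 : Ce α k x ⊆ closedBall x (d * (2 : ℝ) ^ (-k)) := by
    intro y hy
    rw [mem_closedBall, dist_eq_norm]
    exact cl_diam α k hy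
  exact ((measure_mono h1).trans_lt measure_closedBall_lt_top).ne

private theorem fun_meas {Y : Type} [MeasurableSpace Y] (α : Fin d → Bool) (k : ℤ) (F : Set (E d) → Y) :
    Measurable (fun x => F (Ce α k x)) := by
  have h1 : (fun x => F (Ce α k x)) = (fun i : Fin d → ℤ => F {y | cl α k y = i}) ∘ cl α k := rfl
  rw [h1]
  exact (measurable_of_countable _).comp (measurable_cl α k)

private theorem sq_eq (μ : Measure (E d)) [IsLocallyFiniteMeasure μ] (α : Fin d → Bool) (k : ℤ)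
    (w : ℝ≥0∞) (f : E d → ℝ≥0∞) (x : E d) :
    (w * ∫⁻ y in Ce α k x, f y ∂μ) ^ 2 =
      (w * μ (Ce α k x)) ^ 2 * ((∫⁻ y in Ce α k x, f y ∂μ) / μ (Ce α k x)) ^ 2 := by
  rw [← mul_pow, mul_assoc]
  rcases eq_or_ne (μ (Ce α k x)) 0 with h0 | h0
  · have h1 : ∫⁻ y in Ce α k x, f y ∂μ = 0 := setLIntegral_measure_zero _ _ h0
    rw [h1, h0]
    simp
  · rw [ENNReal.mul_div_cancel h0 (Ce_fin μ α k x)]

private theorem fib (μ : Measure (E d)) [IsLocallyFiniteMeasure μ] (α : Fin d → Bool) (k : ℤ)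
    (H : Set (E d) → ℝ≥0∞) (f : E d → ℝ≥0∞) (hf : Measurable f) :
    ∫⁻ x, H (Ce α k x) * f x ∂μ =
      ∫⁻ x, H (Ce α k x) * ((∫⁻ y in Ce α k x, f y ∂μ) / μ (Ce α k x)) ∂μ := by
  have hun : (⋃ i : Fin d → ℤ, {y | cl α k y = i}) = univ := by
    ext y
    simp
  have hm : ∀ i : Fin d → ℤ, MeasurableSet {y | cl α k y = i} := fun i =>
    measurable_cl α k (measurableSet_singleton i)
  have hd : Pairwise (Function.onFun Disjoint fun i : Fin d → ℤ => {y | cl α k y = i}) := by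
    intro i j hij
    rw [Function.onFun, Set.disjoint_left]
    intro y hy hy'
    exact hij (hy.symm.trans hy')
  have key : ∀ g : E d → ℝ≥0∞, ∫⁻ x, g x ∂μ = ∑' i : Fin d → ℤ, ∫⁻ x in {y | cl α k y = i}, g x ∂μ := by
    intro g
    rw [← lintegral_iUnion hm hd, hun, setLIntegral_univ]
  rw [key, key]
  congr 1
  ext i
  have hc : ∀ x ∈ {y | cl α k y = i}, Ce α k x = {y | cl α k y = i} := by
    intro x hx
    have hx' : cl α k x = i := hx
    unfold Ce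
    rw [hx']
  have e1 : ∫⁻ x in {y | cl α k y = i}, H (Ce α k x) * f x ∂μ =
      ∫⁻ x in {y | cl α k y = i}, H {y | cl α k y = i} * f x ∂μ :=
    setLIntegral_congr_fun (hm i) (fun x hx => by simp only [hc x hx])
  have e2 : ∫⁻ x in {y | cl α k y = i}, H (Ce α k x) * ((∫⁻ y in Ce α k x, f y ∂μ) / μ (Ce α k x)) ∂μ =
      ∫⁻ _ in {y | cl α k y = i}, H {y | cl α k y = i} *
        ((∫⁻ y in {y | cl α k y = i}, f y ∂μ) / μ {y | cl α k y = i}) ∂μ :=
    setLIntegral_congr_fun (hm i) (fun x hx => by simp only [hc x hx])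
  rw [e1, e2]
  rw [lintegral_const_mul _ hf, setLIntegral_const, mul_assoc]
  congr 1
  rcases eq_or_ne (μ {y | cl α k y = i}) 0 with h0 | h0
  · have h1 : ∫⁻ y in {y | cl α k y = i}, f y ∂μ = 0 := setLIntegral_measure_zero _ _ h0
    rw [h1, h0]
    simp
  · have h1 : μ {y | cl α k y = i} ≠ ∞ := by
      have h2 : ({y | cl α k y = i} : Set (E d)).Nonempty := by
        by_contra h
        rw [Set.not_nonempty_iff_eq_empty] at h
        rw [h] at h0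
        simp at h0
      obtain ⟨x, hx⟩ := h2
      rw [← hc x hx]
      exact Ce_fin μ α k x
    rw [ENNReal.div_mul_cancel h0 h1]

private theorem sum_le (g : ℤ → ℝ≥0∞) (M : ℝ≥0∞) (h : ∀ K : ℤ, ∑' n : ℕ, g (K + n) ≤ M) :
    ∑' k : ℤ, g k ≤ M := by
  classical
  rw [ENNReal.tsum_eq_iSup_sum]
  refine iSup_le fun s => ?_
  obtain ⟨K, hK⟩ : ∃ K : ℤ, ∀ k ∈ s, K ≤ k := by
    obtain ⟨K, hK⟩ := s.bddBelow
    exact ⟨K, fun k hk => hK hk⟩
  have hinj : Function.Injective (fun n : ℕ => K + (n : ℤ)) := by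
    intro i j hij
    simp only at hij
    omega
  have h1 : ∑ k ∈ s, g k = ∑' k : ℤ, (if k ∈ s then g k else 0) := by
    rw [tsum_eq_sum (s := s) (fun k hk => if_neg hk)]
    exact Finset.sum_congr rfl fun k hk => (if_pos hk).symm
  have h2 : Function.support (fun k : ℤ => (if k ∈ s then g k else 0)) ⊆
      Set.range (fun n : ℕ => K + (n : ℤ)) := by
    intro k hk
    rw [Function.mem_support] at hk
    have h3 : k ∈ s := by
      by_contra h
      simp only [h, if_false] at hk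
      exact hk rfl
    have h4 := hK k h3
    exact ⟨(k - K).toNat, by simp only; omega⟩
  rw [h1, ← hinj.tsum_eq h2]
  refine le_trans (ENNReal.tsum_le_tsum fun n => ?_) (h K)
  split_ifs
  · exact le_rfl
  · exact zero_le

private theorem emb {s : ℝ} (hs0 : 0 < s) (μ : Measure (E d)) [IsLocallyFiniteMeasure μ]
    [NullSingletonClass μ] (h : WB s μ) (p : ℕ) (hp : 2 ≤ p) :
    ∃ C : ℝ≥0, ∀ (α : Fin d → Bool) (f : E d → ℝ≥0∞), Measurable f →
      ∑' k : ℤ, ∫⁻ x, (ENNReal.ofReal (((2 : ℝ) ^ k) ^ s) * μ (Ce α k x)) ^ 2 *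
        ((∫⁻ y in Ce α k x, f y ∂μ) / μ (Ce α k x)) ^ p ∂μ ≤
        (C : ℝ≥0∞) * ∫⁻ x, f x ^ p ∂μ := by
  obtain ⟨A, hA⟩ := pak hs0 μ h
  obtain ⟨C, hC⟩ := dym (X := E d) (I := Fin d → ℤ) p hp
  refine ⟨C * A, fun α f hf => sum_le _ _ fun K => ?_⟩
  have hnest : ∀ (n : ℕ) (x y : E d), cl α (K + ((n + 1 : ℕ) : ℤ)) x = cl α (K + ((n + 1 : ℕ) : ℤ)) y →
      cl α (K + (n : ℤ)) x = cl α (K + (n : ℤ)) y := by
    intro n x y hxy
    apply cl_nested
    have h1 : K + ((n + 1 : ℕ) : ℤ) = K + (n : ℤ) + 1 := by push_cast; ring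
    rw [h1] at hxy
    exact hxy
  have h1 := hC (fun n => cl α (K + (n : ℤ))) (fun n => measurable_cl α _) hnest μ
    (fun n x => (ENNReal.ofReal (((2 : ℝ) ^ (K + (n : ℤ))) ^ s) * μ (Ce α (K + (n : ℤ)) x)) ^ 2)
    (fun n => fun_meas α (K + (n : ℤ)) (fun D => (ENNReal.ofReal (((2 : ℝ) ^ (K + (n : ℤ))) ^ s) * μ D) ^ 2))
    A (fun Ω hΩ => by
      refine le_trans (lintegral_mono fun x => ?_) (hA α Ω hΩ)
      have hinj : Function.Injective (fun n : ℕ => K + (n : ℤ)) := by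
        intro i j hij
        simp only at hij
        omega
      exact ENNReal.tsum_comp_le_tsum_of_injective hinj _) f hf
  rw [lintegral_tsum] at h1
  · push_cast
    exact h1
  · intro n
    exact (fun_meas α (K + (n : ℤ)) (fun D => (ENNReal.ofReal (((2 : ℝ) ^ (K + (n : ℤ))) ^ s) * μ D) ^ 2 *
      ((∫⁻ y in D, f y ∂μ) / μ D) ^ p)).aemeasurable

theorem crl2 {s : ℝ} (hs0 : 0 < s) (μ : Measure (E d)) [IsLocallyFiniteMeasure μ]
    [NullSingletonClass μ] (h : WB s μ) :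
    ∃ C : ℝ≥0, ∀ (α : Fin d → Bool) (f : E d → ℝ≥0∞), Measurable f →
      ∫⁻ x, ∑' k : ℤ, (ENNReal.ofReal (((2 : ℝ) ^ k) ^ s) * ∫⁻ y in Ce α k x, f y ∂μ) ^ 2 ∂μ ≤
        (C : ℝ≥0∞) * ∫⁻ x, f x ^ 2 ∂μ := by
  obtain ⟨C, hC⟩ := emb hs0 μ h 2 le_rfl
  refine ⟨C, fun α f hf => ?_⟩
  rw [lintegral_tsum]
  · refine le_trans (le_of_eq ?_) (hC α f hf)
    congr 1
    ext k
    congr 1
    ext x
    exact sq_eq μ α k _ f x
  · intro k
    exact (fun_meas α k (fun D => (ENNReal.ofReal (((2 : ℝ) ^ k) ^ s) *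
      ∫⁻ y in D, f y ∂μ) ^ 2)).aemeasurable

theorem crl3 {s : ℝ} (hs0 : 0 < s) (μ : Measure (E d)) [IsLocallyFiniteMeasure μ]
    [NullSingletonClass μ] (h : WB s μ) :
    ∃ C : ℝ≥0, ∀ (α : Fin d → Bool) (f : E d → ℝ≥0∞), Measurable f →
      ∫⁻ x, (∑' k : ℤ, (ENNReal.ofReal (((2 : ℝ) ^ k) ^ s) * ∫⁻ y in Ce α k x, f y ∂μ) ^ 2) * f x ∂μ ≤
        (C : ℝ≥0∞) * ∫⁻ x, f x ^ 3 ∂μ := by
  obtain ⟨C, hC⟩ := emb hs0 μ h 3 (by norm_num)
  refine ⟨C, fun α f hf => ?_⟩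
  simp only [← ENNReal.tsum_mul_right]
  rw [lintegral_tsum]
  · refine le_trans (le_of_eq ?_) (hC α f hf)
    congr 1
    ext k
    refine (fib μ α k (fun D => (ENNReal.ofReal (((2 : ℝ) ^ k) ^ s) * ∫⁻ y in D, f y ∂μ) ^ 2) f hf).trans ?_
    congr 1
    ext x
    rw [sq_eq μ α k _ f x]
    ring
  · intro k
    exact ((fun_meas α k (fun D => (ENNReal.ofReal (((2 : ℝ) ^ k) ^ s) *
      ∫⁻ y in D, f y ∂μ) ^ 2)).mul hf).aemeasurable

end Pool.Agent.RSF
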