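import Mathlib

/-!
# DYW: the maximal inequality for nested countable partitions

`c n : X → I` measurable, `I` countable, nested: `c (n+1) x = c (n+1) y → c n x = c n y`; `Cel c n x` is the cell of `x`.
`av c μ f n x` is the average of `f` over the cell (in `ℝ≥0∞`; it is `0` when the cell has measure `0` or `∞`).
* `weak`: `Ω_t = {x | ∃ n, t < av f n x}` is the disjoint union of the sets
  `F_n = {t < av f n x, ∀ m < n, av f m x ≤ t}`; `F_n` is a (countable, disjoint) union of cells of level `n` (all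
  conditions are constant on the cells of level `n`, by nestedness), and for each of these cells `D`:
  `t < (∫_D f) / μ D`, so `μ D ≠ ∞`, and `t μ D ≤ ∫_D f`. Sum up: `t μ(F_n) ≤ ∫_{F_n} f` and `t μ(Ω_t) ≤ ∫_{Ω_t} f`.
* `weak'`: `f ≤ f 1_{f > t/2} + t/2`, so `av f ≤ av (f 1_{f > t/2}) + t/2` (the average of the constant `t/2` is
  `≤ t/2`), and `Ω_t(f) ⊆ Ω_{t/2}(f 1_{f > t/2})`. Apply `weak`.
-/

namespace Pool.Agent.RSF

open MeasureTheory Set
open scoped ENNReal NNReal

variable {X I : Type} [MeasurableSpace X] [Countable I] [MeasurableSpace I]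
  [MeasurableSingletonClass I]

/-- The cell of level `n` of `x`. -/
def Cel (c : ℕ → X → I) (n : ℕ) (x : X) : Set X := {y | c n y = c n x}

/-- Average over the cell of level `n`. -/
noncomputable def av (c : ℕ → X → I) (μ : Measure X) (f : X → ℝ≥0∞) (n : ℕ) (x : X) : ℝ≥0∞ :=
  (∫⁻ y in Cel c n x, f y ∂μ) / μ (Cel c n x)

theorem measurableSet_Cel (c : ℕ → X → I) (hc : ∀ n, Measurable (c n)) (n : ℕ) (x : X) :
    MeasurableSet (Cel c n x) := by
  have : Cel c n x = c n ⁻¹' {c n x} := by
    ext y; simp [Cel]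
  rw [this]
  exact hc n (measurableSet_singleton _)

theorem measurable_av (c : ℕ → X → I) (hc : ∀ n, Measurable (c n)) (μ : Measure X)
    (f : X → ℝ≥0∞) (n : ℕ) : Measurable (av c μ f n) := by
  have h : av c μ f n = (fun i : I => (∫⁻ y in {y | c n y = i}, f y ∂μ) / μ {y | c n y = i}) ∘ c n := by
    funext x; rfl
  rw [h]
  exact (measurable_of_countable _).comp (hc n)

private theorem dyw_nest (c : ℕ → X → I)
    (hn : ∀ n x y, c (n + 1) x = c (n + 1) y → c n x = c n y) (n : ℕ) :
    ∀ m ≤ n, ∀ x y, c n x = c n y → c m x = c m y := by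
  induction n with
  | zero =>
    intro m hm x y h
    obtain rfl : m = 0 := by omega
    exact h
  | succ n ih =>
    intro m hm x y h
    rcases Nat.lt_or_ge n m with h1 | h1
    · obtain rfl : m = n + 1 := by omega
      exact h
    · exact ih m h1 x y (hn n x y h)

private theorem dyw_av_congr (c : ℕ → X → I) (μ : Measure X) (f : X → ℝ≥0∞) (m : ℕ) (x y : X)
    (h : c m x = c m y) : av c μ f m x = av c μ f m y := by
  simp only [av, Cel, h]

theorem weak (c : ℕ → X → I) (hc : ∀ n, Measurable (c n))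
    (hn : ∀ n x y, c (n + 1) x = c (n + 1) y → c n x = c n y) (μ : Measure X) (f : X → ℝ≥0∞)
    (hf : Measurable f) (t : ℝ≥0∞) :
    t * μ {x | ∃ n, t < av c μ f n x} ≤ ∫⁻ x, f x ∂μ := by
  classical
  let F : ℕ → Set X := fun n => {x | t < av c μ f n x ∧ ∀ m < n, av c μ f m x ≤ t}
  let K : ℕ × I → Set X := fun p => F p.1 ∩ c p.1 ⁻¹' {p.2}
  have hFm : ∀ n, MeasurableSet (F n) := by
    intro n
    have h1 : MeasurableSet {x | t < av c μ f n x} :=
      measurableSet_lt measurable_const (measurable_av c hc μ f n)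
    have h2 : MeasurableSet {x | ∀ m < n, av c μ f m x ≤ t} := by
      have : {x | ∀ m < n, av c μ f m x ≤ t} = ⋂ m, ⋂ (_ : m < n), {x | av c μ f m x ≤ t} := by
        ext x; simp
      rw [this]
      exact MeasurableSet.iInter fun m => MeasurableSet.iInter fun _ =>
        measurableSet_le (measurable_av c hc μ f m) measurable_const
    exact h1.inter h2
  have hKm : ∀ p, MeasurableSet (K p) := fun p =>
    (hFm p.1).inter (hc p.1 (measurableSet_singleton _))
  have hdisj : Pairwise (Function.onFun Disjoint K) := by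
    intro p q hpq
    refine Set.disjoint_left.2 ?_
    rintro x ⟨hx1, hx2⟩ ⟨hy1, hy2⟩
    apply hpq
    have h1 : p.1 = q.1 := by
      rcases lt_trichotomy p.1 q.1 with h | h | h
      · exact absurd hx1.1 (not_lt.2 (hy1.2 _ h))
      · exact h
      · exact absurd hy1.1 (not_lt.2 (hx1.2 _ h))
    refine Prod.ext h1 ?_
    simp only [Set.mem_preimage, Set.mem_singleton_iff] at hx2 hy2
    rw [← hx2, ← hy2, h1]
  have hU : {x | ∃ n, t < av c μ f n x} = ⋃ p, K p := by
    ext x
    simp only [Set.mem_setOf_eq, Set.mem_iUnion]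
    constructor
    · intro h
      refine ⟨(Nat.find h, c (Nat.find h) x), ⟨Nat.find_spec h, fun m hm => ?_⟩, rfl⟩
      exact not_lt.1 (Nat.find_min h hm)
    · rintro ⟨p, hp, -⟩
      exact ⟨p.1, hp.1⟩
  have hcell : ∀ p, t * μ (K p) ≤ ∫⁻ x in K p, f x ∂μ := by
    intro p
    rcases (K p).eq_empty_or_nonempty with he | ⟨x, hx⟩
    · rw [he]; simp
    · have hKe : K p = Cel c p.1 x := by
        ext y
        constructor
        · rintro ⟨-, hy⟩
          have hx2 : c p.1 x = p.2 := hx.2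
          have hy2 : c p.1 y = p.2 := hy
          show c p.1 y = c p.1 x
          rw [hx2, hy2]
        · intro hy
          have hy' : c p.1 y = c p.1 x := hy
          have hnn : ∀ m ≤ p.1, av c μ f m y = av c μ f m x := fun m hm =>
            dyw_av_congr c μ f m y x (dyw_nest c hn p.1 m hm y x hy')
          refine ⟨⟨?_, fun m hm => ?_⟩, ?_⟩
          · rw [hnn p.1 le_rfl]; exact hx.1.1
          · rw [hnn m hm.le]; exact hx.1.2 m hm
          · show c p.1 y = p.2
            rw [hy']; exact hx.2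
      rw [hKe]
      have h := hx.1.1
      exact (ENNReal.mul_lt_of_lt_div h).le
  rw [hU, measure_iUnion hdisj hKm, ← ENNReal.tsum_mul_left]
  calc ∑' p, t * μ (K p) ≤ ∑' p, ∫⁻ x in K p, f x ∂μ := ENNReal.tsum_le_tsum hcell
    _ = ∫⁻ x in ⋃ p, K p, f x ∂μ := (lintegral_iUnion hKm hdisj _).symm
    _ ≤ ∫⁻ x, f x ∂μ := setLIntegral_le_lintegral _ _

theorem weak' (c : ℕ → X → I) (hc : ∀ n, Measurable (c n))
    (hn : ∀ n x y, c (n + 1) x = c (n + 1) y → c n x = c n y) (μ : Measure X) (f : X → ℝ≥0∞)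
    (hf : Measurable f) (t : ℝ≥0∞) (ht0 : t ≠ 0) (ht : t ≠ ∞) :
    t / 2 * μ {x | ∃ n, t < av c μ f n x} ≤ ∫⁻ x in {x | t / 2 < f x}, f x ∂μ := by
  classical
  let g : X → ℝ≥0∞ := {x | t / 2 < f x}.indicator f
  have hSm : MeasurableSet {x | t / 2 < f x} := measurableSet_lt measurable_const hf
  have hg : Measurable g := hf.indicator hSm
  have hfg : ∀ x, f x ≤ g x + t / 2 := by
    intro x
    by_cases hx : t / 2 < f x
    · have : g x = f x := Set.indicator_of_mem (s := {x | t / 2 < f x}) hx f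
      rw [this]; exact le_self_add
    · exact (not_lt.1 hx).trans le_add_self
  have hav : ∀ n x, av c μ f n x ≤ av c μ g n x + t / 2 := by
    intro n x
    have h1 : ∫⁻ y in Cel c n x, f y ∂μ ≤ (∫⁻ y in Cel c n x, g y ∂μ) + t / 2 * μ (Cel c n x) := by
      calc ∫⁻ y in Cel c n x, f y ∂μ ≤ ∫⁻ y in Cel c n x, (g y + t / 2) ∂μ :=
            lintegral_mono fun y => hfg y
        _ = (∫⁻ y in Cel c n x, g y ∂μ) + ∫⁻ _ in Cel c n x, t / 2 ∂μ := lintegral_add_left hg _
        _ = _ := by rw [setLIntegral_const]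
    calc av c μ f n x ≤ ((∫⁻ y in Cel c n x, g y ∂μ) + t / 2 * μ (Cel c n x)) / μ (Cel c n x) :=
          ENNReal.div_le_div_right h1 _
      _ = av c μ g n x + (t / 2 * μ (Cel c n x)) / μ (Cel c n x) := by
          rw [ENNReal.add_div]; rfl
      _ ≤ av c μ g n x + t / 2 := by
          exact add_le_add le_rfl (ENNReal.div_le_of_le_mul le_rfl)
  have hsub : {x | ∃ n, t < av c μ f n x} ⊆ {x | ∃ n, t / 2 < av c μ g n x} := by
    rintro x ⟨n, hx⟩
    refine ⟨n, ?_⟩
    have h2 : t / 2 + t / 2 < av c μ g n x + t / 2 := by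
      rw [ENNReal.add_halves]; exact hx.trans_le (hav n x)
    exact lt_of_add_lt_add_right h2
  calc t / 2 * μ {x | ∃ n, t < av c μ f n x}
      ≤ t / 2 * μ {x | ∃ n, t / 2 < av c μ g n x} := by gcongr
    _ ≤ ∫⁻ x, g x ∂μ := weak c hc hn μ g hg (t / 2)
    _ = ∫⁻ x in {x | t / 2 < f x}, f x ∂μ := lintegral_indicator hSm f

end Pool.Agent.RSF
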