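import Mathlib

/-!
# RSF (MP_138ed6_an): Riesz transforms versus the dyadic square function for `0 < s < 1`

Definitions. `E d` is `ℝ^d`, `ker s u = ‖u‖ ^ (-(s + 1)) • u` the Riesz kernel, `kj s ψ j` its `j`-th smooth
annular piece.
-/

namespace Pool.Agent.RSF

open MeasureTheory Metric Set
open scoped ENNReal NNReal

/-- Euclidean space. -/
abbrev E (d : ℕ) := EuclideanSpace ℝ (Fin d)

variable {d : ℕ}

/-- The Riesz kernel. -/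
noncomputable def ker (s : ℝ) (u : E d) : E d := ‖u‖ ^ (-(s + 1)) • u

/-- The truncated Riesz kernel. -/
noncomputable def kh (s ε : ℝ) (u : E d) : E d := {u : E d | ε < ‖u‖}.indicator (ker s) u

/-- The smooth annular pieces of the Riesz kernel. -/
noncomputable def kj (s : ℝ) (ψ : E d → ℝ) (j : ℤ) (u : E d) : E d :=
  ((ψ ((2 : ℝ) ^ j • u) - ψ ((2 : ℝ) ^ (j + 1) • u)) * ‖u‖ ^ (-(s + 1))) • u

/-- Sum of the smooth annular pieces with `-N ≤ j ≤ n`. -/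
noncomputable def ks (s : ℝ) (ψ : E d → ℝ) (N n : ℤ) (u : E d) : E d :=
  ∑ j ∈ Finset.Icc (-N) n, kj s ψ j u

/-- The admissible bumps. -/
structure Adm (ψ : E d → ℝ) : Prop where
  smooth : ContDiff ℝ ((⊤ : ℕ∞) : WithTop ℕ∞) ψ
  mono : ∀ x y : E d, ‖x‖ ≤ ‖y‖ → ψ y ≤ ψ x
  bd : ∀ x : E d, (ball (0 : E d) (1 / 2)).indicator (fun _ => (1 : ℝ)) x ≤ ψ x ∧
    ψ x ≤ (ball (0 : E d) 2).indicator (fun _ => (1 : ℝ)) x

/-- The product of a kernel with itself, symmetrised over the three vertices of a triangle. -/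
noncomputable def sp (k : E d → E d) (x y z : E d) : ℝ :=
  inner ℝ (k (x - y)) (k (x - z)) + inner ℝ (k (y - x)) (k (y - z)) +
    inner ℝ (k (z - x)) (k (z - y))

/-- The size of a triangle, seen from `x`. -/
noncomputable def mx (x y z : E d) : ℝ := max ‖x - y‖ ‖x - z‖

/-- The truncated Wolff kernel. -/
noncomputable def om (s ε : ℝ) (x y z : E d) : ℝ := (max (mx x y z) ε) ^ (-(2 * s))

/-- Some side of the triangle has length at most `ε`. -/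
def Near (ε : ℝ) (x y z : E d) : Prop := ‖x - y‖ ≤ ε ∨ ‖x - z‖ ≤ ε ∨ ‖y - z‖ ≤ ε

open Classical in
/-- `om` on the set of triples having a short side. -/
noncomputable def on (s ε : ℝ) (x y z : E d) : ℝ := if Near ε x y z then om s ε x y z else 0

/-- The truncated Wolff energy of a measure. -/
noncomputable def U (s ε : ℝ) (ν : Measure (E d)) : ℝ≥0∞ :=
  ∫⁻ x, ∫⁻ y, ∫⁻ z, ENNReal.ofReal (om s ε x y z) ∂ν ∂ν ∂ν

/-- Growth of order `s`. -/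
def Growth (s G : ℝ) (μ : Measure (E d)) : Prop :=
  ∀ (x : E d) (r : ℝ), 0 < r → μ (closedBall x r) ≤ ENNReal.ofReal (G * r ^ s)

/-- The truncated Riesz transforms are bounded on `L²(μ)`, tested on functions with bounded support. -/
def RB0 (s : ℝ) (μ : Measure (E d)) : Prop :=
  ∃ C : ℝ≥0, ∀ ε : ℝ, 0 < ε → ∀ f : E d → ℝ, MemLp f 2 μ →
    (∃ R : ℝ, ∀ y : E d, R < ‖y‖ → f y = 0) →
      ∫⁻ x, ‖∫ y in {y : E d | ε < ‖x - y‖}, (f y * ‖x - y‖ ^ (-(s + 1))) • (x - y) ∂μ‖ₑ ^ 2 ∂μ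
        ≤ (C : ℝ≥0∞) * ∫⁻ x, ‖f x‖ₑ ^ 2 ∂μ

/-- The truncated Riesz transforms are bounded on `L²(μ)`; the integrals converge. -/
def RB (s : ℝ) (μ : Measure (E d)) : Prop :=
  (∀ ε : ℝ, 0 < ε → ∀ f : E d → ℝ, MemLp f 2 μ → ∀ x : E d,
    IntegrableOn (fun y => (f y * ‖x - y‖ ^ (-(s + 1))) • (x - y)) {y : E d | ε < ‖x - y‖} μ) ∧
  ∃ C : ℝ≥0, ∀ ε : ℝ, 0 < ε → ∀ f : E d → ℝ, MemLp f 2 μ →
      ∫⁻ x, ‖∫ y in {y : E d | ε < ‖x - y‖}, (f y * ‖x - y‖ ^ (-(s + 1))) • (x - y) ∂μ‖ₑ ^ 2 ∂μ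
        ≤ (C : ℝ≥0∞) * ∫⁻ x, ‖f x‖ₑ ^ 2 ∂μ

/-- The dyadic square function is bounded on `L²(μ)`. -/
def QB (s : ℝ) (ψ : E d → ℝ) (μ : Measure (E d)) : Prop :=
  ∃ C : ℝ≥0, ∀ f : E d → ℝ, MemLp f 2 μ →
    ∫⁻ x, ∑' j : ℤ, ‖∫ y, (f y * (ψ ((2 : ℝ) ^ j • (x - y)) - ψ ((2 : ℝ) ^ (j + 1) • (x - y)))
        * ‖x - y‖ ^ (-(s + 1))) • (x - y) ∂μ‖ₑ ^ 2 ∂μ
      ≤ (C : ℝ≥0∞) * ∫⁻ x, ‖f x‖ₑ ^ 2 ∂μ

/-- The Wolff energy condition. -/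
def WB (s : ℝ) (μ : Measure (E d)) : Prop :=
  ∃ C : ℝ≥0, ∀ A : Set (E d), MeasurableSet A →
    ∫⁻ x in A, ∫⁻ y in A, ∫⁻ z in A, ENNReal.ofReal (mx x y z ^ (-(2 * s))) ∂μ ∂μ ∂μ
      ≤ (C : ℝ≥0∞) * μ A

end Pool.Agent.RSF
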