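import Pool.Agent.RSF.CRL

/-!
# EM3: the trilinear Wolff form is bounded on `L³`

POINTWISE: for `m = mx x y z > 0` choose `k : ℤ` with `2^(-k) / 12 < m ≤ 2^(-k) / 6` (`exists_mem_Ioc_zpow`); by `cl_cover` there is
`α` with `y, z ∈ Ce α k x`, and `m^(-2s) ≤ (12 * 2^k)^(2s) = 12^(2s) ((2^k)^s)²`. So
`m^(-2s) ≤ 12^(2s) ∑_α ∑_k ((2^k)^s)² 1[y ∈ Ce α k x] 1[z ∈ Ce α k x]`; for `m = 0` the left side is `0^(-2s) = 0`.
Integrate against `f(y) f(z) f(x)`: `∫∫∫ ≤ 12^(2s) ∑_α ∫ (∑_k ((2^k)^s ∫_{Ce α k x} f)²) f(x) dμ(x)`, and `crl3`, with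
`2^d` grids.
-/

namespace Pool.Agent.RSF

open MeasureTheory Metric Set
open scoped ENNReal NNReal

variable {d : ℕ}

private lemma EM3_pt {s : ℝ} (hs0 : 0 < s) (x y z : E d) :
    ENNReal.ofReal (mx x y z ^ (-(2 * s))) ≤ ENNReal.ofReal ((12 : ℝ) ^ (2 * s)) *
      ∑ α : Fin d → Bool, ∑' k : ℤ, (ENNReal.ofReal (((2 : ℝ) ^ k) ^ s)) ^ 2 *
        ((Ce α k x).indicator (fun _ => (1 : ℝ≥0∞)) y *
          (Ce α k x).indicator (fun _ => (1 : ℝ≥0∞)) z) := by
  have hm0 : 0 ≤ mx x y z := le_trans (norm_nonneg _) (le_max_left _ _)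
  rcases hm0.eq_or_lt with hm | hm
  · rw [← hm, Real.zero_rpow (by linarith), ENNReal.ofReal_zero]
    exact zero_le
  obtain ⟨n, hn1, hn2⟩ := exists_mem_Ioc_zpow (show 0 < 6 * mx x y z by linarith)
    (show (1 : ℝ) < 2 by norm_num)
  obtain ⟨k, hk⟩ : ∃ k : ℤ, k = -(n + 1) := ⟨_, rfl⟩
  have hk' : -k = n + 1 := by omega
  obtain ⟨α, hα⟩ := cl_cover k x
  have hy : y ∈ Ce α k x := by
    refine hα y ?_
    have h1 : ‖x - y‖ ≤ mx x y z := le_max_left _ _
    rw [hk']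
    linarith
  have hz : z ∈ Ce α k x := by
    refine hα z ?_
    have h1 : ‖x - z‖ ≤ mx x y z := le_max_right _ _
    rw [hk']
    linarith
  have hreal : mx x y z ^ (-(2 * s)) ≤ (12 : ℝ) ^ (2 * s) * (((2 : ℝ) ^ k) ^ s) ^ 2 := by
    have h2k : (0 : ℝ) < (2 : ℝ) ^ k := by positivity
    have h3 : (((2 : ℝ) ^ k) ^ s) ^ 2 = ((2 : ℝ) ^ k) ^ (2 * s) := by
      rw [← Real.rpow_natCast, ← Real.rpow_mul h2k.le]
      congr 1
      push_cast
      ring
    rw [h3, ← Real.mul_rpow (by norm_num) h2k.le, Real.rpow_neg hm0, ← Real.inv_rpow hm0]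
    refine Real.rpow_le_rpow (inv_nonneg.2 hm0) ?_ (by linarith)
    rw [inv_le_iff_one_le_mul₀ hm]
    have h4 : (2 : ℝ) ^ k * (2 : ℝ) ^ (n + 1) = 1 := by
      rw [← zpow_add₀ (by norm_num), hk]
      simp
    have h5 : (2 : ℝ) ^ (n + 1) = 2 ^ n * 2 := by
      rw [zpow_add₀ (by norm_num), zpow_one]
    have h6 : (2 : ℝ) ^ (n + 1) ≤ 12 * mx x y z := by
      rw [h5]
      linarith
    calc (1 : ℝ) = (2 : ℝ) ^ k * (2 : ℝ) ^ (n + 1) := h4.symm
      _ ≤ (2 : ℝ) ^ k * (12 * mx x y z) := mul_le_mul_of_nonneg_left h6 h2k.le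
      _ = 12 * 2 ^ k * mx x y z := by ring
  calc ENNReal.ofReal (mx x y z ^ (-(2 * s)))
      ≤ ENNReal.ofReal ((12 : ℝ) ^ (2 * s) * (((2 : ℝ) ^ k) ^ s) ^ 2) :=
        ENNReal.ofReal_le_ofReal hreal
    _ = ENNReal.ofReal ((12 : ℝ) ^ (2 * s)) * ((ENNReal.ofReal (((2 : ℝ) ^ k) ^ s)) ^ 2 *
        ((Ce α k x).indicator (fun _ => (1 : ℝ≥0∞)) y *
          (Ce α k x).indicator (fun _ => (1 : ℝ≥0∞)) z)) := by
        rw [ENNReal.ofReal_mul (by positivity), ENNReal.ofReal_pow (by positivity),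
          indicator_of_mem hy, indicator_of_mem hz, mul_one, mul_one]
    _ ≤ _ := by
        gcongr
        refine le_trans ?_ (Finset.single_le_sum (f := fun α : Fin d → Bool =>
          ∑' k : ℤ, (ENNReal.ofReal (((2 : ℝ) ^ k) ^ s)) ^ 2 *
            ((Ce α k x).indicator (fun _ => (1 : ℝ≥0∞)) y *
              (Ce α k x).indicator (fun _ => (1 : ℝ≥0∞)) z)) (fun _ _ => zero_le)
            (Finset.mem_univ α))
        exact ENNReal.le_tsum (f := fun k : ℤ => (ENNReal.ofReal (((2 : ℝ) ^ k) ^ s)) ^ 2 *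
            ((Ce α k x).indicator (fun _ => (1 : ℝ≥0∞)) y *
              (Ce α k x).indicator (fun _ => (1 : ℝ≥0∞)) z)) k

private lemma EM3_mCe (α : Fin d → Bool) (k : ℤ) (x : E d) : MeasurableSet (Ce α k x) :=
  measurable_cl α k (measurableSet_singleton (cl α k x))

private lemma EM3_mI (α : Fin d → Bool) (k : ℤ) (μ : Measure (E d)) (f : E d → ℝ≥0∞) :
    Measurable (fun x => ∫⁻ y in Ce α k x, f y ∂μ) := by
  have h : Measurable (fun i : Fin d → ℤ => ∫⁻ y in {y | cl α k y = i}, f y ∂μ) :=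
    Measurable.of_discrete
  exact h.comp (measurable_cl α k)

theorem em3 {s : ℝ} (hs0 : 0 < s) (μ : Measure (E d)) [IsLocallyFiniteMeasure μ]
    [NullSingletonClass μ] (h : WB s μ) :
    ∃ C : ℝ≥0, ∀ f : E d → ℝ≥0∞, Measurable f →
      ∫⁻ x, ∫⁻ y, ∫⁻ z, ENNReal.ofReal (mx x y z ^ (-(2 * s))) * (f x * f y * f z) ∂μ ∂μ ∂μ ≤
        (C : ℝ≥0∞) * ∫⁻ x, f x ^ 3 ∂μ := by
  obtain ⟨C₃, hC⟩ := crl3 hs0 μ h
  refine ⟨Real.toNNReal ((12 : ℝ) ^ (2 * s)) * (Fintype.card (Fin d → Bool) * C₃), fun f hf => ?_⟩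
  have hG : ∀ (α : Fin d → Bool) (k : ℤ) (x : E d), Measurable ((Ce α k x).indicator f) :=
    fun α k x => hf.indicator (EM3_mCe α k x)
  have hin : ∀ x : E d, ∫⁻ y, ∫⁻ z, ENNReal.ofReal (mx x y z ^ (-(2 * s))) *
      (f x * f y * f z) ∂μ ∂μ ≤ ENNReal.ofReal ((12 : ℝ) ^ (2 * s)) * ∑ α : Fin d → Bool,
        (∑' k : ℤ, (ENNReal.ofReal (((2 : ℝ) ^ k) ^ s) * ∫⁻ y in Ce α k x, f y ∂μ) ^ 2) * f x := by
    intro x
    have hp : ∀ y z : E d, ENNReal.ofReal (mx x y z ^ (-(2 * s))) * (f x * f y * f z) ≤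
        ∑ α : Fin d → Bool, ∑' k : ℤ, (ENNReal.ofReal ((12 : ℝ) ^ (2 * s)) *
          (ENNReal.ofReal (((2 : ℝ) ^ k) ^ s)) ^ 2 * f x) *
            ((Ce α k x).indicator f y * (Ce α k x).indicator f z) := by
      intro y z
      refine (mul_le_mul_left (EM3_pt hs0 x y z) _).trans (le_of_eq ?_)
      rw [mul_assoc, Finset.sum_mul, Finset.mul_sum]
      refine Finset.sum_congr rfl fun α _ => ?_
      rw [← ENNReal.tsum_mul_right, ← ENNReal.tsum_mul_left]
      refine tsum_congr fun k => ?_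
      have hi : ∀ w : E d, (Ce α k x).indicator f w =
          (Ce α k x).indicator (fun _ => (1 : ℝ≥0∞)) w * f w := by
        intro w
        by_cases hw : w ∈ Ce α k x
        · rw [indicator_of_mem hw, indicator_of_mem hw, one_mul]
        · rw [indicator_of_notMem hw, indicator_of_notMem hw, zero_mul]
      rw [hi y, hi z]
      ring
    refine (lintegral_mono fun y => lintegral_mono fun z => hp y z).trans (le_of_eq ?_)
    have hz : ∀ y : E d, ∫⁻ z, ∑ α : Fin d → Bool, ∑' k : ℤ,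
        (ENNReal.ofReal ((12 : ℝ) ^ (2 * s)) * (ENNReal.ofReal (((2 : ℝ) ^ k) ^ s)) ^ 2 * f x) *
            ((Ce α k x).indicator f y * (Ce α k x).indicator f z) ∂μ =
        ∑ α : Fin d → Bool, ∑' k : ℤ,
          (ENNReal.ofReal ((12 : ℝ) ^ (2 * s)) * (ENNReal.ofReal (((2 : ℝ) ^ k) ^ s)) ^ 2 * f x) *
            ((Ce α k x).indicator f y * ∫⁻ z in Ce α k x, f z ∂μ) := by
      intro y
      rw [lintegral_finsetSum _ (fun α _ => Measurable.ennreal_tsum fun k =>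
        ((hG α k x).const_mul _).const_mul _)]
      refine Finset.sum_congr rfl fun α _ => ?_
      rw [lintegral_tsum (fun k => (((hG α k x).const_mul _).const_mul _).aemeasurable)]
      refine tsum_congr fun k => ?_
      rw [lintegral_const_mul _ ((hG α k x).const_mul _), lintegral_const_mul _ (hG α k x),
        lintegral_indicator (EM3_mCe α k x)]
    simp_rw [hz]
    rw [lintegral_finsetSum _ (fun α _ => Measurable.ennreal_tsum fun k =>
        ((hG α k x).mul_const _).const_mul _), Finset.mul_sum]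
    refine Finset.sum_congr rfl fun α _ => ?_
    rw [lintegral_tsum (fun k => (((hG α k x).mul_const _).const_mul _).aemeasurable),
      ← ENNReal.tsum_mul_right, ← ENNReal.tsum_mul_left]
    refine tsum_congr fun k => ?_
    rw [lintegral_const_mul _ ((hG α k x).mul_const _), lintegral_mul_const _ (hG α k x),
        lintegral_indicator (EM3_mCe α k x)]
    ring
  refine (lintegral_mono hin).trans ?_
  rw [lintegral_const_mul' _ _ ENNReal.ofReal_ne_top, lintegral_finsetSum]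
  · refine (mul_le_mul_right (Finset.sum_le_sum fun α _ => hC α f hf) _).trans (le_of_eq ?_)
    rw [Finset.sum_const, Finset.card_univ, nsmul_eq_mul, ENNReal.coe_mul, ENNReal.coe_mul,
      ENNReal.coe_natCast]
    rw [show ((Real.toNNReal ((12 : ℝ) ^ (2 * s)) : ℝ≥0) : ℝ≥0∞) =
      ENNReal.ofReal ((12 : ℝ) ^ (2 * s)) from rfl]
    ring
  · intro α _
    exact (Measurable.ennreal_tsum fun k => ((EM3_mI α k μ f).const_mul _).pow_const 2).mul hf

end Pool.Agent.RSF
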