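import Pool.Agent.RSF.PKE

/-!
# KJP: properties of the smooth annular pieces

* `Adm`: `ψ = 1` on `ball 0 (1/2)` (both bounds), `ψ = 0` if `2 ≤ ‖u‖` (both bounds), `0 ≤ ψ ≤ 1`,
  `ψ (-u) = ψ u` (`mono` twice).
* scaling: `kj s ψ j u = ((2:ℝ)^j) ^ s • kj s ψ 0 ((2:ℝ)^j • u)` (`‖(2^j) • u‖ = 2^j ‖u‖`, `Real.mul_rpow`).
* `kj s ψ 0 u = ((ψ u - ψ (2 • u)) * ‖u‖ ^ (-(s+1))) • u` is `0` for `‖u‖ < 1/4` (both `ψ` are `1`) and for
  `2 ≤ ‖u‖`, and smooth for `u ≠ 0`, hence continuously differentiable (`contDiff_iff_contDiffAt`: near a point of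
  `ball 0 (1/4)` it is locally `0`; elsewhere `‖u‖ ^ p` is smooth) with compact support; hence bounded and
  Lipschitz (`ContDiff.lipschitzWith_of_hasCompactSupport`). So all bounds follow with one constant `C₀`.
* `ks_eq`: telescoping sum (`Finset.sum_Icc...` or induction on `n`; e.g. write `n = -N + m`, induct on `m : ℕ`).
-/

namespace Pool.Agent.RSF

open MeasureTheory Metric Set
open scoped ENNReal NNReal

variable {d : ℕ}

theorem Adm.eq_one {ψ : E d → ℝ} (hψ : Adm ψ) {u : E d} (hu : ‖u‖ < 1 / 2) : ψ u = 1 := by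
  obtain ⟨h1, h2⟩ := hψ.bd u
  have m1 : u ∈ ball (0 : E d) (1 / 2) := by rwa [mem_ball_zero_iff]
  have m2 : u ∈ ball (0 : E d) 2 := by rw [mem_ball_zero_iff]; linarith
  rw [indicator_of_mem m1] at h1
  rw [indicator_of_mem m2] at h2
  exact le_antisymm h2 h1

theorem Adm.nonneg {ψ : E d → ℝ} (hψ : Adm ψ) (u : E d) : 0 ≤ ψ u :=
  (indicator_nonneg (fun _ _ => zero_le_one) u).trans (hψ.bd u).1

theorem Adm.le_one {ψ : E d → ℝ} (hψ : Adm ψ) (u : E d) : ψ u ≤ 1 :=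
  (hψ.bd u).2.trans (indicator_le_self' (fun _ _ => zero_le_one) u)

theorem Adm.eq_zero {ψ : E d → ℝ} (hψ : Adm ψ) {u : E d} (hu : 2 ≤ ‖u‖) : ψ u = 0 := by
  have h2 := (hψ.bd u).2
  have m2 : u ∉ ball (0 : E d) 2 := by rw [mem_ball_zero_iff]; linarith
  rw [indicator_of_notMem m2] at h2
  exact le_antisymm h2 (hψ.nonneg u)

private theorem KJP_neg {ψ : E d → ℝ} (hψ : Adm ψ) (c : ℝ) (u : E d) :
    ψ (c • (-u)) = ψ (c • u) := by
  have h : ‖c • (-u)‖ = ‖c • u‖ := by rw [norm_smul, norm_smul, norm_neg]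
  exact le_antisymm (hψ.mono _ _ h.ge) (hψ.mono _ _ h.le)

private theorem KJP_norm (j : ℤ) (u : E d) : ‖(2 : ℝ) ^ j • u‖ = (2 : ℝ) ^ j * ‖u‖ := by
  rw [norm_smul, Real.norm_eq_abs, abs_of_pos (zpow_pos two_pos j)]

theorem kj_neg (s : ℝ) {ψ : E d → ℝ} (hψ : Adm ψ) (j : ℤ) (u : E d) :
    kj s ψ j (-u) = -kj s ψ j u := by
  unfold kj
  rw [KJP_neg hψ, KJP_neg hψ, norm_neg, smul_neg]

theorem kj_zero (s : ℝ) {ψ : E d → ℝ} (hψ : Adm ψ) (j : ℤ) (u : E d)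
    (hu : 2 * (2 : ℝ) ^ (-j) ≤ ‖u‖) : kj s ψ j u = 0 := by
  have hj : 0 < (2 : ℝ) ^ j := zpow_pos two_pos j
  have h1 : 2 ≤ (2 : ℝ) ^ j * ‖u‖ := by
    calc (2 : ℝ) = (2 : ℝ) ^ j * (2 * (2 : ℝ) ^ (-j)) := by
          rw [zpow_neg]
          field_simp
      _ ≤ (2 : ℝ) ^ j * ‖u‖ := mul_le_mul_of_nonneg_left hu hj.le
  have h2 : 2 ≤ (2 : ℝ) ^ (j + 1) * ‖u‖ := by
    rw [zpow_add₀ two_ne_zero, zpow_one]
    linarith
  unfold kj
  rw [hψ.eq_zero (u := (2 : ℝ) ^ j • u) (by rw [KJP_norm]; exact h1),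
    hψ.eq_zero (u := (2 : ℝ) ^ (j + 1) • u) (by rw [KJP_norm]; exact h2)]
  simp

private theorem KJP_scale (s : ℝ) (ψ : E d → ℝ) (j : ℤ) (u : E d) :
    kj s ψ j u = ((2 : ℝ) ^ j) ^ s • kj s ψ 0 ((2 : ℝ) ^ j • u) := by
  have hj : 0 < (2 : ℝ) ^ j := zpow_pos two_pos j
  unfold kj
  rw [KJP_norm, Real.mul_rpow hj.le (norm_nonneg u), zpow_zero, one_smul, zero_add, zpow_one,
    smul_smul, smul_smul, smul_smul]
  have e1 : (2 : ℝ) ^ (j + 1) = 2 * (2 : ℝ) ^ j := by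
    rw [zpow_add₀ two_ne_zero, zpow_one]; ring
  rw [e1]
  congr 1
  have e2 : ((2 : ℝ) ^ j) ^ s * ((2 : ℝ) ^ j) ^ (-(s + 1)) * (2 : ℝ) ^ j = 1 := by
    rw [← Real.rpow_add hj]
    have : s + -(s + 1) = -1 := by ring
    rw [this, Real.rpow_neg_one]
    exact inv_mul_cancel₀ hj.ne'
  calc (ψ ((2 : ℝ) ^ j • u) - ψ ((2 * (2 : ℝ) ^ j) • u)) * ‖u‖ ^ (-(s + 1))
      = (ψ ((2 : ℝ) ^ j • u) - ψ ((2 * (2 : ℝ) ^ j) • u)) * ‖u‖ ^ (-(s + 1)) *
        (((2 : ℝ) ^ j) ^ s * ((2 : ℝ) ^ j) ^ (-(s + 1)) * (2 : ℝ) ^ j) := by rw [e2, mul_one]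
    _ = _ := by ring

private theorem KJP_contDiff (s : ℝ) {ψ : E d → ℝ} (hψ : Adm ψ) :
    ContDiff ℝ 1 (kj s ψ 0) := by
  rw [contDiff_iff_contDiffAt]
  intro u
  by_cases hu : ‖u‖ < 1 / 4
  · have h1 : kj s ψ 0 =ᶠ[nhds u] fun _ => (0 : E d) := by
      have h2 : {w : E d | ‖w‖ < 1 / 4} ∈ nhds u :=
        (isOpen_lt continuous_norm continuous_const).mem_nhds hu
      filter_upwards [h2] with w hw
      have hw' : ‖w‖ < 1 / 4 := hw
      unfold kj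
      rw [hψ.eq_one (u := (2 : ℝ) ^ (0 : ℤ) • w) (by rw [KJP_norm, zpow_zero]; linarith),
        hψ.eq_one (u := (2 : ℝ) ^ ((0 : ℤ) + 1) • w) (by
          rw [KJP_norm, zero_add, zpow_one]; linarith)]
      simp
    exact contDiffAt_const.congr_of_eventuallyEq h1
  · have hu0 : u ≠ 0 := by
      rintro rfl
      rw [norm_zero] at hu
      norm_num at hu
    have hψ1 : ContDiff ℝ 1 ψ := hψ.smooth.of_le (by exact_mod_cast le_top)
    have h1 : ContDiffAt ℝ 1 (fun w : E d => ‖w‖ ^ (-(s + 1))) u :=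
      (contDiffAt_norm ℝ hu0).rpow_const_of_ne (norm_ne_zero_iff.2 hu0)
    unfold kj
    exact (((hψ1.comp (contDiff_const_smul _)).contDiffAt.sub
      (hψ1.comp (contDiff_const_smul _)).contDiffAt).mul h1).smul contDiffAt_id

private theorem KJP_supp (s : ℝ) {ψ : E d → ℝ} (hψ : Adm ψ) :
    HasCompactSupport (kj s ψ 0) := by
  refine HasCompactSupport.intro (isCompact_closedBall (0 : E d) 2) ?_
  intro u hu
  apply kj_zero s hψ
  rw [mem_closedBall_zero_iff, not_le] at hu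
  rw [neg_zero, zpow_zero, mul_one]
  exact hu.le

/-- One constant for all sizes and Lipschitz constants. -/
theorem kj_bounds {s : ℝ} (hs0 : 0 < s) {ψ : E d → ℝ} (hψ : Adm ψ) :
    ∃ C₀ : ℝ, 1 ≤ C₀ ∧ (∀ (j : ℤ) (u : E d), ‖kj s ψ j u‖ ≤ C₀ * ((2 : ℝ) ^ j) ^ s) ∧
      ∀ (j : ℤ) (u v : E d), ‖kj s ψ j u - kj s ψ j v‖ ≤ C₀ * ((2 : ℝ) ^ j) ^ (s + 1) * ‖u - v‖ := by
  obtain ⟨B, hB⟩ := (KJP_supp s hψ).exists_bound_of_continuous (KJP_contDiff s hψ).continuous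
  obtain ⟨L, hL⟩ := (KJP_contDiff s hψ).lipschitzWith_of_hasCompactSupport (KJP_supp s hψ)
    one_ne_zero
  refine ⟨max 1 (max B L), le_max_left _ _, ?_, ?_⟩
  · intro j u
    have hj : 0 < (2 : ℝ) ^ j := zpow_pos two_pos j
    have hjs : 0 < ((2 : ℝ) ^ j) ^ s := Real.rpow_pos_of_pos hj s
    rw [KJP_scale, norm_smul, Real.norm_eq_abs, abs_of_pos hjs, mul_comm]
    exact mul_le_mul_of_nonneg_right ((hB _).trans ((le_max_left _ _).trans (le_max_right _ _)))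
      hjs.le
  · intro j u v
    have hj : 0 < (2 : ℝ) ^ j := zpow_pos two_pos j
    have hjs : 0 < ((2 : ℝ) ^ j) ^ s := Real.rpow_pos_of_pos hj s
    rw [KJP_scale s ψ j u, KJP_scale s ψ j v, ← smul_sub, norm_smul, Real.norm_eq_abs,
      abs_of_pos hjs]
    have h1 : ‖kj s ψ 0 ((2 : ℝ) ^ j • u) - kj s ψ 0 ((2 : ℝ) ^ j • v)‖ ≤
        L * ((2 : ℝ) ^ j * ‖u - v‖) := by
      have h2 := hL.norm_sub_le ((2 : ℝ) ^ j • u) ((2 : ℝ) ^ j • v)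
      rwa [← smul_sub, KJP_norm] at h2
    have h3 : (L : ℝ) ≤ max 1 (max B L) := (le_max_right _ _).trans (le_max_right _ _)
    calc ((2 : ℝ) ^ j) ^ s * ‖kj s ψ 0 ((2 : ℝ) ^ j • u) - kj s ψ 0 ((2 : ℝ) ^ j • v)‖
        ≤ ((2 : ℝ) ^ j) ^ s * (L * ((2 : ℝ) ^ j * ‖u - v‖)) :=
          mul_le_mul_of_nonneg_left h1 hjs.le
      _ = L * (((2 : ℝ) ^ j) ^ s * (2 : ℝ) ^ j * ‖u - v‖) := by ring
      _ ≤ max 1 (max B L) * (((2 : ℝ) ^ j) ^ s * (2 : ℝ) ^ j * ‖u - v‖) :=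
          mul_le_mul_of_nonneg_right h3 (by positivity)
      _ = max 1 (max B L) * ((2 : ℝ) ^ j) ^ (s + 1) * ‖u - v‖ := by
          rw [Real.rpow_add_one hj.ne']
          ring

theorem continuous_kj {s : ℝ} (hs0 : 0 < s) {ψ : E d → ℝ} (hψ : Adm ψ) (j : ℤ) :
    Continuous (kj s ψ j) := by
  have h : kj s ψ j = fun u => ((2 : ℝ) ^ j) ^ s • kj s ψ 0 ((2 : ℝ) ^ j • u) := by
    funext u
    exact KJP_scale s ψ j u
  rw [h]
  have h1 : Continuous (fun u : E d => (2 : ℝ) ^ j • u) := continuous_const_smul _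
  exact ((KJP_contDiff s hψ).continuous.comp h1).const_smul (((2 : ℝ) ^ j) ^ s)

theorem ks_eq (s : ℝ) (ψ : E d → ℝ) {N n : ℤ} (h : -N ≤ n) (u : E d) :
    ks s ψ N n u = (ψ ((2 : ℝ) ^ (-N) • u) - ψ ((2 : ℝ) ^ (n + 1) • u)) • ker s u := by
  have hk : ∀ j : ℤ, kj s ψ j u =
      (ψ ((2 : ℝ) ^ j • u) - ψ ((2 : ℝ) ^ (j + 1) • u)) • ker s u := by
    intro j
    unfold kj ker
    rw [smul_smul]
  induction n, h using Int.leInduction with
  | base =>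
    unfold ks
    rw [Finset.Icc_self, Finset.sum_singleton, hk]
  | succ n hn ih =>
    have e : Finset.Icc (-N) (n + 1) = insert (n + 1) (Finset.Icc (-N) n) := by
      ext x
      simp only [Finset.mem_Icc, Finset.mem_insert]
      omega
    have hni : n + 1 ∉ Finset.Icc (-N) n := by
      simp only [Finset.mem_Icc]
      omega
    unfold ks at ih ⊢
    rw [e, Finset.sum_insert hni, ih, hk, ← add_smul]
    congr 1
    ring

/-- The sum of the pieces is the kernel on an annulus. -/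
theorem ks_eq_ker (s : ℝ) {ψ : E d → ℝ} (hψ : Adm ψ) {N n : ℤ} (h : -N ≤ n) (u : E d)
    (h1 : ‖u‖ < (2 : ℝ) ^ (N - 1)) (h2 : (2 : ℝ) ^ (-n) ≤ ‖u‖) : ks s ψ N n u = ker s u := by
  rw [ks_eq s ψ h, hψ.eq_one (u := (2 : ℝ) ^ (-N) • u), hψ.eq_zero (u := (2 : ℝ) ^ (n + 1) • u),
    sub_zero, one_smul]
  · rw [KJP_norm]
    calc (2 : ℝ) = (2 : ℝ) ^ (n + 1) * (2 : ℝ) ^ (-n) := by
          rw [← zpow_add₀ two_ne_zero]
          have : n + 1 + -n = 1 := by ring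
          rw [this, zpow_one]
      _ ≤ (2 : ℝ) ^ (n + 1) * ‖u‖ := mul_le_mul_of_nonneg_left h2 (zpow_pos two_pos _).le
  · rw [KJP_norm]
    calc (2 : ℝ) ^ (-N) * ‖u‖ < (2 : ℝ) ^ (-N) * (2 : ℝ) ^ (N - 1) :=
          mul_lt_mul_of_pos_left h1 (zpow_pos two_pos _)
      _ = 1 / 2 := by
          rw [← zpow_add₀ two_ne_zero]
          have : -N + (N - 1) = -1 := by ring
          rw [this, zpow_neg_one]
          norm_num

end Pool.Agent.RSF
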