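import Pool.Agent.RSF.GRR
import Pool.Agent.RSF.KJP

/-!
# GRQ: a bounded square function gives growth

Let `10 r ≤ ‖p - q‖ ≤ 100 r`. For `x ∈ closedBall p r`, `y ∈ closedBall q r`: `8 r ≤ ‖x - y‖ ≤ 102 r`. Let `n` be the
integer with `2^(-n) ≤ 8 r < 2 * 2^(-n)` and `N = -n + 6`, so that `2^(N-1) = 32 * 2^(-n) > 128 r > 102 r`. Hence
`ks s ψ N n (x - y) = ker s (x - y)` (`ks_eq_ker`), i.e. `∑_{j ∈ Icc (-N) n} kj = ker` there, a sum of
`n + N + 1 = 7` terms. With `f = indicator of closedBall q r`: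
`‖∫_{B_q} ker s (x - y) dμ‖² = ‖∑_j R_j f(x)‖² ≤ 7 ∑_j ‖R_j f(x)‖² ≤ 7 ∑'_j ‖R_j f(x)‖²`
(the functions `kj` are bounded and continuous, so everything is integrable on the ball). By `dir_low`
`(c r^(-s) μ(B_q))² μ(B_p) ≤ 7 C μ(B_q)`. Conclude with `growth_of_pairs`.
-/

namespace Pool.Agent.RSF

open MeasureTheory Metric Set
open scoped ENNReal NNReal

variable {d : ℕ}

theorem growth_of_QB {s : ℝ} (hs0 : 0 < s) {ψ : E d → ℝ} (hψ : Adm ψ) (μ : Measure (E d))
    [IsLocallyFiniteMeasure μ] [NullSingletonClass μ] (h : QB s ψ μ) : ∃ G : ℝ, 0 < G ∧ Growth s G μ := by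
  obtain ⟨C, hC⟩ := h
  obtain ⟨c, hc, hdir⟩ := dir_low hs0
  refine growth_of_pairs hs0 μ (7 * C * (c ^ 2)⁻¹) (by positivity) ?_
  intro p q r hr h10 h100
  have hBq : μ (closedBall q r) < ∞ := (isCompact_closedBall q r).measure_lt_top
  obtain ⟨m, hm1, hm2⟩ := exists_mem_Ico_zpow (x := 8 * r) (y := (2 : ℝ)) (by positivity)
    (by norm_num)
  have hm3 : (2 : ℝ) ^ (m + 6 - 1) > 128 * r := by
    have e : (2 : ℝ) ^ (m + 6 - 1) = 16 * 2 ^ (m + 1) := by
      have : m + 6 - 1 = 4 + (m + 1) := by ring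
      rw [this, zpow_add₀ (by norm_num)]
      norm_num
    rw [e]
    linarith
  set f : E d → ℝ := (closedBall q r).indicator (fun _ => (1 : ℝ)) with hf
  have hfm : MemLp f 2 μ :=
    memLp_indicator_const 2 measurableSet_closedBall 1 (Or.inr hBq.ne)
  have hmain := hC f hfm
  have hf2 : ∫⁻ x, ‖f x‖ₑ ^ 2 ∂μ = μ (closedBall q r) := by
    have e : ∀ x, ‖f x‖ₑ ^ 2 = (closedBall q r).indicator (fun _ => (1 : ℝ≥0∞)) x := by
      intro x
      by_cases hx : x ∈ closedBall q r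
      · rw [hf, indicator_of_mem hx, indicator_of_mem hx]
        simp
      · rw [hf, indicator_of_notMem hx, indicator_of_notMem hx]
        simp
    rw [lintegral_congr e, lintegral_indicator_const measurableSet_closedBall, one_mul]
  rw [hf2] at hmain
  set v : E d → ℤ → E d := fun x j => ∫ y, (f y * (ψ ((2 : ℝ) ^ j • (x - y))
    - ψ ((2 : ℝ) ^ (j + 1) • (x - y))) * ‖x - y‖ ^ (-(s + 1))) • (x - y) ∂μ with hv
  have hvj : ∀ x j, v x j = ∫ y in closedBall q r, kj s ψ j (x - y) ∂μ := by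
    intro x j
    rw [hv, ← integral_indicator measurableSet_closedBall]
    refine integral_congr_ae (Filter.Eventually.of_forall fun y => ?_)
    show (f y * (ψ ((2 : ℝ) ^ j • (x - y)) - ψ ((2 : ℝ) ^ (j + 1) • (x - y)))
      * ‖x - y‖ ^ (-(s + 1))) • (x - y) = (closedBall q r).indicator
        (fun y => kj s ψ j (x - y)) y
    by_cases hy : y ∈ closedBall q r
    · rw [hf, indicator_of_mem hy, indicator_of_mem hy, one_mul]
      rfl
    · rw [hf, indicator_of_notMem hy, indicator_of_notMem hy, zero_mul, zero_mul, zero_smul]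
  set S : Finset ℤ := Finset.Icc (-(m + 6)) (-m) with hS
  have hScard : S.card = 7 := by
    rw [hS, Int.card_Icc]
    have : -m + 1 - -(m + 6) = 7 := by ring
    rw [this]
    rfl
  have hpt : ∀ x ∈ closedBall p r, (ENNReal.ofReal (c * r ^ (-s)) * μ (closedBall q r)) ^ 2 ≤
      7 * ∑' j : ℤ, ‖v x j‖ₑ ^ 2 := by
    intro x hx
    have h1 := hdir d μ p q r hr h10 h100 hBq x hx
    have hker : ∫ y in closedBall q r, ker s (x - y) ∂μ = ∑ j ∈ S, v x j := by
      have e1 : ∀ y ∈ closedBall q r, ker s (x - y) = ∑ j ∈ S, kj s ψ j (x - y) := by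
        intro y hy
        have hxp : ‖x - p‖ ≤ r := by rw [← dist_eq_norm]; exact hx
        have hyq : ‖y - q‖ ≤ r := by rw [← dist_eq_norm]; exact hy
        have e2 : x - y = (x - p) + (p - q) - (y - q) := by abel
        have u1 : ‖x - y‖ ≤ 102 * r := by
          rw [e2]
          have a1 := norm_sub_le (x - p + (p - q)) (y - q)
          have a2 := norm_add_le (x - p) (p - q)
          linarith
        have u2 : 8 * r ≤ ‖x - y‖ := by
          have e3 : p - q = (x - y) - (x - p) + (y - q) := by abel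
          have a1 := norm_add_le (x - y - (x - p)) (y - q)
          have a2 := norm_sub_le (x - y) (x - p)
          rw [← e3] at a1
          linarith
        have h2 := ks_eq_ker s hψ (N := m + 6) (n := -m) (by linarith) (x - y)
          (by linarith) (by rw [neg_neg]; linarith)
        rw [← h2]
        rfl
      rw [setIntegral_congr_fun measurableSet_closedBall e1, integral_finsetSum]
      · exact Finset.sum_congr rfl fun j _ => (hvj x j).symm
      · intro j _
        exact ((continuous_kj hs0 hψ j).comp (continuous_const.sub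
          continuous_id)).continuousOn.integrableOn_compact (isCompact_closedBall q r)
    rw [hker] at h1
    have h2 : (ENNReal.ofReal (c * r ^ (-s)) * μ (closedBall q r)) ^ 2 ≤
        ‖∑ j ∈ S, v x j‖ₑ ^ 2 := by gcongr
    refine h2.trans ?_
    have h3 : ‖∑ j ∈ S, v x j‖ ^ 2 ≤ 7 * ∑ j ∈ S, ‖v x j‖ ^ 2 := by
      have h4 := norm_sum_le S (v x)
      have h5 := sq_sum_le_card_mul_sum_sq (s := S) (f := fun j => ‖v x j‖)
      rw [hScard] at h5
      have h6 : ‖∑ j ∈ S, v x j‖ ^ 2 ≤ (∑ j ∈ S, ‖v x j‖) ^ 2 :=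
        pow_le_pow_left₀ (norm_nonneg _) h4 2
      calc ‖∑ j ∈ S, v x j‖ ^ 2 ≤ (∑ j ∈ S, ‖v x j‖) ^ 2 := h6
        _ ≤ 7 * ∑ j ∈ S, ‖v x j‖ ^ 2 := by exact_mod_cast h5
    have e4 : ∀ w : E d, ‖w‖ₑ ^ 2 = ENNReal.ofReal (‖w‖ ^ 2) := by
      intro w
      rw [ENNReal.ofReal_pow (norm_nonneg _), ofReal_norm]
    calc ‖∑ j ∈ S, v x j‖ₑ ^ 2 = ENNReal.ofReal (‖∑ j ∈ S, v x j‖ ^ 2) := e4 _
      _ ≤ ENNReal.ofReal (7 * ∑ j ∈ S, ‖v x j‖ ^ 2) := ENNReal.ofReal_le_ofReal h3
      _ = 7 * ∑ j ∈ S, ‖v x j‖ₑ ^ 2 := by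
        rw [ENNReal.ofReal_mul (by norm_num), ENNReal.ofReal_sum_of_nonneg
          (fun j _ => by positivity)]
        congr 1
        · simp
        · exact Finset.sum_congr rfl fun j _ => (e4 _).symm
      _ ≤ 7 * ∑' j : ℤ, ‖v x j‖ₑ ^ 2 := by
        gcongr
        exact ENNReal.sum_le_tsum _
  have hint : (ENNReal.ofReal (c * r ^ (-s)) * μ (closedBall q r)) ^ 2 * μ (closedBall p r) ≤
      7 * (C * μ (closedBall q r)) := by
    calc (ENNReal.ofReal (c * r ^ (-s)) * μ (closedBall q r)) ^ 2 * μ (closedBall p r)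
        = ∫⁻ _ in closedBall p r, (ENNReal.ofReal (c * r ^ (-s)) * μ (closedBall q r)) ^ 2 ∂μ := by
          rw [setLIntegral_const]
      _ ≤ ∫⁻ x in closedBall p r, 7 * ∑' j : ℤ, ‖v x j‖ₑ ^ 2 ∂μ :=
          setLIntegral_mono' measurableSet_closedBall hpt
      _ ≤ ∫⁻ x, 7 * ∑' j : ℤ, ‖v x j‖ₑ ^ 2 ∂μ := setLIntegral_le_lintegral _ _
      _ = 7 * ∫⁻ x, ∑' j : ℤ, ‖v x j‖ₑ ^ 2 ∂μ := lintegral_const_mul' _ _ (by norm_num)
      _ ≤ 7 * (C * μ (closedBall q r)) := by gcongr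
  by_cases h0 : μ (closedBall q r) = 0
  · rw [h0, mul_zero]
    exact zero_le
  have hρ : 0 < c * r ^ (-s) := by positivity
  have h7 : ENNReal.ofReal (c * r ^ (-s)) ^ 2 * (μ (closedBall p r) * μ (closedBall q r)) ≤
      7 * C := by
    refine (ENNReal.mul_le_mul_iff_left h0 hBq.ne).1 ?_
    refine le_trans (le_of_eq ?_) (hint.trans (le_of_eq ?_))
    · ring
    · ring
  calc μ (closedBall p r) * μ (closedBall q r)
      = ENNReal.ofReal (((c * r ^ (-s)) ^ 2)⁻¹) *
        (ENNReal.ofReal (c * r ^ (-s)) ^ 2 * (μ (closedBall p r) * μ (closedBall q r))) := by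
        rw [← mul_assoc, ← ENNReal.ofReal_pow hρ.le, ← ENNReal.ofReal_mul (by positivity),
          inv_mul_cancel₀ (by positivity), ENNReal.ofReal_one, one_mul]
    _ ≤ ENNReal.ofReal (((c * r ^ (-s)) ^ 2)⁻¹) * (7 * C) := by gcongr
    _ = ENNReal.ofReal (7 * C * (c ^ 2)⁻¹ * r ^ (2 * s)) := by
        have e7 : (7 : ℝ≥0∞) * C = ENNReal.ofReal (7 * C) := by
          rw [ENNReal.ofReal_mul (by norm_num), ENNReal.ofReal_coe_nnreal]
          simp
        rw [e7, ← ENNReal.ofReal_mul (by positivity)]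
        congr 1
        have e8 : ((c * r ^ (-s)) ^ 2)⁻¹ = (c ^ 2)⁻¹ * r ^ (2 * s) := by
          rw [mul_pow, mul_inv, ← Real.rpow_natCast (r ^ (-s)), ← Real.rpow_mul hr.le,
            ← Real.rpow_neg hr.le]
          congr 2
          push_cast
          ring
        rw [e8]
        ring

end Pool.Agent.RSF
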