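import Pool.Agent.RSF.CRL
import Pool.Agent.RSF.KJP

/-!
# QBD: the Wolff energy condition gives a bounded square function

`f ∈ L²(μ)`, replaced by a measurable function. The integral in `QB` is `∫ f y • kj s ψ j (x - y) dμ(y)`. By `kj_bounds` and `kj_zero`
its norm is at most `C₀ (2^j)^s ∫_{‖x-y‖ ≤ 2 * 2^(-j)} |f| dμ`. With `k = j - 4`: `2 * 2^(-j) ≤ 2^(-k) / 6 = 16 * 2^(-j) / 6`, so by
`cl_cover` there is a grid `α` with `{‖x - y‖ ≤ 2 * 2^(-j)} ⊆ Ce α k x`; hence the norm is at most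
`C₀ 16^s ∑_α (2^k)^s ∫_{Ce α k x} |f| dμ`, its square is at most `C₀² 16^(2s) 2^d ∑_α (...)²`; sum over `j` (shift of the
summation index, `Equiv.tsum_eq`) and integrate: `crl2`.
-/

namespace Pool.Agent.RSF

open MeasureTheory Metric Set
open scoped ENNReal NNReal

variable {d : ℕ}

private lemma QBD_mCe (α : Fin d → Bool) (k : ℤ) (x : E d) : MeasurableSet (Ce α k x) :=
  measurable_cl α k (measurableSet_singleton (cl α k x))

private lemma QBD_mI (α : Fin d → Bool) (k : ℤ) (μ : Measure (E d)) (f : E d → ℝ≥0∞) :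
    Measurable (fun x => ∫⁻ y in Ce α k x, f y ∂μ) := by
  have h : Measurable (fun i : Fin d → ℤ => ∫⁻ y in {y | cl α k y = i}, f y ∂μ) :=
    Measurable.of_discrete
  exact h.comp (measurable_cl α k)

theorem qb_of_WB {s : ℝ} (hs0 : 0 < s) {ψ : E d → ℝ} (hψ : Adm ψ) (μ : Measure (E d))
    [IsLocallyFiniteMeasure μ] [NullSingletonClass μ] (h : WB s μ) : QB s ψ μ := by
  obtain ⟨C₂, hC⟩ := crl2 hs0 μ h
  obtain ⟨C₀, hC₀, hkb, -⟩ := kj_bounds hs0 hψ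
  refine ⟨(Real.toNNReal (C₀ * (16 : ℝ) ^ s)) ^ 2 * (Fintype.card (Fin d → Bool) * C₂),
    fun f hf => ?_⟩
  obtain ⟨g, hg, hfg⟩ : ∃ g : E d → ℝ, Measurable g ∧ f =ᵐ[μ] g :=
    ⟨hf.1.mk f, hf.1.stronglyMeasurable_mk.measurable, hf.1.ae_eq_mk⟩
  obtain ⟨F, hF⟩ : ∃ F : E d → ℝ≥0∞, F = fun y => ‖g y‖ₑ := ⟨_, rfl⟩
  have hFm : Measurable F := by
    rw [hF]
    exact hg.enorm
  have hfF : (fun y => ‖f y‖ₑ) =ᵐ[μ] F := by
    filter_upwards [hfg] with y hy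
    rw [hF, hy]
  have hterm : ∀ (k : ℤ) (x : E d), ‖∫ y, (f y * (ψ ((2 : ℝ) ^ (k + 4) • (x - y)) -
      ψ ((2 : ℝ) ^ (k + 4 + 1) • (x - y))) * ‖x - y‖ ^ (-(s + 1))) • (x - y) ∂μ‖ₑ ^ 2 ≤
      (ENNReal.ofReal (C₀ * (16 : ℝ) ^ s)) ^ 2 * ∑ α : Fin d → Bool,
        (ENNReal.ofReal (((2 : ℝ) ^ k) ^ s) * ∫⁻ y in Ce α k x, F y ∂μ) ^ 2 := by
    intro k x
    obtain ⟨α, hα⟩ := cl_cover k x
    have h1 : ‖∫ y, (f y * (ψ ((2 : ℝ) ^ (k + 4) • (x - y)) -
      ψ ((2 : ℝ) ^ (k + 4 + 1) • (x - y))) * ‖x - y‖ ^ (-(s + 1))) • (x - y) ∂μ‖ₑ ≤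
      ENNReal.ofReal (C₀ * (16 : ℝ) ^ s) *
        (ENNReal.ofReal (((2 : ℝ) ^ k) ^ s) * ∫⁻ y in Ce α k x, F y ∂μ) := by
      refine (enorm_integral_le_lintegral_enorm _).trans ?_
      have h2 : ∀ y : E d, ‖(f y * (ψ ((2 : ℝ) ^ (k + 4) • (x - y)) -
          ψ ((2 : ℝ) ^ (k + 4 + 1) • (x - y))) * ‖x - y‖ ^ (-(s + 1))) • (x - y)‖ₑ ≤
          (ENNReal.ofReal (C₀ * (16 : ℝ) ^ s) * ENNReal.ofReal (((2 : ℝ) ^ k) ^ s)) *
            (Ce α k x).indicator (fun y => ‖f y‖ₑ) y := by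
        intro y
        have h3 : (f y * (ψ ((2 : ℝ) ^ (k + 4) • (x - y)) -
          ψ ((2 : ℝ) ^ (k + 4 + 1) • (x - y))) * ‖x - y‖ ^ (-(s + 1))) • (x - y) =
          f y • kj s ψ (k + 4) (x - y) := by
          unfold kj
          rw [smul_smul, mul_assoc]
        rw [h3, enorm_smul]
        by_cases hy : y ∈ Ce α k x
        · rw [indicator_of_mem hy, mul_comm]
          gcongr
          rw [← ENNReal.ofReal_mul (by positivity), ← ofReal_norm]
          apply ENNReal.ofReal_le_ofReal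
          refine (hkb (k + 4) (x - y)).trans (le_of_eq ?_)
          rw [zpow_add₀ (by norm_num), Real.mul_rpow (by positivity) (by norm_num)]
          norm_num
          ring
        · have h4 : kj s ψ (k + 4) (x - y) = 0 := by
            apply kj_zero s hψ
            by_contra hc
            push Not at hc
            apply hy
            apply hα y
            refine hc.le.trans ?_
            rw [neg_add, zpow_add₀ (by norm_num)]
            have h7 : (0 : ℝ) < ((2 : ℝ) ^ k)⁻¹ := by positivity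
            norm_num
            linarith
          rw [h4, enorm_zero, mul_zero]
          exact zero_le
      refine (lintegral_mono h2).trans (le_of_eq ?_)
      rw [lintegral_const_mul' _ _ (ENNReal.mul_ne_top ENNReal.ofReal_ne_top ENNReal.ofReal_ne_top),
        lintegral_indicator (QBD_mCe α k x), mul_assoc]
      congr 2
      exact lintegral_congr_ae (ae_restrict_of_ae hfF)
    refine (pow_le_pow_left' h1 2).trans ?_
    rw [mul_pow]
    gcongr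
    exact Finset.single_le_sum (f := fun α : Fin d → Bool =>
      (ENNReal.ofReal (((2 : ℝ) ^ k) ^ s) * ∫⁻ y in Ce α k x, F y ∂μ) ^ 2)
      (fun _ _ => zero_le) (Finset.mem_univ α)
  have hin : ∀ x : E d, ∑' j : ℤ, ‖∫ y, (f y * (ψ ((2 : ℝ) ^ j • (x - y)) -
      ψ ((2 : ℝ) ^ (j + 1) • (x - y))) * ‖x - y‖ ^ (-(s + 1))) • (x - y) ∂μ‖ₑ ^ 2 ≤
      (ENNReal.ofReal (C₀ * (16 : ℝ) ^ s)) ^ 2 * ∑ α : Fin d → Bool, ∑' k : ℤ,
        (ENNReal.ofReal (((2 : ℝ) ^ k) ^ s) * ∫⁻ y in Ce α k x, F y ∂μ) ^ 2 := by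
    intro x
    rw [← (Equiv.addRight (4 : ℤ)).tsum_eq (fun j : ℤ => ‖∫ y, (f y * (ψ ((2 : ℝ) ^ j • (x - y)) -
      ψ ((2 : ℝ) ^ (j + 1) • (x - y))) * ‖x - y‖ ^ (-(s + 1))) • (x - y) ∂μ‖ₑ ^ 2)]
    refine (ENNReal.tsum_le_tsum fun k => hterm k x).trans (le_of_eq ?_)
    rw [ENNReal.tsum_mul_left, Summable.tsum_finsetSum (fun _ _ => ENNReal.summable)]
  refine (lintegral_mono hin).trans ?_
  rw [lintegral_const_mul' _ _ (ENNReal.pow_ne_top ENNReal.ofReal_ne_top), lintegral_finsetSum]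
  · refine (mul_le_mul_right (Finset.sum_le_sum fun α _ => hC α F hFm) _).trans (le_of_eq ?_)
    rw [Finset.sum_const, Finset.card_univ, nsmul_eq_mul, ENNReal.coe_mul, ENNReal.coe_mul,
      ENNReal.coe_natCast, ENNReal.coe_pow]
    rw [show ((Real.toNNReal (C₀ * (16 : ℝ) ^ s) : ℝ≥0) : ℝ≥0∞) =
      ENNReal.ofReal (C₀ * (16 : ℝ) ^ s) from rfl]
    have h5 : ∫⁻ x, F x ^ 2 ∂μ = ∫⁻ x, ‖f x‖ₑ ^ 2 ∂μ := by
      apply lintegral_congr_ae
      filter_upwards [hfF] with y hy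
      rw [hy]
    rw [h5]
    ring
  · intro α _
    exact Measurable.ennreal_tsum fun k => ((QBD_mI α k μ F).const_mul _).pow_const 2

end Pool.Agent.RSF
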