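import Pool.Agent.RSF.ORT

/-!
# ORS: the sum of the pieces

`J = Icc (-N) n`. `‖∑_{j ∈ J} Rj j‖² = ∑_{i, j ∈ J} ⟪Rj i, Rj j⟫`; integrate (all functions are bounded and measurable, `ν`
finite).
* pairs with `|i - j| ≤ k₀`: `⟪Rj i, Rj j⟫ ≤ (‖Rj i‖² + ‖Rj j‖²) / 2`; for every `i` there are at most `2 k₀ + 1` such `j`.
* pairs with `|i - j| > k₀`: `ort` and `Th i Th j ≤ (Th i² + Th j²) / 2`, so they contribute at most
  `C ∑_i ∫ Th i² ∑_{|k| > k₀} 2^(-|k|) ≤ 2 C 2^(-k₀) ∑_i ∫ Th i²` (up to the constant).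
-/

namespace Pool.Agent.RSF

open MeasureTheory Metric Set
open scoped ENNReal NNReal

variable {d : ℕ}

private lemma ORS_geo (J : Finset ℤ) (m : ℤ → ℕ) (hm : Set.InjOn m J) :
    ∑ j ∈ J, (1 / 2 : ℝ) ^ (m j) ≤ 2 := by
  classical
  have h1 : ∑ j ∈ J, (1 / 2 : ℝ) ^ (m j) = ∑ l ∈ J.image m, (1 / 2 : ℝ) ^ l := by
    rw [Finset.sum_image]
    exact hm
  rw [h1]
  have h2 : J.image m ⊆ Finset.range ((J.image m).sup id + 1) := by
    intro l hl
    rw [Finset.mem_range]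
    have : l ≤ (J.image m).sup id := Finset.le_sup (f := id) hl
    omega
  exact (Finset.sum_le_sum_of_subset_of_nonneg h2 fun _ _ _ => by positivity).trans
    (sum_geometric_two_le _)

private lemma ORS_sum (J : Finset ℤ) (i : ℤ) (k₀ : ℕ) :
    ∑ j ∈ J.filter (fun j => k₀ < (i - j).natAbs), (1 / 2 : ℝ) ^ ((i - j).natAbs) ≤
      2 * (1 / 2 : ℝ) ^ k₀ := by
  classical
  have hsub : J.filter (fun j => k₀ < (i - j).natAbs) ⊆
      J.filter (fun j => i + k₀ < j) ∪ J.filter (fun j => j < i - k₀) := by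
    intro j hj
    rw [Finset.mem_filter] at hj
    rw [Finset.mem_union, Finset.mem_filter, Finset.mem_filter]
    rcases lt_or_ge i j with h | h
    · left
      exact ⟨hj.1, by omega⟩
    · right
      exact ⟨hj.1, by omega⟩
  have hA : ∑ j ∈ J.filter (fun j => i + k₀ < j), (1 / 2 : ℝ) ^ ((i - j).natAbs) ≤
      (1 / 2 : ℝ) ^ k₀ := by
    have h1 : ∑ j ∈ J.filter (fun j => i + k₀ < j), (1 / 2 : ℝ) ^ ((i - j).natAbs) =
        (1 / 2 : ℝ) ^ (k₀ + 1) *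
          ∑ j ∈ J.filter (fun j => i + k₀ < j), (1 / 2 : ℝ) ^ ((j - (i + k₀ + 1)).toNat) := by
      rw [Finset.mul_sum]
      refine Finset.sum_congr rfl fun j hj => ?_
      rw [Finset.mem_filter] at hj
      rw [← pow_add]
      congr 1
      omega
    rw [h1]
    have h2 := ORS_geo (J.filter (fun j => i + k₀ < j)) (fun j => (j - (i + k₀ + 1)).toNat) (by
      intro a ha b hb hab
      rw [Finset.mem_coe, Finset.mem_filter] at ha hb
      simp only at hab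
      omega)
    calc (1 / 2 : ℝ) ^ (k₀ + 1) * _ ≤ (1 / 2 : ℝ) ^ (k₀ + 1) * 2 :=
          mul_le_mul_of_nonneg_left h2 (by positivity)
      _ = (1 / 2 : ℝ) ^ k₀ := by
          rw [pow_succ]
          ring
  have hB : ∑ j ∈ J.filter (fun j => j < i - k₀), (1 / 2 : ℝ) ^ ((i - j).natAbs) ≤
      (1 / 2 : ℝ) ^ k₀ := by
    have h1 : ∑ j ∈ J.filter (fun j => j < i - k₀), (1 / 2 : ℝ) ^ ((i - j).natAbs) =
        (1 / 2 : ℝ) ^ (k₀ + 1) *
          ∑ j ∈ J.filter (fun j => j < i - k₀), (1 / 2 : ℝ) ^ ((i - (k₀ + 1) - j).toNat) := by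
      rw [Finset.mul_sum]
      refine Finset.sum_congr rfl fun j hj => ?_
      rw [Finset.mem_filter] at hj
      rw [← pow_add]
      congr 1
      omega
    rw [h1]
    have h2 := ORS_geo (J.filter (fun j => j < i - k₀)) (fun j => (i - (k₀ + 1) - j).toNat) (by
      intro a ha b hb hab
      rw [Finset.mem_coe, Finset.mem_filter] at ha hb
      simp only at hab
      omega)
    calc (1 / 2 : ℝ) ^ (k₀ + 1) * _ ≤ (1 / 2 : ℝ) ^ (k₀ + 1) * 2 :=
          mul_le_mul_of_nonneg_left h2 (by positivity)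
      _ = (1 / 2 : ℝ) ^ k₀ := by
          rw [pow_succ]
          ring
  have hU : ∑ j ∈ J.filter (fun j => i + k₀ < j) ∪ J.filter (fun j => j < i - k₀),
      (1 / 2 : ℝ) ^ ((i - j).natAbs) ≤
      ∑ j ∈ J.filter (fun j => i + k₀ < j), (1 / 2 : ℝ) ^ ((i - j).natAbs) +
        ∑ j ∈ J.filter (fun j => j < i - k₀), (1 / 2 : ℝ) ^ ((i - j).natAbs) := by
    rw [← Finset.sum_union_inter]
    have : (0 : ℝ) ≤ ∑ j ∈ J.filter (fun j => i + k₀ < j) ∩ J.filter (fun j => j < i - k₀),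
      (1 / 2 : ℝ) ^ ((i - j).natAbs) := Finset.sum_nonneg fun _ _ => by positivity
    linarith
  have h0 := Finset.sum_le_sum_of_subset_of_nonneg (f := fun j : ℤ => (1 / 2 : ℝ) ^ ((i - j).natAbs))
    hsub (fun _ _ _ => by positivity)
  linarith

private lemma ORS_card (J : Finset ℤ) (i : ℤ) (k₀ : ℕ) :
    ((J.filter (fun j => ¬ k₀ < (i - j).natAbs)).card : ℝ) ≤ 2 * k₀ + 1 := by
  have h1 : J.filter (fun j => ¬ k₀ < (i - j).natAbs) ⊆ Finset.Icc (i - k₀) (i + k₀) := by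
    intro j hj
    rw [Finset.mem_filter] at hj
    rw [Finset.mem_Icc]
    omega
  have h2 := Finset.card_le_card h1
  rw [Int.card_Icc] at h2
  have h3 : (J.filter (fun j => ¬ k₀ < (i - j).natAbs)).card ≤ 2 * k₀ + 1 := by omega
  exact_mod_cast h3

private lemma ORS_comb (J : Finset ℤ) (k₀ : ℕ) (a : ℤ → ℤ → ℝ) (r t : ℤ → ℝ) (C : ℝ) (hC : 0 ≤ C)
    (hr : ∀ i, 0 ≤ r i) (ht : ∀ i, 0 ≤ t i) (h1 : ∀ i j, a i j ≤ (r i + r j) / 2)
    (h2 : ∀ i j, a i j ≤ C * (1 / 2) ^ ((i - j).natAbs) * ((t i + t j) / 2)) :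
    ∑ i ∈ J, ∑ j ∈ J, a i j ≤
      (2 * k₀ + 1) * ∑ i ∈ J, r i + 2 * C * (1 / 2) ^ k₀ * ∑ i ∈ J, t i := by
  classical
  obtain ⟨D, hD⟩ : ∃ D : ℤ → ℤ → ℝ, D = fun i j =>
      if k₀ < (i - j).natAbs then C * (1 / 2) ^ ((i - j).natAbs) * t i else r i := ⟨_, rfl⟩
  have hs : ∀ i j : ℤ, (j - i).natAbs = (i - j).natAbs := fun i j => by omega
  have hle : ∀ i j, a i j ≤ (D i j + D j i) / 2 := by
    intro i j
    rw [hD]
    simp only [hs i j]
    split_ifs with hk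
    · refine (h2 i j).trans (le_of_eq ?_)
      ring
    · exact h1 i j
  have hsum : ∑ i ∈ J, ∑ j ∈ J, a i j ≤ ∑ i ∈ J, ∑ j ∈ J, D i j := by
    have e1 : ∑ i ∈ J, ∑ j ∈ J, (D i j + D j i) / 2 = ∑ i ∈ J, ∑ j ∈ J, D i j := by
      have e2 : ∑ i ∈ J, ∑ j ∈ J, D j i = ∑ i ∈ J, ∑ j ∈ J, D i j := Finset.sum_comm
      simp_rw [← Finset.sum_div, Finset.sum_add_distrib]
      rw [e2]
      ring
    rw [← e1]
    exact Finset.sum_le_sum fun i _ => Finset.sum_le_sum fun j _ => hle i j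
  refine hsum.trans ?_
  have hrow : ∀ i, ∑ j ∈ J, D i j ≤ (2 * k₀ + 1) * r i + 2 * C * (1 / 2) ^ k₀ * t i := by
    intro i
    rw [hD]
    simp only
    rw [Finset.sum_ite, Finset.sum_const, nsmul_eq_mul]
    have e3 : ∑ x ∈ J with k₀ < (i - x).natAbs, C * (1 / 2) ^ ((i - x).natAbs) * t i =
        (∑ x ∈ J with k₀ < (i - x).natAbs, (1 / 2 : ℝ) ^ ((i - x).natAbs)) * (C * t i) := by
      rw [Finset.sum_mul]
      refine Finset.sum_congr rfl fun x _ => ?_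
      ring
    rw [e3]
    have e4 := mul_le_mul_of_nonneg_right (ORS_sum J i k₀) (mul_nonneg hC (ht i))
    have e5 := mul_le_mul_of_nonneg_right (ORS_card J i k₀) (hr i)
    calc _ ≤ 2 * (1 / 2) ^ k₀ * (C * t i) + (2 * k₀ + 1) * r i := add_le_add e4 e5
      _ = _ := by ring
  refine (Finset.sum_le_sum fun i _ => hrow i).trans (le_of_eq ?_)
  rw [Finset.sum_add_distrib, Finset.mul_sum, Finset.mul_sum]

theorem ors {s : ℝ} (hs0 : 0 < s) {ψ : E d → ℝ} (hψ : Adm ψ) :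
    ∃ C : ℝ, 0 ≤ C ∧ ∀ (ν : Measure (E d)), IsFiniteMeasure ν → ∀ (N n : ℤ) (k₀ : ℕ),
      ∫ x, ‖∑ j ∈ Finset.Icc (-N) n, Rj s ψ j ν x‖ ^ 2 ∂ν ≤
        (2 * k₀ + 1) * ∑ j ∈ Finset.Icc (-N) n, ∫ x, ‖Rj s ψ j ν x‖ ^ 2 ∂ν +
          C * (1 / 2) ^ k₀ * ∑ j ∈ Finset.Icc (-N) n, ∫ x, Th s j ν x ^ 2 ∂ν := by
  obtain ⟨C', hC', hort⟩ := ort hs0 hψ
  obtain ⟨C₀, hC₀, hkb, -⟩ := kj_bounds hs0 hψ
  refine ⟨2 * C', by positivity, ?_⟩
  intro ν hν N n k₀
  have hRb : ∀ (j : ℤ) (x : E d), ‖Rj s ψ j ν x‖ ≤ C₀ * ((2 : ℝ) ^ j) ^ s * ν.real univ := by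
    intro j x
    exact norm_integral_le_of_norm_le_const (Filter.Eventually.of_forall fun y => hkb j (x - y))
  have hTb : ∀ (j : ℤ) (x : E d), |Th s j ν x| ≤ ((2 : ℝ) ^ j) ^ s * ν.real univ := by
    intro j x
    unfold Th
    rw [abs_of_nonneg (mul_nonneg (by positivity) measureReal_nonneg)]
    exact mul_le_mul_of_nonneg_left (measureReal_mono (subset_univ _)) (by positivity)
  have hRm : ∀ j : ℤ, AEStronglyMeasurable (Rj s ψ j ν) ν :=
    fun j => (measurable_Rj hs0 hψ j ν).aestronglyMeasurable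
  have hint : ∀ i j : ℤ, Integrable (fun x => inner ℝ (Rj s ψ i ν x) (Rj s ψ j ν x)) ν := by
    intro i j
    refine Integrable.of_bound ((hRm i).inner (hRm j))
      ((C₀ * ((2 : ℝ) ^ i) ^ s * ν.real univ) * (C₀ * ((2 : ℝ) ^ j) ^ s * ν.real univ))
      (Filter.Eventually.of_forall fun x => ?_)
    refine (norm_inner_le_norm (𝕜 := ℝ) _ _).trans ?_
    exact mul_le_mul (hRb i x) (hRb j x) (norm_nonneg _)
      (mul_nonneg (by positivity) measureReal_nonneg)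
  have hintR : ∀ j : ℤ, Integrable (fun x => ‖Rj s ψ j ν x‖ ^ 2) ν := by
    intro j
    have h1 := hint j j
    simp_rw [real_inner_self_eq_norm_sq] at h1
    exact h1
  have hTm : ∀ j : ℤ, AEStronglyMeasurable (Th s j ν) ν :=
    fun j => (measurable_Th s j ν).aestronglyMeasurable
  have hintT : ∀ i j : ℤ, Integrable (fun x => Th s i ν x * Th s j ν x) ν := by
    intro i j
    refine Integrable.of_bound ((hTm i).mul (hTm j))
      ((((2 : ℝ) ^ i) ^ s * ν.real univ) * (((2 : ℝ) ^ j) ^ s * ν.real univ))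
      (Filter.Eventually.of_forall fun x => ?_)
    rw [norm_mul, Real.norm_eq_abs, Real.norm_eq_abs]
    exact mul_le_mul (hTb i x) (hTb j x) (abs_nonneg _)
      (mul_nonneg (by positivity) measureReal_nonneg)
  have hintT2 : ∀ j : ℤ, Integrable (fun x => Th s j ν x ^ 2) ν := by
    intro j
    have h1 := hintT j j
    simp_rw [← sq] at h1
    exact h1
  have hexp : ∫ x, ‖∑ j ∈ Finset.Icc (-N) n, Rj s ψ j ν x‖ ^ 2 ∂ν =
      ∑ i ∈ Finset.Icc (-N) n, ∑ j ∈ Finset.Icc (-N) n,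
        ∫ x, inner ℝ (Rj s ψ i ν x) (Rj s ψ j ν x) ∂ν := by
    have h1 : ∀ x : E d, ‖∑ j ∈ Finset.Icc (-N) n, Rj s ψ j ν x‖ ^ 2 =
        ∑ i ∈ Finset.Icc (-N) n, ∑ j ∈ Finset.Icc (-N) n,
          inner ℝ (Rj s ψ i ν x) (Rj s ψ j ν x) := by
      intro x
      rw [← real_inner_self_eq_norm_sq, sum_inner]
      refine Finset.sum_congr rfl fun i _ => ?_
      rw [inner_sum]
    simp_rw [h1]
    rw [integral_finsetSum _ (fun i _ => integrable_finsetSum _ fun j _ => hint i j)]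
    refine Finset.sum_congr rfl fun i _ => ?_
    rw [integral_finsetSum _ (fun j _ => hint i j)]
  rw [hexp]
  refine ORS_comb (Finset.Icc (-N) n) k₀
    (fun i j => ∫ x, inner ℝ (Rj s ψ i ν x) (Rj s ψ j ν x) ∂ν)
    (fun i => ∫ x, ‖Rj s ψ i ν x‖ ^ 2 ∂ν) (fun i => ∫ x, Th s i ν x ^ 2 ∂ν) C' hC'
    (fun i => integral_nonneg fun x => sq_nonneg _) (fun i => integral_nonneg fun x => sq_nonneg _)
    ?_ ?_
  · intro i j
    rw [← integral_add (hintR i) (hintR j), ← integral_div]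
    refine integral_mono (hint i j) (((hintR i).add (hintR j)).div_const 2) fun x => ?_
    simp only
    have h1 := real_inner_le_norm (Rj s ψ i ν x) (Rj s ψ j ν x)
    have h2 := sq_nonneg (‖Rj s ψ i ν x‖ - ‖Rj s ψ j ν x‖)
    nlinarith
  · have hTT : ∀ i j : ℤ, ∫ x, Th s i ν x * Th s j ν x ∂ν ≤
        (∫ x, Th s i ν x ^ 2 ∂ν + ∫ x, Th s j ν x ^ 2 ∂ν) / 2 := by
      intro i j
      rw [← integral_add (hintT2 i) (hintT2 j), ← integral_div]
      refine integral_mono (hintT i j) (((hintT2 i).add (hintT2 j)).div_const 2) fun x => ?_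
      simp only
      have h2 := sq_nonneg (Th s i ν x - Th s j ν x)
      nlinarith
    have hz : ∀ i j : ℤ, i ≤ j → (2 : ℝ) ^ (i - j) = (1 / 2) ^ ((i - j).natAbs) := by
      intro i j hij
      have h3 : i - j = -((i - j).natAbs : ℤ) := by omega
      conv_lhs => rw [h3]
      rw [zpow_neg, zpow_natCast, one_div, inv_pow]
    have hmain : ∀ i j : ℤ, i ≤ j → ∫ x, inner ℝ (Rj s ψ i ν x) (Rj s ψ j ν x) ∂ν ≤
        C' * (1 / 2) ^ ((i - j).natAbs) *
          ((∫ x, Th s i ν x ^ 2 ∂ν + ∫ x, Th s j ν x ^ 2 ∂ν) / 2) := by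
      intro i j hij
      refine (le_abs_self _).trans ((hort ν hν i j hij).trans ?_)
      rw [hz i j hij]
      exact mul_le_mul_of_nonneg_left (hTT i j) (by positivity)
    intro i j
    rcases le_total i j with hij | hij
    · exact hmain i j hij
    · have h4 := hmain j i hij
      have h5 : (j - i).natAbs = (i - j).natAbs := by omega
      rw [h5] at h4
      have h6 : ∫ x, inner ℝ (Rj s ψ i ν x) (Rj s ψ j ν x) ∂ν =
          ∫ x, inner ℝ (Rj s ψ j ν x) (Rj s ψ i ν x) ∂ν := by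
        simp_rw [real_inner_comm]
      rw [h6, add_comm (∫ x, Th s i ν x ^ 2 ∂ν)]
      exact h4

end Pool.Agent.RSF
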