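import Pool.Agent.RSF.SFN

/-!
# SFT: the smooth truncation, pointwise inequality

`ε = 2 ^ (-n)`, `k = ks s ψ N n`, odd.
* `sft_aux` (abstract): let `k` be odd with `‖k u‖ ≤ C₁ (max ‖u‖ ε)^(-s)` and
  `‖k u - k v‖ ≤ C₁ ‖u - v‖ (max (min ‖u‖ ‖v‖) ε)^(-(s+1))`. Then `|sp k x y z| ≤ 8 C₁² om s ε x y z`... (constant
  to be computed, any `C` depending on `C₁` only). Proof: `sp k` is symmetric in the three points, but `om` is
  not; prove the bound with `M = max a (max b c)` (the largest side) in place of `mx` first: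
  `|sp k x y z| ≤ C (max M ε)^(-2s)`; then `max mx ε ≤ max M ε`. By symmetry let `‖y - z‖` be the smallest side
  (three cases). Then `sp = ⟪k(x-y), k(x-z)⟫ + ⟪k(y-z), k(y-x) - k(z-x)⟫`. Put `a = ‖y-z‖ ≤ b = min ‖x-y‖ ‖x-z‖`.
  First term `≤ C₁² (max b ε)^(-2s)`. Second term `≤ C₁ (max a ε)^(-s) * C₁ a (max b ε)^(-(s+1))
  ≤ C₁² (max b ε)^(-2s)` since `a (max a ε)^(-s) ≤ (max a ε)^(1-s) ≤ (max b ε)^(1-s)` (`0 < s < 1`).
  Finally `M ≤ 2 b`, so `max M ε ≤ 2 max b ε` and `(max b ε)^(-2s) ≤ 4 (max M ε)^(-2s)`.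
* `sft_pw`: if no side is `≤ ε`, all sides are in `(ε, 2^(N-1))`, so `k = ker s` on all differences (`ks_eq_ker`)
  and `sp k = sp (ker s) ≥ c mx^(-2s) = c om`, `on = 0`. Otherwise `sp k ≥ -C' om`, `on = om`.
-/

namespace Pool.Agent.RSF

open MeasureTheory Metric Set
open scoped ENNReal NNReal

variable {d : ℕ}

private theorem SFT_small {s ε C₁ : ℝ} (hs0 : 0 < s) (hs1 : s < 1) (hε : 0 < ε) (hC : 0 < C₁)
    (k : E d → E d) (hodd : ∀ u, k (-u) = -k u)
    (h1 : ∀ u, ‖k u‖ ≤ C₁ * (max ‖u‖ ε) ^ (-s))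
    (h2 : ∀ u v, ‖k u - k v‖ ≤ C₁ * ‖u - v‖ * (max (min ‖u‖ ‖v‖) ε) ^ (-(s + 1)))
    (x y z : E d) (ha1 : ‖y - z‖ ≤ ‖x - y‖) (ha2 : ‖y - z‖ ≤ ‖x - z‖) :
    |sp k x y z| ≤ 8 * C₁ ^ 2 * (max (max (max ‖x - y‖ ‖x - z‖) ‖y - z‖) ε) ^ (-(2 * s)) := by
  set a := ‖y - z‖ with ha
  set b := min ‖x - y‖ ‖x - z‖ with hb
  set B := max b ε with hB
  have hB0 : 0 < B := hε.trans_le (le_max_right _ _)
  have hab : a ≤ b := le_min ha1 ha2
  have hsp : sp k x y z = inner ℝ (k (x - y)) (k (x - z)) +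
      inner ℝ (k (y - z)) (k (y - x) - k (z - x)) := by
    have e1 : k (z - y) = -k (y - z) := by rw [← hodd, neg_sub]
    simp only [sp, e1, inner_neg_right, inner_sub_right]
    rw [real_inner_comm (k (y - x)) (k (y - z)), real_inner_comm (k (z - x)) (k (y - z))]
    ring
  have hanti : ∀ {t : ℝ}, B ≤ t → t ^ (-s) ≤ B ^ (-s) := fun {t} ht =>
    Real.rpow_le_rpow_of_nonpos hB0 ht (by linarith)
  have f1 : |(inner ℝ (k (x - y)) (k (x - z)) : ℝ)| ≤ C₁ ^ 2 * B ^ (-(2 * s)) := by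
    refine (abs_real_inner_le_norm _ _).trans ?_
    have g1 : ‖k (x - y)‖ ≤ C₁ * B ^ (-s) := (h1 _).trans
      (mul_le_mul_of_nonneg_left (hanti (max_le_max (min_le_left _ _) le_rfl)) hC.le)
    have g2 : ‖k (x - z)‖ ≤ C₁ * B ^ (-s) := (h1 _).trans
      (mul_le_mul_of_nonneg_left (hanti (max_le_max (min_le_right _ _) le_rfl)) hC.le)
    calc ‖k (x - y)‖ * ‖k (x - z)‖ ≤ (C₁ * B ^ (-s)) * (C₁ * B ^ (-s)) :=
          mul_le_mul g1 g2 (norm_nonneg _) ((norm_nonneg _).trans g1)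
      _ = C₁ ^ 2 * (B ^ (-s) * B ^ (-s)) := by ring
      _ = C₁ ^ 2 * B ^ (-(2 * s)) := by
          rw [← Real.rpow_add hB0]; congr 2; ring
  have f2 : |(inner ℝ (k (y - z)) (k (y - x) - k (z - x)) : ℝ)| ≤ C₁ ^ 2 * B ^ (-(2 * s)) := by
    refine (abs_real_inner_le_norm _ _).trans ?_
    have g1 : ‖k (y - z)‖ ≤ C₁ * (max a ε) ^ (-s) := h1 _
    have g2 : ‖k (y - x) - k (z - x)‖ ≤ C₁ * a * B ^ (-(s + 1)) := by
      have := h2 (y - x) (z - x)
      rw [show y - x - (z - x) = y - z by abel, norm_sub_rev y x, norm_sub_rev z x] at this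
      exact this
    have hA0 : 0 < max a ε := hε.trans_le (le_max_right _ _)
    have ha0 : 0 ≤ a := norm_nonneg _
    have g3 : a * (max a ε) ^ (-s) ≤ B ^ (1 - s) := by
      calc a * (max a ε) ^ (-s) ≤ max a ε * (max a ε) ^ (-s) :=
            mul_le_mul_of_nonneg_right (le_max_left _ _) (Real.rpow_nonneg hA0.le _)
        _ = (max a ε) ^ (1 - s) := by
            rw [sub_eq_add_neg, Real.rpow_add hA0, Real.rpow_one]
        _ ≤ B ^ (1 - s) :=
            Real.rpow_le_rpow hA0.le (max_le_max hab le_rfl) (by linarith)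
    calc ‖k (y - z)‖ * ‖k (y - x) - k (z - x)‖
        ≤ (C₁ * (max a ε) ^ (-s)) * (C₁ * a * B ^ (-(s + 1))) :=
          mul_le_mul g1 g2 (norm_nonneg _) ((norm_nonneg _).trans g1)
      _ = C₁ ^ 2 * (a * (max a ε) ^ (-s)) * B ^ (-(s + 1)) := by ring
      _ ≤ C₁ ^ 2 * B ^ (1 - s) * B ^ (-(s + 1)) := by
          refine mul_le_mul_of_nonneg_right (mul_le_mul_of_nonneg_left g3 (by positivity)) ?_
          exact Real.rpow_nonneg hB0.le _
      _ = C₁ ^ 2 * B ^ (-(2 * s)) := by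
          rw [mul_assoc, ← Real.rpow_add hB0]; congr 2; ring
  have t1 : ‖x - y‖ ≤ ‖x - z‖ + a := by
    have := norm_sub_le_norm_sub_add_norm_sub x z y
    rwa [norm_sub_rev z y] at this
  have t2 : ‖x - z‖ ≤ ‖x - y‖ + a := norm_sub_le_norm_sub_add_norm_sub x y z
  have hD : max (max (max ‖x - y‖ ‖x - z‖) a) ε ≤ 2 * B := by
    have hbB : b ≤ B := le_max_left _ _
    have heB : ε ≤ B := le_max_right _ _
    have hb0 : 0 ≤ b := (norm_nonneg _).trans hab
    refine max_le (max_le (max_le ?_ ?_) (by linarith)) (by linarith)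
    · rcases min_choice ‖x - y‖ ‖x - z‖ with h | h
      · have : ‖x - y‖ = b := by rw [hb, h]
        linarith
      · have : ‖x - z‖ = b := by rw [hb, h]
        linarith
    · rcases min_choice ‖x - y‖ ‖x - z‖ with h | h
      · have : ‖x - y‖ = b := by rw [hb, h]
        linarith
      · have : ‖x - z‖ = b := by rw [hb, h]
        linarith
  have hD0 : 0 < max (max (max ‖x - y‖ ‖x - z‖) a) ε := hε.trans_le (le_max_right _ _)
  have f3 : B ^ (-(2 * s)) ≤ 4 * (max (max (max ‖x - y‖ ‖x - z‖) a) ε) ^ (-(2 * s)) := by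
    have g1 : (2 * B) ^ (-(2 * s)) ≤ (max (max (max ‖x - y‖ ‖x - z‖) a) ε) ^ (-(2 * s)) :=
      Real.rpow_le_rpow_of_nonpos hD0 hD (by linarith)
    rw [Real.mul_rpow (by norm_num) hB0.le] at g1
    have g2 : (1 : ℝ) / 4 ≤ 2 ^ (-(2 * s)) := by
      have : (2 : ℝ) ^ (-(2 : ℝ)) ≤ 2 ^ (-(2 * s)) :=
        Real.rpow_le_rpow_of_exponent_le (by norm_num) (by linarith)
      rw [Real.rpow_neg (by norm_num)] at this
      norm_num at this ⊢
      linarith
    have g3 : 0 ≤ B ^ (-(2 * s)) := Real.rpow_nonneg hB0.le _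
    nlinarith
  rw [hsp]
  refine (abs_add_le _ _).trans ?_
  have hC2 : 0 ≤ C₁ ^ 2 := by positivity
  nlinarith [mul_le_mul_of_nonneg_left f3 hC2]

private theorem SFT_perm1 (k : E d → E d) (x y z : E d) : sp k x y z = sp k y x z := by
  simp only [sp]
  rw [real_inner_comm (k (z - y)) (k (z - x))]
  ring

private theorem SFT_perm2 (k : E d → E d) (x y z : E d) : sp k x y z = sp k z x y := by
  simp only [sp]
  rw [real_inner_comm (k (x - z)) (k (x - y)), real_inner_comm (k (y - z)) (k (y - x))]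
  ring

theorem sft_aux {s ε C₁ : ℝ} (hs0 : 0 < s) (hs1 : s < 1) (hε : 0 < ε) (hC : 0 < C₁)
    (k : E d → E d) (hodd : ∀ u, k (-u) = -k u)
    (h1 : ∀ u, ‖k u‖ ≤ C₁ * (max ‖u‖ ε) ^ (-s))
    (h2 : ∀ u v, ‖k u - k v‖ ≤ C₁ * ‖u - v‖ * (max (min ‖u‖ ‖v‖) ε) ^ (-(s + 1)))
    (x y z : E d) : |sp k x y z| ≤ 8 * C₁ ^ 2 * om s ε x y z := by
  have key : ∀ D : ℝ, mx x y z ≤ D → (max D ε) ^ (-(2 * s)) ≤ om s ε x y z := by
    intro D hD
    exact Real.rpow_le_rpow_of_nonpos (hε.trans_le (le_max_right _ _)) (max_le_max hD le_rfl)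
      (by linarith)
  have fin : ∀ D : ℝ, mx x y z ≤ D → |sp k x y z| ≤ 8 * C₁ ^ 2 * (max D ε) ^ (-(2 * s)) →
      |sp k x y z| ≤ 8 * C₁ ^ 2 * om s ε x y z := fun D hD h =>
    h.trans (mul_le_mul_of_nonneg_left (key D hD) (by positivity))
  rcases le_total ‖y - z‖ ‖x - y‖ with h3 | h3
  · rcases le_total ‖y - z‖ ‖x - z‖ with h4 | h4
    · exact fin _ (le_max_left _ _) (SFT_small hs0 hs1 hε hC k hodd h1 h2 x y z h3 h4)
    · -- `‖x - z‖` is the smallest
      have := SFT_small hs0 hs1 hε hC k hodd h1 h2 y x z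
        (by rw [norm_sub_rev y x]; exact h4.trans h3) h4
      rw [← SFT_perm1] at this
      refine fin _ ?_ this
      refine max_le ?_ (le_max_right _ _)
      rw [norm_sub_rev x y]
      exact (le_max_left _ _).trans (le_max_left _ _)
  · -- `‖x - y‖ ≤ ‖y - z‖`
    rcases le_total ‖x - y‖ ‖x - z‖ with h4 | h4
    · have := SFT_small hs0 hs1 hε hC k hodd h1 h2 z x y
        (by rw [norm_sub_rev z x]; exact h4) (by rw [norm_sub_rev z y]; exact h3)
      rw [← SFT_perm2] at this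
      refine fin _ ?_ this
      refine max_le (le_max_right _ _) ?_
      rw [norm_sub_rev x z]
      exact (le_max_left _ _).trans (le_max_left _ _)
    · have := SFT_small hs0 hs1 hε hC k hodd h1 h2 y x z
        (by rw [norm_sub_rev y x]; exact h4) (h4.trans h3)
      rw [← SFT_perm1] at this
      refine fin _ ?_ this
      refine max_le ?_ (le_max_right _ _)
      rw [norm_sub_rev x y]
      exact (le_max_left _ _).trans (le_max_left _ _)

theorem ks_neg (s : ℝ) {ψ : E d → ℝ} (hψ : Adm ψ) (N n : ℤ) (u : E d) :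
    ks s ψ N n (-u) = -ks s ψ N n u := by
  simp only [ks, kj_neg s hψ, Finset.sum_neg_distrib]

theorem sft_pw {s : ℝ} (hs0 : 0 < s) (hs1 : s < 1) {ψ : E d → ℝ} (hψ : Adm ψ) :
    ∃ c C : ℝ, 0 < c ∧ 0 ≤ C ∧ ∀ N n : ℤ, -N ≤ n → ∀ x y z : E d,
      ‖x - y‖ < (2 : ℝ) ^ (N - 1) → ‖x - z‖ < (2 : ℝ) ^ (N - 1) → ‖y - z‖ < (2 : ℝ) ^ (N - 1) →
        c * om s ((2 : ℝ) ^ (-n)) x y z - C * on s ((2 : ℝ) ^ (-n)) x y z ≤ sp (ks s ψ N n) x y z := by
  obtain ⟨c, hc0, hc⟩ := sp_lower hs0 hs1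
  obtain ⟨A, hA0, hA⟩ := ks_norm hs0 hψ
  obtain ⟨B, hB0, hB⟩ := ks_lip hs0 hψ
  set C₁ := max A B with hC1
  have hC10 : 0 < C₁ := hA0.trans_le (le_max_left _ _)
  refine ⟨c, c + 8 * C₁ ^ 2, hc0, by positivity, fun N n hNn x y z h1 h2 h3 => ?_⟩
  set ε : ℝ := (2 : ℝ) ^ (-n) with hε
  have hε0 : 0 < ε := by positivity
  by_cases hnear : Near ε x y z
  · have e1 : on s ε x y z = om s ε x y z := by
      unfold on; rw [if_pos hnear]
    rw [e1]
    have e2 := sft_aux hs0 hs1 hε0 hC10 (ks s ψ N n) (ks_neg s hψ N n)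
      (fun u => (hA N n u).trans (mul_le_mul_of_nonneg_right (le_max_left _ _)
        (Real.rpow_nonneg (hε0.le.trans (le_max_right _ _)) _)))
      (fun u v => (hB N n u v).trans (mul_le_mul_of_nonneg_right
        (mul_le_mul_of_nonneg_right (le_max_right _ _) (norm_nonneg _))
        (Real.rpow_nonneg (hε0.le.trans (le_max_right _ _)) _))) x y z
    have e3 := (abs_le.1 e2).1
    linarith
  · have e1 : on s ε x y z = 0 := by
      unfold on; rw [if_neg hnear]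
    rw [e1]
    unfold Near at hnear
    push Not at hnear
    obtain ⟨g1, g2, g3⟩ := hnear
    have r : ∀ u : E d, ‖u‖ < (2 : ℝ) ^ (N - 1) → ε < ‖u‖ → ks s ψ N n u = ker s u :=
      fun u hu1 hu2 => ks_eq_ker s hψ hNn u hu1 hu2.le
    have e2 : sp (ks s ψ N n) x y z = sp (ker s) x y z := by
      simp only [sp]
      rw [r (x - y) h1 g1, r (x - z) h2 g2, r (y - x) (by rwa [norm_sub_rev])
        (by rwa [norm_sub_rev]), r (y - z) h3 g3, r (z - x) (by rwa [norm_sub_rev])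
        (by rwa [norm_sub_rev]), r (z - y) (by rwa [norm_sub_rev]) (by rwa [norm_sub_rev])]
    rw [e2]
    have hne : ∀ u v : E d, ε < ‖u - v‖ → u ≠ v := by
      rintro u v h rfl
      simp at h
      linarith
    have e3 := hc d x y z (hne _ _ g1) (hne _ _ g2) (hne _ _ g3)
    have e4 : om s ε x y z = mx x y z ^ (-(2 * s)) := by
      unfold om
      rw [max_eq_left]
      exact g1.le.trans (le_max_left _ _)
    rw [e4]
    linarith

end Pool.Agent.RSF
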