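import Pool.Agent.RSF.Defs

/-!
# GER: integrals of the kernels against a measure with growth

* `ger1`: the closed balls `closedBall x (2^k ε)`, `k : ℕ`, exhaust the space; for `‖x - y‖ ≤ ε` the integrand is
  `≤ ε^(-2s)` and for `2^k ε < ‖x - y‖ ≤ 2^(k+1) ε` it is `≤ (2^k ε)^(-2s)`; so the integral is at most
  `ε^(-2s) G ε^s + ∑_k (2^k ε)^(-2s) G (2^(k+1) ε)^s = G ε^(-s) (1 + 2^s ∑_k 2^(-ks))`. Suggestion: bound the
  integrand pointwise by `∑' k, ofReal ((2^k ε)^(-2s)) * indicator (closedBall x (2^(k+1) ε)) 1`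
  (for `y` let `k` be the least natural number with `‖x - y‖ ≤ 2^(k+1) ε`), then `lintegral_tsum`.
* `ger2`: `on s ε x y z ≤` the sum of three terms: `1[‖x-y‖ ≤ ε] (max ‖x-z‖ ε)^(-2s)
  + 1[‖x-z‖ ≤ ε] (max ‖x-y‖ ε)^(-2s) + 1[‖y-z‖ ≤ ε] (max ‖x-y‖ ε)^(-2s)` (each of `‖x-y‖, ‖x-z‖` is `≤ mx`).
  Integrate: `∫∫ 1[‖x-y‖ ≤ ε] dν(y) ∫ (max ‖x-z‖ ε)^(-2s) dν(z) ≤ G ε^s * C G ε^(-s)`; the third term: integrate in
  `z` first.
* `ger3`: trivial bound of the truncated energy.
-/

namespace Pool.Agent.RSF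

open MeasureTheory Metric Set
open scoped ENNReal NNReal

variable {d : ℕ}

theorem measurable_om (s ε : ℝ) :
    Measurable (fun q : E d × E d × E d => om s ε q.1 q.2.1 q.2.2) := by
  unfold om mx
  fun_prop

theorem measurable_on (s ε : ℝ) :
    Measurable (fun q : E d × E d × E d => on s ε q.1 q.2.1 q.2.2) := by
  unfold on
  refine Measurable.ite ?_ (measurable_om s ε) measurable_const
  have h1 : IsClosed {q : E d × E d × E d | ‖q.1 - q.2.1‖ ≤ ε} :=
    isClosed_le (by fun_prop) continuous_const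
  have h2 : IsClosed {q : E d × E d × E d | ‖q.1 - q.2.2‖ ≤ ε} :=
    isClosed_le (by fun_prop) continuous_const
  have h3 : IsClosed {q : E d × E d × E d | ‖q.2.1 - q.2.2‖ ≤ ε} :=
    isClosed_le (by fun_prop) continuous_const
  exact (h1.union (h2.union h3)).measurableSet

theorem om_pos {s ε : ℝ} (hε : 0 < ε) (x y z : E d) : 0 < om s ε x y z := by
  exact Real.rpow_pos_of_pos (lt_max_of_lt_right hε) _

theorem om_le {s ε : ℝ} (hs0 : 0 < s) (hε : 0 < ε) (x y z : E d) :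
    om s ε x y z ≤ ε ^ (-(2 * s)) := by
  exact Real.rpow_le_rpow_of_nonpos hε (le_max_right _ _) (by linarith)

theorem ger1 {s : ℝ} (hs0 : 0 < s) : ∃ C : ℝ, 0 ≤ C ∧ ∀ (d : ℕ) (G ε : ℝ) (ν : Measure (E d)), 0 ≤ G →
    0 < ε → Growth s G ν → ∀ x : E d,
      ∫⁻ y, ENNReal.ofReal ((max ‖x - y‖ ε) ^ (-(2 * s))) ∂ν ≤ ENNReal.ofReal (C * G * ε ^ (-s)) := by
  have hr0 : (0 : ℝ) ≤ 2 ^ (-s) := by positivity
  have hr1 : (2 : ℝ) ^ (-s) < 1 := Real.rpow_lt_one_of_one_lt_of_neg (by norm_num) (by linarith)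
  refine ⟨1 + 2 ^ s * (1 - (2 : ℝ) ^ (-s))⁻¹, ?_, ?_⟩
  · have : 0 < 1 - (2 : ℝ) ^ (-s) := by linarith
    positivity
  intro d G ε ν hG hε hν x
  -- pointwise bound
  have pt : ∀ y : E d, ENNReal.ofReal ((max ‖x - y‖ ε) ^ (-(2 * s))) ≤
      (closedBall x ε).indicator (fun _ => ENNReal.ofReal (ε ^ (-(2 * s)))) y +
      ∑' k : ℕ, (closedBall x (2 ^ (k + 1) * ε)).indicator
        (fun _ => ENNReal.ofReal ((2 ^ k * ε) ^ (-(2 * s)))) y := by
    intro y
    by_cases h : ‖x - y‖ ≤ ε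
    · rw [max_eq_right h]
      have hy : y ∈ closedBall x ε := by
        rw [mem_closedBall, dist_comm, dist_eq_norm]
        exact h
      rw [indicator_of_mem hy]
      exact le_self_add
    · push Not at h
      obtain ⟨n, hn1, hn2⟩ := exists_nat_pow_near (x := ‖x - y‖ / ε) (y := (2 : ℝ))
        (by rw [one_le_div₀ hε]; exact h.le) (by norm_num)
      rw [le_div_iff₀ hε] at hn1
      rw [div_lt_iff₀ hε] at hn2
      have hy : y ∈ closedBall x (2 ^ (n + 1) * ε) := by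
        rw [mem_closedBall, dist_comm, dist_eq_norm]
        exact hn2.le
      refine le_trans ?_ (le_add_left (ENNReal.le_tsum n))
      rw [indicator_of_mem hy, max_eq_left h.le]
      refine ENNReal.ofReal_le_ofReal ?_
      exact Real.rpow_le_rpow_of_nonpos (by positivity) hn1 (by linarith)
  refine (lintegral_mono pt).trans ?_
  rw [lintegral_add_left (measurable_const.indicator measurableSet_closedBall),
    lintegral_indicator_const measurableSet_closedBall,
    lintegral_tsum fun k => (measurable_const.indicator measurableSet_closedBall).aemeasurable]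
  have e1 : ENNReal.ofReal (ε ^ (-(2 * s))) * ν (closedBall x ε) ≤
      ENNReal.ofReal (G * ε ^ (-s)) := by
    refine (mul_le_mul_right (hν x ε hε) _).trans ?_
    rw [← ENNReal.ofReal_mul (by positivity)]
    refine le_of_eq (congrArg _ ?_)
    have h1 : ε ^ (-(2 * s)) * ε ^ s = ε ^ (-s) := by
      rw [← Real.rpow_add hε]
      congr 1
      ring
    calc ε ^ (-(2 * s)) * (G * ε ^ s) = G * (ε ^ (-(2 * s)) * ε ^ s) := by ring
      _ = G * ε ^ (-s) := by rw [h1]
  have e2 : ∀ k : ℕ, ∫⁻ y, (closedBall x (2 ^ (k + 1) * ε)).indicator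
        (fun _ => ENNReal.ofReal ((2 ^ k * ε) ^ (-(2 * s)))) y ∂ν ≤
      ENNReal.ofReal (G * 2 ^ s * ε ^ (-s) * ((2 : ℝ) ^ (-s)) ^ k) := by
    intro k
    rw [lintegral_indicator_const measurableSet_closedBall]
    refine (mul_le_mul_right (hν x _ (by positivity)) _).trans ?_
    rw [← ENNReal.ofReal_mul (by positivity)]
    refine le_of_eq (congrArg _ ?_)
    have hk : (0 : ℝ) < 2 ^ k * ε := by positivity
    have h1 : ((2 : ℝ) ^ (k + 1) * ε) ^ s = 2 ^ s * (2 ^ k * ε) ^ s := by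
      rw [← Real.mul_rpow (by norm_num) hk.le]
      congr 1
      ring
    have h2 : ((2 : ℝ) ^ k * ε) ^ (-(2 * s)) * (2 ^ k * ε) ^ s = (2 ^ k * ε) ^ (-s) := by
      rw [← Real.rpow_add hk]
      congr 1
      ring
    have h3 : ((2 : ℝ) ^ k * ε) ^ (-s) = ((2 : ℝ) ^ (-s)) ^ k * ε ^ (-s) := by
      rw [Real.mul_rpow (by positivity) hε.le, ← Real.rpow_natCast, ← Real.rpow_natCast,
        ← Real.rpow_mul (by norm_num), ← Real.rpow_mul (by norm_num), mul_comm (k : ℝ)]
    calc ((2 : ℝ) ^ k * ε) ^ (-(2 * s)) * (G * ((2 : ℝ) ^ (k + 1) * ε) ^ s)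
        = G * 2 ^ s * (((2 : ℝ) ^ k * ε) ^ (-(2 * s)) * (2 ^ k * ε) ^ s) := by rw [h1]; ring
      _ = G * 2 ^ s * ε ^ (-s) * ((2 : ℝ) ^ (-s)) ^ k := by rw [h2, h3]; ring
  have hsum : Summable fun k : ℕ => G * 2 ^ s * ε ^ (-s) * ((2 : ℝ) ^ (-s)) ^ k :=
    (summable_geometric_of_lt_one hr0 hr1).mul_left _
  refine (add_le_add e1 (ENNReal.tsum_le_tsum e2)).trans ?_
  rw [← ENNReal.ofReal_tsum_of_nonneg (fun k => by positivity) hsum, tsum_mul_left,
    tsum_geometric_of_lt_one hr0 hr1,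
    ← ENNReal.ofReal_add (by positivity) (by
      have : 0 < 1 - (2 : ℝ) ^ (-s) := by linarith
      positivity)]
  refine le_of_eq (congrArg _ ?_)
  ring

theorem ger2 {s : ℝ} (hs0 : 0 < s) : ∃ C : ℝ, 0 ≤ C ∧ ∀ (d : ℕ) (G ε : ℝ) (ν : Measure (E d)), 0 ≤ G →
    0 < ε → IsFiniteMeasure ν → Growth s G ν →
      ∫⁻ x, ∫⁻ y, ∫⁻ z, ENNReal.ofReal (on s ε x y z) ∂ν ∂ν ∂ν ≤
        ENNReal.ofReal (C * G ^ 2) * ν univ := by
  obtain ⟨C1, hC1, h1⟩ := ger1 hs0
  refine ⟨3 * C1, by positivity, ?_⟩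
  intro d G ε ν hG hε hfin hν
  set A : ℝ≥0∞ := ENNReal.ofReal (C1 * G * ε ^ (-s)) with hA
  set B : ℝ≥0∞ := ENNReal.ofReal (G * ε ^ s) with hB
  set k : E d → E d → ℝ≥0∞ := fun x y => ENNReal.ofReal ((max ‖x - y‖ ε) ^ (-(2 * s))) with hk
  set I : E d → E d → ℝ≥0∞ := fun x y => (closedBall x ε).indicator (fun _ => (1 : ℝ≥0∞)) y
    with hI
  have hkm : ∀ x, Measurable (k x) := by
    intro x
    rw [hk]
    fun_prop
  have hIm : ∀ x, Measurable (I x) := fun x =>
    measurable_const.indicator measurableSet_closedBall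
  have hIi : ∀ x, ∫⁻ y, I x y ∂ν ≤ B := by
    intro x
    rw [hI, lintegral_indicator_const measurableSet_closedBall, one_mul]
    exact hν x ε hε
  have hki : ∀ x, ∫⁻ y, k x y ∂ν ≤ A := fun x => h1 d G ε ν hG hε hν x
  have hI1 : ∀ x y, ‖x - y‖ ≤ ε → I x y = 1 := by
    intro x y h
    have hy : y ∈ closedBall x ε := by
      rw [mem_closedBall, dist_comm, dist_eq_norm]
      exact h
    rw [hI]
    exact indicator_of_mem hy _
  have pt : ∀ x y z : E d, ENNReal.ofReal (on s ε x y z) ≤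
      I x y * k x z + I x z * k x y + I y z * k x y := by
    intro x y z
    unfold on
    split_ifs with h
    · have a1 : ENNReal.ofReal (om s ε x y z) ≤ k x z := by
        refine ENNReal.ofReal_le_ofReal ?_
        refine Real.rpow_le_rpow_of_nonpos (lt_max_of_lt_right hε) ?_ (by linarith)
        exact max_le_max_right _ (le_max_right _ _)
      have a2 : ENNReal.ofReal (om s ε x y z) ≤ k x y := by
        refine ENNReal.ofReal_le_ofReal ?_
        refine Real.rpow_le_rpow_of_nonpos (lt_max_of_lt_right hε) ?_ (by linarith)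
        exact max_le_max_right _ (le_max_left _ _)
      rcases h with h | h | h
      · rw [hI1 x y h, one_mul, add_assoc]
        exact a1.trans le_self_add
      · rw [hI1 x z h, one_mul]
        exact a2.trans ((le_add_left le_rfl).trans le_self_add)
      · rw [hI1 y z h, one_mul]
        exact a2.trans (le_add_left le_rfl)
    · simp
  have s1 : ∀ x y, ∫⁻ z, ENNReal.ofReal (on s ε x y z) ∂ν ≤ I x y * A + 2 * B * k x y := by
    intro x y
    refine (lintegral_mono (pt x y)).trans ?_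
    have m1 : Measurable fun z => I x y * k x z := (hkm x).const_mul _
    have m2 : Measurable fun z => I x z * k x y := (hIm x).mul_const _
    have m3 : Measurable fun z => I x y * k x z + I x z * k x y := m1.add m2
    rw [lintegral_add_left m3, lintegral_add_left m1, lintegral_const_mul _ (hkm x),
      lintegral_mul_const _ (hIm x), lintegral_mul_const _ (hIm y)]
    have b1 := mul_le_mul_right (hki x) (I x y)
    have b2 := mul_le_mul_left (hIi x) (k x y)
    have b3 := mul_le_mul_left (hIi y) (k x y)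
    refine (add_le_add (add_le_add b1 b2) b3).trans (le_of_eq ?_)
    ring
  have s2 : ∀ x, ∫⁻ y, ∫⁻ z, ENNReal.ofReal (on s ε x y z) ∂ν ∂ν ≤ 3 * (B * A) := by
    intro x
    refine (lintegral_mono (s1 x)).trans ?_
    have m1 : Measurable fun y => I x y * A := (hIm x).mul_const _
    rw [lintegral_add_left m1, lintegral_mul_const _ (hIm x), lintegral_const_mul _ (hkm x)]
    have b1 := mul_le_mul_left (hIi x) A
    have b2 := mul_le_mul_right (hki x) (2 * B)
    refine (add_le_add b1 b2).trans (le_of_eq ?_)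
    ring
  refine (lintegral_mono s2).trans ?_
  rw [lintegral_const]
  refine le_of_eq ?_
  congr 1
  rw [hA, hB, ← ENNReal.ofReal_mul (by positivity),
    show (3 : ℝ≥0∞) = ENNReal.ofReal 3 by simp, ← ENNReal.ofReal_mul (by positivity)]
  refine congrArg _ ?_
  have e : ε ^ s * ε ^ (-s) = 1 := by
    rw [← Real.rpow_add hε, add_neg_cancel, Real.rpow_zero]
  calc 3 * (G * ε ^ s * (C1 * G * ε ^ (-s))) = 3 * C1 * G ^ 2 * (ε ^ s * ε ^ (-s)) := by ring
    _ = 3 * C1 * G ^ 2 := by rw [e, mul_one]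

theorem ger3 {s ε : ℝ} (hs0 : 0 < s) (hε : 0 < ε) (ν : Measure (E d)) [IsFiniteMeasure ν] :
    U s ε ν < ∞ := by
  unfold U
  have h1 : ∫⁻ x, ∫⁻ y, ∫⁻ z, ENNReal.ofReal (om s ε x y z) ∂ν ∂ν ∂ν ≤
      ∫⁻ _x, ∫⁻ _y, ∫⁻ _z, ENNReal.ofReal (ε ^ (-(2 * s))) ∂ν ∂ν ∂ν :=
    lintegral_mono fun x => lintegral_mono fun y => lintegral_mono fun z =>
      ENNReal.ofReal_le_ofReal (om_le hs0 hε x y z)
  refine h1.trans_lt ?_
  simp only [lintegral_const]
  exact ENNReal.mul_lt_top (ENNReal.mul_lt_top (ENNReal.mul_lt_top ENNReal.ofReal_lt_top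
    (measure_lt_top ν univ)) (measure_lt_top ν univ)) (measure_lt_top ν univ)

end Pool.Agent.RSF
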