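import Pool.Agent.RSF.KJP

/-!
# SFN: size and regularity of the smooth truncations

Let `ε = 2 ^ (-n)`. In the sum `ks s ψ N n u = ∑_{j = -N}^{n} kj s ψ j u` only the `j ≤ n` with
`‖u‖ < 2 * 2^(-j)` contribute, i.e. `2^j ≤ 2 / max ‖u‖ ε` (for `j ≤ n`: `2^j ≤ 2^n = 1 / ε`).
* `ks_norm`: `‖ks u‖ ≤ ∑ C₀ (2^j)^s` over these `j`, a geometric sum bounded by
  `C₀ (2 / max ‖u‖ ε)^s / (1 - 2^(-s))` (let `J` be the largest such `j`; the sum is at most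
  `C₀ (2^J)^s ∑_{k ≥ 0} 2^(-ks)`).
* `ks_lip`: only `j ≤ n` with `min ‖u‖ ‖v‖ < 2 * 2^(-j)` contribute (otherwise both values vanish), and
  `‖kj u - kj v‖ ≤ C₀ (2^j)^(s+1) ‖u - v‖`.
A convenient general lemma: for `p > 0` and `T > 0`, for every finite set `J` of integers with `2^j ≤ T` for
`j ∈ J`: `∑ j ∈ J, ((2:ℝ)^j)^p ≤ T^p / (1 - 2^(-p))`.
-/

namespace Pool.Agent.RSF

open MeasureTheory Metric Set
open scoped ENNReal NNReal

variable {d : ℕ}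

/-- Geometric sums over integers. -/
theorem geom_le {p : ℝ} (hp : 0 < p) {T : ℝ} (hT : 0 < T) (J : Finset ℤ)
    (hJ : ∀ j ∈ J, (2 : ℝ) ^ j ≤ T) :
    ∑ j ∈ J, ((2 : ℝ) ^ j) ^ p ≤ T ^ p / (1 - 2 ^ (-p)) := by
  obtain ⟨m, hm1, hm2⟩ := exists_mem_Ico_zpow hT (by norm_num : (1 : ℝ) < 2)
  set r : ℝ := 2 ^ (-p) with hr
  have hr0 : 0 < r := Real.rpow_pos_of_pos (by norm_num) _
  have hr1 : r < 1 := Real.rpow_lt_one_of_one_lt_of_neg (by norm_num) (by linarith)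
  have hjm : ∀ j ∈ J, j ≤ m := by
    intro j hj
    have h1 : (2 : ℝ) ^ j < 2 ^ (m + 1) := lt_of_le_of_lt (hJ j hj) hm2
    have h2 : j < m + 1 := (zpow_lt_zpow_iff_right₀ (by norm_num : (1 : ℝ) < 2)).1 h1
    omega
  have hterm : ∀ j ∈ J, ((2 : ℝ) ^ j) ^ p = ((2 : ℝ) ^ m) ^ p * r ^ ((m - j).toNat) := by
    intro j hj
    have h1 : (((m - j).toNat : ℤ)) = m - j := Int.toNat_of_nonneg (by linarith [hjm j hj])
    have h2 : (2 : ℝ) ^ j = 2 ^ (j : ℝ) := (Real.rpow_intCast 2 j).symm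
    have h3 : (2 : ℝ) ^ m = 2 ^ (m : ℝ) := (Real.rpow_intCast 2 m).symm
    have h4 : r ^ ((m - j).toNat) = 2 ^ (-p * ((m : ℝ) - j)) := by
      rw [hr, ← Real.rpow_natCast, ← Real.rpow_mul (by norm_num)]
      congr 2
      have : (((m - j).toNat : ℤ) : ℝ) = ((m - j : ℤ) : ℝ) := by rw [h1]
      rw [Int.cast_natCast] at this
      rw [this]
      push_cast
      ring
    rw [h2, h3, h4, ← Real.rpow_mul (by norm_num), ← Real.rpow_mul (by norm_num),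
      ← Real.rpow_add (by norm_num)]
    congr 1
    ring
  rw [Finset.sum_congr rfl hterm, ← Finset.mul_sum]
  have hsum : ∑ j ∈ J, r ^ ((m - j).toNat) ≤ 1 / (1 - r) := by
    have hinj : Set.InjOn (fun j : ℤ => (m - j).toNat) (J : Set ℤ) := by
      intro a ha b hb hab
      have h1 := hjm a ha
      have h2 := hjm b hb
      simp only at hab
      omega
    have e1 : ∑ j ∈ J, r ^ ((m - j).toNat) =
        ∑ k ∈ J.image (fun j : ℤ => (m - j).toNat), r ^ k := by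
      rw [Finset.sum_image hinj]
    rw [e1, one_div, ← tsum_geometric_of_lt_one hr0.le hr1]
    exact (summable_geometric_of_lt_one hr0.le hr1).sum_le_tsum _ (fun k _ => by positivity)
  have h5 : ((2 : ℝ) ^ m) ^ p ≤ T ^ p := Real.rpow_le_rpow (by positivity) hm1 hp.le
  have h6 : 0 < 1 - r := by linarith
  calc ((2 : ℝ) ^ m) ^ p * ∑ j ∈ J, r ^ ((m - j).toNat)
      ≤ T ^ p * (1 / (1 - r)) := by
        apply mul_le_mul h5 hsum
        · exact Finset.sum_nonneg fun k _ => by positivity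
        · positivity
    _ = T ^ p / (1 - r) := by ring

private theorem SFN_sum {p : ℝ} (hp : 0 < p) {C₀ : ℝ} (hC : 0 ≤ C₀) (N n : ℤ) (a : ℤ → E d)
    {w : ℝ} (hw : 0 ≤ w) (h1 : ∀ j, ‖a j‖ ≤ C₀ * ((2 : ℝ) ^ j) ^ p * w) (ρ : ℝ)
    (h2 : ∀ j : ℤ, 2 * (2 : ℝ) ^ (-j) ≤ ρ → a j = 0) :
    ‖∑ j ∈ Finset.Icc (-N) n, a j‖ ≤
      C₀ * 2 ^ p / (1 - 2 ^ (-p)) * w * (max ρ ((2 : ℝ) ^ (-n))) ^ (-p) := by
  have hε : (0 : ℝ) < (2 : ℝ) ^ (-n) := by positivity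
  set D : ℝ := max ρ ((2 : ℝ) ^ (-n)) with hD
  have hD0 : 0 < D := lt_of_lt_of_le hε (le_max_right _ _)
  have hT : 0 < 2 / D := by positivity
  have hz : ∀ j ∈ Finset.Icc (-N) n, ¬ ((2 : ℝ) ^ j ≤ 2 / D) → a j = 0 := by
    intro j hj hlt
    rw [not_le, div_lt_iff₀ hD0] at hlt
    have hjn : j ≤ n := (Finset.mem_Icc.1 hj).2
    have hj0 : (0 : ℝ) < (2 : ℝ) ^ j := by positivity
    have h3 : (2 : ℝ) ^ j * (2 : ℝ) ^ (-n) ≤ 1 := by
      rw [← zpow_add₀ (by norm_num : (2 : ℝ) ≠ 0)]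
      have : (2 : ℝ) ^ (j + -n) ≤ 2 ^ (0 : ℤ) :=
        zpow_le_zpow_right₀ (by norm_num) (by omega)
      simpa using this
    apply h2
    have h4 : 2 < (2 : ℝ) ^ j * ρ := by
      rcases le_total ρ ((2 : ℝ) ^ (-n)) with h | h
      · rw [hD, max_eq_right h] at hlt
        linarith
      · rw [hD, max_eq_left h] at hlt
        exact hlt
    rw [zpow_neg]
    have h5 : 2 * ((2 : ℝ) ^ j)⁻¹ = 2 / (2 : ℝ) ^ j := by rw [div_eq_mul_inv]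
    rw [h5, div_le_iff₀ hj0]
    linarith [mul_comm ρ ((2 : ℝ) ^ j)]
  have hg := geom_le hp hT ((Finset.Icc (-N) n).filter fun j : ℤ => (2 : ℝ) ^ j ≤ 2 / D)
    (fun j hj => (Finset.mem_filter.1 hj).2)
  have hs : ∑ j ∈ Finset.Icc (-N) n, a j =
      ∑ j ∈ (Finset.Icc (-N) n).filter (fun j : ℤ => (2 : ℝ) ^ j ≤ 2 / D), a j := by
    symm
    apply Finset.sum_subset (Finset.filter_subset _ _)
    intro j hj hj2
    apply hz j hj
    intro h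
    exact hj2 (Finset.mem_filter.2 ⟨hj, h⟩)
  have hTp : (2 / D) ^ p = 2 ^ p * D ^ (-p) := by
    rw [Real.div_rpow (by norm_num) hD0.le, Real.rpow_neg hD0.le, div_eq_mul_inv]
  rw [hs]
  calc ‖∑ j ∈ (Finset.Icc (-N) n).filter (fun j : ℤ => (2 : ℝ) ^ j ≤ 2 / D), a j‖
      ≤ ∑ j ∈ (Finset.Icc (-N) n).filter (fun j : ℤ => (2 : ℝ) ^ j ≤ 2 / D),
          C₀ * ((2 : ℝ) ^ j) ^ p * w :=
        (norm_sum_le _ _).trans (Finset.sum_le_sum fun j _ => h1 j)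
    _ = C₀ * w * ∑ j ∈ (Finset.Icc (-N) n).filter (fun j : ℤ => (2 : ℝ) ^ j ≤ 2 / D),
          ((2 : ℝ) ^ j) ^ p := by
        rw [Finset.mul_sum]
        exact Finset.sum_congr rfl fun j _ => by ring
    _ ≤ C₀ * w * ((2 / D) ^ p / (1 - 2 ^ (-p))) :=
        mul_le_mul_of_nonneg_left hg (by positivity)
    _ = C₀ * 2 ^ p / (1 - 2 ^ (-p)) * w * D ^ (-p) := by
        rw [hTp]
        ring

private theorem SFN_pos {p : ℝ} (hp : 0 < p) : (0 : ℝ) < 1 - 2 ^ (-p) := by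
  have : (2 : ℝ) ^ (-p) < 1 := Real.rpow_lt_one_of_one_lt_of_neg (by norm_num) (by linarith)
  linarith

theorem ks_norm {s : ℝ} (hs0 : 0 < s) {ψ : E d → ℝ} (hψ : Adm ψ) :
    ∃ C₁ : ℝ, 0 < C₁ ∧ ∀ (N n : ℤ) (u : E d),
      ‖ks s ψ N n u‖ ≤ C₁ * (max ‖u‖ ((2 : ℝ) ^ (-n))) ^ (-s) := by
  obtain ⟨C₀, hC, hb, _⟩ := kj_bounds hs0 hψ
  have hp := SFN_pos hs0
  refine ⟨C₀ * 2 ^ s / (1 - 2 ^ (-s)), by positivity, fun N n u => ?_⟩
  have := SFN_sum hs0 (by linarith : (0 : ℝ) ≤ C₀) N n (fun j => kj s ψ j u)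
    (w := 1) zero_le_one (fun j => by simpa using hb j u) ‖u‖
    (fun j hj => kj_zero s hψ j u hj)
  simpa [ks] using this

theorem ks_lip {s : ℝ} (hs0 : 0 < s) {ψ : E d → ℝ} (hψ : Adm ψ) :
    ∃ C₁ : ℝ, 0 < C₁ ∧ ∀ (N n : ℤ) (u v : E d),
      ‖ks s ψ N n u - ks s ψ N n v‖ ≤
        C₁ * ‖u - v‖ * (max (min ‖u‖ ‖v‖) ((2 : ℝ) ^ (-n))) ^ (-(s + 1)) := by
  obtain ⟨C₀, hC, _, hb⟩ := kj_bounds hs0 hψ
  have hs1 : 0 < s + 1 := by linarith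
  have hp := SFN_pos hs1
  refine ⟨C₀ * 2 ^ (s + 1) / (1 - 2 ^ (-(s + 1))), by positivity, fun N n u v => ?_⟩
  have := SFN_sum hs1 (by linarith : (0 : ℝ) ≤ C₀) N n (fun j => kj s ψ j u - kj s ψ j v)
    (w := ‖u - v‖) (norm_nonneg _) (fun j => hb j u v) (min ‖u‖ ‖v‖)
    (fun j hj => by
      rw [kj_zero s hψ j u (hj.trans (min_le_left _ _)),
        kj_zero s hψ j v (hj.trans (min_le_right _ _)), sub_zero])
  unfold ks
  rw [← Finset.sum_sub_distrib]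
  exact this

end Pool.Agent.RSF
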