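import Pool.Agent.RSF.ORT
import Pool.Agent.RSF.GER
import Pool.Agent.RSF.SFN

/-!
# THU: densities and the truncated Wolff energy

`Th j x² = (2^j)^(2s) ∫∫ 1[‖x - y‖ ≤ 4 * 2^(-j)] 1[‖x - z‖ ≤ 4 * 2^(-j)] dν(y) dν(z)`. For fixed `x, y, z` the sum over `j ≤ n`
of `((2^j)^(2s)` over those `j` with `mx x y z ≤ 4 * 2^(-j)` is over `j` with `2^j ≤ min (4 / mx) 2^n ≤ 4 / max mx ε`,
`ε = 2^(-n)` (for `mx ≤ ε`: `2^j ≤ 2^n = 1/ε`), so by `geom_le` (`p = 2s`) it is at most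
`(4 / max mx ε)^(2s) / (1 - 2^(-2s)) = 4^(2s) / (1 - 2^(-2s)) * om s ε x y z`. Integrate
(`lintegral_const_mul`, `lintegral_finset_sum`).
-/

namespace Pool.Agent.RSF

open MeasureTheory Metric Set
open scoped ENNReal NNReal

variable {d : ℕ}

private lemma THU_pt {s : ℝ} (hs0 : 0 < s) (N n : ℤ) (x y z : E d) :
    ∑ j ∈ Finset.Icc (-N) n, (closedBall x (4 * (2 : ℝ) ^ (-j))).indicator (fun _ => (1 : ℝ≥0∞)) y *
        (closedBall x (4 * (2 : ℝ) ^ (-j))).indicator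
          (fun _ => ENNReal.ofReal (((2 : ℝ) ^ j) ^ (2 * s))) z ≤
      ENNReal.ofReal ((4 : ℝ) ^ (2 * s) / (1 - (2 : ℝ) ^ (-(2 * s)))) *
        ENNReal.ofReal (om s ((2 : ℝ) ^ (-n)) x y z) := by
  classical
  have h1 : (2 : ℝ) ^ (-(2 * s)) < 1 :=
    Real.rpow_lt_one_of_one_lt_of_neg (by norm_num) (by linarith)
  have hp : 0 < 2 * s := by linarith
  obtain ⟨m, hm⟩ : ∃ m : ℝ, m = max (mx x y z) ((2 : ℝ) ^ (-n)) := ⟨_, rfl⟩
  have hm0 : 0 < m := by
    rw [hm]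
    exact lt_of_lt_of_le (by positivity) (le_max_right _ _)
  obtain ⟨J, hJ⟩ : ∃ J : Finset ℤ, J = (Finset.Icc (-N) n).filter
      (fun j => y ∈ closedBall x (4 * (2 : ℝ) ^ (-j)) ∧ z ∈ closedBall x (4 * (2 : ℝ) ^ (-j))) :=
    ⟨_, rfl⟩
  have hsum : ∑ j ∈ Finset.Icc (-N) n,
      (closedBall x (4 * (2 : ℝ) ^ (-j))).indicator (fun _ => (1 : ℝ≥0∞)) y *
        (closedBall x (4 * (2 : ℝ) ^ (-j))).indicator
          (fun _ => ENNReal.ofReal (((2 : ℝ) ^ j) ^ (2 * s))) z =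
      ∑ j ∈ J, ENNReal.ofReal (((2 : ℝ) ^ j) ^ (2 * s)) := by
    rw [hJ, Finset.sum_filter]
    refine Finset.sum_congr rfl fun j _ => ?_
    by_cases hy : y ∈ closedBall x (4 * (2 : ℝ) ^ (-j))
    · by_cases hz : z ∈ closedBall x (4 * (2 : ℝ) ^ (-j))
      · rw [indicator_of_mem hy, indicator_of_mem hz, if_pos ⟨hy, hz⟩, one_mul]
      · rw [indicator_of_notMem hz, if_neg (fun h => hz h.2), mul_zero]
    · rw [indicator_of_notMem hy, if_neg (fun h => hy h.1), zero_mul]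
  rw [hsum, ← ENNReal.ofReal_sum_of_nonneg (fun j _ => by positivity),
    ← ENNReal.ofReal_mul (div_nonneg (by positivity) (by linarith))]
  apply ENNReal.ofReal_le_ofReal
  have hT : ∀ j ∈ J, (2 : ℝ) ^ j ≤ 4 / m := by
    intro j hj
    rw [hJ, Finset.mem_filter, Finset.mem_Icc, mem_closedBall', mem_closedBall', dist_eq_norm,
      dist_eq_norm] at hj
    obtain ⟨⟨-, hjn⟩, hy, hz⟩ := hj
    have h2j : (0 : ℝ) < (2 : ℝ) ^ j := by positivity
    have hmle : m ≤ 4 * (2 : ℝ) ^ (-j) := by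
      rw [hm]
      refine max_le (max_le hy hz) ?_
      have h3 : (2 : ℝ) ^ (-n) ≤ (2 : ℝ) ^ (-j) :=
        zpow_le_zpow_right₀ (by norm_num) (by omega)
      have h4 : (0 : ℝ) < (2 : ℝ) ^ (-j) := by positivity
      linarith
    rw [le_div_iff₀ hm0]
    calc (2 : ℝ) ^ j * m ≤ (2 : ℝ) ^ j * (4 * (2 : ℝ) ^ (-j)) :=
          mul_le_mul_of_nonneg_left hmle h2j.le
      _ = 4 := by
          rw [zpow_neg]
          field_simp
  refine (geom_le hp (by positivity : (0 : ℝ) < 4 / m) J hT).trans (le_of_eq ?_)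
  have hom : om s ((2 : ℝ) ^ (-n)) x y z = m ^ (-(2 * s)) := by
    rw [hm]
    rfl
  rw [hom, Real.div_rpow (by norm_num) hm0.le, Real.rpow_neg hm0.le]
  rw [div_div, div_mul_eq_mul_div, ← div_eq_mul_inv, div_div, mul_comm (m ^ (2 * s))]

private lemma THU_sq {s : ℝ} (ν : Measure (E d)) [IsFiniteMeasure ν] (x : E d) (j : ℤ) :
    ENNReal.ofReal (Th s j ν x ^ 2) =
      ∫⁻ y, ∫⁻ z, (closedBall x (4 * (2 : ℝ) ^ (-j))).indicator (fun _ => (1 : ℝ≥0∞)) y *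
        (closedBall x (4 * (2 : ℝ) ^ (-j))).indicator
          (fun _ => ENNReal.ofReal (((2 : ℝ) ^ j) ^ (2 * s))) z ∂ν ∂ν := by
  have hB : MeasurableSet (closedBall x (4 * (2 : ℝ) ^ (-j))) := measurableSet_closedBall
  have h1 : ∀ y : E d, ∫⁻ z, (closedBall x (4 * (2 : ℝ) ^ (-j))).indicator (fun _ => (1 : ℝ≥0∞)) y *
        (closedBall x (4 * (2 : ℝ) ^ (-j))).indicator
          (fun _ => ENNReal.ofReal (((2 : ℝ) ^ j) ^ (2 * s))) z ∂ν =
      (closedBall x (4 * (2 : ℝ) ^ (-j))).indicator (fun _ => (1 : ℝ≥0∞)) y *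
        (ENNReal.ofReal (((2 : ℝ) ^ j) ^ (2 * s)) * ν (closedBall x (4 * (2 : ℝ) ^ (-j)))) := by
    intro y
    rw [lintegral_const_mul _ (measurable_const.indicator hB), lintegral_indicator_const hB]
  simp_rw [h1]
  rw [lintegral_mul_const _ (measurable_const.indicator hB), lintegral_indicator_const hB, one_mul]
  unfold Th
  have h2 : ν (closedBall x (4 * (2 : ℝ) ^ (-j))) =
      ENNReal.ofReal (ν.real (closedBall x (4 * (2 : ℝ) ^ (-j)))) := by
    rw [Measure.real, ENNReal.ofReal_toReal (measure_ne_top _ _)]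
  rw [h2, ← ENNReal.ofReal_mul (by positivity), ← ENNReal.ofReal_mul measureReal_nonneg]
  congr 1
  have h3 : ((2 : ℝ) ^ j) ^ (2 * s) = (((2 : ℝ) ^ j) ^ s) ^ 2 := by
    rw [← Real.rpow_natCast, ← Real.rpow_mul (by positivity)]
    congr 1
    push_cast
    ring
  rw [h3]
  ring

theorem thu {s : ℝ} (hs0 : 0 < s) : ∃ C : ℝ, 0 ≤ C ∧ ∀ (d : ℕ) (ν : Measure (E d)), IsFiniteMeasure ν →
    ∀ (N n : ℤ), ENNReal.ofReal (∑ j ∈ Finset.Icc (-N) n, ∫ x, Th s j ν x ^ 2 ∂ν) ≤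
      ENNReal.ofReal C * U s ((2 : ℝ) ^ (-n)) ν := by
  have h1 : (2 : ℝ) ^ (-(2 * s)) < 1 :=
    Real.rpow_lt_one_of_one_lt_of_neg (by norm_num) (by linarith)
  refine ⟨(4 : ℝ) ^ (2 * s) / (1 - (2 : ℝ) ^ (-(2 * s))),
    div_nonneg (by positivity) (by linarith), ?_⟩
  intro d ν hν N n
  have hmeas : ∀ j : ℤ, Measurable (fun x => ENNReal.ofReal (Th s j ν x ^ 2)) := fun j =>
    ((measurable_Th s j ν).pow_const 2).ennreal_ofReal
  have hstep : ∀ j : ℤ, ENNReal.ofReal (∫ x, Th s j ν x ^ 2 ∂ν) ≤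
      ∫⁻ x, ENNReal.ofReal (Th s j ν x ^ 2) ∂ν := by
    intro j
    rw [integral_eq_lintegral_of_nonneg_ae (Filter.Eventually.of_forall fun x => sq_nonneg _)
      ((measurable_Th s j ν).pow_const 2).aestronglyMeasurable]
    exact ENNReal.ofReal_toReal_le
  rw [ENNReal.ofReal_sum_of_nonneg (fun j _ => integral_nonneg fun x => sq_nonneg _)]
  refine (Finset.sum_le_sum fun j _ => hstep j).trans ?_
  rw [← lintegral_finsetSum _ (fun j _ => hmeas j)]
  unfold U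
  rw [← lintegral_const_mul' _ _ ENNReal.ofReal_ne_top]
  refine lintegral_mono fun x => ?_
  have hB : ∀ j : ℤ, MeasurableSet (closedBall x (4 * (2 : ℝ) ^ (-j))) :=
    fun j => measurableSet_closedBall
  have hmz : ∀ (j : ℤ) (y : E d), Measurable (fun z : E d =>
      (closedBall x (4 * (2 : ℝ) ^ (-j))).indicator (fun _ => (1 : ℝ≥0∞)) y *
        (closedBall x (4 * (2 : ℝ) ^ (-j))).indicator
          (fun _ => ENNReal.ofReal (((2 : ℝ) ^ j) ^ (2 * s))) z) := by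
    intro j y
    exact (measurable_const.indicator (hB j)).const_mul _
  have hmy : ∀ j : ℤ, Measurable (fun y : E d => ∫⁻ z,
      (closedBall x (4 * (2 : ℝ) ^ (-j))).indicator (fun _ => (1 : ℝ≥0∞)) y *
        (closedBall x (4 * (2 : ℝ) ^ (-j))).indicator
          (fun _ => ENNReal.ofReal (((2 : ℝ) ^ j) ^ (2 * s))) z ∂ν) := by
    intro j
    have h5 : ∀ y : E d, ∫⁻ z,
      (closedBall x (4 * (2 : ℝ) ^ (-j))).indicator (fun _ => (1 : ℝ≥0∞)) y *
        (closedBall x (4 * (2 : ℝ) ^ (-j))).indicator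
          (fun _ => ENNReal.ofReal (((2 : ℝ) ^ j) ^ (2 * s))) z ∂ν =
        (closedBall x (4 * (2 : ℝ) ^ (-j))).indicator (fun _ => (1 : ℝ≥0∞)) y *
          ∫⁻ z, (closedBall x (4 * (2 : ℝ) ^ (-j))).indicator
            (fun _ => ENNReal.ofReal (((2 : ℝ) ^ j) ^ (2 * s))) z ∂ν := fun y =>
      lintegral_const_mul _ (measurable_const.indicator (hB j))
    simp_rw [h5]
    exact (measurable_const.indicator (hB j)).mul_const _
  simp_rw [THU_sq]
  rw [← lintegral_finsetSum _ (fun j _ => hmy j), ← lintegral_const_mul' _ _ ENNReal.ofReal_ne_top]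
  refine lintegral_mono fun y => ?_
  rw [← lintegral_finsetSum _ (fun j _ => hmz j y), ← lintegral_const_mul' _ _ ENNReal.ofReal_ne_top]
  exact lintegral_mono fun z => THU_pt hs0 N n x y z

end Pool.Agent.RSF
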