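import Pool.Agent.RSF.TRR
import Pool.Agent.RSF.SFT
import Pool.Agent.RSF.ORS
import Pool.Agent.RSF.THU

/-!
# TQQ: a bounded square function gives the Wolff energy condition

`A` bounded measurable, `ν = μ.restrict A` (finite, growth). Choose `N` with `2^(N-1) >` the diameter of `A` (and
`-N ≤ 0`), `n ≥ 0`, `ε = 2^(-n)`, `k = ks s ψ N n`; `∫ k(x - y) dν(y) = ∑_{j ∈ Icc (-N) n} Rj j ν x`.
* LOWER: `low` with `sft_pw`: `c U ≤ 3 ∫ ‖∑ Rj‖² dν + C G² ν(univ)`.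
* UPPER: `ors`: `∫ ‖∑ Rj‖² dν ≤ (2k₀+1) ∑_j ∫ ‖Rj‖² dν + C 2^(-k₀) ∑_j ∫ Th j² dν`. Here
  `∑_j ∫ ‖Rj‖² dν ≤ ∫ ∑'_j ‖∫ (f y * (ψ - ψ) * ‖x-y‖^(-(s+1))) • (x - y) dμ‖² dμ ≤ C_Q μ(A)` for `f = indicator A 1`
  (`kj s ψ j (x - y)` is the kernel in `QB`), and `∑_j ∫ Th j² ≤ C U` (`thu`).
* Choose `k₀` with `3 C C' 2^(-k₀) ≤ c / 2`; `U < ∞` (`ger3`) can be subtracted: `(c/2) U ≤ C'' μ(A)` with `C''`
  independent of `A`, `N`, `n`. Then `wb_of_U`.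
-/

namespace Pool.Agent.RSF

open MeasureTheory Metric Set
open scoped ENNReal NNReal

variable {d : ℕ}


private theorem TQQ_sum (s : ℝ) {ψ : E d → ℝ} (hs0 : 0 < s) (hψ : Adm ψ) (ν : Measure (E d))
    [IsFiniteMeasure ν] (N n : ℤ) (x : E d) :
    ∫ y, ks s ψ N n (x - y) ∂ν = ∑ j ∈ Finset.Icc (-N) n, Rj s ψ j ν x := by
  obtain ⟨C₀, hC₀, hkj, -⟩ := kj_bounds hs0 hψ
  unfold ks Rj
  rw [integral_finsetSum]
  intro j _
  exact Integrable.of_bound ((continuous_kj hs0 hψ j).comp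
    (continuous_const.sub continuous_id)).aestronglyMeasurable (C₀ * ((2 : ℝ) ^ j) ^ s)
    (Filter.Eventually.of_forall fun y => hkj j _)

private theorem TQQ_sq (F : E d → E d) (hF : Measurable F) (B : ℝ) (hB : ∀ x, ‖F x‖ ≤ B)
    (ν : Measure (E d)) [IsFiniteMeasure ν] :
    ∫⁻ x, ‖F x‖ₑ ^ 2 ∂ν = ENNReal.ofReal (∫ x, ‖F x‖ ^ 2 ∂ν) := by
  have hi : Integrable (fun x => ‖F x‖ ^ 2) ν :=
    Integrable.of_bound (hF.norm.pow_const 2).aestronglyMeasurable (B ^ 2)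
      (Filter.Eventually.of_forall fun x => by
        rw [Real.norm_of_nonneg (by positivity)]
        exact pow_le_pow_left₀ (norm_nonneg _) (hB x) 2)
  rw [ofReal_integral_eq_lintegral_ofReal hi (Filter.Eventually.of_forall fun x => by positivity)]
  refine lintegral_congr fun x => ?_
  rw [ENNReal.ofReal_pow (norm_nonneg _), ofReal_norm]

theorem wb_of_QB {s : ℝ} (hs0 : 0 < s) (hs1 : s < 1) {ψ : E d → ℝ} (hψ : Adm ψ) (μ : Measure (E d))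
    [IsLocallyFiniteMeasure μ] (h : QB s ψ μ) {G : ℝ} (hG0 : 0 < G) (hG : Growth s G μ) :
    WB s μ := by
  obtain ⟨CQ, hCQ⟩ := h
  obtain ⟨C', hC', hlow⟩ := low hs0
  obtain ⟨c, C, hc, hC, hpw⟩ := sft_pw hs0 hs1 hψ
  obtain ⟨C₂, hC₂, hors⟩ := ors hs0 hψ
  obtain ⟨C₃, hC₃, hthu⟩ := thu hs0
  obtain ⟨C₁, hC₁, hks⟩ := ks_norm hs0 hψ
  obtain ⟨C₀, hC₀, hkj, -⟩ := kj_bounds hs0 hψ
  obtain ⟨k₀, hk₀⟩ := exists_pow_lt_of_lt_one
    (show 0 < c / (2 * (3 * C₂ * C₃ + 1)) by positivity) (by norm_num : (1 / 2 : ℝ) < 1)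
  have hk₀' : 3 * (C₂ * (1 / 2) ^ k₀ * C₃) ≤ c / 2 := by
    rw [lt_div_iff₀ (by positivity)] at hk₀
    have : (0 : ℝ) < (1 / 2) ^ k₀ := by positivity
    nlinarith
  set X : ℝ≥0 := 3 * ((2 * k₀ + 1 : ℝ).toNNReal * CQ) + (C * C' * G ^ 2).toNNReal with hX
  set D : ℝ≥0 := X / (c / 2).toNNReal with hD
  have hc' : ((c / 2).toNNReal : ℝ≥0∞) ≠ 0 := by
    rw [ENNReal.coe_ne_zero]; exact (Real.toNNReal_pos.2 (by positivity)).ne'
  refine wb_of_U hs0 μ D fun A hA hAb => ⟨0, fun n _ => ?_⟩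
  set ε : ℝ := (2 : ℝ) ^ (-(n : ℤ)) with hε
  have hε0 : 0 < ε := by positivity
  have hμA : μ A < ∞ := hAb.measure_lt_top
  have hfin : IsFiniteMeasure (μ.restrict A) := ⟨by rwa [Measure.restrict_apply_univ]⟩
  set ν := μ.restrict A with hν
  obtain ⟨D₀, hD₀⟩ := Metric.isBounded_iff.1 hAb
  obtain ⟨N₀, hN₀⟩ := pow_unbounded_of_one_lt D₀ (by norm_num : (1 : ℝ) < 2)
  set N : ℤ := (N₀ : ℤ) + 1 with hN
  have hND : ∀ x ∈ A, ∀ y ∈ A, ‖x - y‖ < (2 : ℝ) ^ (N - 1) := by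
    intro x hx y hy
    have e1 : (2 : ℝ) ^ (N - 1) = 2 ^ N₀ := by
      rw [hN, add_sub_cancel_right, zpow_natCast]
    rw [e1, ← dist_eq_norm]
    exact (hD₀ hx hy).trans_lt hN₀
  have hNn : -N ≤ (n : ℤ) := by omega
  have hAc : ν Aᶜ = 0 := by
    rw [hν, Measure.restrict_apply hA.compl]; simp
  have hkm : Measurable (ks s ψ N n) := by
    have : ks s ψ N n = fun u => ∑ j ∈ Finset.Icc (-N) (n : ℤ), kj s ψ j u := rfl
    rw [this]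
    exact (continuous_finsetSum _ fun j _ => continuous_kj hs0 hψ j).measurable
  have hkb : ∀ u, ‖ks s ψ N n u‖ ≤ C₁ * ε ^ (-s) := fun u =>
    (hks N n u).trans (mul_le_mul_of_nonneg_left (Real.rpow_le_rpow_of_nonpos hε0
      (le_max_right _ _) (by linarith)) hC₁.le)
  have h2 := hlow d c C (C₁ * ε ^ (-s)) G ε (ks s ψ N n) ν A hc hC hG0.le hε0
    hkm hkb hfin (hG.restrict A) hAc
    (fun x hx y hy z hz => hpw N n hNn x y z (hND x hx y hy) (hND x hx z hz) (hND y hy z hz))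
  have hνu : ν univ = μ A := by rw [hν, Measure.restrict_apply_univ]
  rw [hνu] at h2
  simp only [TQQ_sum s hs0 hψ ν N n] at h2
  have hRm : ∀ j, Measurable (Rj s ψ j ν) := fun j => measurable_Rj hs0 hψ j ν
  have hRb : ∀ j x, ‖Rj s ψ j ν x‖ ≤ C₀ * ((2 : ℝ) ^ j) ^ s * ν.real univ := fun j x =>
    norm_integral_le_of_norm_le_const (Filter.Eventually.of_forall fun y => hkj j _)
  have hSm : Measurable (fun x => ∑ j ∈ Finset.Icc (-N) (n : ℤ), Rj s ψ j ν x) :=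
    Finset.measurable_sum _ fun j _ => hRm j
  have hSb : ∀ x, ‖∑ j ∈ Finset.Icc (-N) (n : ℤ), Rj s ψ j ν x‖ ≤
      ∑ j ∈ Finset.Icc (-N) (n : ℤ), C₀ * ((2 : ℝ) ^ j) ^ s * ν.real univ := fun x =>
    (norm_sum_le _ _).trans (Finset.sum_le_sum fun j _ => hRb j x)
  rw [TQQ_sq _ hSm _ hSb ν] at h2
  -- the square function bound
  set f : E d → ℝ := A.indicator (fun _ => (1 : ℝ)) with hf
  have hfL : MemLp f 2 μ := memLp_indicator_const 2 hA 1 (Or.inr hμA.ne)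
  have hfn : ∫⁻ x, ‖f x‖ₑ ^ 2 ∂μ = μ A := by
    have e1 : (fun x => ‖f x‖ₑ ^ 2) = A.indicator (fun _ => (1 : ℝ≥0∞)) := by
      funext x
      by_cases hx : x ∈ A
      · simp [hf, hx]
      · simp [hf, hx]
    rw [e1, lintegral_indicator hA]
    simp
  have hker : ∀ (j : ℤ) (x : E d), ∫ y, (f y * (ψ ((2 : ℝ) ^ j • (x - y)) -
      ψ ((2 : ℝ) ^ (j + 1) • (x - y))) * ‖x - y‖ ^ (-(s + 1))) • (x - y) ∂μ = Rj s ψ j ν x := by
    intro j x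
    unfold Rj
    rw [hν, ← integral_indicator hA]
    refine integral_congr_ae (Filter.Eventually.of_forall fun y => ?_)
    simp only [hf, kj]
    by_cases hy : y ∈ A <;> simp [hy, indicator]
  have hQ := hCQ f hfL
  simp only [hker] at hQ
  rw [hfn] at hQ
  have h3 : ENNReal.ofReal (∑ j ∈ Finset.Icc (-N) (n : ℤ), ∫ x, ‖Rj s ψ j ν x‖ ^ 2 ∂ν) ≤
      (CQ : ℝ≥0∞) * μ A := by
    rw [ENNReal.ofReal_sum_of_nonneg fun j _ => integral_nonneg fun x => by positivity]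
    calc ∑ j ∈ Finset.Icc (-N) (n : ℤ), ENNReal.ofReal (∫ x, ‖Rj s ψ j ν x‖ ^ 2 ∂ν)
        = ∑ j ∈ Finset.Icc (-N) (n : ℤ), ∫⁻ x, ‖Rj s ψ j ν x‖ₑ ^ 2 ∂ν :=
          Finset.sum_congr rfl fun j _ => (TQQ_sq _ (hRm j) _ (hRb j) ν).symm
      _ = ∫⁻ x, ∑ j ∈ Finset.Icc (-N) (n : ℤ), ‖Rj s ψ j ν x‖ₑ ^ 2 ∂ν :=
          (lintegral_finsetSum _ fun j _ => (hRm j).enorm.pow_const 2).symm
      _ ≤ ∫⁻ x, ∑' j : ℤ, ‖Rj s ψ j ν x‖ₑ ^ 2 ∂ν := lintegral_mono fun x =>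
          ENNReal.sum_le_tsum _
      _ ≤ ∫⁻ x, ∑' j : ℤ, ‖Rj s ψ j ν x‖ₑ ^ 2 ∂μ := setLIntegral_le_lintegral _ _
      _ ≤ _ := hQ
  have h4 := hthu d ν hfin N n
  have h5 : ENNReal.ofReal (∫ x, ‖∑ j ∈ Finset.Icc (-N) (n : ℤ), Rj s ψ j ν x‖ ^ 2 ∂ν) ≤
      ((2 * k₀ + 1 : ℝ).toNNReal : ℝ≥0∞) * ((CQ : ℝ≥0∞) * μ A) +
        ENNReal.ofReal (C₂ * (1 / 2) ^ k₀) * (ENNReal.ofReal C₃ * U s ε ν) := by
    refine (ENNReal.ofReal_le_ofReal (hors ν hfin N n k₀)).trans ?_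
    refine ENNReal.ofReal_add_le.trans ?_
    rw [ENNReal.ofReal_mul (by positivity), ENNReal.ofReal_mul (by positivity)]
    exact add_le_add (mul_le_mul_right h3 _) (mul_le_mul_right h4 _)
  have hU : U s ε ν < ∞ := ger3 hs0 hε0 ν
  have h6 : ENNReal.ofReal (c / 2) * U s ε ν + ENNReal.ofReal (c / 2) * U s ε ν ≤
      (X : ℝ≥0∞) * μ A + ENNReal.ofReal (c / 2) * U s ε ν := by
    rw [← add_mul, ← ENNReal.ofReal_add (by positivity) (by positivity), add_halves]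
    refine h2.trans ?_
    calc _ ≤ 3 * (((2 * k₀ + 1 : ℝ).toNNReal : ℝ≥0∞) * ((CQ : ℝ≥0∞) * μ A) +
          ENNReal.ofReal (C₂ * (1 / 2) ^ k₀) * (ENNReal.ofReal C₃ * U s ε ν)) +
            ENNReal.ofReal (C * C' * G ^ 2) * μ A := add_le_add (mul_le_mul_right h5 3) le_rfl
      _ = (X : ℝ≥0∞) * μ A + ENNReal.ofReal (3 * (C₂ * (1 / 2) ^ k₀ * C₃)) * U s ε ν := by
          rw [hX]
          push_cast
          rw [ENNReal.ofReal_mul (by norm_num : (0 : ℝ) ≤ 3),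
            ENNReal.ofReal_mul (by positivity : (0 : ℝ) ≤ C₂ * (1 / 2) ^ k₀),
            ENNReal.ofReal_ofNat]
          simp only [ENNReal.ofReal]
          ring
      _ ≤ _ := add_le_add le_rfl (mul_le_mul_left (ENNReal.ofReal_le_ofReal hk₀') _)
  have h7 : ((c / 2).toNNReal : ℝ≥0∞) * U s ε ν ≤ (X : ℝ≥0∞) * μ A :=
    (ENNReal.add_le_add_iff_right (ENNReal.mul_lt_top ENNReal.ofReal_lt_top hU).ne).1 h6
  rw [hD, ENNReal.coe_div (by exact_mod_cast hc')]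
  rw [mul_comm] at h7
  rw [ENNReal.div_eq_inv_mul, mul_assoc]
  rw [← ENNReal.div_eq_inv_mul]
  exact (ENNReal.le_div_iff_mul_le (Or.inl hc') (Or.inl ENNReal.coe_ne_top)).2 h7

end Pool.Agent.RSF
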