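import Pool.Agent.RSF.RBD
import Pool.Agent.RSF.QBD
import Pool.Agent.RSF.GRQ
import Pool.Agent.RSF.TQQ

/-!
# FIN: the equivalence
-/

namespace Pool.Agent.RSF

open MeasureTheory Metric Set
open scoped ENNReal NNReal

variable {d : ℕ}

theorem rb0_of_RB {s : ℝ} {μ : Measure (E d)} (h : RB s μ) : RB0 s μ := by
  obtain ⟨C, hC⟩ := h.2
  exact ⟨C, fun ε hε f hf _ => hC ε hε f hf⟩

theorem equiv_all {s : ℝ} (hs0 : 0 < s) (hs1 : s < 1) {ψ : E d → ℝ} (hψ : Adm ψ)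
    (μ : Measure (E d)) [IsLocallyFiniteMeasure μ] [NullSingletonClass μ] :
    List.TFAE [RB s μ, RB0 s μ, QB s ψ μ, WB s μ] := by
  tfae_have 1 → 2 := rb0_of_RB
  tfae_have 2 → 4 := by
    intro h
    obtain ⟨G, hG0, hG⟩ := growth_of_RB0 hs0 μ h
    exact wb_of_RB0 hs0 hs1 μ h hG0 hG
  tfae_have 3 → 4 := by
    intro h
    obtain ⟨G, hG0, hG⟩ := growth_of_QB hs0 hψ μ h
    exact wb_of_QB hs0 hs1 hψ μ h hG0 hG
  tfae_have 4 → 1 := rb_of_WB hs0 hs1 μ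
  tfae_have 4 → 3 := qb_of_WB hs0 hψ μ
  tfae_finish

end Pool.Agent.RSF
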