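import Pool.Agent.RSF.Defs

/-!
# GRD: shifted dyadic grids (the one-third trick)
-/

namespace Pool.Agent.RSF

open MeasureTheory Metric Set
open scoped ENNReal NNReal

variable {d : ℕ}

/-- The index of the cell of level `k` of the grid `α` containing `x`. -/
noncomputable def cl (α : Fin d → Bool) (k : ℤ) (x : E d) : Fin d → ℤ :=
  fun i => ⌊(2 : ℝ) ^ k * x i + (if α i then (-1 : ℝ) ^ k / 3 else 0)⌋

theorem measurable_cl (α : Fin d → Bool) (k : ℤ) : Measurable (cl α k) := by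
  rw [measurable_pi_iff]
  intro i
  have h : Continuous (fun x : E d => (2 : ℝ) ^ k * x i + (if α i then (-1 : ℝ) ^ k / 3 else 0)) := by
    fun_prop
  exact Int.measurable_floor.comp h.measurable

private theorem GRD_half {y y' : ℝ} (h : ⌊2 * y⌋ = ⌊2 * y'⌋) : ⌊y⌋ = ⌊y'⌋ := by
  have h1 := Int.floor_le y
  have h2 := Int.lt_floor_add_one y
  have h3 := Int.floor_le (2 * y)
  have h4 := Int.lt_floor_add_one (2 * y)
  have h5 := Int.floor_le (2 * y')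
  have h6 := Int.lt_floor_add_one (2 * y')
  have h7 : 2 * ⌊y⌋ ≤ ⌊2 * y⌋ := by
    rw [Int.le_floor]; push_cast; linarith
  have h8 : ⌊2 * y⌋ < 2 * ⌊y⌋ + 2 := by
    rw [Int.floor_lt]; push_cast; linarith
  rw [← h] at h5 h6
  have h7' : (2 : ℝ) * (⌊y⌋ : ℝ) ≤ (⌊2 * y⌋ : ℝ) := by exact_mod_cast h7
  have h8' : (⌊2 * y⌋ : ℝ) + 1 ≤ 2 * (⌊y⌋ : ℝ) + 2 := by exact_mod_cast h8
  symm
  rw [Int.floor_eq_iff]
  constructor <;> linarith

private theorem GRD_sgn (k : ℤ) : ((-1 : ℝ) ^ k = 1 ∧ (-1 : ℝ) ^ (k + 1) = -1) ∨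
    ((-1 : ℝ) ^ k = -1 ∧ (-1 : ℝ) ^ (k + 1) = 1) := by
  rcases Int.even_or_odd k with hk | hk
  · left
    exact ⟨hk.neg_one_zpow, (hk.add_one).neg_one_zpow⟩
  · right
    exact ⟨hk.neg_one_zpow, (hk.add_one).neg_one_zpow⟩

private theorem GRD_two (k : ℤ) (a : ℝ) : (2 : ℝ) ^ (k + 1) * a = 2 * ((2 : ℝ) ^ k * a) := by
  rw [zpow_add_one₀ (by norm_num : (2 : ℝ) ≠ 0)]
  ring

theorem cl_nested (α : Fin d → Bool) (k : ℤ) {x y : E d} (h : cl α (k + 1) x = cl α (k + 1) y) :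
    cl α k x = cl α k y := by
  funext i
  have hi := congrFun h i
  unfold cl at hi ⊢
  apply GRD_half
  by_cases ha : α i = true
  · simp only [ha, if_true] at hi ⊢
    rw [GRD_two, GRD_two] at hi
    rcases GRD_sgn k with ⟨e1, e2⟩ | ⟨e1, e2⟩
    · rw [e2] at hi
      rw [e1]
      have e3 : ∀ a : ℝ, 2 * ((2 : ℝ) ^ k * a) + -1 / 3 = 2 * ((2 : ℝ) ^ k * a + 1 / 3) - ((1 : ℤ) : ℝ) := by
        intro a; push_cast; ring
      rw [e3, e3, Int.floor_sub_intCast, Int.floor_sub_intCast] at hi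
      linarith
    · rw [e2] at hi
      rw [e1]
      have e3 : ∀ a : ℝ, 2 * ((2 : ℝ) ^ k * a) + 1 / 3 = 2 * ((2 : ℝ) ^ k * a + -1 / 3) + ((1 : ℤ) : ℝ) := by
        intro a; push_cast; ring
      rw [e3, e3, Int.floor_add_intCast, Int.floor_add_intCast] at hi
      linarith
  · simp only [ha] at hi ⊢
    rw [GRD_two, GRD_two] at hi
    simpa using hi

theorem cl_diam (α : Fin d → Bool) (k : ℤ) {x y : E d} (h : cl α k x = cl α k y) :
    ‖x - y‖ ≤ d * (2 : ℝ) ^ (-k) := by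
  have hp : (0 : ℝ) < (2 : ℝ) ^ k := by positivity
  have hm : (0 : ℝ) < (2 : ℝ) ^ (-k) := by positivity
  have hpm : (2 : ℝ) ^ (-k) * (2 : ℝ) ^ k = 1 := by
    rw [← zpow_add₀ (by norm_num : (2 : ℝ) ≠ 0)]; simp
  have hi : ∀ i, |x i - y i| ≤ (2 : ℝ) ^ (-k) := by
    intro i
    have h1 := congrFun h i
    unfold cl at h1
    have h2 := Int.abs_sub_lt_one_of_floor_eq_floor h1
    have h3 : (2 : ℝ) ^ k * x i + (if α i then (-1 : ℝ) ^ k / 3 else 0)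
        - ((2 : ℝ) ^ k * y i + (if α i then (-1 : ℝ) ^ k / 3 else 0)) = (2 : ℝ) ^ k * (x i - y i) := by ring
    rw [h3, abs_mul, abs_of_pos hp] at h2
    calc |x i - y i| = (2 : ℝ) ^ (-k) * ((2 : ℝ) ^ k * |x i - y i|) := by
          rw [← mul_assoc, hpm, one_mul]
      _ ≤ (2 : ℝ) ^ (-k) * 1 := mul_le_mul_of_nonneg_left h2.le hm.le
      _ = (2 : ℝ) ^ (-k) := mul_one _
  rw [EuclideanSpace.norm_eq]
  apply Real.sqrt_le_iff.mpr
  refine ⟨by positivity, ?_⟩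
  calc ∑ i, ‖(x - y) i‖ ^ 2 ≤ ∑ _i : Fin d, ((2 : ℝ) ^ (-k)) ^ 2 := by
        apply Finset.sum_le_sum
        intro i _
        have h4 : ‖(x - y) i‖ = |x i - y i| := by
          rw [PiLp.sub_apply, Real.norm_eq_abs]
        rw [h4]
        exact pow_le_pow_left₀ (abs_nonneg _) (hi i) 2
    _ = (d : ℝ) * ((2 : ℝ) ^ (-k)) ^ 2 := by simp
    _ ≤ (d : ℝ) ^ 2 * ((2 : ℝ) ^ (-k)) ^ 2 := by
        apply mul_le_mul_of_nonneg_right _ (by positivity)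
        have h5 : d ≤ d ^ 2 := by nlinarith [Nat.zero_le d, sq_nonneg (d : ℤ), Nat.le_self_pow (two_ne_zero) d]
        exact_mod_cast h5
    _ = (d * (2 : ℝ) ^ (-k)) ^ 2 := by ring

private theorem GRD_third (t σ : ℝ) (hσ : σ = 1 ∨ σ = -1) :
    (∀ u : ℝ, |u - t| ≤ 1 / 6 → ⌊u⌋ = ⌊t⌋) ∨ (∀ u : ℝ, |u - t| ≤ 1 / 6 → ⌊u + σ / 3⌋ = ⌊t + σ / 3⌋) := by
  by_cases h : ∀ u : ℝ, |u - t| ≤ 1 / 6 → ⌊u⌋ = ⌊t⌋
  · exact Or.inl h
  right
  push Not at h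
  obtain ⟨u0, h0, hne⟩ := h
  rw [abs_le] at h0
  have hn : ∃ n : ℤ, t - 1 / 6 < n ∧ (n : ℝ) ≤ t + 1 / 6 := by
    rcases lt_or_gt_of_ne hne with hlt | hgt
    · refine ⟨⌊t⌋, ?_, ?_⟩
      · have h1 := Int.lt_floor_add_one u0
        have h2 : (⌊u0⌋ : ℝ) + 1 ≤ (⌊t⌋ : ℝ) := by exact_mod_cast hlt
        linarith [h0.1]
      · have h1 := Int.floor_le t
        linarith
    · refine ⟨⌊u0⌋, ?_, ?_⟩
      · have h1 := Int.lt_floor_add_one t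
        have h2 : (⌊t⌋ : ℝ) + 1 ≤ (⌊u0⌋ : ℝ) := by exact_mod_cast hgt
        linarith
      · have h1 := Int.floor_le u0
        linarith [h0.2]
  obtain ⟨n, hn1, hn2⟩ := hn
  have key : ∀ u : ℝ, |u - t| ≤ 1 / 6 → ⌊u + σ / 3⌋ = if σ = 1 then n else n - 1 := by
    intro u hu
    rw [abs_le] at hu
    rcases hσ with rfl | rfl
    · rw [if_pos rfl, Int.floor_eq_iff]
      constructor <;> linarith [hu.1, hu.2]
    · rw [if_neg (by norm_num), Int.floor_eq_iff]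
      push_cast
      constructor <;> linarith [hu.1, hu.2]
  intro u hu
  rw [key u hu, key t (by simp)]

theorem cl_cover (k : ℤ) (x : E d) :
    ∃ α : Fin d → Bool, ∀ y : E d, ‖x - y‖ ≤ (2 : ℝ) ^ (-k) / 6 → cl α k y = cl α k x := by
  classical
  have hp : (0 : ℝ) < (2 : ℝ) ^ k := by positivity
  have hpm : (2 : ℝ) ^ k * (2 : ℝ) ^ (-k) = 1 := by
    rw [← zpow_add₀ (by norm_num : (2 : ℝ) ≠ 0)]; simp
  have hσ : (-1 : ℝ) ^ k = 1 ∨ (-1 : ℝ) ^ k = -1 := by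
    rcases GRD_sgn k with h | h
    · exact Or.inl h.1
    · exact Or.inr h.1
  refine ⟨fun i => if (∀ u : ℝ, |u - (2 : ℝ) ^ k * x i| ≤ 1 / 6 → ⌊u⌋ = ⌊(2 : ℝ) ^ k * x i⌋) then false
    else true, ?_⟩
  intro y hy
  funext i
  have hxy : |(2 : ℝ) ^ k * y i - (2 : ℝ) ^ k * x i| ≤ 1 / 6 := by
    have h1 : |x i - y i| ≤ ‖x - y‖ := by
      have h2 := PiLp.norm_apply_le (x - y) i
      rwa [PiLp.sub_apply, Real.norm_eq_abs] at h2
    rw [← mul_sub, abs_mul, abs_of_pos hp, abs_sub_comm]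
    calc (2 : ℝ) ^ k * |x i - y i| ≤ (2 : ℝ) ^ k * ((2 : ℝ) ^ (-k) / 6) :=
          mul_le_mul_of_nonneg_left (h1.trans hy) hp.le
      _ = 1 / 6 := by rw [mul_div_assoc', hpm]
  unfold cl
  by_cases h : ∀ u : ℝ, |u - (2 : ℝ) ^ k * x i| ≤ 1 / 6 → ⌊u⌋ = ⌊(2 : ℝ) ^ k * x i⌋
  · simp only [if_pos h]
    simpa using h _ hxy
  · simp only [if_neg h, if_true]
    rcases GRD_third ((2 : ℝ) ^ k * x i) ((-1 : ℝ) ^ k) hσ with h1 | h1
    · exact absurd h1 h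
    · exact h1 _ hxy

end Pool.Agent.RSF
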