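import Mathlib

/-!
# PRA: the triangle inequality of Prat (pure real numbers)

`Pt s a b c` is the symmetrised product of the Riesz kernel for a triangle with sides `a, b, c`.
WLOG `a ≤ b ≤ c` (the expression and the maximum are symmetric). By homogeneity (degree `-2s`; put
`A = a / c`, `B = b / c`, or work with `c` directly) let `c = 1`, `0 < A ≤ B ≤ 1 ≤ A + B`. Then
`2 (AB)^(1+s) Pt = S`,
  `S = A^(1+s) (1 + B² - A²) + B^(1+s) (1 + A² - B²) - (1 - A² - B²)`.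
* LOWER BOUND, CASE `A² + B² ≤ 1`. `S = S₁ + (A^(1+s) - A²) (1 + B² - A²) + (B^(1+s) - B²) (1 + A² - B²)` with
  `S₁ = A²(1+B²-A²) + B²(1+A²-B²) - (1-A²-B²) = (A+B+1)(A+B-1)(A-B+1)(B-A+1) ≥ 0`. Since `A^(1+s) ≥ A²`,
  `B^(1+s) ≥ B²`, `1 + B² - A² ≥ 1`, `1 + A² - B² ≥ 0` we get `S ≥ A^(1+s) - A² = A^(1+s) (1 - A^(1-s))`, and
  `A² ≤ 1/2`, so `A^(1-s) ≤ (1/2)^((1-s)/2) < 1`; and `B^(1+s) ≤ 1`. So `Pt ≥ c₀ = (1 - (1/2)^((1-s)/2)) / 2`.
* LOWER BOUND, CASE `A² + B² ≥ 1`. Then all three terms of `Pt` are `≥ 0` and the term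
  `(bc)^(-(1+s)) (b² + c² - a²) / 2 = B^(-(1+s)) (1 + B² - A²) / 2 ≥ 1/2`.
* UPPER BOUND. `S ≤ 2 A^(1+s) + [B^(1+s) (1 + A² - B²) - (1 - B²) + A²]
   = 2 A^(1+s) + (1 - B²)(B^(1+s) - 1) + A² B^(1+s) + A² ≤ 2 A^(1+s) + 2 A² ≤ 4 A^(1+s)`, and `B ≥ 1/2`, so
  `B^(1+s) ≥ 1/4` and `Pt = S / (2 (AB)^(1+s)) ≤ 8`.
-/

namespace Pool.Agent.RSF

/-- The symmetrised product of the Riesz kernel, in terms of the side lengths. -/
noncomputable def Pt (s a b c : ℝ) : ℝ :=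
  (b ^ (-(s + 1)) * c ^ (-(s + 1)) * (b ^ 2 + c ^ 2 - a ^ 2) +
    a ^ (-(s + 1)) * c ^ (-(s + 1)) * (a ^ 2 + c ^ 2 - b ^ 2) +
    a ^ (-(s + 1)) * b ^ (-(s + 1)) * (a ^ 2 + b ^ 2 - c ^ 2)) / 2

private theorem PRA_eq {s A B : ℝ} (hA : 0 < A) (hB : 0 < B) :
    2 * (A ^ (s + 1) * B ^ (s + 1)) * Pt s A B 1 =
      A ^ (s + 1) * (B ^ 2 + 1 - A ^ 2) + B ^ (s + 1) * (A ^ 2 + 1 - B ^ 2) + (A ^ 2 + B ^ 2 - 1) := by
  have hx : 0 < A ^ (s + 1) := Real.rpow_pos_of_pos hA _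
  have hy : 0 < B ^ (s + 1) := Real.rpow_pos_of_pos hB _
  unfold Pt
  rw [Real.rpow_neg hA.le, Real.rpow_neg hB.le, Real.one_rpow]
  field_simp

private theorem PRA_sq_le {s A : ℝ} (hs1 : s < 1) (hA : 0 < A) (hA1 : A ≤ 1) :
    A ^ 2 ≤ A ^ (s + 1) := by
  rw [← Real.rpow_natCast A 2]
  apply Real.rpow_le_rpow_of_exponent_ge hA hA1
  push_cast
  linarith

private theorem PRA_hom {s a b c : ℝ} (ha : 0 < a) (hb : 0 < b) (hc : 0 < c) :
    Pt s a b c = c ^ (-(2 * s)) * Pt s (a / c) (b / c) 1 := by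
  have e : c ^ (-(2 * s)) = c ^ (-(s + 1)) * c ^ (-(s + 1)) * c ^ 2 := by
    rw [← Real.rpow_natCast c 2, ← Real.rpow_add hc, ← Real.rpow_add hc]
    congr 1
    push_cast
    ring
  have hcc : c ^ (-(s + 1)) ≠ 0 := (Real.rpow_pos_of_pos hc _).ne'
  unfold Pt
  rw [e, Real.div_rpow ha.le hc.le, Real.div_rpow hb.le hc.le, Real.one_rpow]
  field_simp

private theorem PRA_q_lt {s : ℝ} (hs1 : s < 1) : ((1 : ℝ) / 2) ^ ((1 - s) / 2) < 1 :=
  Real.rpow_lt_one (by norm_num) (by norm_num) (by linarith)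

private theorem PRA_lower_one {s : ℝ} (hs0 : 0 < s) (hs1 : s < 1) {A B : ℝ} (hA : 0 < A)
    (hAB : A ≤ B) (hB1 : B ≤ 1) (h : 1 ≤ A + B) :
    (1 - ((1 : ℝ) / 2) ^ ((1 - s) / 2)) / 2 ≤ Pt s A B 1 := by
  have hB : 0 < B := lt_of_lt_of_le hA hAB
  have hA1 : A ≤ 1 := hAB.trans hB1
  have hx : 0 < A ^ (s + 1) := Real.rpow_pos_of_pos hA _
  have hy : 0 < B ^ (s + 1) := Real.rpow_pos_of_pos hB _
  have hy1 : B ^ (s + 1) ≤ 1 := Real.rpow_le_one hB.le hB1 (by linarith)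
  have hxA := PRA_sq_le hs1 hA hA1
  have hyB := PRA_sq_le hs1 hB hB1
  have hq1 := PRA_q_lt hs1
  have hq0 : 0 < ((1 : ℝ) / 2) ^ ((1 - s) / 2) := Real.rpow_pos_of_pos (by norm_num) _
  have hE := PRA_eq (s := s) hA hB
  have hABsq : A ^ 2 ≤ B ^ 2 := by nlinarith
  have hB2 : B ^ 2 ≤ 1 := by nlinarith
  rcases le_total (A ^ 2 + B ^ 2) 1 with hc | hc
  · -- small case
    have hqx : A ^ 2 ≤ ((1 : ℝ) / 2) ^ ((1 - s) / 2) * A ^ (s + 1) := by
      have h1 : A ^ (1 - s) ≤ ((1 : ℝ) / 2) ^ ((1 - s) / 2) := by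
        have h2 : A ^ (1 - s) = (A ^ 2) ^ ((1 - s) / 2) := by
          rw [← Real.rpow_natCast A 2, ← Real.rpow_mul hA.le]
          congr 1
          push_cast
          ring
        rw [h2]
        exact Real.rpow_le_rpow (by positivity) (by linarith) (by linarith)
      have h3 : A ^ 2 = A ^ (1 - s) * A ^ (s + 1) := by
        rw [← Real.rpow_add hA, ← Real.rpow_natCast A 2]
        congr 1
        push_cast
        ring
      calc A ^ 2 = A ^ (1 - s) * A ^ (s + 1) := h3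
        _ ≤ _ := mul_le_mul_of_nonneg_right h1 hx.le
    set x := A ^ (s + 1) with hxdef
    set y := B ^ (s + 1) with hydef
    set q := ((1 : ℝ) / 2) ^ ((1 - s) / 2) with hqdef
    have hS : x * (1 - q) ≤ 2 * (x * y) * Pt s A B 1 := by
      rw [hE]
      have e1 : x * (B ^ 2 + 1 - A ^ 2) + y * (A ^ 2 + 1 - B ^ 2) + (A ^ 2 + B ^ 2 - 1) =
          (x - A ^ 2) + (x - A ^ 2) * (B ^ 2 - A ^ 2) + (y - B ^ 2) * (A ^ 2 + 1 - B ^ 2) +
            (A ^ 2 * (B ^ 2 + 1 - A ^ 2) + B ^ 2 * (A ^ 2 + 1 - B ^ 2) + (A ^ 2 + B ^ 2 - 1)) := by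
        ring
      have p1 : 0 ≤ (x - A ^ 2) * (B ^ 2 - A ^ 2) := mul_nonneg (by linarith) (by linarith)
      have p2 : 0 ≤ (y - B ^ 2) * (A ^ 2 + 1 - B ^ 2) :=
        mul_nonneg (by linarith) (by nlinarith [sq_nonneg A])
      have p3 : 0 ≤ A ^ 2 * (B ^ 2 + 1 - A ^ 2) + B ^ 2 * (A ^ 2 + 1 - B ^ 2) + (A ^ 2 + B ^ 2 - 1) := by
        have e2 : A ^ 2 * (B ^ 2 + 1 - A ^ 2) + B ^ 2 * (A ^ 2 + 1 - B ^ 2) + (A ^ 2 + B ^ 2 - 1) =
            (A + B + 1) * (A + B - 1) * ((A - B + 1) * (B - A + 1)) := by ring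
        rw [e2]
        exact mul_nonneg (mul_nonneg (by linarith) (by linarith))
          (mul_nonneg (by linarith) (by linarith))
      linarith
    have h2xy : 0 < 2 * (x * y) := by positivity
    have hP : x * (1 - q) / (2 * (x * y)) ≤ Pt s A B 1 := by
      rw [div_le_iff₀ h2xy]
      linarith
    refine le_trans ?_ hP
    rw [div_le_div_iff₀ (by norm_num) h2xy]
    have : (1 - q) * (x * y) ≤ (1 - q) * (x * 1) :=
      mul_le_mul_of_nonneg_left (mul_le_mul_of_nonneg_left hy1 hx.le) (by linarith)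
    nlinarith
  · set x := A ^ (s + 1) with hxdef
    set y := B ^ (s + 1) with hydef
    set q := ((1 : ℝ) / 2) ^ ((1 - s) / 2) with hqdef
    have h2xy : 0 < 2 * (x * y) := by positivity
    have hS : x ≤ 2 * (x * y) * Pt s A B 1 := by
      rw [hE]
      have p1 : 0 ≤ x * (B ^ 2 - A ^ 2) := mul_nonneg hx.le (by linarith)
      have p2 : 0 ≤ y * (A ^ 2 + 1 - B ^ 2) := mul_nonneg hy.le (by nlinarith [sq_nonneg A])
      nlinarith
    have hP : x / (2 * (x * y)) ≤ Pt s A B 1 := by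
      rw [div_le_iff₀ h2xy]
      linarith
    refine le_trans ?_ hP
    rw [div_le_div_iff₀ (by norm_num) h2xy]
    have : (1 - q) * (x * y) ≤ 1 * (x * 1) :=
      mul_le_mul (by linarith) (mul_le_mul_of_nonneg_left hy1 hx.le) (by positivity) (by norm_num)
    nlinarith

private theorem PRA_upper_one {s : ℝ} (hs0 : 0 < s) (hs1 : s < 1) {A B : ℝ} (hA : 0 < A)
    (hAB : A ≤ B) (hB1 : B ≤ 1) (h : 1 ≤ A + B) : Pt s A B 1 ≤ 8 := by
  have hB : 0 < B := lt_of_lt_of_le hA hAB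
  have hA1 : A ≤ 1 := hAB.trans hB1
  have hx : 0 < A ^ (s + 1) := Real.rpow_pos_of_pos hA _
  have hy : 0 < B ^ (s + 1) := Real.rpow_pos_of_pos hB _
  have hy1 : B ^ (s + 1) ≤ 1 := Real.rpow_le_one hB.le hB1 (by linarith)
  have hxA := PRA_sq_le hs1 hA hA1
  have hyB := PRA_sq_le hs1 hB hB1
  have hE := PRA_eq (s := s) hA hB
  have hABsq : A ^ 2 ≤ B ^ 2 := by nlinarith
  have hB2 : B ^ 2 ≤ 1 := by nlinarith
  have hB4 : 1 / 4 ≤ B ^ 2 := by nlinarith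
  set x := A ^ (s + 1) with hxdef
  set y := B ^ (s + 1) with hydef
  have hS : 2 * (x * y) * Pt s A B 1 ≤ 4 * x := by
    rw [hE]
    have p1 : x * (B ^ 2 - A ^ 2) ≤ x * 1 :=
      mul_le_mul_of_nonneg_left (by nlinarith [sq_nonneg A]) hx.le
    have p2 : 0 ≤ (1 - B ^ 2) * (1 - y) := mul_nonneg (by linarith) (by linarith)
    have p3 : y * A ^ 2 ≤ 1 * A ^ 2 := mul_le_mul_of_nonneg_right hy1 (sq_nonneg A)
    nlinarith
  have hy4 : 1 / 4 ≤ y := hB4.trans hyB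
  by_contra hcon
  have hcon' : 8 < Pt s A B 1 := not_le.mp hcon
  have h1 : 2 * (x * y) * 8 < 2 * (x * y) * Pt s A B 1 :=
    mul_lt_mul_of_pos_left hcon' (by positivity)
  have h2 : x * (1 / 4) ≤ x * y := mul_le_mul_of_nonneg_left hy4 hx.le
  nlinarith

private theorem PRA_swap12 (s a b c : ℝ) : Pt s b a c = Pt s a b c := by
  unfold Pt; ring

private theorem PRA_swap23 (s a b c : ℝ) : Pt s a c b = Pt s a b c := by
  unfold Pt; ring

private theorem PRA_sorted {s : ℝ} (hs0 : 0 < s) (hs1 : s < 1) {a b c : ℝ} (ha : 0 < a)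
    (hab : a ≤ b) (hbc : b ≤ c) (h : c ≤ a + b) :
    (1 - ((1 : ℝ) / 2) ^ ((1 - s) / 2)) / 2 * c ^ (-(2 * s)) ≤ Pt s a b c ∧
      Pt s a b c ≤ 8 * c ^ (-(2 * s)) := by
  have hb : 0 < b := lt_of_lt_of_le ha hab
  have hc : 0 < c := lt_of_lt_of_le hb hbc
  have hcp : 0 < c ^ (-(2 * s)) := Real.rpow_pos_of_pos hc _
  have h1 : a / c ≤ b / c := div_le_div_of_nonneg_right hab hc.le
  have h2 : b / c ≤ 1 := (div_le_one hc).mpr hbc
  have h3 : 1 ≤ a / c + b / c := by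
    rw [← add_div, le_div_iff₀ hc]
    linarith
  rw [PRA_hom ha hb hc]
  constructor
  · rw [mul_comm]
    exact mul_le_mul_of_nonneg_left (PRA_lower_one hs0 hs1 (div_pos ha hc) h1 h2 h3) hcp.le
  · rw [mul_comm 8]
    exact mul_le_mul_of_nonneg_left (PRA_upper_one hs0 hs1 (div_pos ha hc) h1 h2 h3) hcp.le

private theorem PRA_all {s : ℝ} (hs0 : 0 < s) (hs1 : s < 1) {a b c : ℝ} (ha : 0 < a)
    (hb : 0 < b) (hc : 0 < c) (h1 : a ≤ b + c) (h2 : b ≤ a + c) (h3 : c ≤ a + b) :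
    (1 - ((1 : ℝ) / 2) ^ ((1 - s) / 2)) / 2 * (max a (max b c)) ^ (-(2 * s)) ≤ Pt s a b c ∧
      Pt s a b c ≤ 8 * (max a (max b c)) ^ (-(2 * s)) := by
  rcases le_total a b with hab | hab <;> rcases le_total b c with hbc | hbc <;>
    rcases le_total a c with hac | hac
  · rw [max_eq_right hbc, max_eq_right hac]
    exact PRA_sorted hs0 hs1 ha hab hbc h3
  · rw [max_eq_right hbc, max_eq_left hac]
    have e : c = a := le_antisymm hac (hab.trans hbc)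
    subst e
    have e2 : b = c := le_antisymm hbc hab
    subst e2
    exact PRA_sorted hs0 hs1 ha le_rfl le_rfl h3
  · rw [max_eq_left hbc, max_eq_right hab, ← PRA_swap23]
    exact PRA_sorted hs0 hs1 ha hac hbc (by linarith)
  · rw [max_eq_left hbc, max_eq_right hab, ← PRA_swap23, ← PRA_swap12]
    exact PRA_sorted hs0 hs1 hc hac hab (by linarith)
  · rw [max_eq_right hbc, max_eq_right hac, ← PRA_swap12]
    exact PRA_sorted hs0 hs1 hb hab hac (by linarith)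
  · rw [max_eq_right hbc, max_eq_left hac, ← PRA_swap12, ← PRA_swap23]
    exact PRA_sorted hs0 hs1 hb hbc hac (by linarith)
  · rw [max_eq_left hbc, max_eq_left hab]
    have e : c = a := le_antisymm (hbc.trans hab) hac
    subst e
    have e2 : b = c := le_antisymm hab hbc
    subst e2
    exact PRA_sorted hs0 hs1 ha le_rfl le_rfl h3
  · rw [max_eq_left hbc, max_eq_left hab, ← PRA_swap12, ← PRA_swap23, ← PRA_swap12]
    exact PRA_sorted hs0 hs1 hc hbc hab (by linarith)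

theorem pt_lower {s : ℝ} (hs0 : 0 < s) (hs1 : s < 1) :
    ∃ c₀ : ℝ, 0 < c₀ ∧ ∀ a b c : ℝ, 0 < a → 0 < b → 0 < c → a ≤ b + c → b ≤ a + c → c ≤ a + b →
      c₀ * (max a (max b c)) ^ (-(2 * s)) ≤ Pt s a b c :=
  ⟨(1 - ((1 : ℝ) / 2) ^ ((1 - s) / 2)) / 2, by linarith [PRA_q_lt hs1],
    fun _ _ _ ha hb hc h1 h2 h3 => (PRA_all hs0 hs1 ha hb hc h1 h2 h3).1⟩

theorem pt_upper {s : ℝ} (hs0 : 0 < s) (hs1 : s < 1) (a b c : ℝ) (ha : 0 < a) (hb : 0 < b)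
    (hc : 0 < c) (h1 : a ≤ b + c) (h2 : b ≤ a + c) (h3 : c ≤ a + b) :
    Pt s a b c ≤ 8 * (max a (max b c)) ^ (-(2 * s)) :=
  (PRA_all hs0 hs1 ha hb hc h1 h2 h3).2

end Pool.Agent.RSF
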