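import Pool.Agent.RSF.Defs
import Pool.Agent.RSF.PRA

/-!
# PKE: the symmetrised product of the Riesz kernel

* `ker_norm`: `‖u‖ ^ (-(s+1)) * ‖u‖ = ‖u‖ ^ (-s)` for `u ≠ 0`; for `u = 0` both sides are `0`
  (`Real.zero_rpow`, `s ≠ 0`).
* `sp_eq`: `⟪x - y, x - z⟫ = (‖x - y‖² + ‖x - z‖² - ‖y - z‖²) / 2`, so `sp (ker s) x y z = Pt s a b c` with
  `a = ‖y - z‖`, `b = ‖x - z‖`, `c = ‖x - y‖` (`norm_sub_rev`).
* `sp_lower`: `pt_lower` and `max a (max b c) ≤ 2 * mx x y z` (`‖y - z‖ ≤ ‖x - y‖ + ‖x - z‖`), `-2s < 0`, so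
  `c = c₀ * 2 ^ (-(2 * s))` works.
* `sp_upper`: `pt_upper` and `mx x y z ≤ max a (max b c)`.
-/

namespace Pool.Agent.RSF

open MeasureTheory Metric Set
open scoped ENNReal NNReal

variable {d : ℕ}

private theorem PKE_inner (s : ℝ) (u v w : E d) :
    inner ℝ (ker s (u - v)) (ker s (u - w)) =
      ‖u - v‖ ^ (-(s + 1)) * ‖u - w‖ ^ (-(s + 1)) *
        ((‖u - v‖ ^ 2 + ‖u - w‖ ^ 2 - ‖v - w‖ ^ 2) / 2) := by
  unfold ker
  rw [real_inner_smul_left, real_inner_smul_right]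
  have h := norm_sub_sq_real (u - v) (u - w)
  have e : u - v - (u - w) = w - v := by abel
  rw [e, norm_sub_rev w v] at h
  have h2 : inner ℝ (u - v) (u - w) = (‖u - v‖ ^ 2 + ‖u - w‖ ^ 2 - ‖v - w‖ ^ 2) / 2 := by
    linarith
  rw [h2]
  ring

private theorem PKE_tri (x y z : E d) : ‖y - z‖ ≤ ‖x - z‖ + ‖x - y‖ ∧
    ‖x - z‖ ≤ ‖y - z‖ + ‖x - y‖ ∧ ‖x - y‖ ≤ ‖y - z‖ + ‖x - z‖ := by
  have h1 := norm_sub_le_norm_sub_add_norm_sub y x z
  have h2 := norm_sub_le_norm_sub_add_norm_sub x y z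
  have h3 := norm_sub_le_norm_sub_add_norm_sub x z y
  rw [norm_sub_rev y x] at h1
  rw [norm_sub_rev z y] at h3
  exact ⟨by linarith, by linarith, by linarith⟩

theorem ker_neg (s : ℝ) (u : E d) : ker s (-u) = -ker s u := by
  unfold ker
  rw [norm_neg, smul_neg]

theorem ker_norm {s : ℝ} (hs0 : 0 < s) (u : E d) : ‖ker s u‖ = ‖u‖ ^ (-s) := by
  unfold ker
  rw [norm_smul, Real.norm_eq_abs, abs_of_nonneg (Real.rpow_nonneg (norm_nonneg u) _)]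
  rcases eq_or_ne u 0 with rfl | hu
  · rw [norm_zero, mul_zero, Real.zero_rpow (by linarith)]
  · have h := norm_pos_iff.mpr hu
    calc ‖u‖ ^ (-(s + 1)) * ‖u‖ = ‖u‖ ^ (-(s + 1)) * ‖u‖ ^ (1 : ℝ) := by rw [Real.rpow_one]
      _ = ‖u‖ ^ (-(s + 1) + 1) := by rw [← Real.rpow_add h]
      _ = ‖u‖ ^ (-s) := by
        congr 1
        ring

theorem measurable_ker (s : ℝ) : Measurable (ker s : E d → E d) := by
  unfold ker
  exact (measurable_norm.pow_const _).smul measurable_id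

theorem sp_eq (s : ℝ) (x y z : E d) :
    sp (ker s) x y z = Pt s ‖y - z‖ ‖x - z‖ ‖x - y‖ := by
  unfold sp Pt
  rw [PKE_inner, PKE_inner, PKE_inner, norm_sub_rev y x, norm_sub_rev z x, norm_sub_rev z y]
  ring

theorem sp_lower {s : ℝ} (hs0 : 0 < s) (hs1 : s < 1) :
    ∃ c : ℝ, 0 < c ∧ ∀ (d : ℕ) (x y z : E d), x ≠ y → x ≠ z → y ≠ z →
      c * mx x y z ^ (-(2 * s)) ≤ sp (ker s) x y z := by
  obtain ⟨c₀, hc₀, h⟩ := pt_lower hs0 hs1
  refine ⟨c₀ * (2 : ℝ) ^ (-(2 * s)), by positivity, fun d x y z hxy hxz hyz => ?_⟩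
  have ha : 0 < ‖y - z‖ := norm_pos_iff.mpr (sub_ne_zero.mpr hyz)
  have hb : 0 < ‖x - z‖ := norm_pos_iff.mpr (sub_ne_zero.mpr hxz)
  have hc : 0 < ‖x - y‖ := norm_pos_iff.mpr (sub_ne_zero.mpr hxy)
  obtain ⟨t1, t2, t3⟩ := PKE_tri x y z
  have h1 := h _ _ _ ha hb hc t1 t2 t3
  rw [sp_eq]
  refine le_trans ?_ h1
  have hmx : 0 < mx x y z := lt_of_lt_of_le hc (le_max_left _ _)
  have hle : max ‖y - z‖ (max ‖x - z‖ ‖x - y‖) ≤ 2 * mx x y z := by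
    have e1 : ‖x - y‖ ≤ mx x y z := le_max_left _ _
    have e2 : ‖x - z‖ ≤ mx x y z := le_max_right _ _
    exact max_le (by linarith) (max_le (by linarith) (by linarith))
  have hpos : 0 < max ‖y - z‖ (max ‖x - z‖ ‖x - y‖) := lt_of_lt_of_le ha (le_max_left _ _)
  have h2 := Real.rpow_le_rpow_of_nonpos hpos hle (show -(2 * s) ≤ 0 by linarith)
  rw [Real.mul_rpow (by norm_num) hmx.le] at h2
  rw [mul_assoc]
  exact mul_le_mul_of_nonneg_left h2 hc₀.le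

theorem sp_upper {s : ℝ} (hs0 : 0 < s) (hs1 : s < 1) (x y z : E d) (h1 : x ≠ y) (h2 : x ≠ z)
    (h3 : y ≠ z) : sp (ker s) x y z ≤ 8 * mx x y z ^ (-(2 * s)) := by
  have ha : 0 < ‖y - z‖ := norm_pos_iff.mpr (sub_ne_zero.mpr h3)
  have hb : 0 < ‖x - z‖ := norm_pos_iff.mpr (sub_ne_zero.mpr h2)
  have hc : 0 < ‖x - y‖ := norm_pos_iff.mpr (sub_ne_zero.mpr h1)
  obtain ⟨t1, t2, t3⟩ := PKE_tri x y z
  rw [sp_eq]
  refine (pt_upper hs0 hs1 _ _ _ ha hb hc t1 t2 t3).trans ?_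
  have hmx : 0 < mx x y z := lt_of_lt_of_le hc (le_max_left _ _)
  have hle : mx x y z ≤ max ‖y - z‖ (max ‖x - z‖ ‖x - y‖) :=
    max_le ((le_max_right _ _).trans (le_max_right _ _))
      ((le_max_left _ _).trans (le_max_right _ _))
  have h2 := Real.rpow_le_rpow_of_nonpos hmx hle (show -(2 * s) ≤ 0 by linarith)
  linarith

end Pool.Agent.RSF
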