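import Pool.Agent.RSF.GRW
import Pool.Agent.RSF.PKE

/-!
# GRR: a bounded Riesz transform gives growth

* `dir_low` (geometry): `‖p - q‖ ≥ 10 r`, `‖p - q‖ ≤ 100 r`, `x ∈ closedBall p r`, `y ∈ closedBall q r`,
  `e = p - q`: `⟪x - y, e⟫ ≥ ‖e‖² - 2 r ‖e‖ ≥ (4/5) ‖e‖²`, `‖x - y‖ ≤ ‖e‖ + 2 r ≤ (6/5) ‖e‖`, so
  `⟪ker s (x - y), e⟫ ≥ (4/5) ‖e‖² ((6/5) ‖e‖)^(-(s+1)) ≥ c ‖e‖ r^(-s)` with
  `c = (4/5) (6/5)^(-(s+1)) 100^(-s)`.
* Consequence: for a measurable `V ⊆ closedBall q r` with `μ V < ∞` and `x ∈ closedBall p r`,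
  `c r^(-s) μ(V) ≤ ‖∫_V ker s (x - y) dμ(y)‖` (take the inner product with `e / ‖e‖`).
* `growth_of_RB0`: `f = indicator of closedBall q r`, truncation `ε = r` (`‖x - y‖ ≥ 8 r > r`):
  `∫_{closedBall p r} (c r^(-s) μ(B_q))² ≤ C μ(B_q)`; if `μ(B_q) ≠ 0` divide. Then `growth_of_pairs`.
-/

namespace Pool.Agent.RSF

open MeasureTheory Metric Set
open scoped ENNReal NNReal

variable {d : ℕ}

/-- the constant -/
private noncomputable def GRRc (s : ℝ) : ℝ := 4 / 5 * (6 / 5) ^ (-(s + 1)) * 100 ^ (-s)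

private theorem GRRc_pos (s : ℝ) : 0 < GRRc s := by
  unfold GRRc
  positivity

private theorem GRR_point {s : ℝ} (hs0 : 0 < s) {p q x y : E d} {r : ℝ} (hr : 0 < r)
    (h1 : 10 * r ≤ ‖p - q‖) (h2 : ‖p - q‖ ≤ 100 * r) (hx : x ∈ closedBall p r)
    (hy : y ∈ closedBall q r) :
    8 * r ≤ ‖x - y‖ ∧ GRRc s * r ^ (-s) * ‖p - q‖ ≤ inner ℝ (ker s (x - y)) (p - q) := by
  have hx' : ‖x - p‖ ≤ r := by rwa [mem_closedBall, dist_eq_norm] at hx
  have hy' : ‖y - q‖ ≤ r := by rwa [mem_closedBall, dist_eq_norm] at hy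
  set n := ‖p - q‖ with hn
  have hn0 : 0 < n := by linarith
  have exy : x - y = (p - q) + (x - p) - (y - q) := by abel
  have hup : ‖x - y‖ ≤ 6 / 5 * n := by
    have : ‖x - y‖ ≤ n + r + r := by
      rw [exy]
      refine (norm_sub_le _ _).trans ?_
      have := norm_add_le (p - q) (x - p)
      linarith
    linarith
  have hlo : 8 * r ≤ ‖x - y‖ := by
    have e : p - q = (x - y) - (x - p) + (y - q) := by abel
    have h3 : n ≤ ‖x - y‖ + r + r := by
      rw [hn, e]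
      refine (norm_add_le _ _).trans ?_
      have := norm_sub_le (x - y) (x - p)
      linarith
    linarith
  refine ⟨hlo, ?_⟩
  have hpos : 0 < ‖x - y‖ := by linarith
  have hin : 4 / 5 * n ^ 2 ≤ inner ℝ (x - y) (p - q) := by
    rw [exy, inner_sub_left, inner_add_left, real_inner_self_eq_norm_sq, ← hn]
    have i1 : -(r * n) ≤ inner ℝ (x - p) (p - q) := by
      have := neg_le_of_abs_le (abs_real_inner_le_norm (x - p) (p - q))
      have h4 : ‖x - p‖ * ‖p - q‖ ≤ r * n := mul_le_mul_of_nonneg_right hx' hn0.le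
      linarith
    have i2 : inner ℝ (y - q) (p - q) ≤ r * n := by
      have := le_of_abs_le (abs_real_inner_le_norm (y - q) (p - q))
      have h4 : ‖y - q‖ * ‖p - q‖ ≤ r * n := mul_le_mul_of_nonneg_right hy' hn0.le
      linarith
    nlinarith
  have hk : inner ℝ (ker s (x - y)) (p - q) = ‖x - y‖ ^ (-(s + 1)) * inner ℝ (x - y) (p - q) := by
    unfold ker
    rw [real_inner_smul_left]
  rw [hk]
  have hb : (6 / 5 * n) ^ (-(s + 1)) ≤ ‖x - y‖ ^ (-(s + 1)) :=
    Real.rpow_le_rpow_of_nonpos hpos hup (by linarith)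
  have hb0 : 0 < (6 / 5 * n) ^ (-(s + 1)) := by positivity
  have h5 : (6 / 5 * n) ^ (-(s + 1)) * (4 / 5 * n ^ 2) ≤
      ‖x - y‖ ^ (-(s + 1)) * inner ℝ (x - y) (p - q) :=
    mul_le_mul hb hin (by positivity) (by positivity)
  refine le_trans ?_ h5
  rw [Real.mul_rpow (by norm_num) hn0.le]
  have e3 : n ^ (-(s + 1)) * n ^ 2 = n ^ (-s) * n := by
    rw [← Real.rpow_natCast n 2, ← Real.rpow_add hn0]
    nth_rewrite 3 [← Real.rpow_one n]
    rw [← Real.rpow_add hn0]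
    congr 1
    push_cast
    ring
  have e4 : (100 * r) ^ (-s) ≤ n ^ (-s) := Real.rpow_le_rpow_of_nonpos hn0 h2 (by linarith)
  rw [Real.mul_rpow (by norm_num) hr.le] at e4
  unfold GRRc
  calc 4 / 5 * (6 / 5) ^ (-(s + 1)) * 100 ^ (-s) * r ^ (-s) * n
      = 4 / 5 * (6 / 5) ^ (-(s + 1)) * (100 ^ (-s) * r ^ (-s)) * n := by ring
    _ ≤ 4 / 5 * (6 / 5) ^ (-(s + 1)) * n ^ (-s) * n := by gcongr
    _ = (6 / 5) ^ (-(s + 1)) * (4 / 5) * (n ^ (-s) * n) := by ring
    _ = (6 / 5) ^ (-(s + 1)) * n ^ (-(s + 1)) * (4 / 5 * n ^ 2) := by rw [← e3]; ring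

theorem dir_low {s : ℝ} (hs0 : 0 < s) : ∃ c : ℝ, 0 < c ∧ ∀ (d : ℕ) (μ : Measure (E d)) (p q : E d) (r : ℝ),
    0 < r → 10 * r ≤ ‖p - q‖ → ‖p - q‖ ≤ 100 * r → μ (closedBall q r) < ∞ →
    ∀ x ∈ closedBall p r,
      ENNReal.ofReal (c * r ^ (-s)) * μ (closedBall q r) ≤
        ‖∫ y in closedBall q r, ker s (x - y) ∂μ‖ₑ := by
  refine ⟨GRRc s, GRRc_pos s, fun d μ p q r hr h1 h2 hfin x hx => ?_⟩
  set B := closedBall q r with hB
  have hn0 : 0 < ‖p - q‖ := by linarith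
  have hint : IntegrableOn (fun y => ker s (x - y)) B μ := by
    have hm : Measurable (fun y : E d => ker s (x - y)) :=
      (measurable_ker s).comp (measurable_const.sub measurable_id)
    refine Measure.integrableOn_of_bounded (M := (8 * r) ^ (-s)) hfin.ne
      hm.aestronglyMeasurable ?_
    filter_upwards [ae_restrict_mem (measurableSet_closedBall : MeasurableSet B)] with y hy
    rw [ker_norm hs0]
    exact Real.rpow_le_rpow_of_nonpos (by positivity)
      (GRR_point hs0 hr h1 h2 hx hy).1 (by linarith)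
  have hconst : IntegrableOn (fun _ : E d => GRRc s * r ^ (-s) * ‖p - q‖) B μ :=
    integrableOn_const hfin.ne
  have hreal : GRRc s * r ^ (-s) * μ.real B ≤ ‖∫ y in B, ker s (x - y) ∂μ‖ := by
    have e1 : inner ℝ (p - q) (∫ y in B, ker s (x - y) ∂μ) =
        ∫ y in B, inner ℝ (p - q) (ker s (x - y)) ∂μ := (integral_inner hint (p - q)).symm
    have e2 : GRRc s * r ^ (-s) * ‖p - q‖ * μ.real B ≤
        ∫ y in B, inner ℝ (p - q) (ker s (x - y)) ∂μ := by
      have e3 : ∫ _y in B, GRRc s * r ^ (-s) * ‖p - q‖ ∂μ =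
          GRRc s * r ^ (-s) * ‖p - q‖ * μ.real B := by
        rw [setIntegral_const, smul_eq_mul]
        ring
      rw [← e3]
      refine setIntegral_mono_on hconst (hint.const_inner (p - q)) measurableSet_closedBall ?_
      intro y hy
      rw [real_inner_comm]
      exact (GRR_point hs0 hr h1 h2 hx hy).2
    have e4 : inner ℝ (p - q) (∫ y in B, ker s (x - y) ∂μ) ≤
        ‖p - q‖ * ‖∫ y in B, ker s (x - y) ∂μ‖ := real_inner_le_norm _ _
    rw [e1] at e4
    have e5 := e2.trans e4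
    have e6 : ‖p - q‖ * (GRRc s * r ^ (-s) * μ.real B) ≤
        ‖p - q‖ * ‖∫ y in B, ker s (x - y) ∂μ‖ := by linarith
    exact le_of_mul_le_mul_left e6 hn0
  have hc0 : 0 ≤ GRRc s * r ^ (-s) :=
    mul_nonneg (GRRc_pos s).le (Real.rpow_nonneg hr.le _)
  calc ENNReal.ofReal (GRRc s * r ^ (-s)) * μ B
      = ENNReal.ofReal (GRRc s * r ^ (-s)) * ENNReal.ofReal (μ.real B) := by
        rw [Measure.real, ENNReal.ofReal_toReal hfin.ne]
    _ = ENNReal.ofReal (GRRc s * r ^ (-s) * μ.real B) := (ENNReal.ofReal_mul hc0).symm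
    _ ≤ ENNReal.ofReal ‖∫ y in B, ker s (x - y) ∂μ‖ := ENNReal.ofReal_le_ofReal hreal
    _ = ‖∫ y in B, ker s (x - y) ∂μ‖ₑ := ofReal_norm _

theorem growth_of_RB0 {s : ℝ} (hs0 : 0 < s) (μ : Measure (E d)) [IsLocallyFiniteMeasure μ]
    [NullSingletonClass μ] (h : RB0 s μ) : ∃ G : ℝ, 0 < G ∧ Growth s G μ := by
  obtain ⟨c, hc, hdir⟩ := dir_low hs0
  obtain ⟨C, hC⟩ := h
  refine growth_of_pairs hs0 μ (C / c ^ 2) (by positivity) ?_
  intro p q r hr h1 h2
  set B := closedBall q r with hB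
  have hfin : μ B < ∞ := (isCompact_closedBall q r).measure_lt_top
  rcases eq_or_ne (μ B) 0 with h0 | h0
  · rw [h0, mul_zero]
    exact bot_le
  set f : E d → ℝ := B.indicator (fun _ => (1 : ℝ)) with hf
  have hmem : MemLp f 2 μ := memLp_indicator_const 2 measurableSet_closedBall (1 : ℝ)
    (Or.inr hfin.ne)
  have hsupp : ∃ R : ℝ, ∀ y : E d, R < ‖y‖ → f y = 0 := by
    refine ⟨‖q‖ + r, fun y hy => ?_⟩
    rw [hf, indicator_of_notMem]
    intro hyB
    rw [hB, mem_closedBall, dist_eq_norm] at hyB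
    have := norm_sub_norm_le y q
    linarith
  have hmain := hC r hr f hmem hsupp
  have hfi : ∫⁻ x, ‖f x‖ₑ ^ 2 ∂μ = μ B := by
    have e1 : (fun x => ‖f x‖ₑ ^ 2) = B.indicator (fun _ => (1 : ℝ≥0∞)) := by
      funext x
      rw [hf]
      by_cases hx : x ∈ B
      · rw [indicator_of_mem hx, indicator_of_mem hx]
        simp
      · rw [indicator_of_notMem hx, indicator_of_notMem hx]
        simp
    rw [e1, lintegral_indicator measurableSet_closedBall, setLIntegral_one]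
  rw [hfi] at hmain
  have hker : ∀ x ∈ closedBall p r,
      ∫ y in {y : E d | r < ‖x - y‖}, (f y * ‖x - y‖ ^ (-(s + 1))) • (x - y) ∂μ =
        ∫ y in B, ker s (x - y) ∂μ := by
    intro x hx
    have e1 : (fun y : E d => (f y * ‖x - y‖ ^ (-(s + 1))) • (x - y)) =
        B.indicator (fun y => ker s (x - y)) := by
      funext y
      rw [hf]
      by_cases hy : y ∈ B
      · rw [indicator_of_mem hy, indicator_of_mem hy, one_mul]
        rfl
      · rw [indicator_of_notMem hy, indicator_of_notMem hy, zero_mul, zero_smul]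
    rw [e1, setIntegral_indicator measurableSet_closedBall]
    congr 2
    refine inter_eq_right.mpr ?_
    intro y hy
    have h3 : r < ‖x - y‖ := by
      have := (GRR_point hs0 hr h1 h2 hx hy).1
      linarith
    exact h3
  set K := ENNReal.ofReal (c * r ^ (-s)) with hK
  have hlow : (K * μ B) ^ 2 * μ (closedBall p r) ≤ C * μ B := by
    refine le_trans ?_ hmain
    calc (K * μ B) ^ 2 * μ (closedBall p r)
        = ∫⁻ _x in closedBall p r, (K * μ B) ^ 2 ∂μ := by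
          rw [setLIntegral_const]
      _ ≤ ∫⁻ x in closedBall p r,
          ‖∫ y in {y : E d | r < ‖x - y‖}, (f y * ‖x - y‖ ^ (-(s + 1))) • (x - y) ∂μ‖ₑ ^ 2 ∂μ := by
          refine setLIntegral_mono' measurableSet_closedBall ?_
          intro x hx
          rw [hker x hx]
          exact pow_le_pow_left₀ bot_le (hdir d μ p q r hr h1 h2 hfin x hx) 2
      _ ≤ _ := setLIntegral_le_lintegral _ _
  have hlow2 : K ^ 2 * (μ (closedBall p r) * μ B) ≤ C := by
    have e1 : μ B * (K ^ 2 * (μ (closedBall p r) * μ B)) ≤ μ B * C := by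
      calc μ B * (K ^ 2 * (μ (closedBall p r) * μ B)) = (K * μ B) ^ 2 * μ (closedBall p r) := by
            ring
        _ ≤ C * μ B := hlow
        _ = μ B * C := mul_comm _ _
    exact (ENNReal.mul_le_mul_iff_right h0 hfin.ne).mp e1
  have hrs : 0 < r ^ (-s) := Real.rpow_pos_of_pos hr _
  have hK2 : K ^ 2 = ENNReal.ofReal (c ^ 2 * (r ^ (-s)) ^ 2) := by
    rw [hK, ← ENNReal.ofReal_pow (by positivity)]
    congr 1
    ring
  have hKpos : K ^ 2 ≠ 0 := by
    rw [hK2]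
    exact (ENNReal.ofReal_pos.mpr (by positivity)).ne'
  have hKtop : K ^ 2 ≠ ∞ := by
    rw [hK2]
    exact ENNReal.ofReal_ne_top
  have hr2 : r ^ (2 * s) * (r ^ (-s)) ^ 2 = 1 := by
    rw [← Real.rpow_natCast (r ^ (-s)) 2, ← Real.rpow_mul hr.le, ← Real.rpow_add hr]
    have : 2 * s + -s * ((2 : ℕ) : ℝ) = 0 := by
      push_cast
      ring
    rw [this, Real.rpow_zero]
  have hfinal : K ^ 2 * ENNReal.ofReal (C / c ^ 2 * r ^ (2 * s)) = C := by
    rw [hK2, ← ENNReal.ofReal_mul (by positivity)]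
    have : c ^ 2 * (r ^ (-s)) ^ 2 * (C / c ^ 2 * r ^ (2 * s)) = (C : ℝ) := by
      calc c ^ 2 * (r ^ (-s)) ^ 2 * ((C : ℝ) / c ^ 2 * r ^ (2 * s))
          = (C : ℝ) * (r ^ (2 * s) * (r ^ (-s)) ^ 2) * (c ^ 2 / c ^ 2) := by ring
        _ = (C : ℝ) := by rw [hr2, div_self (by positivity), mul_one, mul_one]
    rw [this, ENNReal.ofReal_coe_nnreal]
  exact (ENNReal.mul_le_mul_iff_right hKpos hKtop).mp (hlow2.trans hfinal.ge)

end Pool.Agent.RSF
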