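import Pool.Agent.RSF.Defs

/-!
# GRW: from pairs of separated balls to growth (atomless measures)

Hypothesis `h`: `μ(closedBall p r) μ(closedBall q r) ≤ A r^(2s)` when `10 r ≤ ‖p - q‖ ≤ 100 r`.
* COVER. There is `N ≥ 1` (depending on `d`) such that every `closedBall x R`, `R > 0`, is covered by `N` closed balls
  of radius `R / 22` with centres in `closedBall x R` (compactness of the unit ball, scaling and translation).
* STEP. Let `m = μ(closedBall x R)` (finite: `isCompact_closedBall`, locally finite), `θ = m / R^s > 0`. One of the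
  `N` small balls, `closedBall c (R/22)`, has measure `≥ m / N`. Any of the `N` centres `c'` with
  `‖c - c'‖ ≥ 10 R / 22` satisfies `‖c - c'‖ ≤ 2 R ≤ 100 R / 22`, so its ball has measure
  `≤ A (R/22)^(2s) N / m`. All other small balls lie in `closedBall c (11 R / 22) = closedBall c (R / 2)`. Hence
  `μ(closedBall c (R/2)) ≥ m - N² A R^(2s) / m = m (1 - A' / θ²)`, `A' = N² A`, and
  `θ' = μ(closedBall c (R/2)) / (R/2)^s ≥ 2^s θ (1 - A'/θ²)`.
* ITERATION. Suppose there is no `G`. Choose `T ≥ 1` so large that `A' / T² ≤ 1 - 2^(-s/2)` and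
  `∑_n A' / (T² 2^(s n)) ≤ 1/2`. There are `x, R` with `θ > T`. The step gives centres `x_n`, radii `R_n = R / 2^n`,
  `‖x_{n+1} - x_n‖ ≤ R_n`, `θ_{n+1} ≥ 2^(s/2) θ_n`, so `θ_n ≥ 2^(s n / 2) T` and
  `m_{n+1} ≥ m_n (1 - A' / (T² 2^(s n)))`, whence `m_n ≥ m_0 (1 - ∑_{k<n} A'/(T² 2^(s k))) ≥ m_0 / 2`.
  (`x_n`) is Cauchy with limit `p` and `closedBall x_n R_n ⊆ closedBall p (3 R_n)`. So
  `μ(closedBall p (3 R_n)) ≥ m_0 / 2` for all `n`, and `μ {p} ≥ m_0 / 2 > 0` by continuity from above: contradiction.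
-/

namespace Pool.Agent.RSF

open MeasureTheory Metric Set
open scoped ENNReal NNReal

variable {d : ℕ}

private theorem grw_cover (d : ℕ) : ∃ N : ℕ, 1 ≤ N ∧ ∀ (x : E d) (R : ℝ), 0 < R → ∃ t : Finset (E d),
    t.card ≤ N ∧ (∀ c ∈ t, ‖c - x‖ ≤ R) ∧ closedBall x R ⊆ ⋃ c ∈ t, closedBall c (R / 22) := by
  classical
  obtain ⟨t, ht, htf, hc⟩ := (isCompact_closedBall (0 : E d) 1).finite_cover_balls
    (show (0 : ℝ) < 1 / 22 by norm_num)
  refine ⟨htf.toFinset.card + 1, by omega, fun x R hR =>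
    ⟨htf.toFinset.image (fun c => x + R • c), ?_, ?_, ?_⟩⟩
  · exact le_trans Finset.card_image_le (by omega)
  · intro c hc'
    simp only [Finset.mem_image, Set.Finite.mem_toFinset] at hc'
    obtain ⟨b, hb, rfl⟩ := hc'
    have h1 : ‖b‖ ≤ 1 := by simpa using ht hb
    rw [add_sub_cancel_left, norm_smul, Real.norm_of_nonneg hR.le]
    nlinarith
  · intro y hy
    have h0 : ‖y - x‖ ≤ R := by simpa [dist_eq_norm] using hy
    have h1 : R⁻¹ • (y - x) ∈ closedBall (0 : E d) 1 := by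
      rw [mem_closedBall_zero_iff, norm_smul, norm_inv, Real.norm_of_nonneg hR.le, inv_mul_le_iff₀ hR]
      simpa using h0
    have h2 := hc h1
    simp only [mem_iUnion, mem_ball, exists_prop] at h2
    obtain ⟨b, hb, hb2⟩ := h2
    simp only [mem_iUnion, exists_prop]
    refine ⟨x + R • b, by simpa using ⟨b, hb, rfl⟩, ?_⟩
    rw [mem_closedBall, dist_eq_norm]
    have h3 : y - (x + R • b) = R • (R⁻¹ • (y - x) - b) := by
      rw [smul_sub, smul_smul, mul_inv_cancel₀ hR.ne', one_smul]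
      abel
    rw [h3, norm_smul, Real.norm_of_nonneg hR.le]
    rw [dist_eq_norm] at hb2
    nlinarith

private theorem grw_step {s : ℝ} (hs0 : 0 < s) (μ : Measure (E d)) [IsLocallyFiniteMeasure μ]
    (A : ℝ) (hA : 0 ≤ A)
    (h : ∀ (p q : E d) (r : ℝ), 0 < r → 10 * r ≤ ‖p - q‖ → ‖p - q‖ ≤ 100 * r →
      μ (closedBall p r) * μ (closedBall q r) ≤ ENNReal.ofReal (A * r ^ (2 * s)))
    (N : ℕ) (hN : 1 ≤ N) (hcov : ∀ (x : E d) (R : ℝ), 0 < R → ∃ t : Finset (E d),
    t.card ≤ N ∧ (∀ c ∈ t, ‖c - x‖ ≤ R) ∧ closedBall x R ⊆ ⋃ c ∈ t, closedBall c (R / 22))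
    (x : E d) (R : ℝ) (hR : 0 < R) (hm : 0 < μ.real (closedBall x R)) :
    ∃ c : E d, ‖c - x‖ ≤ R ∧
      μ.real (closedBall x R) - (N : ℝ) ^ 2 * A * R ^ (2 * s) / μ.real (closedBall x R) ≤
        μ.real (closedBall c (R / 2)) := by
  classical
  obtain ⟨t, htc, htx, hco⟩ := hcov x R hR
  have hfin : ∀ (c : E d) (r : ℝ), μ (closedBall c r) ≠ ⊤ := fun c r =>
    (isCompact_closedBall c r).measure_lt_top.ne
  set m := μ.real (closedBall x R) with hmdef
  have hN0 : (0 : ℝ) < N := by exact_mod_cast (by omega : 0 < N)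
  have h1 : m ≤ ∑ c ∈ t, μ.real (closedBall c (R / 22)) := by
    refine le_trans (measureReal_mono hco ?_) (measureReal_biUnion_finset_le _ _)
    exact (measure_biUnion_lt_top t.finite_toSet (fun c _ => (hfin c _).lt_top)).ne
  have hne : t.Nonempty := by
    rw [Finset.nonempty_iff_ne_empty]
    rintro rfl
    simp at h1
    linarith
  obtain ⟨c, hct, hcm⟩ : ∃ c ∈ t, m / N ≤ μ.real (closedBall c (R / 22)) := by
    refine Finset.exists_le_of_sum_le hne (le_trans ?_ h1)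
    rw [Finset.sum_const, nsmul_eq_mul]
    have : (t.card : ℝ) ≤ N := by exact_mod_cast htc
    calc (t.card : ℝ) * (m / N) ≤ N * (m / N) := mul_le_mul_of_nonneg_right this (by positivity)
      _ = m := by field_simp
  refine ⟨c, htx c hct, ?_⟩
  have hcpos : 0 < μ.real (closedBall c (R / 22)) := lt_of_lt_of_le (by positivity) hcm
  set t' := t.filter (fun c' => 10 * (R / 22) ≤ ‖c - c'‖) with ht'
  have h2 : closedBall x R ⊆ closedBall c (R / 2) ∪ ⋃ c' ∈ t', closedBall c' (R / 22) := by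
    intro y hy
    have hy2 := hco hy
    simp only [mem_iUnion, exists_prop] at hy2
    obtain ⟨c', hc', hyc⟩ := hy2
    by_cases hfar : 10 * (R / 22) ≤ ‖c - c'‖
    · right
      simp only [mem_iUnion, exists_prop]
      exact ⟨c', Finset.mem_filter.2 ⟨hc', hfar⟩, hyc⟩
    · left
      rw [mem_closedBall] at hyc ⊢
      have h3 : dist c' c ≤ 10 * (R / 22) := by
        rw [dist_comm, dist_eq_norm]
        linarith
      have h4 := dist_triangle y c' c
      linarith
  have h3 : ∀ c' ∈ t', μ.real (closedBall c' (R / 22)) ≤ A * R ^ (2 * s) * N / m := by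
    intro c' hc'
    obtain ⟨hc1, hc2⟩ := Finset.mem_filter.1 hc'
    have h4 : ‖c - c'‖ ≤ 100 * (R / 22) := by
      have h5 : ‖c - c'‖ ≤ ‖c - x‖ + ‖c' - x‖ := by
        have : c - c' = (c - x) - (c' - x) := by abel
        rw [this]
        exact norm_sub_le _ _
      have h6 := htx c hct
      have h7 := htx c' hc1
      linarith
    have h5 := h c c' (R / 22) (by positivity) hc2 h4
    have h6 : μ.real (closedBall c (R / 22)) * μ.real (closedBall c' (R / 22)) ≤
        A * (R / 22) ^ (2 * s) := by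
      have h7 := ENNReal.toReal_mono ENNReal.ofReal_ne_top h5
      rw [ENNReal.toReal_mul, ENNReal.toReal_ofReal (by positivity)] at h7
      exact h7
    have h8 : (R / 22) ^ (2 * s) ≤ R ^ (2 * s) :=
      Real.rpow_le_rpow (by positivity) (by linarith) (by positivity)
    have h9 : m / N * μ.real (closedBall c' (R / 22)) ≤ A * R ^ (2 * s) :=
      le_trans (mul_le_mul_of_nonneg_right hcm measureReal_nonneg)
        (le_trans h6 (mul_le_mul_of_nonneg_left h8 hA))
    rw [le_div_iff₀ hm]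
    calc μ.real (closedBall c' (R / 22)) * m
        = m / N * μ.real (closedBall c' (R / 22)) * N := by field_simp
      _ ≤ A * R ^ (2 * s) * N := mul_le_mul_of_nonneg_right h9 hN0.le
  have h4 : m ≤ μ.real (closedBall c (R / 2)) + ∑ c' ∈ t', μ.real (closedBall c' (R / 22)) := by
    have hU : μ (⋃ c' ∈ t', closedBall c' (R / 22)) ≠ ⊤ :=
      (measure_biUnion_lt_top t'.finite_toSet (fun c _ => (hfin c _).lt_top)).ne
    refine le_trans (measureReal_mono h2 ?_) (le_trans (measureReal_union_le _ _) ?_)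
    · exact (lt_of_le_of_lt (measure_union_le _ _)
        (ENNReal.add_lt_top.2 ⟨(hfin c _).lt_top, hU.lt_top⟩)).ne
    · exact add_le_add le_rfl (measureReal_biUnion_finset_le _ _)
  have h5 : ∑ c' ∈ t', μ.real (closedBall c' (R / 22)) ≤ (N : ℝ) ^ 2 * A * R ^ (2 * s) / m := by
    refine le_trans (Finset.sum_le_sum h3) ?_
    rw [Finset.sum_const, nsmul_eq_mul]
    have hcd : (t'.card : ℝ) ≤ N := by
      exact_mod_cast le_trans (Finset.card_filter_le _ _) htc
    have hnn : 0 ≤ A * R ^ (2 * s) * N / m := by positivity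
    calc (t'.card : ℝ) * (A * R ^ (2 * s) * N / m) ≤ N * (A * R ^ (2 * s) * N / m) :=
          mul_le_mul_of_nonneg_right hcd hnn
      _ = (N : ℝ) ^ 2 * A * R ^ (2 * s) / m := by ring
  linarith

theorem growth_of_pairs {s : ℝ} (hs0 : 0 < s) (μ : Measure (E d)) [IsLocallyFiniteMeasure μ]
    [NullSingletonClass μ] (A : ℝ) (hA : 0 ≤ A)
    (h : ∀ (p q : E d) (r : ℝ), 0 < r → 10 * r ≤ ‖p - q‖ → ‖p - q‖ ≤ 100 * r →
      μ (closedBall p r) * μ (closedBall q r) ≤ ENNReal.ofReal (A * r ^ (2 * s))) :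
    ∃ G : ℝ, 0 < G ∧ Growth s G μ := by
  obtain ⟨N, hN, hcov⟩ := grw_cover d
  have hfin : ∀ (c : E d) (r : ℝ), μ (closedBall c r) ≠ ⊤ := fun c r =>
    (isCompact_closedBall c r).measure_lt_top.ne
  by_contra hcon
  push Not at hcon
  set B : ℝ := (N : ℝ) ^ 2 * A with hB
  have hB0 : 0 ≤ B := by positivity
  set ρ : ℝ := ((2 : ℝ) ^ (2 * s))⁻¹ with hρ
  have hρ0 : 0 < ρ := by positivity
  have hρ1 : ρ < 1 := by
    rw [hρ]
    exact inv_lt_one_of_one_lt₀ (Real.one_lt_rpow (by norm_num) (by positivity))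
  set T : ℝ := 1 + 4 * B / (1 - ρ) with hT
  have h1ρ : 0 < 1 - ρ := by linarith
  have hT1 : 1 ≤ T := by
    have : 0 ≤ 4 * B / (1 - ρ) := by positivity
    linarith
  have hTT : 4 * B / (1 - ρ) ≤ T ^ 2 := by nlinarith
  have hG := hcon T (by linarith)
  unfold Growth at hG
  push Not at hG
  obtain ⟨x, R, hR, hx⟩ := hG
  set m := μ.real (closedBall x R) with hm
  have hRs : 0 < R ^ s := by positivity
  have hmT : T * R ^ s < m := by
    have h1 := (ENNReal.ofReal_lt_iff_lt_toReal (by positivity) (hfin x R)).1 hx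
    exact h1
  have hm0 : 0 < m := lt_trans (by positivity) hmT
  have hR2 : T ^ 2 * R ^ (2 * s) ≤ m ^ 2 := by
    have h1 : R ^ (2 * s) = (R ^ s) ^ 2 := by
      rw [← Real.rpow_natCast, ← Real.rpow_mul hR.le]
      congr 1
      push_cast
      ring
    rw [h1, ← mul_pow]
    exact pow_le_pow_left₀ (by positivity) hmT.le 2
  -- the step as a function
  have hstep : ∀ (n : ℕ) (y : E d), ∃ c : E d, 0 < μ.real (closedBall y (R / 2 ^ n)) →
      (‖c - y‖ ≤ R / 2 ^ n ∧
      μ.real (closedBall y (R / 2 ^ n)) - B * (R / 2 ^ n) ^ (2 * s) / μ.real (closedBall y (R / 2 ^ n)) ≤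
        μ.real (closedBall c (R / 2 ^ (n + 1)))) := by
    intro n y
    by_cases hy : 0 < μ.real (closedBall y (R / 2 ^ n))
    · obtain ⟨c, hc1, hc2⟩ := grw_step hs0 μ A hA h N hN hcov y (R / 2 ^ n) (by positivity) hy
      refine ⟨c, fun _ => ⟨hc1, ?_⟩⟩
      have h1 : R / 2 ^ (n + 1) = R / 2 ^ n / 2 := by
        rw [pow_succ]
        field_simp
      rw [h1]
      exact hc2
    · exact ⟨y, fun h' => absurd h' hy⟩
  choose f hf using hstep
  let X : ℕ → E d := fun n => Nat.rec x (fun n y => f n y) n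
  have hX : ∀ n, X (n + 1) = f n (X n) := fun n => rfl
  have hpow : ∀ n : ℕ, (R / 2 ^ n) ^ (2 * s) = R ^ (2 * s) * ρ ^ n := by
    intro n
    rw [Real.div_rpow hR.le (by positivity), div_eq_mul_inv, hρ, inv_pow]
    congr 2
    rw [← Real.rpow_natCast, ← Real.rpow_natCast, ← Real.rpow_mul (by norm_num),
      ← Real.rpow_mul (by norm_num), mul_comm]
  have hsum : ∀ n : ℕ, ∑ k ∈ Finset.range n, ρ ^ k ≤ (1 - ρ)⁻¹ := fun n =>
    sum_le_hasSum (Finset.range n) (fun k _ => by positivity) (hasSum_geometric_of_lt_one hρ0.le hρ1)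
  have hhalf : ∀ n : ℕ, m / 2 ≤ m * (1 - 2 * B / T ^ 2 * ∑ k ∈ Finset.range n, ρ ^ k) := by
    intro n
    have hT2 : 0 < T ^ 2 := by positivity
    have h1 : 2 * B / T ^ 2 * ∑ k ∈ Finset.range n, ρ ^ k ≤ 2 * B / T ^ 2 * (1 - ρ)⁻¹ :=
      mul_le_mul_of_nonneg_left (hsum n) (by positivity)
    have h2 : 2 * B / T ^ 2 * (1 - ρ)⁻¹ ≤ 1 / 2 := by
      have h3 : 2 * B / T ^ 2 * (1 - ρ)⁻¹ = (4 * B / (1 - ρ)) / T ^ 2 / 2 := by
        field_simp
        ring
      have h4 : (4 * B / (1 - ρ)) / T ^ 2 ≤ 1 := (div_le_one hT2).2 hTT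
      rw [h3]
      linarith
    nlinarith
  have hmain : ∀ n : ℕ, m * (1 - 2 * B / T ^ 2 * ∑ k ∈ Finset.range n, ρ ^ k) ≤
      μ.real (closedBall (X n) (R / 2 ^ n)) := by
    intro n
    induction n with
    | zero => simp [X, hm]
    | succ n ih =>
      have hM : m / 2 ≤ μ.real (closedBall (X n) (R / 2 ^ n)) := le_trans (hhalf n) ih
      have hM0 : 0 < μ.real (closedBall (X n) (R / 2 ^ n)) := lt_of_lt_of_le (by positivity) hM
      have h1 := (hf n (X n) hM0).2
      rw [← hX n, hpow n] at h1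
      have hT2 : 0 < T ^ 2 := by positivity
      have h2 : B * (R ^ (2 * s) * ρ ^ n) / μ.real (closedBall (X n) (R / 2 ^ n)) ≤
          2 * B / T ^ 2 * m * ρ ^ n := by
        rw [div_le_iff₀ hM0]
        have h3 : R ^ (2 * s) ≤ m ^ 2 / T ^ 2 := by
          rw [le_div_iff₀ hT2]
          linarith
        calc B * (R ^ (2 * s) * ρ ^ n) ≤ B * (m ^ 2 / T ^ 2 * ρ ^ n) := by gcongr
          _ = 2 * B / T ^ 2 * m * ρ ^ n * (m / 2) := by
            field_simp
          _ ≤ 2 * B / T ^ 2 * m * ρ ^ n * μ.real (closedBall (X n) (R / 2 ^ n)) := by gcongr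
      rw [Finset.sum_range_succ]
      have h4 : m * (1 - 2 * B / T ^ 2 * (∑ k ∈ Finset.range n, ρ ^ k + ρ ^ n)) =
          m * (1 - 2 * B / T ^ 2 * ∑ k ∈ Finset.range n, ρ ^ k) - 2 * B / T ^ 2 * m * ρ ^ n := by ring
      rw [h4]
      linarith
  have hdist : ∀ n, dist (X n) (X (n + 1)) ≤ 2 * R / 2 / 2 ^ n := by
    intro n
    have hM0 : 0 < μ.real (closedBall (X n) (R / 2 ^ n)) :=
      lt_of_lt_of_le (by positivity) (le_trans (hhalf n) (hmain n))
    have h1 := (hf n (X n) hM0).1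
    rw [hX n, dist_comm, dist_eq_norm]
    calc ‖f n (X n) - X n‖ ≤ R / 2 ^ n := h1
      _ = 2 * R / 2 / 2 ^ n := by field_simp
  obtain ⟨p, hp⟩ := cauchySeq_tendsto_of_complete (cauchySeq_of_le_geometric_two hdist)
  have hpd : ∀ n, dist (X n) p ≤ 2 * R / 2 ^ n := fun n =>
    dist_le_of_le_geometric_two_of_tendsto hdist hp n
  have hsub : ∀ n, closedBall (X n) (R / 2 ^ n) ⊆ closedBall p (3 * R / 2 ^ n) := by
    intro n
    apply closedBall_subset_closedBall'
    have h1 := hpd n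
    calc R / 2 ^ n + dist (X n) p ≤ R / 2 ^ n + 2 * R / 2 ^ n := by linarith
      _ = 3 * R / 2 ^ n := by ring
  have hlow : ∀ n, ENNReal.ofReal (m / 2) ≤ μ (closedBall p (3 * R / 2 ^ n)) := by
    intro n
    have h1 : m / 2 ≤ μ.real (closedBall p (3 * R / 2 ^ n)) :=
      le_trans (le_trans (hhalf n) (hmain n)) (measureReal_mono (hsub n) (hfin _ _))
    exact (ENNReal.ofReal_le_iff_le_toReal (hfin _ _)).2 h1
  have h0 : μ {p} < ENNReal.ofReal (m / 2) := by
    rw [measure_singleton]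
    exact ENNReal.ofReal_pos.2 (by positivity)
  obtain ⟨U, hU, hUo, hUm⟩ := Set.exists_isOpen_lt_of_lt {p} _ h0
  obtain ⟨ε, hε, hball⟩ := Metric.isOpen_iff.1 hUo p (hU rfl)
  have hlim : Filter.Tendsto (fun n : ℕ => 3 * R / (2 : ℝ) ^ n) Filter.atTop (nhds 0) :=
    tendsto_const_nhds.div_atTop (tendsto_pow_atTop_atTop_of_one_lt (by norm_num))
  obtain ⟨n, hn⟩ := (hlim.eventually (gt_mem_nhds hε)).exists
  have h1 : closedBall p (3 * R / 2 ^ n) ⊆ U := (closedBall_subset_ball hn).trans hball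
  exact absurd (le_trans (hlow n) (measure_mono h1)) (not_le.2 hUm)

end Pool.Agent.RSF
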