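import Pool.Agent.RSF.PKE

/-!
# HRD: the hard truncation of the Riesz kernel

`kh s ε u = ker s u` if `ε < ‖u‖` and `0` otherwise.
* `kh_norm`: `‖ker s u‖ = ‖u‖ ^ (-s) ≤ ε ^ (-s)` for `ε < ‖u‖`.
* `kh_near`: if some side is `≤ ε`. If two sides are `≤ ε`, then each of the three products contains a factor
  `kh = 0`, so `sp (kh s ε) x y z = 0`. Otherwise exactly one side is `≤ ε` and the other two are `> ε`, differ
  by at most `ε` (triangle inequality), so the smaller of the two is at least half the larger one, and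
  `sp` is the single product of two vectors of norms `b ^ (-s)`, `c ^ (-s)`; as `b, c ≥ m / 2`, where
  `m = max b c`, `|sp| ≤ m ^ (-s) * (m / 2) ^ (-s) ≤ 2 * m ^ (-(2 * s))`; and `mx x y z ≤ m` (if the short side is
  `‖y - z‖` then `mx = max b c`; if it is `‖x - y‖` then `mx = ‖x - z‖ > ε`, ...), `max (mx x y z) ε ≤ m`, so
  that `m ^ (-2s) ≤ om s ε x y z` — NOTE the direction: we need `m ^ (-2s) ≤ (max mx ε) ^ (-2s)`, true as
  `max mx ε ≤ m` and the exponent is negative; also `0 < mx`.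
* `kh_pw`: if no side is `≤ ε`, `sp (kh s ε) = sp (ker s) ≥ c * mx ^ (-2s) = c * om` and `on = 0`. Otherwise
  `sp ≥ -2 om` and `C = c + 2`.
* `kh_up`: if no side is `≤ ε` use `sp_upper`; otherwise `kh_near` in the form `|sp| ≤ 2 mx ^ (-2s)`; if
  `mx x y z = 0` then `x = y = z` and `sp = 0 = 0 ^ (-2s)`.
-/

namespace Pool.Agent.RSF

open MeasureTheory Metric Set
open scoped ENNReal NNReal

variable {d : ℕ}

private theorem HRD_zero {s ε : ℝ} {u : E d} (h : ‖u‖ ≤ ε) : kh s ε u = 0 :=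
  Set.indicator_of_notMem (s := {u : E d | ε < ‖u‖}) (fun hu => absurd hu (not_lt.2 h)) _

private theorem HRD_eq {s ε : ℝ} {u : E d} (h : ε < ‖u‖) : kh s ε u = ker s u :=
  Set.indicator_of_mem (show u ∈ {u : E d | ε < ‖u‖} from h) _

theorem measurable_kh (s ε : ℝ) : Measurable (kh s ε : E d → E d) :=
  (measurable_ker s).indicator (measurableSet_lt measurable_const measurable_norm)

theorem kh_neg (s ε : ℝ) (u : E d) : kh s ε (-u) = -kh s ε u := by
  by_cases h : ε < ‖u‖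
  · rw [HRD_eq h, HRD_eq (by rwa [norm_neg]), ker_neg]
  · rw [HRD_zero (not_lt.1 h), HRD_zero (by rw [norm_neg]; exact not_lt.1 h), neg_zero]

theorem kh_norm {s ε : ℝ} (hs0 : 0 < s) (hε : 0 < ε) (u : E d) : ‖kh s ε u‖ ≤ ε ^ (-s) := by
  by_cases h : ε < ‖u‖
  · rw [HRD_eq h, ker_norm hs0]
    exact Real.rpow_le_rpow_of_nonpos hε h.le (by linarith)
  · rw [HRD_zero (not_lt.1 h), norm_zero]
    exact Real.rpow_nonneg hε.le _

theorem kh_norm' {s ε : ℝ} (hs0 : 0 < s) (hε : 0 < ε) (u : E d) :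
    ‖kh s ε u‖ ≤ {u : E d | ε < ‖u‖}.indicator (fun u => ‖u‖ ^ (-s)) u := by
  have _ := hε
  by_cases h : ε < ‖u‖
  · rw [HRD_eq h, ker_norm hs0, Set.indicator_of_mem (show u ∈ {u : E d | ε < ‖u‖} from h)]
  · rw [HRD_zero (not_lt.1 h), norm_zero,
      Set.indicator_of_notMem (show u ∉ {u : E d | ε < ‖u‖} from h)]

private theorem HRD_half {s a m : ℝ} (hs0 : 0 < s) (hs1 : s < 1) (hm : 0 < m) (ha : m / 2 ≤ a) :
    m ^ (-s) * a ^ (-s) ≤ 2 * m ^ (-(2 * s)) := by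
  have h1 : a ^ (-s) ≤ (m / 2) ^ (-s) :=
    Real.rpow_le_rpow_of_nonpos (by positivity) ha (by linarith)
  have h2 : (m / 2) ^ (-s) = m ^ (-s) * 2 ^ s := by
    rw [Real.div_rpow hm.le (by norm_num), Real.rpow_neg (by norm_num : (0 : ℝ) ≤ 2), div_inv_eq_mul]
  have h3 : (2 : ℝ) ^ s ≤ 2 := by
    have h := Real.rpow_le_rpow_of_exponent_le (by norm_num : (1 : ℝ) ≤ 2) hs1.le
    rwa [Real.rpow_one] at h
  have h4 : m ^ (-(2 * s)) = m ^ (-s) * m ^ (-s) := by
    rw [← Real.rpow_add hm]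
    congr 1
    ring
  have h5 : 0 ≤ m ^ (-s) := Real.rpow_nonneg hm.le _
  rw [h4]
  calc m ^ (-s) * a ^ (-s) ≤ m ^ (-s) * (m ^ (-s) * 2 ^ s) := by
        rw [← h2]
        exact mul_le_mul_of_nonneg_left h1 h5
    _ = (m ^ (-s) * m ^ (-s)) * 2 ^ s := by ring
    _ ≤ (m ^ (-s) * m ^ (-s)) * 2 := mul_le_mul_of_nonneg_left h3 (mul_nonneg h5 h5)
    _ = 2 * (m ^ (-s) * m ^ (-s)) := by ring

private theorem HRD_core {s ε : ℝ} (hs0 : 0 < s) (hs1 : s < 1) (hε : 0 < ε) (u v : E d)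
    (hu : ε < ‖u‖) (hv : ε < ‖v‖) (huv : ‖u - v‖ ≤ ε) :
    |inner ℝ (kh s ε u) (kh s ε v)| ≤ 2 * (max ‖u‖ ‖v‖) ^ (-(2 * s)) := by
  have h1 := abs_real_inner_le_norm (kh s ε u) (kh s ε v)
  rw [HRD_eq hu, HRD_eq hv] at h1 ⊢
  rw [ker_norm hs0, ker_norm hs0] at h1
  refine h1.trans ?_
  have h2 := (abs_norm_sub_norm_le u v).trans huv
  rw [abs_le] at h2
  rcases le_total ‖u‖ ‖v‖ with h | h
  · rw [max_eq_right h, mul_comm]
    exact HRD_half hs0 hs1 (hε.trans hv) (by linarith [h2.1, h2.2])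
  · rw [max_eq_left h]
    exact HRD_half hs0 hs1 (hε.trans hu) (by linarith [h2.1, h2.2])

private theorem HRD_fin {s ε t M : ℝ} {x y z : E d} (hs0 : 0 < s) (hε : 0 < ε)
    (hm : 0 < mx x y z) (h1 : mx x y z ≤ M) (h2 : ε ≤ M) (ht : |t| ≤ 2 * M ^ (-(2 * s))) :
    |t| ≤ 2 * om s ε x y z ∧ |t| ≤ 2 * mx x y z ^ (-(2 * s)) := by
  have h3 : M ^ (-(2 * s)) ≤ om s ε x y z :=
    Real.rpow_le_rpow_of_nonpos (lt_max_of_lt_right hε) (max_le h1 h2) (by linarith)
  have h4 : M ^ (-(2 * s)) ≤ mx x y z ^ (-(2 * s)) :=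
    Real.rpow_le_rpow_of_nonpos hm h1 (by linarith)
  constructor <;> linarith

private theorem HRD_om_nonneg {s ε : ℝ} (hε : 0 < ε) (x y z : E d) : 0 ≤ om s ε x y z :=
  Real.rpow_nonneg (hε.le.trans (le_max_right _ _)) _

private theorem HRD_mx_nonneg (x y z : E d) : 0 ≤ mx x y z :=
  (norm_nonneg _).trans (le_max_left _ _)

theorem kh_near {s ε : ℝ} (hs0 : 0 < s) (hs1 : s < 1) (hε : 0 < ε) (x y z : E d)
    (h : Near ε x y z) :
    |sp (kh s ε) x y z| ≤ 2 * om s ε x y z ∧ |sp (kh s ε) x y z| ≤ 2 * mx x y z ^ (-(2 * s)) := by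
  have hzero : sp (kh s ε) x y z = 0 →
      |sp (kh s ε) x y z| ≤ 2 * om s ε x y z ∧
        |sp (kh s ε) x y z| ≤ 2 * mx x y z ^ (-(2 * s)) := by
    intro h0
    rw [h0, abs_zero]
    have h1 := HRD_om_nonneg (s := s) hε x y z
    have h2 : 0 ≤ mx x y z ^ (-(2 * s)) := Real.rpow_nonneg (HRD_mx_nonneg x y z) _
    constructor <;> linarith
  by_cases hc : ‖x - y‖ ≤ ε
  · have c1 : kh s ε (x - y) = 0 := HRD_zero hc
    have c2 : kh s ε (y - x) = 0 := HRD_zero (by rwa [norm_sub_rev])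
    have e : sp (kh s ε) x y z = inner ℝ (kh s ε (z - x)) (kh s ε (z - y)) := by
      rw [sp, c1, c2, inner_zero_left, inner_zero_left]
      ring
    by_cases hb : ‖z - x‖ ≤ ε
    · exact hzero (by rw [e, HRD_zero hb, inner_zero_left])
    by_cases ha : ‖z - y‖ ≤ ε
    · exact hzero (by rw [e, HRD_zero ha, inner_zero_right])
    rw [not_le] at hb ha
    have hk := HRD_core hs0 hs1 hε (z - x) (z - y) hb ha
      (by rw [sub_sub_sub_cancel_left, norm_sub_rev]; exact hc)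
    rw [← e] at hk
    have hmx : mx x y z = ‖z - x‖ := by
      rw [mx, norm_sub_rev x z]
      exact max_eq_right (hc.trans hb.le)
    exact HRD_fin hs0 hε (by rw [hmx]; exact hε.trans hb) (by rw [hmx]; exact le_max_left _ _)
      (hb.le.trans (le_max_left _ _)) hk
  rw [not_le] at hc
  by_cases hb : ‖x - z‖ ≤ ε
  · have c1 : kh s ε (x - z) = 0 := HRD_zero hb
    have c2 : kh s ε (z - x) = 0 := HRD_zero (by rwa [norm_sub_rev])
    have e : sp (kh s ε) x y z = inner ℝ (kh s ε (y - x)) (kh s ε (y - z)) := by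
      rw [sp, c1, c2, inner_zero_left, inner_zero_right]
      ring
    by_cases ha : ‖y - z‖ ≤ ε
    · exact hzero (by rw [e, HRD_zero ha, inner_zero_right])
    rw [not_le] at ha
    have hc' : ε < ‖y - x‖ := by rwa [norm_sub_rev]
    have hk := HRD_core hs0 hs1 hε (y - x) (y - z) hc' ha
      (by rw [sub_sub_sub_cancel_left, norm_sub_rev]; exact hb)
    rw [← e] at hk
    have hmx : mx x y z = ‖y - x‖ := by
      rw [mx, norm_sub_rev x y]
      exact max_eq_left (hb.trans hc'.le)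
    exact HRD_fin hs0 hε (by rw [hmx]; exact hε.trans hc') (by rw [hmx]; exact le_max_left _ _)
      (hc'.le.trans (le_max_left _ _)) hk
  rw [not_le] at hb
  have ha : ‖y - z‖ ≤ ε := by
    rcases h with h | h | h
    · exact absurd h (not_le.2 hc)
    · exact absurd h (not_le.2 hb)
    · exact h
  have c1 : kh s ε (y - z) = 0 := HRD_zero ha
  have c2 : kh s ε (z - y) = 0 := HRD_zero (by rwa [norm_sub_rev])
  have e : sp (kh s ε) x y z = inner ℝ (kh s ε (x - y)) (kh s ε (x - z)) := by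
    rw [sp, c1, c2, inner_zero_right, inner_zero_right]
    ring
  have hk := HRD_core hs0 hs1 hε (x - y) (x - z) hc hb
    (by rw [sub_sub_sub_cancel_left, norm_sub_rev]; exact ha)
  rw [← e] at hk
  exact HRD_fin hs0 hε (lt_max_of_lt_left (hε.trans hc)) le_rfl (hc.le.trans (le_max_left _ _)) hk

private theorem HRD_far {s ε : ℝ} {x y z : E d} (h : ¬ Near ε x y z) :
    sp (kh s ε) x y z = sp (ker s) x y z := by
  unfold Near at h
  push Not at h
  obtain ⟨h1, h2, h3⟩ := h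
  rw [sp, sp, HRD_eq h1, HRD_eq h2, HRD_eq (by rwa [norm_sub_rev] : ε < ‖y - x‖), HRD_eq h3,
    HRD_eq (by rwa [norm_sub_rev] : ε < ‖z - x‖), HRD_eq (by rwa [norm_sub_rev] : ε < ‖z - y‖)]

private theorem HRD_ne {ε : ℝ} (hε : 0 < ε) {x y z : E d} (h : ¬ Near ε x y z) :
    x ≠ y ∧ x ≠ z ∧ y ≠ z ∧ ε < mx x y z := by
  unfold Near at h
  push Not at h
  obtain ⟨h1, h2, h3⟩ := h
  refine ⟨?_, ?_, ?_, lt_max_of_lt_left h1⟩
  · rintro rfl
    rw [sub_self, norm_zero] at h1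
    exact absurd h1 (not_lt.2 hε.le)
  · rintro rfl
    rw [sub_self, norm_zero] at h2
    exact absurd h2 (not_lt.2 hε.le)
  · rintro rfl
    rw [sub_self, norm_zero] at h3
    exact absurd h3 (not_lt.2 hε.le)

theorem kh_pw {s : ℝ} (hs0 : 0 < s) (hs1 : s < 1) :
    ∃ c C : ℝ, 0 < c ∧ 0 ≤ C ∧ ∀ (d : ℕ) (ε : ℝ), 0 < ε → ∀ x y z : E d,
      c * om s ε x y z - C * on s ε x y z ≤ sp (kh s ε) x y z := by
  obtain ⟨c, hc, hlow⟩ := sp_lower hs0 hs1
  refine ⟨c, c + 2, hc, by linarith, fun d ε hε x y z => ?_⟩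
  by_cases h : Near ε x y z
  · have e : on s ε x y z = om s ε x y z := if_pos h
    have h1 := (kh_near hs0 hs1 hε x y z h).1
    have h2 := neg_abs_le (sp (kh s ε) x y z)
    rw [e]
    linarith
  · have e : on s ε x y z = 0 := if_neg h
    obtain ⟨h1, h2, h3, h4⟩ := HRD_ne hε h
    have e2 : om s ε x y z = mx x y z ^ (-(2 * s)) := by
      rw [om, max_eq_left h4.le]
    rw [e, e2, HRD_far h, mul_zero, sub_zero]
    exact hlow d x y z h1 h2 h3

theorem kh_up {s ε : ℝ} (hs0 : 0 < s) (hs1 : s < 1) (hε : 0 < ε) (x y z : E d) :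
    sp (kh s ε) x y z ≤ 8 * mx x y z ^ (-(2 * s)) := by
  by_cases h : Near ε x y z
  · have h1 := (kh_near hs0 hs1 hε x y z h).2
    have h2 := le_abs_self (sp (kh s ε) x y z)
    have h3 : 0 ≤ mx x y z ^ (-(2 * s)) := Real.rpow_nonneg (HRD_mx_nonneg x y z) _
    linarith
  · obtain ⟨h1, h2, h3, _⟩ := HRD_ne hε h
    rw [HRD_far h]
    exact sp_upper hs0 hs1 x y z h1 h2 h3

end Pool.Agent.RSF
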