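import Mathlib

/-!
# SPC: a log-convex sequence of exponential growth

`a n ≥ 0`, `a (n+1)² ≤ a n * a (n+2)`, `a n ≤ K M^n` for all `n`, `M ≥ 0`. Then `a 1 ≤ M a 0`.
PROOF. If `a 0 = 0` then `a 1² ≤ 0`. Let `a 0 > 0` and suppose `q = a 1 / a 0 > M ≥ 0`. By induction `a (n+1) ≥ q a n` and
`a n > 0` (`a (n+2) ≥ a (n+1)² / a n ≥ q a (n+1)`), so `a n ≥ q^n a 0`, i.e. `a 0 (q/M)^n ≤ K` if `M > 0` (unbounded,
contradiction), and `a 1 ≤ 0` if `M = 0`.
-/

namespace Pool.Agent.RSF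

theorem spc (a : ℕ → ℝ) (h0 : ∀ n, 0 ≤ a n) (h1 : ∀ n, a (n + 1) ^ 2 ≤ a n * a (n + 2)) (K M : ℝ)
    (hM : 0 ≤ M) (h2 : ∀ n, a n ≤ K * M ^ n) : a 1 ≤ M * a 0 := by
  rcases (h0 0).eq_or_lt with ha0 | ha0
  · have := h1 0
    rw [← ha0] at this ⊢
    have h3 : a 1 ^ 2 ≤ 0 := by simpa using this
    have h4 : a 1 = 0 := by nlinarith [sq_nonneg (a 1)]
    rw [h4]; simp
  by_contra hcon
  push Not at hcon
  set q : ℝ := a 1 / a 0 with hq
  have hqM : M < q := by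
    rw [hq, lt_div_iff₀ ha0]; exact hcon
  have hq0 : 0 < q := hM.trans_lt hqM
  have key : ∀ n, 0 < a n ∧ q * a n ≤ a (n + 1) := by
    intro n
    induction n with
    | zero =>
      refine ⟨ha0, ?_⟩
      rw [hq, div_mul_cancel₀ _ ha0.ne']
    | succ n ih =>
      obtain ⟨ih1, ih2⟩ := ih
      have h3 : 0 < a (n + 1) := (mul_pos hq0 ih1).trans_le ih2
      refine ⟨h3, ?_⟩
      have h4 := h1 n
      have h5 : q * a n * a (n + 1) ≤ a (n + 1) ^ 2 := by
        rw [sq]; exact mul_le_mul_of_nonneg_right ih2 h3.le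
      have h6 : a n * (q * a (n + 1)) ≤ a n * a (n + 2) := by nlinarith
      exact le_of_mul_le_mul_left h6 ih1
  have hpow : ∀ n, q ^ n * a 0 ≤ a n := by
    intro n
    induction n with
    | zero => simp
    | succ n ih =>
      calc q ^ (n + 1) * a 0 = q * (q ^ n * a 0) := by ring
        _ ≤ q * a n := mul_le_mul_of_nonneg_left ih hq0.le
        _ ≤ a (n + 1) := (key n).2
  rcases hM.eq_or_lt with hM0 | hM0
  · have h3 := h2 1
    rw [← hM0] at h3
    simp at h3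
    have := (key 1).1
    linarith
  · have h3 : ∀ n : ℕ, (q / M) ^ n ≤ K / a 0 := by
      intro n
      rw [div_pow, div_le_div_iff₀ (pow_pos hM0 n) ha0]
      exact (hpow n).trans (h2 n)
    have h4 : 1 < q / M := by rwa [one_lt_div hM0]
    obtain ⟨n, hn⟩ := pow_unbounded_of_one_lt (K / a 0) h4
    exact absurd (h3 n) (not_le.2 hn)

end Pool.Agent.RSF
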