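import Pool.Agent.RSF.LL3
import Pool.Agent.RSF.SPC

/-!
# LL2: from `L³` to `L²` for antisymmetric operators

Fix `ε`, `R > 0`, `B = closedBall 0 R`, a coordinate `i` (unit vector `e`), and `T f x = 1_B(x) ⟪e, Tr s ε μ f x⟫`. If `f` is nice with
support in `B` then so is `T f` (measurable, bounded by `Tr_norm_le`), and by `ll3` `∫ |T f|³ ≤ C ∫ |f|³`. By `antisym`
`∫ (T f) g = -∫ (T g) f` for nice `f, g` supported in `B` (`kh` is odd, bounded, measurable). Let `a n = ∫ (T^n f)² dμ`.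
* `a (n+1)² ≤ a n a (n+2)`: `a (n+1) = ∫ (T (T^n f)) (T^(n+1) f) = -∫ (T^n f) (T^(n+2) f)`, Cauchy-Schwarz.
* `a n = (-1)^n ∫ f T^(2n) f`, and with `L = C^(1/3)` and `λ = L^(2n)`, `|u| ≤ λ + |u|³ / λ²` (if `C = 0` replace `C` by `1`;
  assume `C ≥ 1`): `∫ |f| |T^(2n) f| ≤ M_f (λ μ(B) + λ^(-2) C^(2n) ∫ |f|³) = M_f L^(2n) (μ(B) + ∫ |f|³)`, where `|f| ≤ M_f` — as
  `C^(2n) = L^(6n) = λ³`. So `a n ≤ K (L²)^n`.
* `spc`: `∫ (T f)² ≤ L² ∫ f²`.
Sum over the `d` coordinates: `∫_B ‖Tr f‖² ≤ d L² ∫ f²` for nice `f` supported in `B`; let `R → ∞` (`f` fixed).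
-/

namespace Pool.Agent.RSF

open MeasureTheory Metric Set
open scoped ENNReal NNReal

variable {d : ℕ}

private theorem ll2_mul {f g : E d → ℝ} (hf : Nice f) (hg : Nice g) : Nice (fun x => f x * g x) := by
  obtain ⟨hm, ⟨M, hM⟩, R, hR⟩ := hf
  obtain ⟨hm', ⟨M', hM'⟩, R', hR'⟩ := hg
  refine ⟨hm.mul hm', ⟨M * M', fun x => ?_⟩, R, fun x hx => by simp [hR x hx]⟩
  rw [abs_mul]
  exact mul_le_mul (hM x) (hM' x) (abs_nonneg _) ((abs_nonneg _).trans (hM x))

private theorem ll2_abs {f : E d → ℝ} (hf : Nice f) : Nice (fun x => |f x|) := by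
  obtain ⟨hm, ⟨M, hM⟩, R, hR⟩ := hf
  exact ⟨hm.abs, ⟨M, fun x => by rw [abs_abs]; exact hM x⟩, R, fun x hx => by simp [hR x hx]⟩

private theorem ll2_cub {f : E d → ℝ} (hf : Nice f) : Nice (fun x => |f x| ^ 3) := by
  have h := ll2_abs hf
  have h2 := ll2_mul h (ll2_mul h h)
  have : (fun x => |f x| ^ 3) = fun x => |f x| * (|f x| * |f x|) := by
    funext x
    ring
  rw [this]
  exact h2

/-- The component of the transform on a ball. -/
private noncomputable def ll2T (s ε : ℝ) (μ : Measure (E d)) (e : E d) (R : ℝ) (f : E d → ℝ) :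
    E d → ℝ :=
  (closedBall (0 : E d) R).indicator (fun x => inner ℝ e (Tr s ε μ f x))

private theorem ll2_T_nice {s ε : ℝ} (hs0 : 0 < s) (hε : 0 < ε) (μ : Measure (E d))
    [IsLocallyFiniteMeasure μ] (e : E d) (he : ‖e‖ = 1) (R : ℝ) {f : E d → ℝ} (hf : Nice f) :
    Nice (ll2T s ε μ e R f) := by
  refine ⟨(measurable_const.inner (measurable_Tr s ε μ f hf.1)).indicator measurableSet_closedBall,
    ⟨ε ^ (-s) * ∫ y, |f y| ∂μ, fun x => ?_⟩, R, fun x hx => ?_⟩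
  · have h1 := Tr_norm_le hs0 hε μ hf x
    by_cases hx : x ∈ closedBall (0 : E d) R
    · rw [ll2T, indicator_of_mem hx]
      refine (abs_real_inner_le_norm _ _).trans ?_
      rw [he, one_mul]
      exact h1
    · rw [ll2T, indicator_of_notMem hx, abs_zero]
      exact (norm_nonneg _).trans h1
  · refine indicator_of_notMem ?_ _
    rw [mem_closedBall_zero_iff]
    exact not_le.mpr hx

private theorem ll2_T_supp (s ε : ℝ) (μ : Measure (E d)) (e : E d) (R : ℝ) (f : E d → ℝ) (x : E d)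
    (hx : x ∉ closedBall (0 : E d) R) : ll2T s ε μ e R f x = 0 :=
  indicator_of_notMem hx _

private theorem ll2_anti {s ε : ℝ} (hs0 : 0 < s) (hε : 0 < ε) (μ : Measure (E d))
    [IsLocallyFiniteMeasure μ] (e : E d) (R : ℝ) {f g : E d → ℝ} (hf : Nice f) (hg : Nice g)
    (hfs : ∀ x, x ∉ closedBall (0 : E d) R → f x = 0)
    (hgs : ∀ x, x ∉ closedBall (0 : E d) R → g x = 0) :
    ∫ x, ll2T s ε μ e R f x * g x ∂μ = -∫ x, f x * ll2T s ε μ e R g x ∂μ := by
  have h := antisym (kh s ε) (measurable_kh s ε) (kh_neg s ε) (ε ^ (-s)) (kh_norm hs0 hε) μ f g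
    (hf.integrable μ) (hg.integrable μ) e
  have h1 : ∀ x, ll2T s ε μ e R f x * g x = inner ℝ e (∫ y, f y • kh s ε (x - y) ∂μ) * g x := by
    intro x
    by_cases hx : x ∈ closedBall (0 : E d) R
    · rw [ll2T, indicator_of_mem hx]
      rfl
    · rw [hgs x hx, mul_zero, mul_zero]
  have h2 : ∀ x, f x * ll2T s ε μ e R g x = inner ℝ e (∫ y, g y • kh s ε (x - y) ∂μ) * f x := by
    intro x
    by_cases hx : x ∈ closedBall (0 : E d) R
    · rw [ll2T, indicator_of_mem hx, mul_comm]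
      rfl
    · rw [hfs x hx, mul_zero, zero_mul]
  simp only [h1, h2]
  exact h

private theorem ll2_T_cube {s : ℝ} (μ : Measure (E d)) [IsLocallyFiniteMeasure μ] {C : ℝ≥0}
    (hC : ∀ ε : ℝ, 0 < ε → ∀ f : E d → ℝ, Nice f → ∀ B : Set (E d), MeasurableSet B →
      Bornology.IsBounded B →
        ∫⁻ x in B, ‖Tr s ε μ f x‖ₑ ^ 3 ∂μ ≤ (C : ℝ≥0∞) * ∫⁻ x, ‖f x‖ₑ ^ 3 ∂μ)
    (hs0 : 0 < s) {ε : ℝ} (hε : 0 < ε) (e : E d) (he : ‖e‖ = 1) (R : ℝ) {f : E d → ℝ}
    (hf : Nice f) :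
    ∫ x, |ll2T s ε μ e R f x| ^ 3 ∂μ ≤ C * ∫ x, |f x| ^ 3 ∂μ := by
  have hof : ∀ (u : E d → ℝ), Nice u → ∫⁻ x, ‖u x‖ₑ ^ 3 ∂μ = ENNReal.ofReal (∫ x, |u x| ^ 3 ∂μ) := by
    intro u hu
    rw [ofReal_integral_eq_lintegral_ofReal ((ll2_cub hu).integrable μ)
      (Filter.Eventually.of_forall fun x => by positivity)]
    congr 1
    funext x
    rw [ENNReal.ofReal_pow (abs_nonneg _), Real.enorm_eq_ofReal_abs]
  have h1 := hC ε hε f hf (closedBall (0 : E d) R) measurableSet_closedBall isBounded_closedBall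
  have h2 : ∫⁻ x, ‖ll2T s ε μ e R f x‖ₑ ^ 3 ∂μ ≤
      ∫⁻ x in closedBall (0 : E d) R, ‖Tr s ε μ f x‖ₑ ^ 3 ∂μ := by
    rw [← lintegral_indicator measurableSet_closedBall]
    refine lintegral_mono fun x => ?_
    by_cases hx : x ∈ closedBall (0 : E d) R
    · rw [ll2T, indicator_of_mem hx, indicator_of_mem hx]
      refine pow_le_pow_left' ?_ 3
      rw [Real.enorm_eq_ofReal_abs, ← ofReal_norm]
      refine ENNReal.ofReal_le_ofReal ((abs_real_inner_le_norm _ _).trans ?_)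
      rw [he, one_mul]
    · rw [ll2T, indicator_of_notMem hx, indicator_of_notMem hx]
      simp
  have h3 := h2.trans h1
  rw [hof _ (ll2_T_nice hs0 hε μ e he R hf), hof f hf] at h3
  have h4 : (C : ℝ≥0∞) * ENNReal.ofReal (∫ x, |f x| ^ 3 ∂μ) =
      ENNReal.ofReal (C * ∫ x, |f x| ^ 3 ∂μ) := by
    rw [ENNReal.ofReal_mul (NNReal.coe_nonneg C), ENNReal.ofReal_coe_nnreal]
  rw [h4] at h3
  refine (ENNReal.ofReal_le_ofReal_iff ?_).mp h3
  exact mul_nonneg (NNReal.coe_nonneg C) (integral_nonneg fun x => by positivity)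

private theorem ll2_cs (μ : Measure (E d)) [IsLocallyFiniteMeasure μ] {u v : E d → ℝ}
    (hu : Nice u) (hv : Nice v) :
    (∫ x, u x * v x ∂μ) ^ 2 ≤ (∫ x, u x ^ 2 ∂μ) * ∫ x, v x ^ 2 ∂μ := by
  have iuu := (ll2_mul hu hu).integrable μ
  have ivv := (ll2_mul hv hv).integrable μ
  have iuv := (ll2_mul hu hv).integrable μ
  have h : ∀ t : ℝ, 0 ≤ (∫ x, u x ^ 2 ∂μ) * (t * t) + (2 * ∫ x, u x * v x ∂μ) * t +
      ∫ x, v x ^ 2 ∂μ := by
    intro t
    have e1 : (∫ x, u x ^ 2 ∂μ) * (t * t) + (2 * ∫ x, u x * v x ∂μ) * t + ∫ x, v x ^ 2 ∂μ =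
        ∫ x, (t * u x + v x) ^ 2 ∂μ := by
      have e2 : ∀ x, (t * u x + v x) ^ 2 = (t * t * (u x * u x) + 2 * t * (u x * v x)) + v x * v x :=
        fun x => by ring
      simp only [e2]
      have i1 : Integrable (fun x => t * t * (u x * u x)) μ := iuu.const_mul _
      have i2 : Integrable (fun x => 2 * t * (u x * v x)) μ := iuv.const_mul _
      have e3 : ∫ x, ((t * t * (u x * u x) + 2 * t * (u x * v x)) + v x * v x) ∂μ =
          (∫ x, (t * t * (u x * u x) + 2 * t * (u x * v x)) ∂μ) + ∫ x, v x * v x ∂μ :=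
        integral_add (f := fun x => t * t * (u x * u x) + 2 * t * (u x * v x)) (i1.add i2) ivv
      rw [e3, integral_add i1 i2, integral_const_mul, integral_const_mul]
      simp only [pow_two]
      ring
    rw [e1]
    exact integral_nonneg fun x => sq_nonneg _
  have h2 := discrim_le_zero h
  rw [discrim] at h2
  nlinarith

private theorem ll2_comp {s : ℝ} (μ : Measure (E d)) [IsLocallyFiniteMeasure μ] {C : ℝ≥0}
    (hC : ∀ ε : ℝ, 0 < ε → ∀ f : E d → ℝ, Nice f → ∀ B : Set (E d), MeasurableSet B →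
      Bornology.IsBounded B →
        ∫⁻ x in B, ‖Tr s ε μ f x‖ₑ ^ 3 ∂μ ≤ (C : ℝ≥0∞) * ∫⁻ x, ‖f x‖ₑ ^ 3 ∂μ)
    (hs0 : 0 < s) {ε : ℝ} (hε : 0 < ε) (e : E d) (he : ‖e‖ = 1) (R : ℝ) {f : E d → ℝ}
    (hf : Nice f) (hfs : ∀ x, x ∉ closedBall (0 : E d) R → f x = 0) {L : ℝ} (hL1 : 1 ≤ L)
    (hL : (C : ℝ) ≤ L ^ 3) :
    ∫ x, ll2T s ε μ e R f x ^ 2 ∂μ ≤ L ^ 2 * ∫ x, f x ^ 2 ∂μ := by
  set T := ll2T s ε μ e R with hT
  set u : ℕ → E d → ℝ := fun n => T^[n] f with hu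
  have hu1 : ∀ n, u (n + 1) = T (u n) := fun n => Function.iterate_succ_apply' T n f
  have hn : ∀ n, Nice (u n) := by
    intro n
    induction n with
    | zero => exact hf
    | succ n ih =>
      rw [hu1]
      exact ll2_T_nice hs0 hε μ e he R ih
  have hsu : ∀ n, ∀ x, x ∉ closedBall (0 : E d) R → u n x = 0 := by
    intro n
    cases n with
    | zero => exact hfs
    | succ n =>
      rw [hu1]
      exact ll2_T_supp s ε μ e R (u n)
  -- the form `b`
  have hb : ∀ n m, ∫ x, u (n + 1) x * u m x ∂μ = -∫ x, u n x * u (m + 1) x ∂μ := by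
    intro n m
    rw [hu1, hu1]
    exact ll2_anti hs0 hε μ e R (hn n) (hn m) (hsu n) (hsu m)
  have hb2 : ∀ n m, |∫ x, u n x * u m x ∂μ| = |∫ x, u 0 x * u (n + m) x ∂μ| := by
    intro n
    induction n with
    | zero => intro m; rw [zero_add]
    | succ n ih =>
      intro m
      rw [hb n m, abs_neg, ih (m + 1), show n + (m + 1) = n + 1 + m by ring]
  -- third powers
  have hc : ∀ n, ∫ x, |u n x| ^ 3 ∂μ ≤ (L ^ 3) ^ n * ∫ x, |f x| ^ 3 ∂μ := by
    intro n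
    induction n with
    | zero => simp [hu]
    | succ n ih =>
      rw [hu1]
      have h1 := ll2_T_cube μ hC hs0 hε e he R (hn n)
      have h0 : 0 ≤ ∫ x, |u n x| ^ 3 ∂μ := integral_nonneg fun x => by positivity
      calc ∫ x, |T (u n) x| ^ 3 ∂μ ≤ C * ∫ x, |u n x| ^ 3 ∂μ := h1
        _ ≤ L ^ 3 * ∫ x, |u n x| ^ 3 ∂μ := by gcongr
        _ ≤ L ^ 3 * ((L ^ 3) ^ n * ∫ x, |f x| ^ 3 ∂μ) := by gcongr
        _ = (L ^ 3) ^ (n + 1) * ∫ x, |f x| ^ 3 ∂μ := by ring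
  obtain ⟨M, hM⟩ := hf.2.1
  have hM0 : 0 ≤ M := (abs_nonneg _).trans (hM 0)
  have hL0 : 0 < L := by linarith
  set F3 := ∫ x, |f x| ^ 3 ∂μ with hF3
  set mB := μ.real (closedBall (0 : E d) R) with hmB
  have hgrow : ∀ n, |∫ x, u 0 x * u n x ∂μ| ≤ M * (mB + F3) * L ^ n := by
    intro n
    set lam := L ^ n with hlam
    have hlam0 : 0 < lam := by positivity
    have hfin : μ (closedBall (0 : E d) R) ≠ ∞ := (isCompact_closedBall _ _).measure_lt_top.ne
    have i1 : Integrable (fun x => (closedBall (0 : E d) R).indicator (fun _ => (1 : ℝ)) x) μ := by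
      rw [integrable_indicator_iff measurableSet_closedBall]
      exact integrableOn_const hfin
    have i3 : Integrable (fun x => |u n x| ^ 3) μ := (ll2_cub (hn n)).integrable μ
    have i4 : Integrable (fun x => M * (lam * (closedBall (0 : E d) R).indicator
        (fun _ => (1 : ℝ)) x + (lam ^ 2)⁻¹ * |u n x| ^ 3)) μ :=
      ((i1.const_mul _).add (i3.const_mul _)).const_mul _
    have e1 : ∫ x, M * (lam * (closedBall (0 : E d) R).indicator (fun _ => (1 : ℝ)) x +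
        (lam ^ 2)⁻¹ * |u n x| ^ 3) ∂μ = M * (lam * mB + (lam ^ 2)⁻¹ * ∫ x, |u n x| ^ 3 ∂μ) := by
      rw [integral_const_mul, integral_add (i1.const_mul _) (i3.const_mul _), integral_const_mul,
        integral_const_mul, integral_indicator measurableSet_closedBall]
      simp [hmB]
    have h1 : |∫ x, u 0 x * u n x ∂μ| ≤ M * (lam * mB + (lam ^ 2)⁻¹ * ∫ x, |u n x| ^ 3 ∂μ) := by
      rw [← e1]
      refine norm_integral_le_of_norm_le (f := fun x => u 0 x * u n x) i4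
        (Filter.Eventually.of_forall fun x => ?_)
      rw [Real.norm_eq_abs, abs_mul]
      refine mul_le_mul (hM x) ?_ (abs_nonneg _) hM0
      by_cases hx : x ∈ closedBall (0 : E d) R
      · rw [indicator_of_mem hx, mul_one]
        rcases le_total |u n x| lam with h | h
        · have : 0 ≤ (lam ^ 2)⁻¹ * |u n x| ^ 3 := by positivity
          linarith
        · have : |u n x| ≤ (lam ^ 2)⁻¹ * |u n x| ^ 3 := by
            rw [inv_mul_eq_div, le_div_iff₀ (by positivity)]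
            have h2 : lam ^ 2 ≤ |u n x| ^ 2 := pow_le_pow_left₀ hlam0.le h 2
            calc |u n x| * lam ^ 2 ≤ |u n x| * |u n x| ^ 2 := by gcongr
              _ = |u n x| ^ 3 := by ring
          linarith
      · rw [hsu n x hx]
        simp [indicator_of_notMem hx]
    refine h1.trans ?_
    have h2 : (lam ^ 2)⁻¹ * ∫ x, |u n x| ^ 3 ∂μ ≤ lam * F3 := by
      rw [inv_mul_le_iff₀ (by positivity)]
      refine (hc n).trans (le_of_eq ?_)
      rw [hlam]
      ring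
    calc M * (lam * mB + (lam ^ 2)⁻¹ * ∫ x, |u n x| ^ 3 ∂μ) ≤ M * (lam * mB + lam * F3) := by
          gcongr
      _ = M * (mB + F3) * lam := by ring
  -- conclusion
  have key := spc (fun n => ∫ x, u n x ^ 2 ∂μ) (fun n => integral_nonneg fun x => sq_nonneg _)
    (fun n => ?_) (M * (mB + F3)) (L ^ 2) (by positivity) (fun n => ?_)
  · have e0 : u 0 = f := rfl
    have e1 : u 1 = T f := by
      have := hu1 0
      rw [zero_add, e0] at this
      exact this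
    simp only [e0, e1] at key
    exact key
  · have h1 : ∫ x, u (n + 1) x ^ 2 ∂μ = -∫ x, u n x * u (n + 2) x ∂μ := by
      rw [← hb n (n + 1)]
      simp only [pow_two]
    rw [h1, neg_sq]
    exact ll2_cs μ (hn n) (hn (n + 2))
  · have h1 : ∫ x, u n x ^ 2 ∂μ = ∫ x, u n x * u n x ∂μ := by simp only [pow_two]
    rw [h1]
    refine (le_abs_self _).trans ?_
    rw [hb2 n n]
    refine (hgrow (n + n)).trans (le_of_eq ?_)
    rw [← two_mul, pow_mul]

theorem ll2 {s : ℝ} (hs0 : 0 < s) (hs1 : s < 1) (μ : Measure (E d)) [IsLocallyFiniteMeasure μ]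
    [NullSingletonClass μ] (h : WB s μ) :
    ∃ C : ℝ≥0, ∀ ε : ℝ, 0 < ε → ∀ f : E d → ℝ, Nice f →
      ∫⁻ x, ‖Tr s ε μ f x‖ₑ ^ 2 ∂μ ≤ (C : ℝ≥0∞) * ∫⁻ x, ‖f x‖ₑ ^ 2 ∂μ := by
  obtain ⟨C, hC⟩ := ll3 hs0 hs1 μ h
  obtain ⟨L, hL1, hL⟩ : ∃ L : ℝ≥0, 1 ≤ (L : ℝ) ∧ (C : ℝ) ≤ (L : ℝ) ^ 3 := by
    refine ⟨1 + C, ?_, ?_⟩
    · push_cast
      have := C.2
      have h : (0 : ℝ) ≤ C := this
      linarith
    · push_cast
      have h : (0 : ℝ) ≤ C := C.2
      nlinarith [mul_nonneg h h, mul_nonneg h (mul_nonneg h h)]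
  refine ⟨d * L ^ 2, fun ε hε f hf => ?_⟩
  obtain ⟨R₀, hR₀⟩ := hf.2.2
  have hsq : Nice (fun x => f x * f x) := ll2_mul hf hf
  have hofsq : ∀ (u : E d → ℝ), Nice u → ∫⁻ x, ‖u x‖ₑ ^ 2 ∂μ = ENNReal.ofReal (∫ x, u x ^ 2 ∂μ) := by
    intro u hu
    have hi : Integrable (fun x => u x ^ 2) μ := by
      have := (ll2_mul hu hu).integrable μ
      simpa only [pow_two] using this
    rw [ofReal_integral_eq_lintegral_ofReal hi (Filter.Eventually.of_forall fun x => by positivity)]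
    congr 1
    funext x
    rw [Real.enorm_eq_ofReal_abs, ← ENNReal.ofReal_pow (abs_nonneg _), sq_abs]
  have hcomp : ∀ R : ℝ, R₀ ≤ R → ∀ i : Fin d,
      ∫⁻ x in closedBall (0 : E d) R, ‖(Tr s ε μ f x) i‖ₑ ^ 2 ∂μ ≤
        ((L ^ 2 : ℝ≥0) : ℝ≥0∞) * ∫⁻ x, ‖f x‖ₑ ^ 2 ∂μ := by
    intro R hR i
    set e : E d := EuclideanSpace.single i (1 : ℝ) with he
    have he1 : ‖e‖ = 1 := by simp [he]
    have hfs : ∀ x, x ∉ closedBall (0 : E d) R → f x = 0 := by
      intro x hx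
      rw [mem_closedBall_zero_iff, not_le] at hx
      exact hR₀ x (lt_of_le_of_lt hR hx)
    have h1 := ll2_comp μ hC hs0 hε e he1 R hf hfs hL1 hL
    have h2 : ∫⁻ x in closedBall (0 : E d) R, ‖(Tr s ε μ f x) i‖ₑ ^ 2 ∂μ =
        ∫⁻ x, ‖ll2T s ε μ e R f x‖ₑ ^ 2 ∂μ := by
      rw [← lintegral_indicator measurableSet_closedBall]
      congr 1
      funext x
      by_cases hx : x ∈ closedBall (0 : E d) R
      · rw [indicator_of_mem hx, ll2T, indicator_of_mem hx]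
        congr 2
        rw [he, EuclideanSpace.inner_single_left]
        simp
      · rw [indicator_of_notMem hx, ll2T, indicator_of_notMem hx]
        simp
    rw [h2, hofsq _ (ll2_T_nice hs0 hε μ e he1 R hf), hofsq f hf]
    refine (ENNReal.ofReal_le_ofReal h1).trans (le_of_eq ?_)
    rw [ENNReal.ofReal_mul (by positivity), ← NNReal.coe_pow, ENNReal.ofReal_coe_nnreal]
  have hmT := measurable_Tr s ε μ f hf.1
  have hball : ∀ R : ℝ, R₀ ≤ R → ∫⁻ x in closedBall (0 : E d) R, ‖Tr s ε μ f x‖ₑ ^ 2 ∂μ ≤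
      ((d * L ^ 2 : ℝ≥0) : ℝ≥0∞) * ∫⁻ x, ‖f x‖ₑ ^ 2 ∂μ := by
    intro R hR
    have h1 : ∀ x, ‖Tr s ε μ f x‖ₑ ^ 2 = ∑ i : Fin d, ‖(Tr s ε μ f x) i‖ₑ ^ 2 := by
      intro x
      rw [← ofReal_norm, ← ENNReal.ofReal_pow (norm_nonneg _), EuclideanSpace.norm_sq_eq,
        ENNReal.ofReal_sum_of_nonneg (fun i _ => by positivity)]
      refine Finset.sum_congr rfl fun i _ => ?_
      rw [ENNReal.ofReal_pow (norm_nonneg _), ofReal_norm]
    simp only [h1]
    rw [lintegral_finsetSum]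
    · refine (Finset.sum_le_sum fun i _ => hcomp R hR i).trans (le_of_eq ?_)
      rw [Finset.sum_const, Finset.card_univ, Fintype.card_fin, nsmul_eq_mul]
      push_cast
      ring
    · intro i _
      have : Measurable (fun x => (Tr s ε μ f x) i) :=
        (EuclideanSpace.proj (𝕜 := ℝ) i).continuous.measurable.comp hmT
      exact this.enorm.pow_const 2
  have hlim := (aecover_closedBall (μ := μ) (x := (0 : E d))
    (tendsto_natCast_atTop_atTop (R := ℝ))).lintegral_tendsto_of_countably_generated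
    (f := fun x => ‖Tr s ε μ f x‖ₑ ^ 2) (hmT.enorm.pow_const 2).aemeasurable
  refine le_of_tendsto hlim ?_
  filter_upwards [Filter.eventually_ge_atTop ⌈R₀⌉₊] with n hn
  exact hball n ((Nat.le_ceil R₀).trans (by exact_mod_cast hn))

end Pool.Agent.RSF
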