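import Pool.Agent.RSF.SYM
import Pool.Agent.RSF.GER

/-!
# LOW: the lower bound for truncated operators

By `sym`, `3 ∫ ‖∫ k(x-y) dν(y)‖² dν(x) = ∫∫∫ sp k ≥ c ∫∫∫ om - C ∫∫∫ on` (the pointwise inequality holds for
`ν`-almost all `x`, `y`, `z`; all integrands are bounded and measurable and `ν` is finite), and
`∫∫∫ on ≤ C' G² ν(univ)` (`ger2`). Translate between `∫` and `∫⁻` (`ofReal_integral_eq_lintegral_ofReal`;
the triple integrals of nonnegative bounded measurable functions).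
-/

namespace Pool.Agent.RSF

open MeasureTheory Metric Set
open scoped ENNReal NNReal

variable {d : ℕ}

private theorem LOW_meas_swap (F : E d → E d → E d → ℝ)
    (hF : Measurable (fun q : E d × E d × E d => F q.1 q.2.1 q.2.2)) (B : ℝ)
    (hB : ∀ x y z, |F x y z| ≤ B) (ν : Measure (E d)) [IsFiniteMeasure ν] :
    Integrable (fun q : E d × E d × E d => F q.1 q.2.1 q.2.2) (ν.prod (ν.prod ν)) :=
  Integrable.of_bound hF.aestronglyMeasurable B (Filter.Eventually.of_forall fun _ => hB _ _ _)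

private theorem LOW_prod (F : E d → E d → E d → ℝ)
    (hF : Measurable (fun q : E d × E d × E d => F q.1 q.2.1 q.2.2)) (B : ℝ)
    (hB : ∀ x y z, |F x y z| ≤ B) (ν : Measure (E d)) [IsFiniteMeasure ν] :
    ∫ x, ∫ y, ∫ z, F x y z ∂ν ∂ν ∂ν = ∫ q, F q.1 q.2.1 q.2.2 ∂(ν.prod (ν.prod ν)) := by
  rw [integral_prod _ (LOW_meas_swap F hF B hB ν)]
  refine integral_congr_ae (Filter.Eventually.of_forall fun x => ?_)
  simp only
  have h1 : Integrable (fun q : E d × E d => F x q.1 q.2) (ν.prod ν) :=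
    Integrable.of_bound (hF.comp (measurable_const.prodMk measurable_id)).aestronglyMeasurable B
      (Filter.Eventually.of_forall fun q => hB _ _ _)
  rw [integral_prod _ h1]

/-- Triple integrals of bounded measurable nonnegative functions. -/
theorem ofReal_triple (F : E d → E d → E d → ℝ)
    (hF : Measurable (fun q : E d × E d × E d => F q.1 q.2.1 q.2.2)) (B : ℝ)
    (h0 : ∀ x y z, 0 ≤ F x y z) (hB : ∀ x y z, F x y z ≤ B) (ν : Measure (E d)) [IsFiniteMeasure ν] :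
    ENNReal.ofReal (∫ x, ∫ y, ∫ z, F x y z ∂ν ∂ν ∂ν) =
      ∫⁻ x, ∫⁻ y, ∫⁻ z, ENNReal.ofReal (F x y z) ∂ν ∂ν ∂ν := by
  have hB' : ∀ x y z, |F x y z| ≤ B := fun x y z => by
    rw [abs_of_nonneg (h0 x y z)]; exact hB x y z
  rw [LOW_prod F hF B hB' ν, ofReal_integral_eq_lintegral_ofReal (LOW_meas_swap F hF B hB' ν)
    (Filter.Eventually.of_forall fun q => h0 _ _ _)]
  rw [lintegral_prod _ hF.ennreal_ofReal.aemeasurable]
  refine lintegral_congr fun x => ?_
  have h1 : Measurable (fun q : E d × E d => ENNReal.ofReal (F x q.1 q.2)) :=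
    (hF.comp (measurable_const.prodMk measurable_id)).ennreal_ofReal
  exact lintegral_prod _ h1.aemeasurable

private theorem LOW_sp_meas (k : E d → E d) (hk : Measurable k) :
    Measurable (fun q : E d × E d × E d => sp k q.1 q.2.1 q.2.2) := by
  unfold sp
  have m : ∀ f g : E d × E d × E d → E d, Measurable f → Measurable g →
      Measurable (fun q => k (f q - g q)) := fun f g hf hg => hk.comp (hf.sub hg)
  have m1 : Measurable (fun q : E d × E d × E d => q.1) := measurable_fst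
  have m2 : Measurable (fun q : E d × E d × E d => q.2.1) := measurable_snd.fst
  have m3 : Measurable (fun q : E d × E d × E d => q.2.2) := measurable_snd.snd
  exact (((m _ _ m1 m2).inner (m _ _ m1 m3)).add ((m _ _ m2 m1).inner (m _ _ m2 m3))).add
    ((m _ _ m3 m1).inner (m _ _ m3 m2))

private theorem LOW_sp_bd (k : E d → E d) (B : ℝ) (hB : ∀ u, ‖k u‖ ≤ B) (x y z : E d) :
    |sp k x y z| ≤ 3 * (B * B) := by
  have h : ∀ u v : E d, |(inner ℝ (k u) (k v) : ℝ)| ≤ B * B := fun u v =>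
    (abs_real_inner_le_norm _ _).trans (mul_le_mul (hB u) (hB v) (norm_nonneg _)
      ((norm_nonneg _).trans (hB u)))
  unfold sp
  have h1 := abs_le.1 (h (x - y) (x - z))
  have h2 := abs_le.1 (h (y - x) (y - z))
  have h3 := abs_le.1 (h (z - x) (z - y))
  rw [abs_le]
  constructor <;> linarith [h1.1, h1.2, h2.1, h2.2, h3.1, h3.2]

private theorem LOW_sq (k : E d → E d) (hk : Measurable k) (B : ℝ) (hB : ∀ u, ‖k u‖ ≤ B)
    (ν : Measure (E d)) [IsFiniteMeasure ν] :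
    ∫⁻ x, ‖∫ y, k (x - y) ∂ν‖ₑ ^ 2 ∂ν = ENNReal.ofReal (∫ x, ‖∫ y, k (x - y) ∂ν‖ ^ 2 ∂ν) := by
  have hm : StronglyMeasurable (fun x : E d => ∫ y, k (x - y) ∂ν) := by
    have h1 : StronglyMeasurable (fun q : E d × E d => k (q.1 - q.2)) :=
      (hk.comp (measurable_fst.sub measurable_snd)).stronglyMeasurable
    exact h1.integral_prod_right
  have hb : ∀ x : E d, ‖∫ y, k (x - y) ∂ν‖ ≤ B * ν.real univ := fun x =>
    (norm_integral_le_of_norm_le_const (Filter.Eventually.of_forall fun y => hB (x - y)))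
  rw [ofReal_integral_eq_lintegral_ofReal _ (Filter.Eventually.of_forall fun x => by positivity)]
  · refine lintegral_congr fun x => ?_
    rw [ENNReal.ofReal_pow (norm_nonneg _), ofReal_norm]
  · refine Integrable.of_bound (hm.norm.pow 2).aestronglyMeasurable ((B * ν.real univ) ^ 2)
      (Filter.Eventually.of_forall fun x => ?_)
    rw [Real.norm_eq_abs, abs_of_nonneg (by positivity)]
    exact pow_le_pow_left₀ (norm_nonneg _) (hb x) 2

theorem low {s : ℝ} (hs0 : 0 < s) : ∃ C' : ℝ, 0 ≤ C' ∧ ∀ (d : ℕ) (c C B G ε : ℝ) (k : E d → E d)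
    (ν : Measure (E d)) (A : Set (E d)), 0 < c → 0 ≤ C → 0 ≤ G → 0 < ε → Measurable k →
    (∀ u, ‖k u‖ ≤ B) → IsFiniteMeasure ν → Growth s G ν → ν Aᶜ = 0 →
    (∀ x ∈ A, ∀ y ∈ A, ∀ z ∈ A, c * om s ε x y z - C * on s ε x y z ≤ sp k x y z) →
      ENNReal.ofReal c * U s ε ν ≤ 3 * ∫⁻ x, ‖∫ y, k (x - y) ∂ν‖ₑ ^ 2 ∂ν +
        ENNReal.ofReal (C * C' * G ^ 2) * ν univ := by
  obtain ⟨C', hC', hger⟩ := ger2 hs0
  refine ⟨C', hC', ?_⟩
  intro d c C B G ε k ν A hc hC hG hε hk hB hν hgr hA hpw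
  have homb : ∀ x y z : E d, |om s ε x y z| ≤ ε ^ (-(2 * s)) := fun x y z => by
    rw [abs_of_nonneg (om_pos hε x y z).le]; exact om_le hs0 hε x y z
  have hon0 : ∀ x y z : E d, 0 ≤ on s ε x y z := fun x y z => by
    unfold on; split_ifs
    · exact (om_pos hε x y z).le
    · exact le_rfl
  have honb : ∀ x y z : E d, |on s ε x y z| ≤ ε ^ (-(2 * s)) := fun x y z => by
    rw [abs_of_nonneg (hon0 x y z)]
    unfold on; split_ifs
    · exact om_le hs0 hε x y z
    · positivity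
  have iom := LOW_meas_swap (om s ε) (measurable_om s ε) _ homb ν
  have ion := LOW_meas_swap (on s ε) (measurable_on s ε) _ honb ν
  have isp := LOW_meas_swap (sp k) (LOW_sp_meas k hk) _ (LOW_sp_bd k B hB) ν
  have hsym := sym k hk B hB ν
  rw [LOW_prod (sp k) (LOW_sp_meas k hk) _ (LOW_sp_bd k B hB) ν] at hsym
  have hAae : ∀ᵐ x ∂ν, x ∈ A := by
    rw [ae_iff]; exact hA
  have hae : ∀ᵐ q ∂(ν.prod (ν.prod ν)), c * om s ε q.1 q.2.1 q.2.2 - C * on s ε q.1 q.2.1 q.2.2 ≤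
      sp k q.1 q.2.1 q.2.2 := by
    have a1 := (Measure.quasiMeasurePreserving_fst (μ := ν) (ν := ν.prod ν)).ae hAae
    have a23 := (Measure.quasiMeasurePreserving_snd (μ := ν) (ν := ν.prod ν)).ae
      ((Measure.quasiMeasurePreserving_fst (μ := ν) (ν := ν)).ae hAae)
    have a33 := (Measure.quasiMeasurePreserving_snd (μ := ν) (ν := ν.prod ν)).ae
      ((Measure.quasiMeasurePreserving_snd (μ := ν) (ν := ν)).ae hAae)
    filter_upwards [a1, a23, a33] with q h1 h2 h3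
    exact hpw _ h1 _ h2 _ h3
  have hint := integral_mono_ae ((iom.const_mul c).sub (ion.const_mul C)) isp hae
  simp only [Pi.sub_apply] at hint
  rw [integral_sub (iom.const_mul c) (ion.const_mul C), integral_const_mul, integral_const_mul,
    ← hsym] at hint
  have e1 : U s ε ν = ENNReal.ofReal (∫ q, om s ε q.1 q.2.1 q.2.2 ∂(ν.prod (ν.prod ν))) := by
    unfold U
    rw [← LOW_prod (om s ε) (measurable_om s ε) _ homb ν,
      ofReal_triple (om s ε) (measurable_om s ε) _ (fun x y z => (om_pos hε x y z).le)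
        (fun x y z => om_le hs0 hε x y z) ν]
  have e2 : ENNReal.ofReal (∫ q, on s ε q.1 q.2.1 q.2.2 ∂(ν.prod (ν.prod ν))) ≤
      ENNReal.ofReal (C' * G ^ 2) * ν univ := by
    rw [← LOW_prod (on s ε) (measurable_on s ε) _ honb ν,
      ofReal_triple (on s ε) (measurable_on s ε) _ hon0
        (fun x y z => (le_abs_self _).trans (honb x y z)) ν]
    exact hger d G ε ν hG hε hν hgr
  rw [e1, ← ENNReal.ofReal_mul hc.le, LOW_sq k hk B hB ν]
  have h3 : c * ∫ q, om s ε q.1 q.2.1 q.2.2 ∂(ν.prod (ν.prod ν)) ≤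
      3 * (∫ x, ‖∫ y, k (x - y) ∂ν‖ ^ 2 ∂ν) +
        C * ∫ q, on s ε q.1 q.2.1 q.2.2 ∂(ν.prod (ν.prod ν)) := by linarith
  have h4 : 0 ≤ ∫ x, ‖∫ y, k (x - y) ∂ν‖ ^ 2 ∂ν := integral_nonneg fun x => by positivity
  have h5 : 0 ≤ ∫ q, on s ε q.1 q.2.1 q.2.2 ∂(ν.prod (ν.prod ν)) :=
    integral_nonneg fun q => hon0 _ _ _
  refine (ENNReal.ofReal_le_ofReal h3).trans ?_
  rw [ENNReal.ofReal_add (by positivity) (by positivity), ENNReal.ofReal_mul (by norm_num),
    ENNReal.ofReal_mul hC]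
  refine add_le_add ?_ ?_
  · rw [show ENNReal.ofReal 3 = 3 by simp]
  · calc ENNReal.ofReal C * ENNReal.ofReal (∫ q, on s ε q.1 q.2.1 q.2.2 ∂(ν.prod (ν.prod ν)))
        ≤ ENNReal.ofReal C * (ENNReal.ofReal (C' * G ^ 2) * ν univ) := by gcongr
      _ = ENNReal.ofReal (C * C' * G ^ 2) * ν univ := by
          rw [← mul_assoc, ← ENNReal.ofReal_mul hC, mul_assoc C]

/-- The corresponding upper bound for the hard truncation. -/
theorem upp (k : E d → E d) (hk : Measurable k) (B C : ℝ) (hB : ∀ u, ‖k u‖ ≤ B) (hC : 0 ≤ C) {s : ℝ}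
    (ν : Measure (E d)) [IsFiniteMeasure ν]
    (h : ∀ x y z : E d, sp k x y z ≤ C * mx x y z ^ (-(2 * s))) :
    ∫⁻ x, ‖∫ y, k (x - y) ∂ν‖ₑ ^ 2 ∂ν ≤
      ENNReal.ofReal C * ∫⁻ x, ∫⁻ y, ∫⁻ z, ENNReal.ofReal (mx x y z ^ (-(2 * s))) ∂ν ∂ν ∂ν := by
  have isp := LOW_meas_swap (sp k) (LOW_sp_meas k hk) _ (LOW_sp_bd k B hB) ν
  have hsym := sym k hk B hB ν
  rw [LOW_prod (sp k) (LOW_sp_meas k hk) _ (LOW_sp_bd k B hB) ν] at hsym
  have hmx : Measurable (fun q : E d × E d × E d => mx q.1 q.2.1 q.2.2 ^ (-(2 * s))) := by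
    unfold mx
    exact ((measurable_fst.sub measurable_snd.fst).norm.max
      (measurable_fst.sub measurable_snd.snd).norm).pow_const _
  have h4 : 0 ≤ ∫ x, ‖∫ y, k (x - y) ∂ν‖ ^ 2 ∂ν := integral_nonneg fun x => by positivity
  rw [LOW_sq k hk B hB ν]
  calc ENNReal.ofReal (∫ x, ‖∫ y, k (x - y) ∂ν‖ ^ 2 ∂ν)
      ≤ ENNReal.ofReal (∫ q, sp k q.1 q.2.1 q.2.2 ∂(ν.prod (ν.prod ν))) :=
        ENNReal.ofReal_le_ofReal (by rw [← hsym]; linarith)
    _ ≤ ∫⁻ q, ENNReal.ofReal (sp k q.1 q.2.1 q.2.2) ∂(ν.prod (ν.prod ν)) := by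
        rw [integral_eq_lintegral_pos_part_sub_lintegral_neg_part isp]
        refine (ENNReal.ofReal_le_ofReal (sub_le_self _ ENNReal.toReal_nonneg)).trans ?_
        exact ENNReal.ofReal_toReal_le
    _ ≤ ∫⁻ q, ENNReal.ofReal C * ENNReal.ofReal (mx q.1 q.2.1 q.2.2 ^ (-(2 * s)))
          ∂(ν.prod (ν.prod ν)) := by
        refine lintegral_mono fun q => ?_
        rw [← ENNReal.ofReal_mul hC]
        exact ENNReal.ofReal_le_ofReal (h _ _ _)
    _ = ENNReal.ofReal C *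
          ∫⁻ q, ENNReal.ofReal (mx q.1 q.2.1 q.2.2 ^ (-(2 * s))) ∂(ν.prod (ν.prod ν)) :=
        lintegral_const_mul _ hmx.ennreal_ofReal
    _ = _ := by
        congr 1
        rw [lintegral_prod _ hmx.ennreal_ofReal.aemeasurable]
        refine lintegral_congr fun x => ?_
        have h1 : Measurable (fun q : E d × E d =>
            ENNReal.ofReal (mx x q.1 q.2 ^ (-(2 * s)))) :=
          (hmx.comp (measurable_const.prodMk measurable_id)).ennreal_ofReal
        exact lintegral_prod _ h1.aemeasurable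

end Pool.Agent.RSF
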