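import Pool.Agent.RSF.EM3
import Pool.Agent.RSF.LOW
import Pool.Agent.RSF.HRD

/-!
# LL3: the truncated transforms are bounded on `L³(μ)`

`Tr s ε μ f x = ∫ f y • kh s ε (x - y) dμ(y)`. A function is NICE if it is measurable, bounded and has bounded support.
1. For nice `f ≥ 0` let `ν = μ.withDensity (ofReal ∘ f)` (finite). `∫ kh s ε (x-y) dν(y) = Tr f x`
   (`integral_withDensity_eq_integral_smul`-type lemma). `upp` with `kh_up` gives
   `∫ ‖Tr f‖² f dμ ≤ 8 ∫∫∫ mx^(-2s) f f f ≤ A ∫ f³ dμ` (`em3`), `A = 8 C`. (`hcub` below)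
2. Let `f ≥ 0` be nice, `B` bounded measurable, `g = ‖Tr f‖ 1_B`: nice (`‖Tr f‖ ≤ ε^(-s) ∫ |f|`), `I = ∫ g³ < ∞`, `F = ∫ f³`.
   For `t > 0` put `h = f + t g` (nice, `≥ 0`), `Tr f = Tr h - t Tr g`, `‖Tr f‖² ≤ 2 ‖Tr h‖² + 2 t² ‖Tr g‖²`. So
   `t I = ∫ ‖Tr f‖² (t g) ≤ 2 ∫ ‖Tr h‖² h + 2 t³ ∫ ‖Tr g‖² g ≤ 2 A ∫ h³ + 2 A t³ I ≤ 8 A (F + t³ I) + 2 A t³ I
   = 8 A F + 10 A t³ I` (`(a+b)³ ≤ 4 (a³ + b³)`). WLOG `A ≥ 1`; take `t = 1/√(20 A)`: `10 A t³ I = t I / 2`, hence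
   `I ≤ 16 A F / t = 16 A √(20 A) F`.
3. General nice `f = f⁺ - f⁻`: `‖Tr f‖³ ≤ 4 (‖Tr f⁺‖³ + ‖Tr f⁻‖³)`, `∫ (f⁺)³ + ∫ (f⁻)³ = ∫ |f|³`.
-/

namespace Pool.Agent.RSF

open MeasureTheory Metric Set
open scoped ENNReal NNReal

variable {d : ℕ}

/-- The truncated Riesz transform. -/
noncomputable def Tr (s ε : ℝ) (μ : Measure (E d)) (f : E d → ℝ) (x : E d) : E d :=
  ∫ y, f y • kh s ε (x - y) ∂μ

/-- Measurable bounded functions with bounded support. -/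
def Nice (f : E d → ℝ) : Prop :=
  Measurable f ∧ (∃ M : ℝ, ∀ x, |f x| ≤ M) ∧ ∃ R : ℝ, ∀ x : E d, R < ‖x‖ → f x = 0

theorem Nice.integrable {f : E d → ℝ} (hf : Nice f) (μ : Measure (E d))
    [IsLocallyFiniteMeasure μ] : Integrable f μ := by
  obtain ⟨hm, ⟨M, hM⟩, R, hR⟩ := hf
  have hfin : μ (closedBall (0 : E d) R) < ∞ := (isCompact_closedBall _ _).measure_lt_top
  have h1 : IntegrableOn f (closedBall (0 : E d) R) μ :=
    Measure.integrableOn_of_bounded hfin.ne hm.aestronglyMeasurable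
      (Filter.Eventually.of_forall fun x => by simpa using hM x)
  rwa [integrableOn_iff_integrable_of_support_subset] at h1
  intro x hx
  rw [mem_closedBall_zero_iff]
  by_contra hc
  exact hx (hR x (not_le.mp hc))

private theorem ll3_meas (s ε : ℝ) {f : E d → ℝ} (hf : Measurable f) (x : E d) :
    Measurable (fun y => f y • kh s ε (x - y)) :=
  hf.smul ((measurable_kh s ε).comp (measurable_const.sub measurable_id))

private theorem ll3_int {s ε : ℝ} (hs0 : 0 < s) (hε : 0 < ε) (μ : Measure (E d))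
    [IsLocallyFiniteMeasure μ] {f : E d → ℝ} (hf : Nice f) (x : E d) :
    Integrable (fun y => f y • kh s ε (x - y)) μ := by
  have h1 := (hf.integrable μ).norm.const_mul (ε ^ (-s))
  refine h1.mono' (ll3_meas s ε hf.1 x).aestronglyMeasurable
    (Filter.Eventually.of_forall fun y => ?_)
  rw [norm_smul, mul_comm]
  exact mul_le_mul_of_nonneg_right (kh_norm hs0 hε _) (norm_nonneg _)

theorem measurable_Tr (s ε : ℝ) (μ : Measure (E d)) [SFinite μ] (f : E d → ℝ) (hf : Measurable f) :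
    Measurable (Tr s ε μ f) := by
  have h : StronglyMeasurable (Function.uncurry fun (x y : E d) => f y • kh s ε (x - y)) := by
    apply Measurable.stronglyMeasurable
    exact (hf.comp measurable_snd).smul
      ((measurable_kh s ε).comp (measurable_fst.sub measurable_snd))
  exact h.integral_prod_right.measurable

theorem Tr_norm_le {s ε : ℝ} (hs0 : 0 < s) (hε : 0 < ε) (μ : Measure (E d))
    [IsLocallyFiniteMeasure μ] {f : E d → ℝ} (hf : Nice f) (x : E d) :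
    ‖Tr s ε μ f x‖ ≤ ε ^ (-s) * ∫ y, |f y| ∂μ := by
  rw [← integral_const_mul]
  refine norm_integral_le_of_norm_le ((hf.integrable μ).abs.const_mul _)
    (Filter.Eventually.of_forall fun y => ?_)
  rw [norm_smul, mul_comm, Real.norm_eq_abs]
  exact mul_le_mul_of_nonneg_right (kh_norm hs0 hε _) (abs_nonneg _)

theorem Tr_add {s ε : ℝ} (hs0 : 0 < s) (hε : 0 < ε) (μ : Measure (E d))
    [IsLocallyFiniteMeasure μ] {f g : E d → ℝ} (hf : Nice f) (hg : Nice g) (a b : ℝ) (x : E d) :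
    Tr s ε μ (fun y => a * f y + b * g y) x = a • Tr s ε μ f x + b • Tr s ε μ g x := by
  unfold Tr
  rw [← integral_smul, ← integral_smul, ← integral_add]
  · congr 1
    funext y
    rw [add_smul, mul_smul, mul_smul]
  · exact (ll3_int hs0 hε μ hf x).smul a
  · exact (ll3_int hs0 hε μ hg x).smul b

private theorem ll3_cub {s : ℝ} (hs0 : 0 < s) (hs1 : s < 1) (μ : Measure (E d))
    [IsLocallyFiniteMeasure μ] {C : ℝ≥0}
    (hC : ∀ f : E d → ℝ≥0∞, Measurable f →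
      ∫⁻ x, ∫⁻ y, ∫⁻ z, ENNReal.ofReal (mx x y z ^ (-(2 * s))) * (f x * f y * f z) ∂μ ∂μ ∂μ ≤
        (C : ℝ≥0∞) * ∫⁻ x, f x ^ 3 ∂μ)
    {ε : ℝ} (hε : 0 < ε) {f : E d → ℝ} (hf : Nice f) (hf0 : ∀ x, 0 ≤ f x) :
    ∫⁻ x, ‖Tr s ε μ f x‖ₑ ^ 2 * ENNReal.ofReal (f x) ∂μ ≤
      8 * C * ∫⁻ x, ENNReal.ofReal (f x) ^ 3 ∂μ := by
  set F : E d → ℝ≥0∞ := fun x => ENNReal.ofReal (f x) with hF
  have hFm : Measurable F := hf.1.ennreal_ofReal
  have hFt : ∀ᵐ x ∂μ, F x < ∞ := Filter.Eventually.of_forall fun x => ENNReal.ofReal_lt_top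
  have hFne : ∀ x, F x ≠ ∞ := fun x => ENNReal.ofReal_ne_top
  set ν := μ.withDensity F with hν
  have : IsFiniteMeasure ν := by
    refine isFiniteMeasure_withDensity ?_
    have := (hf.integrable μ).lintegral_lt_top
    exact this.ne
  have h1 : ∀ x, ∫ y, kh s ε (x - y) ∂ν = Tr s ε μ f x := by
    intro x
    rw [hν, integral_withDensity_eq_integral_toReal_smul hFm hFt]
    unfold Tr
    congr 1
    funext y
    rw [hF]
    simp only
    rw [ENNReal.toReal_ofReal (hf0 y)]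
  have h2 := upp (kh s ε) (measurable_kh s ε) (ε ^ (-s)) 8 (kh_norm hs0 hε) (by norm_num)
    (s := s) ν (fun x y z => kh_up hs0 hs1 hε x y z)
  have h3 : ∫⁻ x, ‖∫ y, kh s ε (x - y) ∂ν‖ₑ ^ 2 ∂ν =
      ∫⁻ x, ‖Tr s ε μ f x‖ₑ ^ 2 * ENNReal.ofReal (f x) ∂μ := by
    simp only [h1]
    rw [hν, lintegral_withDensity_eq_lintegral_mul_non_measurable μ hFm hFt]
    congr 1
    funext x
    simp only [Pi.mul_apply]
    rw [mul_comm]
  have h4 : ∫⁻ x, ∫⁻ y, ∫⁻ z, ENNReal.ofReal (mx x y z ^ (-(2 * s))) ∂ν ∂ν ∂ν =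
      ∫⁻ x, ∫⁻ y, ∫⁻ z, ENNReal.ofReal (mx x y z ^ (-(2 * s))) * (F x * F y * F z) ∂μ ∂μ ∂μ := by
    rw [hν, lintegral_withDensity_eq_lintegral_mul_non_measurable μ hFm hFt]
    congr 1
    funext x
    simp only [Pi.mul_apply]
    rw [lintegral_withDensity_eq_lintegral_mul_non_measurable μ hFm hFt,
      ← lintegral_const_mul' _ _ (hFne x)]
    congr 1
    funext y
    simp only [Pi.mul_apply]
    rw [lintegral_withDensity_eq_lintegral_mul_non_measurable μ hFm hFt, ← mul_assoc,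
      ← lintegral_const_mul' _ _ (ENNReal.mul_ne_top (hFne x) (hFne y))]
    congr 1
    funext z
    simp only [Pi.mul_apply]
    ring
  rw [h3, h4] at h2
  refine h2.trans ?_
  have h8 : ENNReal.ofReal 8 = 8 := by norm_num
  rw [h8, mul_assoc]
  exact mul_le_mul_right (hC F hFm) _

private theorem ll3_cube (a b : ℝ≥0∞) : (a + b) ^ 3 ≤ 4 * (a ^ 3 + b ^ 3) := by
  rcases eq_or_ne a ∞ with ha | ha
  · simp [ha]
  rcases eq_or_ne b ∞ with hb | hb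
  · simp [hb]
  lift a to ℝ≥0 using ha
  lift b to ℝ≥0 using hb
  norm_cast
  rw [← NNReal.coe_le_coe]
  push_cast
  have ha := a.2
  have hb := b.2
  have ha' : (0 : ℝ) ≤ a := a.2
  have hb' : (0 : ℝ) ≤ b := b.2
  nlinarith [mul_nonneg (add_nonneg ha' hb') (sq_nonneg ((a : ℝ) - b))]

private theorem ll3_sq (a b : ℝ≥0∞) : (a + b) ^ 2 ≤ 2 * a ^ 2 + 2 * b ^ 2 := by
  rcases eq_or_ne a ∞ with ha | ha
  · simp [ha]
  rcases eq_or_ne b ∞ with hb | hb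
  · simp [hb]
  lift a to ℝ≥0 using ha
  lift b to ℝ≥0 using hb
  norm_cast
  rw [← NNReal.coe_le_coe]
  push_cast
  nlinarith [sq_nonneg ((a : ℝ) - b)]

private theorem ll3_fin (μ : Measure (E d)) [IsLocallyFiniteMeasure μ] {f : E d → ℝ}
    (hf : Nice f) : ∫⁻ x, ‖f x‖ₑ ^ 3 ∂μ ≠ ∞ := by
  obtain ⟨hm, ⟨M, hM⟩, R, hR⟩ := hf
  have hn3 : Nice (fun x => |f x| ^ 3) := by
    refine ⟨(hm.abs).pow_const 3, ⟨|M| ^ 3, fun x => ?_⟩, R, fun x hx => ?_⟩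
    · rw [abs_of_nonneg (by positivity)]
      exact pow_le_pow_left₀ (abs_nonneg _) ((hM x).trans (le_abs_self M)) 3
    · simp [hR x hx]
  have h := (hn3.integrable μ).lintegral_lt_top
  have h2 : ∫⁻ x, ‖f x‖ₑ ^ 3 ∂μ = ∫⁻ x, ENNReal.ofReal (|f x| ^ 3) ∂μ := by
    congr 1
    funext x
    rw [ENNReal.ofReal_pow (abs_nonneg _), Real.enorm_eq_ofReal_abs]
  rw [h2]
  exact h.ne

private theorem ll3_alg (A t : ℝ≥0) (ht0 : 0 < (t : ℝ)) (ht : 20 * (A : ℝ) * (t : ℝ) ^ 2 = 1)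
    (I F : ℝ≥0∞) (hI : I ≠ ∞) (hF : F ≠ ∞)
    (k3 : (t : ℝ≥0∞) * I ≤ 8 * A * F + 10 * A * t ^ 3 * I) : I ≤ ((16 * A / t : ℝ≥0) : ℝ≥0∞) * F := by
  lift I to ℝ≥0 using hI
  lift F to ℝ≥0 using hF
  norm_cast at k3 ⊢
  rw [← NNReal.coe_le_coe] at k3 ⊢
  push_cast at k3 ⊢
  have e3 : 10 * (A : ℝ) * (t : ℝ) ^ 3 * I = (t : ℝ) / 2 * I := by
    have : 10 * (A : ℝ) * (t : ℝ) ^ 3 * I = (20 * (A : ℝ) * (t : ℝ) ^ 2) * (t / 2 * I) := by ring
    rw [this, ht, one_mul]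
  rw [e3] at k3
  have k4 : (t : ℝ) / 2 * I ≤ 8 * A * F := by linarith
  rw [div_mul_eq_mul_div, le_div_iff₀ ht0]
  linarith

private theorem ll3_pos {s : ℝ} (hs0 : 0 < s) (hs1 : s < 1) (μ : Measure (E d))
    [IsLocallyFiniteMeasure μ] {C : ℝ≥0}
    (hC : ∀ f : E d → ℝ≥0∞, Measurable f →
      ∫⁻ x, ∫⁻ y, ∫⁻ z, ENNReal.ofReal (mx x y z ^ (-(2 * s))) * (f x * f y * f z) ∂μ ∂μ ∂μ ≤
        (C : ℝ≥0∞) * ∫⁻ x, f x ^ 3 ∂μ) :
    ∃ C' : ℝ≥0, ∀ ε : ℝ, 0 < ε → ∀ f : E d → ℝ, Nice f → (∀ x, 0 ≤ f x) → ∀ B : Set (E d),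
      MeasurableSet B → Bornology.IsBounded B →
        ∫⁻ x in B, ‖Tr s ε μ f x‖ₑ ^ 3 ∂μ ≤ (C' : ℝ≥0∞) * ∫⁻ x, ‖f x‖ₑ ^ 3 ∂μ := by
  -- choose `A ≥ 1` with `8 C ≤ A`
  obtain ⟨A, hA1, hAC⟩ : ∃ A : ℝ≥0, 1 ≤ A ∧ 8 * C ≤ A := ⟨max 1 (8 * C), le_max_left _ _, le_max_right _ _⟩
  have hA0 : (0 : ℝ) < A := lt_of_lt_of_le one_pos (by exact_mod_cast hA1)
  obtain ⟨t, ht0, ht⟩ : ∃ t : ℝ≥0, 0 < (t : ℝ) ∧ 20 * (A : ℝ) * (t : ℝ) ^ 2 = 1 := by
    refine ⟨⟨1 / Real.sqrt (20 * A), by positivity⟩, ?_, ?_⟩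
    · show 0 < 1 / Real.sqrt (20 * A)
      positivity
    · show 20 * (A : ℝ) * (1 / Real.sqrt (20 * A)) ^ 2 = 1
      rw [div_pow, Real.sq_sqrt (by positivity)]
      field_simp
  have htn : t ≠ 0 := by
    rintro rfl
    simp at ht0
  refine ⟨16 * A / t, fun ε hε f hf hf0 B hB hBb => ?_⟩
  obtain ⟨R, hR⟩ := hBb.subset_closedBall (0 : E d)
  set g : E d → ℝ := B.indicator (fun x => ‖Tr s ε μ f x‖) with hg
  have hg0 : ∀ x, 0 ≤ g x := fun x => indicator_nonneg (fun _ _ => norm_nonneg _) x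
  have hgn : Nice g := by
    refine ⟨((measurable_Tr s ε μ f hf.1).norm).indicator hB,
      ⟨ε ^ (-s) * ∫ y, |f y| ∂μ, fun x => ?_⟩, R, fun x hx => ?_⟩
    · rw [abs_of_nonneg (hg0 x), hg]
      by_cases hx : x ∈ B
      · rw [indicator_of_mem hx]
        exact Tr_norm_le hs0 hε μ hf x
      · rw [indicator_of_notMem hx]
        exact (norm_nonneg _).trans (Tr_norm_le hs0 hε μ hf x)
    · rw [hg]
      refine indicator_of_notMem (fun hxB => ?_) _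
      have := hR hxB
      rw [mem_closedBall_zero_iff] at this
      linarith
  set h : E d → ℝ := fun y => 1 * f y + (t : ℝ) * g y with hh
  have hh0 : ∀ x, 0 ≤ h x := fun x => by
    have := hf0 x
    have := hg0 x
    rw [hh]
    positivity
  have hhn : Nice h := by
    obtain ⟨hm, ⟨M, hM⟩, R1, hR1⟩ := hf
    obtain ⟨hm', ⟨M', hM'⟩, R2, hR2⟩ := hgn
    refine ⟨(hm.const_mul _).add (hm'.const_mul _), ⟨1 * M + t * M', fun x => ?_⟩,
      max R1 R2, fun x hx => ?_⟩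
    · rw [hh]
      refine (abs_add_le _ _).trans ?_
      rw [abs_mul, abs_mul, abs_one, abs_of_nonneg (NNReal.coe_nonneg t)]
      have := hM x
      have := mul_le_mul_of_nonneg_left (hM' x) (NNReal.coe_nonneg t)
      linarith
    · have h1 := hR1 x (lt_of_le_of_lt (le_max_left _ _) hx)
      have h2 := hR2 x (lt_of_le_of_lt (le_max_right _ _) hx)
      rw [hh]
      simp [h1, h2]
  have hTh : ∀ x, Tr s ε μ h x = (1 : ℝ) • Tr s ε μ f x + (t : ℝ) • Tr s ε μ g x :=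
    fun x => Tr_add hs0 hε μ hf hgn 1 t x
  -- the three integrals
  set I : ℝ≥0∞ := ∫⁻ x, ENNReal.ofReal (g x) ^ 3 ∂μ with hI
  set F : ℝ≥0∞ := ∫⁻ x, ENNReal.ofReal (f x) ^ 3 ∂μ with hF
  have hIeq : ∫⁻ x in B, ‖Tr s ε μ f x‖ₑ ^ 3 ∂μ = I := by
    rw [hI, ← lintegral_indicator hB]
    congr 1
    funext x
    rw [hg]
    by_cases hx : x ∈ B
    · rw [indicator_of_mem hx, indicator_of_mem hx, ofReal_norm]
    · rw [indicator_of_notMem hx, indicator_of_notMem hx]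
      simp
  have hof : ∀ (u : E d → ℝ), (∀ x, 0 ≤ u x) → ∀ x, ‖u x‖ₑ = ENNReal.ofReal (u x) := by
    intro u hu x
    rw [Real.enorm_eq_ofReal (hu x)]
  have hFeq : ∫⁻ x, ‖f x‖ₑ ^ 3 ∂μ = F := by
    rw [hF]
    simp only [hof f hf0]
  have hIfin : I ≠ ∞ := by
    have := ll3_fin μ hgn
    simpa only [hof g hg0] using this
  have hFfin : F ≠ ∞ := by
    have := ll3_fin μ hf
    simpa only [hof f hf0] using this
  have hcubh := ll3_cub hs0 hs1 μ hC hε hhn hh0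
  have hcubg := ll3_cub hs0 hs1 μ hC hε hgn hg0
  have hmTh := (measurable_Tr s ε μ h hhn.1).enorm
  have hmTg := (measurable_Tr s ε μ g hgn.1).enorm
  have hmh := hhn.1.ennreal_ofReal
  have hmg := hgn.1.ennreal_ofReal
  have hofh : ∀ x, ENNReal.ofReal (h x) = ENNReal.ofReal (f x) + t * ENNReal.ofReal (g x) := by
    intro x
    rw [hh]
    simp only [one_mul]
    rw [ENNReal.ofReal_add (hf0 x) (mul_nonneg (NNReal.coe_nonneg t) (hg0 x)),
      ENNReal.ofReal_mul (NNReal.coe_nonneg t)]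
    simp
  -- `t I ≤ 2 ∫ ‖Tr h‖² h + 2 t³ ∫ ‖Tr g‖² g`
  have k1 : (t : ℝ≥0∞) * I ≤ 2 * (∫⁻ x, ‖Tr s ε μ h x‖ₑ ^ 2 * ENNReal.ofReal (h x) ∂μ) +
      2 * t ^ 3 * (∫⁻ x, ‖Tr s ε μ g x‖ₑ ^ 2 * ENNReal.ofReal (g x) ∂μ) := by
    have hm2 : Measurable (fun x => 2 * (‖Tr s ε μ h x‖ₑ ^ 2 * ENNReal.ofReal (h x))) :=
      ((hmTh.pow_const 2).mul hmh).const_mul 2
    rw [hI, ← lintegral_const_mul' (t : ℝ≥0∞) _ ENNReal.coe_ne_top,
      ← lintegral_const_mul' (2 : ℝ≥0∞) _ (by norm_num),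
      ← lintegral_const_mul' (2 * (t : ℝ≥0∞) ^ 3) _
        (ENNReal.mul_ne_top (by norm_num) (ENNReal.pow_ne_top ENNReal.coe_ne_top)),
      ← lintegral_add_left hm2]
    refine lintegral_mono fun x => ?_
    by_cases hx : x ∈ B
    · have hgx : ENNReal.ofReal (g x) = ‖Tr s ε μ f x‖ₑ := by
        rw [hg, indicator_of_mem hx, ofReal_norm]
      have hTf : ‖Tr s ε μ f x‖ₑ ≤ ‖Tr s ε μ h x‖ₑ + t * ‖Tr s ε μ g x‖ₑ := by
        have : Tr s ε μ f x = Tr s ε μ h x - (t : ℝ) • Tr s ε μ g x := by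
          rw [hTh x]
          simp
        rw [this]
        refine (enorm_sub_le).trans ?_
        rw [enorm_smul]
        gcongr
        rw [Real.enorm_eq_ofReal (NNReal.coe_nonneg t)]
        simp
      have e1 : (t : ℝ≥0∞) * ENNReal.ofReal (g x) ^ 3 =
          ‖Tr s ε μ f x‖ₑ ^ 2 * (t * ENNReal.ofReal (g x)) := by
        rw [← hgx]
        ring
      rw [e1]
      calc ‖Tr s ε μ f x‖ₑ ^ 2 * (t * ENNReal.ofReal (g x))
          ≤ (‖Tr s ε μ h x‖ₑ + t * ‖Tr s ε μ g x‖ₑ) ^ 2 * (t * ENNReal.ofReal (g x)) := by gcongr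
        _ ≤ (2 * ‖Tr s ε μ h x‖ₑ ^ 2 + 2 * (t * ‖Tr s ε μ g x‖ₑ) ^ 2) *
              (t * ENNReal.ofReal (g x)) := by
            gcongr
            exact ll3_sq _ _
        _ = 2 * (‖Tr s ε μ h x‖ₑ ^ 2 * (t * ENNReal.ofReal (g x))) +
              2 * t ^ 3 * (‖Tr s ε μ g x‖ₑ ^ 2 * ENNReal.ofReal (g x)) := by ring
        _ ≤ 2 * (‖Tr s ε μ h x‖ₑ ^ 2 * ENNReal.ofReal (h x)) +
              2 * t ^ 3 * (‖Tr s ε μ g x‖ₑ ^ 2 * ENNReal.ofReal (g x)) := by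
            gcongr
            rw [hofh x]
            exact le_add_self
    · have hgx : g x = 0 := by rw [hg, indicator_of_notMem hx]
      rw [hgx]
      simp
  have k2 : ∫⁻ x, ENNReal.ofReal (h x) ^ 3 ∂μ ≤ 4 * (F + t ^ 3 * I) := by
    have hm3 : Measurable (fun x => ENNReal.ofReal (f x) ^ 3) := hf.1.ennreal_ofReal.pow_const 3
    rw [hF, hI, ← lintegral_const_mul' ((t : ℝ≥0∞) ^ 3) _ (ENNReal.pow_ne_top ENNReal.coe_ne_top),
      ← lintegral_add_left hm3, ← lintegral_const_mul' (4 : ℝ≥0∞) _ (by norm_num)]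
    refine lintegral_mono fun x => ?_
    rw [hofh x]
    refine (ll3_cube _ _).trans (le_of_eq ?_)
    rw [mul_pow]
  have hCA : (8 * C : ℝ≥0∞) ≤ A := by exact_mod_cast hAC
  have k3 : (t : ℝ≥0∞) * I ≤ 8 * A * F + 10 * A * t ^ 3 * I := by
    calc (t : ℝ≥0∞) * I
        ≤ 2 * (8 * C * (4 * (F + t ^ 3 * I))) + 2 * t ^ 3 * (8 * C * I) := by
          refine k1.trans ?_
          gcongr
          exact hcubh.trans (by gcongr)
      _ ≤ 2 * (A * (4 * (F + t ^ 3 * I))) + 2 * t ^ 3 * (A * I) := by gcongr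
      _ = 8 * A * F + 10 * A * t ^ 3 * I := by ring
  rw [hIeq, hFeq]
  exact ll3_alg A t ht0 ht I F hIfin hFfin k3

theorem ll3 {s : ℝ} (hs0 : 0 < s) (hs1 : s < 1) (μ : Measure (E d)) [IsLocallyFiniteMeasure μ]
    [NullSingletonClass μ] (h : WB s μ) :
    ∃ C : ℝ≥0, ∀ ε : ℝ, 0 < ε → ∀ f : E d → ℝ, Nice f → ∀ B : Set (E d), MeasurableSet B →
      Bornology.IsBounded B →
        ∫⁻ x in B, ‖Tr s ε μ f x‖ₑ ^ 3 ∂μ ≤ (C : ℝ≥0∞) * ∫⁻ x, ‖f x‖ₑ ^ 3 ∂μ := by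
  obtain ⟨C₀, hC₀⟩ := em3 hs0 μ h
  obtain ⟨C, hC⟩ := ll3_pos hs0 hs1 μ hC₀
  refine ⟨4 * C, fun ε hε f hf B hB hBb => ?_⟩
  have hpn : Nice (fun x => max (f x) 0) := by
    obtain ⟨hm, ⟨M, hM⟩, R, hR⟩ := hf
    refine ⟨hm.max measurable_const, ⟨M, fun x => ?_⟩, R, fun x hx => by simp [hR x hx]⟩
    have := hM x
    rw [abs_le] at this ⊢
    constructor
    · have := le_max_right (f x) 0
      linarith
    · have : 0 ≤ M := by linarith
      exact max_le (by linarith) this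
  have hmn : Nice (fun x => max (-f x) 0) := by
    obtain ⟨hm, ⟨M, hM⟩, R, hR⟩ := hf
    refine ⟨hm.neg.max measurable_const, ⟨M, fun x => ?_⟩, R, fun x hx => by simp [hR x hx]⟩
    have := hM x
    rw [abs_le] at this ⊢
    constructor
    · have := le_max_right (-f x) 0
      linarith
    · have : 0 ≤ M := by linarith
      exact max_le (by linarith) this
  have hf' : f = fun x => 1 * max (f x) 0 + (-1) * max (-f x) 0 := by
    funext x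
    rcases le_total 0 (f x) with h0 | h0
    · rw [max_eq_left h0, max_eq_right (by linarith)]
      ring
    · rw [max_eq_right h0, max_eq_left (by linarith)]
      ring
  have hT : ∀ x, Tr s ε μ f x = (1 : ℝ) • Tr s ε μ (fun x => max (f x) 0) x +
      (-1 : ℝ) • Tr s ε μ (fun x => max (-f x) 0) x := by
    intro x
    conv_lhs => rw [hf']
    exact Tr_add hs0 hε μ hpn hmn 1 (-1) x
  have hTn : ∀ x, ‖Tr s ε μ f x‖ₑ ≤ ‖Tr s ε μ (fun x => max (f x) 0) x‖ₑ +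
      ‖Tr s ε μ (fun x => max (-f x) 0) x‖ₑ := by
    intro x
    rw [hT x]
    refine (enorm_add_le _ _).trans ?_
    simp
  have h1 := hC ε hε _ hpn (fun x => le_max_right _ _) B hB hBb
  have h2 := hC ε hε _ hmn (fun x => le_max_right _ _) B hB hBb
  have hm1 := (measurable_Tr s ε μ _ hpn.1).enorm
  calc ∫⁻ x in B, ‖Tr s ε μ f x‖ₑ ^ 3 ∂μ
      ≤ ∫⁻ x in B, 4 * (‖Tr s ε μ (fun x => max (f x) 0) x‖ₑ ^ 3 +
        ‖Tr s ε μ (fun x => max (-f x) 0) x‖ₑ ^ 3) ∂μ := by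
        refine lintegral_mono fun x => ?_
        refine (pow_le_pow_left' (hTn x) 3).trans (ll3_cube _ _)
    _ = 4 * ((∫⁻ x in B, ‖Tr s ε μ (fun x => max (f x) 0) x‖ₑ ^ 3 ∂μ) +
        ∫⁻ x in B, ‖Tr s ε μ (fun x => max (-f x) 0) x‖ₑ ^ 3 ∂μ) := by
        rw [lintegral_const_mul' _ _ (by norm_num), lintegral_add_left (hm1.pow_const 3)]
    _ ≤ 4 * (C * (∫⁻ x, ‖max (f x) 0‖ₑ ^ 3 ∂μ) + C * ∫⁻ x, ‖max (-f x) 0‖ₑ ^ 3 ∂μ) := by
        gcongr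
    _ = ((4 * C : ℝ≥0) : ℝ≥0∞) * ∫⁻ x, (‖max (f x) 0‖ₑ ^ 3 + ‖max (-f x) 0‖ₑ ^ 3) ∂μ := by
        rw [lintegral_add_left (hpn.1.enorm.pow_const 3)]
        push_cast
        ring
    _ = ((4 * C : ℝ≥0) : ℝ≥0∞) * ∫⁻ x, ‖f x‖ₑ ^ 3 ∂μ := by
        congr 2
        funext x
        rcases le_total 0 (f x) with h0 | h0
        · rw [max_eq_left h0, max_eq_right (by linarith)]
          simp
        · rw [max_eq_right h0, max_eq_left (by linarith)]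
          simp

end Pool.Agent.RSF
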