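import Pool.Agent.RSF.Defs

/-!
# SYM: symmetrisation

For a bounded measurable kernel `k` and a finite measure `ν`,
`∫ ‖∫ k(x - y) dν(y)‖² dν(x) = ∫∫∫ ⟪k(x - y), k(x - z)⟫` (`inner_integral` twice: the inner product of two
integrals). The function `F x y z = ⟪k(x-y), k(x-z)⟫` is bounded and measurable, so it is integrable for `ν³`, and
`∫∫∫ F x y z = ∫∫∫ F y x z = ∫∫∫ F z x y` by Fubini (`integral_integral_swap`, on the outer and the inner pair of
variables). The sum of the three integrands is `sp k x y z`.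
-/

namespace Pool.Agent.RSF

open MeasureTheory Metric Set
open scoped ENNReal NNReal

variable {d : ℕ}

private theorem sym_meas (k : E d → E d) (hk : Measurable k) :
    Measurable (fun q : E d × E d × E d => (inner ℝ (k (q.1 - q.2.1)) (k (q.1 - q.2.2)) : ℝ)) :=
  (hk.comp (measurable_fst.sub (measurable_fst.comp measurable_snd))).inner
    (hk.comp (measurable_fst.sub (measurable_snd.comp measurable_snd)))

private theorem sym_bd (k : E d → E d) (B : ℝ) (hB : ∀ u, ‖k u‖ ≤ B) (x y z : E d) :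
    ‖(inner ℝ (k (x - y)) (k (x - z)) : ℝ)‖ ≤ B * B := by
  have hB0 : 0 ≤ B := (norm_nonneg _).trans (hB 0)
  exact (norm_inner_le_norm _ _).trans (mul_le_mul (hB _) (hB _) (norm_nonneg _) hB0)

private theorem sym_int1 {α : Type*} [MeasurableSpace α] {f : α → ℝ} (hf : Measurable f) (B : ℝ)
    (hB : ∀ x, ‖f x‖ ≤ B) (ν : Measure α) [IsFiniteMeasure ν] : Integrable f ν :=
  Integrable.of_bound hf.aestronglyMeasurable B (Filter.Eventually.of_forall hB)

private theorem sym_one (k : E d → E d) (hk : Measurable k) (B : ℝ) (hB : ∀ u, ‖k u‖ ≤ B)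
    (ν : Measure (E d)) [IsFiniteMeasure ν] (x : E d) :
    ∫ y, ∫ z, (inner ℝ (k (x - y)) (k (x - z)) : ℝ) ∂ν ∂ν = ‖∫ y, k (x - y) ∂ν‖ ^ 2 := by
  have hi : Integrable (fun y => k (x - y)) ν :=
    Integrable.of_bound (hk.comp (measurable_const.sub measurable_id)).aestronglyMeasurable B
      (Filter.Eventually.of_forall fun y => hB _)
  have h1 : ∀ y, ∫ z, (inner ℝ (k (x - y)) (k (x - z)) : ℝ) ∂ν =
      inner ℝ (∫ z, k (x - z) ∂ν) (k (x - y)) := by
    intro y
    rw [integral_inner hi, real_inner_comm]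
  simp only [h1]
  rw [integral_inner hi, real_inner_self_eq_norm_sq]

private theorem sym_bdint {α : Type*} [MeasurableSpace α] {f : α → ℝ} (B : ℝ)
    (hB : ∀ x, ‖f x‖ ≤ B) (ν : Measure α) [IsFiniteMeasure ν] :
    ‖∫ x, f x ∂ν‖ ≤ B * ν.real univ := by
  have := norm_integral_le_of_norm_le_const (μ := ν) (C := B) (f := f)
    (Filter.Eventually.of_forall hB)
  simpa using this

private theorem sym_add3 {α : Type*} [MeasurableSpace α] {f g h : α → ℝ} {ν : Measure α}
    (hf : Integrable f ν) (hg : Integrable g ν) (hh : Integrable h ν) :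
    ∫ x, (f x + g x + h x) ∂ν = (∫ x, f x ∂ν) + (∫ x, g x ∂ν) + ∫ x, h x ∂ν := by
  have h1 : ∫ x, (f x + g x + h x) ∂ν = (∫ x, (f x + g x) ∂ν) + ∫ x, h x ∂ν :=
    integral_add (f := fun x => f x + g x) (hf.add hg) hh
  rw [h1, integral_add hf hg]

/-- The abstract symmetrisation for a bounded measurable function of three variables. -/
private theorem sym_abs {α : Type*} [MeasurableSpace α] (G : α → α → α → ℝ)
    (hGm : Measurable (fun q : α × α × α => G q.1 q.2.1 q.2.2)) (B : ℝ)
    (hGb : ∀ x y z, ‖G x y z‖ ≤ B) (ν : Measure α) [IsFiniteMeasure ν] :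
    ∫ x, ∫ y, ∫ z, (G x y z + G y x z + G z x y) ∂ν ∂ν ∂ν =
      3 * ∫ x, ∫ y, ∫ z, G x y z ∂ν ∂ν ∂ν := by
  -- measurability of the permuted kernels and their integrals
  have m1 : ∀ x y, Measurable (fun z => G x y z) := fun x y =>
    hGm.comp (measurable_const.prodMk (measurable_const.prodMk measurable_id))
  have m2 : ∀ x y, Measurable (fun z => G y x z) := fun x y =>
    hGm.comp (measurable_const.prodMk (measurable_const.prodMk measurable_id))
  have m3 : ∀ x y, Measurable (fun z => G z x y) := fun x y =>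
    hGm.comp (measurable_id.prodMk (measurable_const.prodMk measurable_const))
  have p1 : Measurable (fun q : α × α => ∫ z, G q.1 q.2 z ∂ν) := by
    have : StronglyMeasurable (Function.uncurry fun (q : α × α) (z : α) => G q.1 q.2 z) :=
      (hGm.comp ((measurable_fst.comp measurable_fst).prodMk
        ((measurable_snd.comp measurable_fst).prodMk measurable_snd))).stronglyMeasurable
    exact this.integral_prod_right.measurable
  have p2 : Measurable (fun q : α × α => ∫ z, G q.2 q.1 z ∂ν) :=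
    p1.comp measurable_swap
  have p3 : Measurable (fun q : α × α => ∫ z, G z q.1 q.2 ∂ν) := by
    have : StronglyMeasurable (Function.uncurry fun (q : α × α) (z : α) => G z q.1 q.2) :=
      (hGm.comp (measurable_snd.prodMk
        ((measurable_fst.comp measurable_fst).prodMk
          (measurable_snd.comp measurable_fst)))).stronglyMeasurable
    exact this.integral_prod_right.measurable
  have bd1 : ∀ x y, ‖∫ z, G x y z ∂ν‖ ≤ B * ν.real univ := fun x y =>
    sym_bdint _ (hGb x y) ν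
  have bd3 : ∀ x y, ‖∫ z, G z x y ∂ν‖ ≤ B * ν.real univ := fun x y =>
    sym_bdint _ (fun z => hGb z x y) ν
  -- the three terms
  have T2 : ∫ x, ∫ y, ∫ z, G y x z ∂ν ∂ν ∂ν = ∫ x, ∫ y, ∫ z, G x y z ∂ν ∂ν ∂ν := by
    refine integral_integral_swap (f := fun x y => ∫ z, G y x z ∂ν) ?_
    exact sym_int1 p2 _ (fun q => bd1 q.2 q.1) _
  have T3 : ∫ x, ∫ y, ∫ z, G z x y ∂ν ∂ν ∂ν = ∫ x, ∫ y, ∫ z, G x y z ∂ν ∂ν ∂ν := by
    have e1 : ∀ x, ∫ y, ∫ z, G z x y ∂ν ∂ν = ∫ z, ∫ y, G z x y ∂ν ∂ν := by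
      intro x
      refine integral_integral_swap (f := fun y z => G z x y) ?_
      refine sym_int1 ?_ B (fun q => hGb _ _ _) _
      exact hGm.comp (measurable_snd.prodMk (measurable_const.prodMk measurable_fst))
    simp only [e1]
    refine integral_integral_swap (f := fun x z => ∫ y, G z x y ∂ν) ?_
    exact sym_int1 p2 _ (fun q => bd1 q.2 q.1) _
  -- split the integral
  have i1 : ∀ x y, ∫ z, (G x y z + G y x z + G z x y) ∂ν =
      (∫ z, G x y z ∂ν) + (∫ z, G y x z ∂ν) + ∫ z, G z x y ∂ν := fun x y =>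
    sym_add3 (sym_int1 (m1 x y) _ (hGb x y) ν) (sym_int1 (m2 x y) _ (hGb y x) ν)
      (sym_int1 (m3 x y) _ (fun z => hGb z x y) ν)
  have q1 : ∀ x, Integrable (fun y => ∫ z, G x y z ∂ν) ν := fun x =>
    sym_int1 (p1.comp (measurable_const.prodMk measurable_id)) _ (bd1 x) ν
  have q2 : ∀ x, Integrable (fun y => ∫ z, G y x z ∂ν) ν := fun x =>
    sym_int1 (p2.comp (measurable_const.prodMk measurable_id)) _ (fun y => bd1 y x) ν
  have q3 : ∀ x, Integrable (fun y => ∫ z, G z x y ∂ν) ν := fun x =>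
    sym_int1 (p3.comp (measurable_const.prodMk measurable_id)) _ (bd3 x) ν
  have i2 : ∀ x, ∫ y, ∫ z, (G x y z + G y x z + G z x y) ∂ν ∂ν = (∫ y, ∫ z, G x y z ∂ν ∂ν) +
      (∫ y, ∫ z, G y x z ∂ν ∂ν) + ∫ y, ∫ z, G z x y ∂ν ∂ν := by
    intro x
    simp only [i1]
    exact sym_add3 (q1 x) (q2 x) (q3 x)
  have r1 : Integrable (fun x => ∫ y, ∫ z, G x y z ∂ν ∂ν) ν := by
    refine sym_int1 ?_ (B * ν.real univ * ν.real univ) (fun x => sym_bdint _ (bd1 x) ν) ν
    exact (p1.stronglyMeasurable.integral_prod_right' (ν := ν)).measurable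
  have r2 : Integrable (fun x => ∫ y, ∫ z, G y x z ∂ν ∂ν) ν := by
    refine sym_int1 ?_ (B * ν.real univ * ν.real univ)
      (fun x => sym_bdint _ (fun y => bd1 y x) ν) ν
    exact (p2.stronglyMeasurable.integral_prod_right' (ν := ν)).measurable
  have r3 : Integrable (fun x => ∫ y, ∫ z, G z x y ∂ν ∂ν) ν := by
    refine sym_int1 ?_ (B * ν.real univ * ν.real univ) (fun x => sym_bdint _ (bd3 x) ν) ν
    exact (p3.stronglyMeasurable.integral_prod_right' (ν := ν)).measurable
  simp only [i2]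
  rw [sym_add3 r1 r2 r3, T2, T3]
  ring

theorem sym (k : E d → E d) (hk : Measurable k) (B : ℝ) (hB : ∀ u, ‖k u‖ ≤ B) (ν : Measure (E d))
    [IsFiniteMeasure ν] :
    3 * ∫ x, ‖∫ y, k (x - y) ∂ν‖ ^ 2 ∂ν = ∫ x, ∫ y, ∫ z, sp k x y z ∂ν ∂ν ∂ν := by
  have h := sym_abs (fun x y z => (inner ℝ (k (x - y)) (k (x - z)) : ℝ)) (sym_meas k hk) (B * B)
    (sym_bd k B hB) ν
  have h2 : ∫ x, ‖∫ y, k (x - y) ∂ν‖ ^ 2 ∂ν =
      ∫ x, ∫ y, ∫ z, (inner ℝ (k (x - y)) (k (x - z)) : ℝ) ∂ν ∂ν ∂ν := by
    congr 1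
    funext x
    exact (sym_one k hk B hB ν x).symm
  rw [h2, ← h]
  unfold sp
  rfl

/-- Antisymmetry of the operator with an odd kernel. -/
theorem antisym (k : E d → E d) (hk : Measurable k) (hodd : ∀ u, k (-u) = -k u) (B : ℝ)
    (hB : ∀ u, ‖k u‖ ≤ B) (μ : Measure (E d)) [SFinite μ] (f g : E d → ℝ) (hf : Integrable f μ)
    (hg : Integrable g μ) (e : E d) :
    ∫ x, inner ℝ e (∫ y, f y • k (x - y) ∂μ) * g x ∂μ =
      -∫ x, inner ℝ e (∫ y, g y • k (x - y) ∂μ) * f x ∂μ := by
  have hkm : ∀ x, AEStronglyMeasurable (fun y => k (x - y)) μ := fun x =>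
    (hk.comp (measurable_const.sub measurable_id)).aestronglyMeasurable
  have key : ∀ (u : E d → ℝ), Integrable u μ → ∀ x, Integrable (fun y => u y • k (x - y)) μ := by
    intro u hu x
    refine (hu.norm.const_mul B).mono' (hu.aestronglyMeasurable.smul (hkm x))
      (Filter.Eventually.of_forall fun y => ?_)
    rw [norm_smul, mul_comm]
    exact mul_le_mul_of_nonneg_right (hB _) (norm_nonneg _)
  have e1 : ∀ (u v : E d → ℝ), Integrable u μ → ∀ x,
      inner ℝ e (∫ y, u y • k (x - y) ∂μ) * v x =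
        ∫ y, v x * u y * inner ℝ e (k (x - y)) ∂μ := by
    intro u v hu x
    rw [← integral_inner (key u hu x), ← integral_mul_const]
    congr 1
    funext y
    rw [real_inner_smul_right]
    ring
  simp only [e1 f g hf, e1 g f hg]
  rw [integral_integral_swap (f := fun x y => g x * f y * inner ℝ e (k (x - y))), ← integral_neg]
  · congr 1
    funext y
    rw [← integral_neg]
    congr 1
    funext x
    have : k (x - y) = -k (y - x) := by
      rw [← hodd]
      congr 1
      abel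
    rw [this, inner_neg_right]
    ring
  · have h1 : Integrable (fun z : E d × E d => g z.1 * f z.2) (μ.prod μ) := hg.mul_prod hf
    have hm : Measurable (fun z : E d × E d => (inner ℝ e (k (z.1 - z.2)) : ℝ)) :=
      measurable_const.inner (hk.comp (measurable_fst.sub measurable_snd))
    refine (h1.norm.const_mul (‖e‖ * B)).mono'
      (h1.aestronglyMeasurable.mul hm.aestronglyMeasurable)
      (Filter.Eventually.of_forall fun z => ?_)
    simp only [Function.uncurry]
    rw [norm_mul, mul_comm]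
    refine mul_le_mul_of_nonneg_right ?_ (norm_nonneg _)
    refine (norm_inner_le_norm _ _).trans ?_
    exact mul_le_mul_of_nonneg_left (hB _) (norm_nonneg _)

end Pool.Agent.RSF
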