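import Pool.Agent.RSF.KJP
import Pool.Agent.RSF.SYM

/-!
# ORT: almost orthogonality of the pieces

`Rj i ν x = ∫ kj i (x - y) dν(y)`, `Th i ν x = (2^i)^s ν(closedBall x (4 * 2^(-i)))`. For `i ≤ j`:
`∫ ⟪Rj i, Rj j⟫ dν = ∫∫ ⟪Rj i (x), kj j (x - y)⟫ = ½ ∫∫ ⟪Rj i (x) - Rj i (y), kj j (x - y)⟫` (oddness of `kj j`,
Fubini). Here `kj j (x - y) = 0` unless `‖x - y‖ < 2 * 2^(-j)`, `‖kj j (x-y)‖ ≤ C₀ (2^j)^s`, and for such `x, y`
`‖Rj i (x) - Rj i (y)‖ ≤ ∫ ‖kj i (x - z) - kj i (y - z)‖ dν(z) ≤ C₀ (2^i)^(s+1) ‖x - y‖ ν(closedBall x (4 * 2^(-i)))`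
(if `‖x - z‖ > 4 * 2^(-i)` then also `‖y - z‖ ≥ 2 * 2^(-i)`, as `‖x - y‖ ≤ 2 * 2^(-j) ≤ 2 * 2^(-i)`, and both
values vanish). So the absolute value is at most
`½ C₀² (2^j)^s (2^i)^(s+1) 2 * 2^(-j) ∫ ν(closedBall x (4 * 2^(-i))) ν(closedBall x (4 * 2^(-j))) dν(x)
 = C₀² 2^(i-j) ∫ Th i Th j dν`.
-/

namespace Pool.Agent.RSF

open MeasureTheory Metric Set
open scoped ENNReal NNReal

variable {d : ℕ}

/-- The pieces of the transform of a measure. -/
noncomputable def Rj (s : ℝ) (ψ : E d → ℝ) (i : ℤ) (ν : Measure (E d)) (x : E d) : E d :=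
  ∫ y, kj s ψ i (x - y) ∂ν

/-- Densities of a measure. -/
noncomputable def Th (s : ℝ) (i : ℤ) (ν : Measure (E d)) (x : E d) : ℝ :=
  ((2 : ℝ) ^ i) ^ s * ν.real (closedBall x (4 * (2 : ℝ) ^ (-i)))

theorem measurable_Th (s : ℝ) (i : ℤ) (ν : Measure (E d)) [IsFiniteMeasure ν] :
    Measurable (Th s i ν) := by
  unfold Th
  refine Measurable.const_mul ?_ _
  have hS : MeasurableSet {p : E d × E d | dist p.2 p.1 ≤ 4 * (2 : ℝ) ^ (-i)} :=
    (isClosed_le (continuous_snd.dist continuous_fst) continuous_const).measurableSet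
  have h := measurable_measure_prodMk_left (ν := ν) hS
  exact h.ennreal_toReal

theorem measurable_Rj {s : ℝ} (hs0 : 0 < s) {ψ : E d → ℝ} (hψ : Adm ψ) (i : ℤ) (ν : Measure (E d))
    [IsFiniteMeasure ν] : Measurable (Rj s ψ i ν) := by
  have h1 : Continuous (fun p : E d × E d => kj s ψ i (p.1 - p.2)) :=
    (continuous_kj hs0 hψ i).comp (continuous_fst.sub continuous_snd)
  have h2 : StronglyMeasurable (Function.uncurry fun x y : E d => kj s ψ i (x - y)) :=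
    h1.stronglyMeasurable
  exact h2.integral_prod_right.measurable

private theorem ORT_int {s : ℝ} (hs0 : 0 < s) {ψ : E d → ℝ} (hψ : Adm ψ) (i : ℤ)
    (ν : Measure (E d)) [IsFiniteMeasure ν] {C₀ : ℝ}
    (hb : ∀ (j : ℤ) (u : E d), ‖kj s ψ j u‖ ≤ C₀ * ((2 : ℝ) ^ j) ^ s) (x : E d) :
    Integrable (fun z => kj s ψ i (x - z)) ν := by
  refine Integrable.of_bound ?_ (C₀ * ((2 : ℝ) ^ i) ^ s) (Filter.Eventually.of_forall fun z => hb i _)
  exact ((continuous_kj hs0 hψ i).comp (continuous_const.sub continuous_id)).aestronglyMeasurable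

private theorem ORT_R_le {s : ℝ} {ψ : E d → ℝ} (i : ℤ)
    (ν : Measure (E d)) [IsFiniteMeasure ν] {C₀ : ℝ}
    (hb : ∀ (j : ℤ) (u : E d), ‖kj s ψ j u‖ ≤ C₀ * ((2 : ℝ) ^ j) ^ s) (x : E d) :
    ‖Rj s ψ i ν x‖ ≤ C₀ * ((2 : ℝ) ^ i) ^ s * ν.real univ := by
  unfold Rj
  exact norm_integral_le_of_norm_le_const (Filter.Eventually.of_forall fun z => hb i _)

private theorem ORT_diff {s : ℝ} (hs0 : 0 < s) {ψ : E d → ℝ} (hψ : Adm ψ) {i j : ℤ} (hij : i ≤ j)
    (ν : Measure (E d)) [IsFiniteMeasure ν] {C₀ : ℝ}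
    (hb : ∀ (j : ℤ) (u : E d), ‖kj s ψ j u‖ ≤ C₀ * ((2 : ℝ) ^ j) ^ s)
    (hl : ∀ (j : ℤ) (u v : E d),
      ‖kj s ψ j u - kj s ψ j v‖ ≤ C₀ * ((2 : ℝ) ^ j) ^ (s + 1) * ‖u - v‖) {x y : E d}
    (hxy : ‖x - y‖ < 2 * (2 : ℝ) ^ (-j)) :
    ‖Rj s ψ i ν x - Rj s ψ i ν y‖ ≤
      C₀ * ((2 : ℝ) ^ i) ^ (s + 1) * ‖x - y‖ * ν.real (closedBall x (4 * (2 : ℝ) ^ (-i))) := by
  unfold Rj
  rw [← integral_sub (ORT_int hs0 hψ i ν hb x) (ORT_int hs0 hψ i ν hb y)]
  set c : ℝ := C₀ * ((2 : ℝ) ^ i) ^ (s + 1) * ‖x - y‖ with hc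
  set B := closedBall x (4 * (2 : ℝ) ^ (-i)) with hB
  have hc0 : 0 ≤ c := by
    have := hl i x y
    have h2 := (norm_nonneg _).trans this
    exact h2
  have h1 : ∀ z, ‖kj s ψ i (x - z) - kj s ψ i (y - z)‖ ≤ B.indicator (fun _ => c) z := by
    intro z
    by_cases hz : z ∈ B
    · rw [indicator_of_mem hz]
      have h3 := hl i (x - z) (y - z)
      have e : x - z - (y - z) = x - y := by abel
      rw [e] at h3
      exact h3
    · rw [indicator_of_notMem hz]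
      have hz' : 4 * (2 : ℝ) ^ (-i) < ‖x - z‖ := by
        rw [hB, mem_closedBall, dist_eq_norm, norm_sub_rev] at hz
        exact not_le.mp hz
      have hpow : (2 : ℝ) ^ (-j) ≤ (2 : ℝ) ^ (-i) :=
        zpow_le_zpow_right₀ (by norm_num) (by omega)
      have hy : ‖x - z‖ ≤ ‖x - y‖ + ‖y - z‖ := norm_sub_le_norm_sub_add_norm_sub x y z
      have hi0 : 0 < (2 : ℝ) ^ (-i) := zpow_pos two_pos _
      rw [kj_zero s hψ i (x - z) (by linarith), kj_zero s hψ i (y - z) (by linarith), sub_zero,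
        norm_zero]
  have h2 : ∫ z, B.indicator (fun _ => c) z ∂ν = c * ν.real B := by
    rw [integral_indicator_const c measurableSet_closedBall, smul_eq_mul, mul_comm]
  rw [← h2]
  exact norm_integral_le_of_norm_le ((integrable_const c).indicator measurableSet_closedBall)
    (Filter.Eventually.of_forall h1)

private theorem ORT_Th_nonneg (s : ℝ) (i : ℤ) (ν : Measure (E d)) (x : E d) : 0 ≤ Th s i ν x :=
  mul_nonneg (Real.rpow_nonneg (zpow_pos two_pos _).le _) measureReal_nonneg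

private theorem ORT_Th_le (s : ℝ) (i : ℤ) (ν : Measure (E d)) [IsFiniteMeasure ν] (x : E d) :
    Th s i ν x ≤ ((2 : ℝ) ^ i) ^ s * ν.real univ :=
  mul_le_mul_of_nonneg_left (measureReal_mono (subset_univ _))
    (Real.rpow_nonneg (zpow_pos two_pos _).le _)

private theorem ORT_ThTh (s : ℝ) (i j : ℤ) (ν : Measure (E d)) [IsFiniteMeasure ν] :
    Integrable (fun x => Th s i ν x * Th s j ν x) ν := by
  refine Integrable.of_bound ?_ (((2 : ℝ) ^ i) ^ s * ν.real univ * (((2 : ℝ) ^ j) ^ s * ν.real univ))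
    (Filter.Eventually.of_forall fun x => ?_)
  · exact ((measurable_Th s i ν).mul (measurable_Th s j ν)).aestronglyMeasurable
  · rw [norm_mul, Real.norm_of_nonneg (ORT_Th_nonneg s i ν x),
      Real.norm_of_nonneg (ORT_Th_nonneg s j ν x)]
    exact mul_le_mul (ORT_Th_le s i ν x) (ORT_Th_le s j ν x) (ORT_Th_nonneg s j ν x)
      ((ORT_Th_nonneg s i ν x).trans (ORT_Th_le s i ν x))

theorem ort {s : ℝ} (hs0 : 0 < s) {ψ : E d → ℝ} (hψ : Adm ψ) :
    ∃ C : ℝ, 0 ≤ C ∧ ∀ (ν : Measure (E d)), IsFiniteMeasure ν → ∀ i j : ℤ, i ≤ j →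
      |∫ x, inner ℝ (Rj s ψ i ν x) (Rj s ψ j ν x) ∂ν| ≤
        C * (2 : ℝ) ^ (i - j) * ∫ x, Th s i ν x * Th s j ν x ∂ν := by
  obtain ⟨C₀, hC₀, hb, hl⟩ := kj_bounds hs0 hψ
  refine ⟨C₀ ^ 2, by positivity, fun ν hν i j hij => ?_⟩
  set R := Rj s ψ i ν with hR
  set k := kj s ψ j with hk
  have hRm : Measurable R := measurable_Rj hs0 hψ i ν
  have hkc : Continuous k := continuous_kj hs0 hψ j
  set bR : ℝ := C₀ * ((2 : ℝ) ^ i) ^ s * ν.real univ with hbR
  set bk : ℝ := C₀ * ((2 : ℝ) ^ j) ^ s with hbk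
  have hRb : ∀ x, ‖R x‖ ≤ bR := ORT_R_le i ν hb
  have hkb : ∀ u, ‖k u‖ ≤ bk := hb j
  have hbR0 : 0 ≤ bR := (norm_nonneg _).trans (hRb 0)
  have hbk0 : 0 ≤ bk := (norm_nonneg _).trans (hkb 0)
  let F : E d → E d → ℝ := fun x y => inner ℝ (R x) (k (x - y))
  have hFb : ∀ x y, ‖F x y‖ ≤ bR * bk := fun x y =>
    (norm_inner_le_norm _ _).trans (mul_le_mul (hRb x) (hkb _) (norm_nonneg _) hbR0)
  have hFm : Measurable (Function.uncurry F) := by
    have h1 : Measurable (fun p : E d × E d => R p.1) := hRm.comp measurable_fst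
    have h2 : Measurable (fun p : E d × E d => k (p.1 - p.2)) :=
      (hkc.comp (continuous_fst.sub continuous_snd)).measurable
    exact h1.inner h2
  have hFi : Integrable (Function.uncurry F) (ν.prod ν) :=
    Integrable.of_bound hFm.aestronglyMeasurable (bR * bk)
      (Filter.Eventually.of_forall fun p => hFb p.1 p.2)
  have hF1 : ∀ x, Integrable (fun y => F x y) ν := fun x =>
    Integrable.of_bound (hFm.comp measurable_prodMk_left).aestronglyMeasurable (bR * bk)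
      (Filter.Eventually.of_forall fun y => hFb x y)
  have hF2 : ∀ x, Integrable (fun y => F y x) ν := fun x =>
    Integrable.of_bound (hFm.comp measurable_prodMk_right).aestronglyMeasurable (bR * bk)
      (Filter.Eventually.of_forall fun y => hFb y x)
  have e0 : ∫ x, inner ℝ (R x) (Rj s ψ j ν x) ∂ν = ∫ x, ∫ y, F x y ∂ν ∂ν := by
    apply integral_congr_ae
    refine Filter.Eventually.of_forall fun x => ?_
    exact (integral_inner (ORT_int hs0 hψ j ν hb x) (R x)).symm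
  have e1 : ∫ x, ∫ y, F x y ∂ν ∂ν = ∫ x, ∫ y, F y x ∂ν ∂ν := integral_integral_swap hFi
  have hFi' : Integrable (Function.uncurry fun x y => F y x) (ν.prod ν) := hFi.swap
  have e2 : 2 * ∫ x, inner ℝ (R x) (Rj s ψ j ν x) ∂ν =
      ∫ x, ∫ y, inner ℝ (R x - R y) (k (x - y)) ∂ν ∂ν := by
    have e3 : ∫ x, ∫ y, inner ℝ (R x - R y) (k (x - y)) ∂ν ∂ν =
        ∫ x, ((∫ y, F x y ∂ν) + ∫ y, F y x ∂ν) ∂ν := by
      apply integral_congr_ae
      refine Filter.Eventually.of_forall fun x => ?_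
      simp only
      rw [← integral_add (hF1 x) (hF2 x)]
      apply integral_congr_ae
      refine Filter.Eventually.of_forall fun y => ?_
      have e4 : k (y - x) = -k (x - y) := by
        rw [← neg_sub x y]
        exact kj_neg s hψ j _
      simp only [F]
      rw [e4, inner_sub_left, inner_neg_right]
      ring
    have i1 : Integrable (fun x => ∫ y, F x y ∂ν) ν := hFi.integral_prod_left
    have i2 : Integrable (fun x => ∫ y, F y x ∂ν) ν := hFi'.integral_prod_left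
    rw [e3, integral_add i1 i2, ← e1, e0]
    ring
  have hj0 : 0 < (2 : ℝ) ^ (-j) := zpow_pos two_pos _
  -- the pointwise bound
  let c : E d → ℝ := fun x => C₀ * ((2 : ℝ) ^ i) ^ (s + 1) * (2 * (2 : ℝ) ^ (-j)) *
    ν.real (closedBall x (4 * (2 : ℝ) ^ (-i))) * bk
  have hi1 : 0 ≤ C₀ * ((2 : ℝ) ^ i) ^ (s + 1) :=
    mul_nonneg (by linarith) (Real.rpow_nonneg (zpow_pos two_pos _).le _)
  have hc0 : ∀ x, 0 ≤ c x := fun x =>
    mul_nonneg (mul_nonneg (mul_nonneg hi1 (by positivity)) measureReal_nonneg) hbk0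
  have hG : ∀ x y, ‖(inner ℝ (R x - R y) (k (x - y)) : ℝ)‖ ≤
      (closedBall x (4 * (2 : ℝ) ^ (-j))).indicator (fun _ => c x) y := by
    intro x y
    by_cases hxy : ‖x - y‖ < 2 * (2 : ℝ) ^ (-j)
    · have hy : y ∈ closedBall x (4 * (2 : ℝ) ^ (-j)) := by
        rw [mem_closedBall, dist_eq_norm, norm_sub_rev]
        linarith
      rw [indicator_of_mem hy]
      have h1 := ORT_diff hs0 hψ hij ν hb hl hxy
      have h2 : C₀ * ((2 : ℝ) ^ i) ^ (s + 1) * ‖x - y‖ *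
          ν.real (closedBall x (4 * (2 : ℝ) ^ (-i))) ≤
          C₀ * ((2 : ℝ) ^ i) ^ (s + 1) * (2 * (2 : ℝ) ^ (-j)) *
            ν.real (closedBall x (4 * (2 : ℝ) ^ (-i))) :=
        mul_le_mul_of_nonneg_right (mul_le_mul_of_nonneg_left hxy.le hi1) measureReal_nonneg
      exact (norm_inner_le_norm _ _).trans (mul_le_mul (h1.trans h2) (hkb _) (norm_nonneg _)
        (mul_nonneg (mul_nonneg hi1 (by positivity)) measureReal_nonneg))
    · have h0 : k (x - y) = 0 := kj_zero s hψ j _ (not_lt.mp hxy)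
      rw [h0, inner_zero_right, norm_zero]
      exact indicator_nonneg (fun _ _ => hc0 x) y
  have hH : ∀ x, ‖∫ y, (inner ℝ (R x - R y) (k (x - y)) : ℝ) ∂ν‖ ≤
      2 * C₀ ^ 2 * (2 : ℝ) ^ (i - j) * (Th s i ν x * Th s j ν x) := by
    intro x
    have h1 := norm_integral_le_of_norm_le (μ := ν)
      ((integrable_const (c x)).indicator (measurableSet_closedBall (x := x)
        (ε := 4 * (2 : ℝ) ^ (-j)))) (Filter.Eventually.of_forall (hG x))
    rw [integral_indicator_const (c x) measurableSet_closedBall, smul_eq_mul] at h1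
    refine h1.trans (le_of_eq ?_)
    simp only [c, Th, hbk]
    have hi0 : 0 < (2 : ℝ) ^ i := zpow_pos two_pos _
    have e5 : ((2 : ℝ) ^ i) ^ (s + 1) = ((2 : ℝ) ^ i) ^ s * (2 : ℝ) ^ i := by
      rw [Real.rpow_add hi0, Real.rpow_one]
    have e6 : (2 : ℝ) ^ (i - j) = (2 : ℝ) ^ i * (2 : ℝ) ^ (-j) := by
      rw [sub_eq_add_neg, zpow_add₀ two_ne_zero]
    rw [e5, e6]
    ring
  have hfin := norm_integral_le_of_norm_le (μ := ν)
    ((ORT_ThTh s i j ν).const_mul (2 * C₀ ^ 2 * (2 : ℝ) ^ (i - j)))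
    (Filter.Eventually.of_forall hH)
  rw [← e2, integral_const_mul, Real.norm_eq_abs, abs_mul, abs_of_pos (two_pos : (0 : ℝ) < 2)] at hfin
  linarith

end Pool.Agent.RSF
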