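import Pool.Agent.RSF.GRD
import Pool.Agent.RSF.SFN

/-!
# PAK: the Wolff condition is a packing condition on every grid

For `x` let `D = {y | cl α k y = cl α k x}` be its cell of level `k`. `WB s μ` gives a constant `C'` with
`∫⁻ x, ∑_{k : D ⊆ Ω} (2^(ks) μ(D))² ≤ C' μ(Ω)` for every measurable `Ω` and every grid.
PROOF. If `D ⊆ Ω` then `x ∈ Ω` and `μ(D)² = ∫∫ 1[y ∈ D] 1[z ∈ D]`, `y, z ∈ Ω`. So the left side is at most
`∫_{x ∈ Ω} ∫_{y ∈ Ω} ∫_{z ∈ Ω} ∑_k 2^(2ks) 1[y, z ∈ D]`. For `y, z ∈ D`: `mx x y z ≤ d 2^(-k)` (`cl_diam`), so for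
`m = mx x y z > 0` the sum is over `k` with `2^k ≤ d / m` and is at most `(d/m)^(2s) / (1 - 2^(-2s))` (geometric
series, `geom_le`). The set `m = 0` (`z = x`) is null for the inner integral, since `μ` has no atoms.
-/

namespace Pool.Agent.RSF

open MeasureTheory Metric Set
open scoped ENNReal NNReal

variable {d : ℕ}

/-- The cell of level `k` of the grid `α` containing `x`. -/
def Ce (α : Fin d → Bool) (k : ℤ) (x : E d) : Set (E d) := {y | cl α k y = cl α k x}

private theorem pak_pt {s : ℝ} (hs0 : 0 < s) (α : Fin d → Bool) (x y z : E d) (hz : z ≠ x) :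
    ∑' k : ℤ, (Ce α k x).indicator (fun _ => ENNReal.ofReal (((2 : ℝ) ^ k) ^ s)) y *
      (Ce α k x).indicator (fun _ => ENNReal.ofReal (((2 : ℝ) ^ k) ^ s)) z ≤
    ENNReal.ofReal ((d : ℝ) ^ (2 * s) / (1 - 2 ^ (-(2 * s)))) * ENNReal.ofReal (mx x y z ^ (-(2 * s))) := by
  classical
  have hm : 0 < mx x y z := by
    unfold mx
    refine lt_max_of_lt_right ?_
    rw [norm_pos_iff, sub_ne_zero]
    exact hz.symm
  have hden : (0 : ℝ) < 1 - 2 ^ (-(2 * s)) := by
    have : (2 : ℝ) ^ (-(2 * s)) < 1 := Real.rpow_lt_one_of_one_lt_of_neg (by norm_num) (by linarith)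
    linarith
  rw [ENNReal.tsum_eq_iSup_sum]
  refine iSup_le fun t => ?_
  have hterm : ∀ k : ℤ, (Ce α k x).indicator (fun _ => ENNReal.ofReal (((2 : ℝ) ^ k) ^ s)) y *
      (Ce α k x).indicator (fun _ => ENNReal.ofReal (((2 : ℝ) ^ k) ^ s)) z =
      if y ∈ Ce α k x ∧ z ∈ Ce α k x then ENNReal.ofReal (((2 : ℝ) ^ k) ^ (2 * s)) else 0 := by
    intro k
    by_cases hy : y ∈ Ce α k x
    · by_cases hz' : z ∈ Ce α k x
      · rw [Set.indicator_of_mem hy, Set.indicator_of_mem hz', if_pos ⟨hy, hz'⟩,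
          ← ENNReal.ofReal_mul (by positivity), ← Real.rpow_add (by positivity)]
        congr 2
        ring
      · rw [Set.indicator_of_notMem hz', mul_zero, if_neg (fun h => hz' h.2)]
    · rw [Set.indicator_of_notMem hy, zero_mul, if_neg (fun h => hy h.1)]
  simp only [hterm]
  rw [← Finset.sum_filter]
  rw [← ENNReal.ofReal_sum_of_nonneg (fun k _ => by positivity), ← ENNReal.ofReal_mul (by positivity)]
  apply ENNReal.ofReal_le_ofReal
  rcases Finset.eq_empty_or_nonempty (t.filter fun k => y ∈ Ce α k x ∧ z ∈ Ce α k x) with he | ⟨k0, hk0⟩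
  · rw [he, Finset.sum_empty]
    positivity
  · have hmk : ∀ k ∈ t.filter (fun k => y ∈ Ce α k x ∧ z ∈ Ce α k x), mx x y z ≤ d * (2 : ℝ) ^ (-k) := by
      intro k hk
      obtain ⟨_, h1, h2⟩ := Finset.mem_filter.1 hk
      have h1' : cl α k y = cl α k x := h1
      have h2' : cl α k z = cl α k x := h2
      exact max_le (cl_diam α k h1'.symm) (cl_diam α k h2'.symm)
    have hd : (0 : ℝ) < d := by
      have h1 := hmk k0 hk0
      by_contra h
      push Not at h
      have h2 : (d : ℝ) * (2 : ℝ) ^ (-k0) ≤ 0 := mul_nonpos_of_nonpos_of_nonneg h (by positivity)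
      linarith
    have hT : 0 < (d : ℝ) / mx x y z := by positivity
    have h1 := geom_le (p := 2 * s) (by linarith) hT (t.filter fun k => y ∈ Ce α k x ∧ z ∈ Ce α k x)
      (fun k hk => by
        rw [le_div_iff₀ hm]
        have h2 := hmk k hk
        rw [zpow_neg, ← div_eq_mul_inv, le_div_iff₀ (by positivity)] at h2
        linarith [mul_comm (mx x y z) ((2 : ℝ) ^ k)])
    refine h1.trans (le_of_eq ?_)
    rw [Real.div_rpow (by positivity) hm.le, Real.rpow_neg hm.le]
    field_simp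

open Classical in
theorem pak {s : ℝ} (hs0 : 0 < s) (μ : Measure (E d)) [SFinite μ] [NullSingletonClass μ]
    (h : WB s μ) :
    ∃ C : ℝ≥0, ∀ (α : Fin d → Bool) (Ω : Set (E d)), MeasurableSet Ω →
      ∫⁻ x, ∑' k : ℤ, (if Ce α k x ⊆ Ω then
        (ENNReal.ofReal (((2 : ℝ) ^ k) ^ s) * μ (Ce α k x)) ^ 2 else 0) ∂μ ≤ (C : ℝ≥0∞) * μ Ω := by
  obtain ⟨C0, hC0⟩ := h
  refine ⟨((d : ℝ) ^ (2 * s) / (1 - 2 ^ (-(2 * s)))).toNNReal * C0, fun α Ω hΩ => ?_⟩
  have hCm : ∀ (k : ℤ) (x : E d), MeasurableSet (Ce α k x) := fun k x =>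
    measurable_cl α k (measurableSet_singleton (cl α k x))
  have h1 : ∀ x, ∑' k : ℤ, (if Ce α k x ⊆ Ω then
        (ENNReal.ofReal (((2 : ℝ) ^ k) ^ s) * μ (Ce α k x)) ^ 2 else 0) ≤
      Ω.indicator (fun x => ∫⁻ y in Ω, ∫⁻ z in Ω,
        ENNReal.ofReal ((d : ℝ) ^ (2 * s) / (1 - 2 ^ (-(2 * s)))) *
          ENNReal.ofReal (mx x y z ^ (-(2 * s))) ∂μ ∂μ) x := by
    intro x
    by_cases hx : x ∈ Ω
    · rw [Set.indicator_of_mem hx]
      obtain ⟨F, hF⟩ : ∃ F : ℤ → E d → ℝ≥0∞, F = fun k =>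
        (Ce α k x).indicator (fun _ => ENNReal.ofReal (((2 : ℝ) ^ k) ^ s)) := ⟨_, rfl⟩
      have hFm : ∀ k, Measurable (F k) := by
        intro k
        rw [hF]
        exact measurable_const.indicator (hCm k x)
      have h2 : ∀ k : ℤ, (if Ce α k x ⊆ Ω then
          (ENNReal.ofReal (((2 : ℝ) ^ k) ^ s) * μ (Ce α k x)) ^ 2 else 0) ≤
          ∫⁻ y in Ω, ∫⁻ z in Ω, F k y * F k z ∂μ ∂μ := by
        intro k
        split_ifs with hk
        · have h3 : ∫⁻ z in Ω, F k z ∂μ = ENNReal.ofReal (((2 : ℝ) ^ k) ^ s) * μ (Ce α k x) := by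
            rw [hF]
            simp only
            rw [lintegral_indicator (hCm k x), Measure.restrict_restrict (hCm k x),
              Set.inter_eq_left.2 hk, setLIntegral_const]
          simp only [lintegral_const_mul _ (hFm k)]
          rw [lintegral_mul_const _ (hFm k), h3, sq]
        · exact zero_le
      calc _ ≤ ∑' k : ℤ, ∫⁻ y in Ω, ∫⁻ z in Ω, F k y * F k z ∂μ ∂μ := ENNReal.tsum_le_tsum h2
        _ = ∫⁻ y in Ω, ∑' k : ℤ, ∫⁻ z in Ω, F k y * F k z ∂μ ∂μ := by
            rw [lintegral_tsum]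
            intro k
            simp only [lintegral_const_mul _ (hFm k)]
            exact ((hFm k).mul_const _).aemeasurable
        _ = ∫⁻ y in Ω, ∫⁻ z in Ω, ∑' k : ℤ, F k y * F k z ∂μ ∂μ := by
            congr 1
            ext y
            rw [lintegral_tsum]
            intro k
            exact ((hFm k).const_mul _).aemeasurable
        _ ≤ _ := by
            refine lintegral_mono fun y => lintegral_mono_ae ?_
            have h4 : ∀ᵐ z ∂(μ.restrict Ω), z ≠ x := by
              refine ae_restrict_of_ae ?_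
              rw [ae_iff]
              simp
            filter_upwards [h4] with z hz
            rw [hF]
            exact pak_pt hs0 α x y z hz
    · rw [Set.indicator_of_notMem hx]
      refine le_of_eq ?_
      rw [ENNReal.tsum_eq_zero]
      intro k
      rw [if_neg]
      intro hk
      exact hx (hk (show x ∈ Ce α k x from rfl))
  refine (lintegral_mono h1).trans ?_
  rw [lintegral_indicator hΩ]
  have hK : ENNReal.ofReal ((d : ℝ) ^ (2 * s) / (1 - 2 ^ (-(2 * s)))) ≠ ∞ := ENNReal.ofReal_ne_top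
  simp only [lintegral_const_mul' _ _ hK]
  push_cast
  rw [mul_assoc]
  exact mul_le_mul' le_rfl (hC0 Ω hΩ)

end Pool.Agent.RSF
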