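import Pool.Agent.RSF.LL2

/-!
# RBD: the Wolff energy condition gives bounded Riesz transforms

* `growth_of_WB`: `A = closedBall x r`: `mx ≤ 2 r` on `A³` and `mx > 0` for almost all triples (no atoms), so
  `(2r)^(-2s) μ(A)³ ≤ ∫∫∫ mx^(-2s) ≤ C μ(A)`, `μ(A) < ∞`, so `μ(A)² ≤ C (2r)^(2s)`.
* `int_gr`: for `f ∈ L²(μ)`: `‖(f y * ‖x-y‖^(-(s+1))) • (x-y)‖ = |f y| ‖x-y‖^(-s)`, and
  `∫_{ε < ‖x-y‖} ‖x-y‖^(-2s) dμ < ∞` (`ger1`), Cauchy-Schwarz (`MemLp.integrable_mul` for two `L²` functions).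
* `rb_of_WB`: `f ∈ L²(μ)`; replace `f` by a measurable function almost everywhere equal to it (all integrals are
  unchanged). `f_n = f 1[‖y‖ ≤ n] 1[|f| ≤ n]` is nice, `∫ f_n² ≤ ∫ f²`, and for every `x`,
  `Tr f_n x → ∫ y in {ε < ‖x-y‖}, (f y * ‖x-y‖^(-(s+1))) • (x-y)` by dominated convergence. Fatou
  (`lintegral_liminf_le`) and `ll2`.
-/

namespace Pool.Agent.RSF

open MeasureTheory Metric Set
open scoped ENNReal NNReal

variable {d : ℕ}

private theorem RBD_low {s : ℝ} (hs0 : 0 < s) (μ : Measure (E d)) [NullSingletonClass μ]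
    (x : E d) (r : ℝ) :
    ENNReal.ofReal ((2 * r) ^ (-(2 * s))) * μ (closedBall x r) * μ (closedBall x r) *
        μ (closedBall x r) ≤
      ∫⁻ a in closedBall x r, ∫⁻ b in closedBall x r, ∫⁻ c in closedBall x r,
        ENNReal.ofReal (mx a b c ^ (-(2 * s))) ∂μ ∂μ ∂μ := by
  have h1 : ∀ a ∈ closedBall x r, ∀ b ∈ closedBall x r, b ≠ a → ∀ c ∈ closedBall x r,
      ENNReal.ofReal ((2 * r) ^ (-(2 * s))) ≤ ENNReal.ofReal (mx a b c ^ (-(2 * s))) := by
    intro a ha b hb hba c hc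
    apply ENNReal.ofReal_le_ofReal
    have hab : 0 < ‖a - b‖ := norm_pos_iff.2 (sub_ne_zero.2 (Ne.symm hba))
    have hpos : 0 < mx a b c := lt_of_lt_of_le hab (le_max_left _ _)
    have hle : mx a b c ≤ 2 * r := by
      rw [mem_closedBall, dist_eq_norm] at ha hb hc
      unfold mx
      apply max_le
      · have e : a - b = (a - x) - (b - x) := by abel
        rw [e]
        exact (norm_sub_le _ _).trans (by linarith)
      · have e : a - c = (a - x) - (c - x) := by abel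
        rw [e]
        exact (norm_sub_le _ _).trans (by linarith)
    exact Real.rpow_le_rpow_of_nonpos hpos hle (by linarith)
  have h2 : ∀ a ∈ closedBall x r, ENNReal.ofReal ((2 * r) ^ (-(2 * s))) * μ (closedBall x r) *
      μ (closedBall x r) ≤ ∫⁻ b in closedBall x r, ∫⁻ c in closedBall x r,
        ENNReal.ofReal (mx a b c ^ (-(2 * s))) ∂μ ∂μ := by
    intro a ha
    have h3 : ∫⁻ b in closedBall x r, ENNReal.ofReal ((2 * r) ^ (-(2 * s))) * μ (closedBall x r) ∂μ ≤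
        ∫⁻ b in closedBall x r, ∫⁻ c in closedBall x r,
        ENNReal.ofReal (mx a b c ^ (-(2 * s))) ∂μ ∂μ := by
      apply lintegral_mono_ae
      have hne : ∀ᵐ b ∂μ, b ≠ a := by
        have : μ {a} = 0 := measure_singleton a
        exact (measure_eq_zero_iff_ae_notMem.1 this).mono fun b hb hba => hb (by simp [hba])
      have hne' : ∀ᵐ b ∂(μ.restrict (closedBall x r)), b ≠ a := ae_restrict_of_ae hne
      have hmem : ∀ᵐ b ∂(μ.restrict (closedBall x r)), b ∈ closedBall x r :=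
        ae_restrict_mem measurableSet_closedBall
      filter_upwards [hne', hmem] with b hb hb'
      have h4 : ∫⁻ c in closedBall x r, ENNReal.ofReal ((2 * r) ^ (-(2 * s))) ∂μ ≤
          ∫⁻ c in closedBall x r, ENNReal.ofReal (mx a b c ^ (-(2 * s))) ∂μ :=
        setLIntegral_mono' measurableSet_closedBall fun c hc => h1 a ha b hb' hb c hc
      rwa [setLIntegral_const] at h4
    rwa [setLIntegral_const] at h3
  have h5 : ∫⁻ a in closedBall x r, ENNReal.ofReal ((2 * r) ^ (-(2 * s))) * μ (closedBall x r) *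
      μ (closedBall x r) ∂μ ≤ ∫⁻ a in closedBall x r, ∫⁻ b in closedBall x r,
        ∫⁻ c in closedBall x r, ENNReal.ofReal (mx a b c ^ (-(2 * s))) ∂μ ∂μ ∂μ :=
    setLIntegral_mono' measurableSet_closedBall fun a ha => h2 a ha
  rwa [setLIntegral_const] at h5

theorem growth_of_WB {s : ℝ} (hs0 : 0 < s) (μ : Measure (E d)) [IsLocallyFiniteMeasure μ]
    [NullSingletonClass μ] (h : WB s μ) : ∃ G : ℝ, 0 < G ∧ Growth s G μ := by
  obtain ⟨C, hC⟩ := h
  refine ⟨(Real.sqrt C + 1) * 2 ^ s, by positivity, ?_⟩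
  intro x r hr
  have h1 := (RBD_low hs0 μ x r).trans (hC (closedBall x r) measurableSet_closedBall)
  have hfin : μ (closedBall x r) ≠ ∞ := (isCompact_closedBall x r).measure_lt_top.ne
  obtain ⟨m, hm0, hm⟩ : ∃ m : ℝ, 0 ≤ m ∧ μ (closedBall x r) = ENNReal.ofReal m :=
    ⟨(μ (closedBall x r)).toReal, ENNReal.toReal_nonneg, (ENNReal.ofReal_toReal hfin).symm⟩
  rw [hm] at h1 ⊢
  have h2r : (0 : ℝ) < 2 * r := by positivity
  have hc0 : 0 < (2 * r) ^ (-(2 * s)) := Real.rpow_pos_of_pos h2r _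
  have hCe : (C : ℝ≥0∞) = ENNReal.ofReal (C : ℝ) := by simp
  rw [hCe, ← ENNReal.ofReal_mul hc0.le, ← ENNReal.ofReal_mul (by positivity),
    ← ENNReal.ofReal_mul (by positivity), ← ENNReal.ofReal_mul (by positivity),
    ENNReal.ofReal_le_ofReal_iff (by positivity)] at h1
  apply ENNReal.ofReal_le_ofReal
  rcases hm0.eq_or_lt with h0 | h0
  · rw [← h0]
    positivity
  have hp0 : 0 < (2 * r) ^ s := Real.rpow_pos_of_pos h2r _
  have he : (2 * r) ^ (-(2 * s)) = ((2 * r) ^ s * (2 * r) ^ s)⁻¹ := by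
    rw [← Real.rpow_add h2r, Real.rpow_neg h2r.le]
    congr 1
    ring_nf
  have h3 : (2 * r) ^ (-(2 * s)) * m * m ≤ C := by
    have := le_of_mul_le_mul_right (show (2 * r) ^ (-(2 * s)) * m * m * m ≤ (C : ℝ) * m from h1) h0
    exact this
  have h4 : m * m ≤ C * ((2 * r) ^ s * (2 * r) ^ s) := by
    rw [he] at h3
    have h5 : m * m = ((2 * r) ^ s * (2 * r) ^ s)⁻¹ * m * m * ((2 * r) ^ s * (2 * r) ^ s) := by
      field_simp
    rw [h5]
    exact mul_le_mul_of_nonneg_right h3 (by positivity)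
  have h6 : m ≤ Real.sqrt C * (2 * r) ^ s := by
    apply le_of_sq_le_sq _ (by positivity)
    calc m ^ 2 = m * m := by ring
      _ ≤ C * ((2 * r) ^ s * (2 * r) ^ s) := h4
      _ = (Real.sqrt C * (2 * r) ^ s) ^ 2 := by
          rw [mul_pow, Real.sq_sqrt (NNReal.coe_nonneg C)]
          ring
  have h7 : (2 * r) ^ s = 2 ^ s * r ^ s := Real.mul_rpow (by norm_num) hr.le
  rw [h7] at h6
  have h8 : 0 ≤ (2 : ℝ) ^ s * r ^ s := by positivity
  nlinarith

theorem int_gr {s G : ℝ} (hs0 : 0 < s) (hG0 : 0 < G) (μ : Measure (E d)) (hG : Growth s G μ)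
    {ε : ℝ} (hε : 0 < ε) {f : E d → ℝ} (hf : MemLp f 2 μ) (x : E d) :
    IntegrableOn (fun y => (f y * ‖x - y‖ ^ (-(s + 1))) • (x - y)) {y : E d | ε < ‖x - y‖} μ := by
  obtain ⟨C, hC0, hC⟩ := ger1 hs0
  have hpos : ∀ y : E d, 0 < max ‖x - y‖ ε := fun y => lt_of_lt_of_le hε (le_max_right _ _)
  have hhm : Measurable (fun y : E d => (max ‖x - y‖ ε) ^ (-s)) :=
    (((measurable_const.sub measurable_id).norm).max measurable_const).pow_const _
  have hh : MemLp (fun y : E d => (max ‖x - y‖ ε) ^ (-s)) 2 μ := by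
    refine ⟨hhm.aestronglyMeasurable, ?_⟩
    rw [eLpNorm_lt_top_iff_lintegral_rpow_enorm_lt_top (by norm_num) (by norm_num)]
    have h1 : ∀ y : E d, ‖(max ‖x - y‖ ε) ^ (-s)‖ₑ ^ ((2 : ℝ≥0∞).toReal) =
        ENNReal.ofReal ((max ‖x - y‖ ε) ^ (-(2 * s))) := by
      intro y
      have h2 : 0 ≤ (max ‖x - y‖ ε) ^ (-s) := Real.rpow_nonneg (hpos y).le _
      rw [Real.enorm_eq_ofReal h2, ENNReal.toReal_ofNat, ENNReal.ofReal_rpow_of_nonneg h2 (by norm_num),
        ← Real.rpow_mul (hpos y).le]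
      congr 2
      ring
    simp only [h1]
    exact (hC d G ε μ hG0.le hε hG x).trans_lt ENNReal.ofReal_lt_top
  have hprod : Integrable (fun y : E d => f y * (max ‖x - y‖ ε) ^ (-s)) μ := hf.integrable_mul hh
  have hSm : MeasurableSet {y : E d | ε < ‖x - y‖} :=
    measurableSet_lt measurable_const (measurable_const.sub measurable_id).norm
  have hmeas : AEStronglyMeasurable (fun y => (f y * ‖x - y‖ ^ (-(s + 1))) • (x - y)) μ := by
    have h3 : Measurable (fun y : E d => ‖x - y‖ ^ (-(s + 1))) :=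
      ((measurable_const.sub measurable_id).norm).pow_const _
    have h4 : Measurable (fun y : E d => x - y) := measurable_const.sub measurable_id
    exact (hf.1.mul h3.aestronglyMeasurable).smul h4.aestronglyMeasurable
  refine (hprod.norm.integrableOn (s := {y : E d | ε < ‖x - y‖})).mono' hmeas.restrict ?_
  filter_upwards [ae_restrict_mem hSm] with y hy
  have hy' : ε < ‖x - y‖ := hy
  have hy0 : 0 < ‖x - y‖ := hε.trans hy'
  have hmax : max ‖x - y‖ ε = ‖x - y‖ := max_eq_left hy'.le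
  rw [norm_smul, norm_mul, norm_mul, hmax, mul_assoc]
  apply mul_le_mul_of_nonneg_left _ (norm_nonneg _)
  rw [Real.norm_of_nonneg (Real.rpow_nonneg hy0.le _), Real.norm_of_nonneg (Real.rpow_nonneg hy0.le _)]
  have h5 : ‖x - y‖ ^ (-s) = ‖x - y‖ ^ (-(s + 1)) * ‖x - y‖ := by
    rw [show -s = -(s + 1) + 1 by ring, Real.rpow_add hy0, Real.rpow_one]
  exact h5.symm.le

private theorem RBD_ind (s ε : ℝ) (f : E d → ℝ) (x : E d) :
    (fun y => f y • kh s ε (x - y)) =
      {y : E d | ε < ‖x - y‖}.indicator (fun y => (f y * ‖x - y‖ ^ (-(s + 1))) • (x - y)) := by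
  funext y
  by_cases hy : ε < ‖x - y‖
  · rw [indicator_of_mem (show y ∈ {y : E d | ε < ‖x - y‖} from hy), kh,
      indicator_of_mem (show x - y ∈ {u : E d | ε < ‖u‖} from hy), ker, smul_smul]
  · rw [indicator_of_notMem (show y ∉ {y : E d | ε < ‖x - y‖} from hy), kh,
      indicator_of_notMem (show x - y ∉ {u : E d | ε < ‖u‖} from hy), smul_zero]

private theorem RBD_meas {s ε : ℝ} {C : ℝ≥0} {μ : Measure (E d)} [IsLocallyFiniteMeasure μ]
    (hint : ∀ f : E d → ℝ, MemLp f 2 μ → ∀ x : E d,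
      IntegrableOn (fun y => (f y * ‖x - y‖ ^ (-(s + 1))) • (x - y)) {y : E d | ε < ‖x - y‖} μ)
    (hll : ∀ f : E d → ℝ, Nice f →
      ∫⁻ x, ‖Tr s ε μ f x‖ₑ ^ 2 ∂μ ≤ (C : ℝ≥0∞) * ∫⁻ x, ‖f x‖ₑ ^ 2 ∂μ)
    {f : E d → ℝ} (hf : MemLp f 2 μ) (hm : Measurable f) :
    ∫⁻ x, ‖Tr s ε μ f x‖ₑ ^ 2 ∂μ ≤ (C : ℝ≥0∞) * ∫⁻ x, ‖f x‖ₑ ^ 2 ∂μ := by
  classical
  have hSm : ∀ x : E d, MeasurableSet {y : E d | ε < ‖x - y‖} := fun x =>
    measurableSet_lt measurable_const (measurable_const.sub measurable_id).norm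
  obtain ⟨F, hF⟩ : ∃ F : ℕ → E d → ℝ, ∀ n y, F n y = if ‖y‖ ≤ n ∧ |f y| ≤ n then f y else 0 :=
    ⟨fun n y => if ‖y‖ ≤ n ∧ |f y| ≤ n then f y else 0, fun _ _ => rfl⟩
  have hFle : ∀ n y, |F n y| ≤ |f y| := by
    intro n y
    rw [hF]
    split_ifs
    · exact le_rfl
    · simp
  have hFm : ∀ n, Measurable (F n) := by
    intro n
    have : F n = fun y => if ‖y‖ ≤ n ∧ |f y| ≤ n then f y else 0 := funext (hF n)
    rw [this]
    refine Measurable.ite ?_ hm measurable_const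
    exact (measurableSet_le measurable_norm measurable_const).inter
      (measurableSet_le hm.norm measurable_const)
  have hFn : ∀ n, Nice (F n) := by
    intro n
    refine ⟨hFm n, ⟨n, ?_⟩, ⟨n, ?_⟩⟩
    · intro y
      rw [hF]
      split_ifs with h
      · exact h.2
      · simp
    · intro y hy
      rw [hF, if_neg]
      exact fun h => absurd h.1 (not_le.2 hy)
  have hlimF : ∀ y, Filter.Tendsto (fun n => F n y) Filter.atTop (nhds (f y)) := by
    intro y
    apply tendsto_const_nhds.congr'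
    obtain ⟨N, hN⟩ := exists_nat_ge (max ‖y‖ |f y|)
    filter_upwards [Filter.eventually_ge_atTop N] with n hn
    have hNn : (N : ℝ) ≤ n := by exact_mod_cast hn
    rw [hF, if_pos]
    exact ⟨(le_max_left _ _).trans (hN.trans hNn), (le_max_right _ _).trans (hN.trans hNn)⟩
  have hlim : ∀ x, Filter.Tendsto (fun n => Tr s ε μ (F n) x) Filter.atTop (nhds (Tr s ε μ f x)) := by
    intro x
    have hI : Integrable (fun y => f y • kh s ε (x - y)) μ := by
      rw [RBD_ind]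
      exact (integrable_indicator_iff (hSm x)).2 (hint f hf x)
    have hkm : Measurable (fun y : E d => kh s ε (x - y)) := by
      have h1 : Measurable (kh s ε : E d → E d) := by
        have h2 : Measurable (ker s : E d → E d) :=
          ((measurable_norm).pow_const _).smul measurable_id
        exact h2.indicator (measurableSet_lt measurable_const measurable_norm)
      exact h1.comp (measurable_const.sub measurable_id)
    unfold Tr
    refine tendsto_integral_of_dominated_convergence (fun y => ‖f y • kh s ε (x - y)‖)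
      (fun n => ((hFm n).smul hkm).aestronglyMeasurable) hI.norm ?_ ?_
    · intro n
      refine Filter.Eventually.of_forall fun y => ?_
      rw [norm_smul, norm_smul]
      exact mul_le_mul_of_nonneg_right (hFle n y) (norm_nonneg _)
    · exact Filter.Eventually.of_forall fun y => (hlimF y).smul_const _
  calc ∫⁻ x, ‖Tr s ε μ f x‖ₑ ^ 2 ∂μ
      = ∫⁻ x, Filter.liminf (fun n => ‖Tr s ε μ (F n) x‖ₑ ^ 2) Filter.atTop ∂μ := by
        refine lintegral_congr fun x => ?_
        have h1 : Filter.Tendsto (fun n => ‖Tr s ε μ (F n) x‖ₑ ^ 2) Filter.atTop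
            (nhds (‖Tr s ε μ f x‖ₑ ^ 2)) :=
          ((ENNReal.continuous_pow 2).tendsto _).comp (hlim x).enorm
        exact h1.liminf_eq.symm
    _ ≤ Filter.liminf (fun n => ∫⁻ x, ‖Tr s ε μ (F n) x‖ₑ ^ 2 ∂μ) Filter.atTop := by
        refine lintegral_liminf_le fun n => ?_
        exact ((measurable_Tr s ε μ (F n) (hFm n)).enorm).pow_const 2
    _ ≤ Filter.liminf (fun _ : ℕ => (C : ℝ≥0∞) * ∫⁻ x, ‖f x‖ₑ ^ 2 ∂μ) Filter.atTop := by
        refine Filter.liminf_le_liminf (Filter.Eventually.of_forall fun n => ?_)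
        refine (hll (F n) (hFn n)).trans ?_
        refine mul_le_mul_right (lintegral_mono fun x => ?_) _
        have h2 : ‖F n x‖ₑ ≤ ‖f x‖ₑ := by
          rw [enorm_le_iff_norm_le]
          exact hFle n x
        exact pow_le_pow_left' h2 2
    _ = (C : ℝ≥0∞) * ∫⁻ x, ‖f x‖ₑ ^ 2 ∂μ := Filter.liminf_const _

theorem rb_of_WB {s : ℝ} (hs0 : 0 < s) (hs1 : s < 1) (μ : Measure (E d))
    [IsLocallyFiniteMeasure μ] [NullSingletonClass μ] (h : WB s μ) : RB s μ := by
  obtain ⟨G, hG0, hG⟩ := growth_of_WB hs0 μ h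
  obtain ⟨C, hC⟩ := ll2 hs0 hs1 μ h
  refine ⟨fun ε hε f hf x => int_gr hs0 hG0 μ hG hε hf x, C, ?_⟩
  intro ε hε f hf
  have hSm : ∀ x : E d, MeasurableSet {y : E d | ε < ‖x - y‖} := fun x =>
    measurableSet_lt measurable_const (measurable_const.sub measurable_id).norm
  obtain ⟨g, hg, hfg⟩ : ∃ g : E d → ℝ, StronglyMeasurable g ∧ f =ᵐ[μ] g :=
    ⟨hf.1.mk f, hf.1.stronglyMeasurable_mk, hf.1.ae_eq_mk⟩
  have hg2 : MemLp g 2 μ := (memLp_congr_ae hfg).1 hf
  have h1 := RBD_meas (C := C) (fun f hf x => int_gr hs0 hG0 μ hG hε hf x) (hC ε hε) hg2 hg.measurable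
  have h2 : ∫⁻ x, ‖f x‖ₑ ^ 2 ∂μ = ∫⁻ x, ‖g x‖ₑ ^ 2 ∂μ :=
    lintegral_congr_ae (hfg.mono fun x hx => by simp only [hx])
  rw [h2]
  refine Eq.trans_le ?_ h1
  refine lintegral_congr fun x => ?_
  have h3 : ∫ y in {y : E d | ε < ‖x - y‖}, (f y * ‖x - y‖ ^ (-(s + 1))) • (x - y) ∂μ =
      Tr s ε μ g x := by
    unfold Tr
    rw [RBD_ind, integral_indicator (hSm x)]
    exact integral_congr_ae ((ae_restrict_of_ae hfg).mono fun y hy => by simp only [hy])
  rw [h3]

end Pool.Agent.RSF
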