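import Pool.Agent.RSF.LOW
import Pool.Agent.RSF.HRD

/-!
# TRR: a bounded Riesz transform gives the Wolff energy condition

* `wb_of_U`: suppose `U s ε (μ.restrict A) ≤ C μ(A)` for all bounded measurable `A` and arbitrarily small `ε > 0`
  (say `ε = 2^(-n)`, `n` large). For `ε → 0` monotone convergence / Fatou (`om s ε x y z` increases as `ε`
  decreases and `mx ^ (-(2s)) ≤ sup_ε om` — for `mx = 0` the left side is `0`) gives the bound of `WB` for
  bounded `A`; an arbitrary `A` is the increasing union of the bounded sets `A ∩ closedBall 0 n`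
  (monotone convergence in all three variables).
* `wb_of_RB0`: for a bounded measurable `A` and `ν = μ.restrict A` (finite, growth) take `f = indicator A 1`:
  `∫ y in {ε < ‖x-y‖}, (f y * ‖x-y‖^(-(s+1))) • (x-y) ∂μ = ∫ y, kh s ε (x - y) ∂ν`; so
  `∫⁻ ‖∫ kh s ε (x-y) dν‖² dν ≤ ∫⁻ ... dμ ≤ C μ(A)`. Apply `low` with `k = kh s ε` and `kh_pw`.
-/

namespace Pool.Agent.RSF

open MeasureTheory Metric Set
open scoped ENNReal NNReal

variable {d : ℕ}




theorem Growth.restrict {s G : ℝ} {μ : Measure (E d)} (h : Growth s G μ) (A : Set (E d)) :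
    Growth s G (μ.restrict A) := fun x r hr =>
  (Measure.restrict_apply_le A (closedBall x r)).trans (h x r hr)

private theorem TRR_triple (ν : Measure (E d)) [SFinite ν] (f : E d × E d × E d → ℝ≥0∞)
    (hf : Measurable f) :
    ∫⁻ x, ∫⁻ y, ∫⁻ z, f (x, y, z) ∂ν ∂ν ∂ν = ∫⁻ q, f q ∂(ν.prod (ν.prod ν)) := by
  rw [lintegral_prod _ hf.aemeasurable]
  refine lintegral_congr fun x => ?_
  have h1 : Measurable (fun q : E d × E d => f (x, q)) :=
    hf.comp (measurable_const.prodMk measurable_id)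
  rw [lintegral_prod _ h1.aemeasurable]

theorem wb_of_U {s : ℝ} (hs0 : 0 < s) (μ : Measure (E d)) (C : ℝ≥0)
    (h : ∀ A : Set (E d), MeasurableSet A → Bornology.IsBounded A → ∃ n₀ : ℕ, ∀ n : ℕ, n₀ ≤ n →
      U s ((2 : ℝ) ^ (-(n : ℤ))) (μ.restrict A) ≤ (C : ℝ≥0∞) * μ A) : WB s μ := by
  refine ⟨C + 1, fun A hA => ?_⟩
  rcases eq_or_ne (μ A) ∞ with hA' | hA'
  · rw [hA', ENNReal.mul_top (by simp)]
    exact le_top
  have hfin : IsFiniteMeasure (μ.restrict A) := ⟨by
    rw [Measure.restrict_apply_univ]; exact lt_top_iff_ne_top.2 hA'⟩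
  set ν := μ.restrict A with hν
  have hmx : Measurable (fun q : E d × E d × E d => mx q.1 q.2.1 q.2.2) := by
    unfold mx
    exact (measurable_fst.sub measurable_snd.fst).norm.max (measurable_fst.sub measurable_snd.snd).norm
  have hcb : ∀ n : ℕ, ∃ n₀ : ℕ, ∀ k : ℕ, n₀ ≤ k →
      U s ((2 : ℝ) ^ (-(k : ℤ))) (μ.restrict (closedBall 0 n ∩ A)) ≤
        (C : ℝ≥0∞) * μ (closedBall 0 n ∩ A) := fun n =>
    h _ (measurableSet_closedBall.inter hA) (isBounded_closedBall.subset inter_subset_left)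
  choose n₀ hn₀ using hcb
  set k : ℕ → ℕ := fun n => max (n₀ n) n with hk
  set S : ℕ → Set (E d × E d × E d) := fun n =>
    closedBall (0 : E d) n ×ˢ closedBall (0 : E d) n ×ˢ closedBall (0 : E d) n with hS
  have hSm : ∀ n, MeasurableSet (S n) := fun n =>
    measurableSet_closedBall.prod (measurableSet_closedBall.prod measurableSet_closedBall)
  set F : ℕ → E d × E d × E d → ℝ≥0∞ := fun n q =>
    ENNReal.ofReal (om s ((2 : ℝ) ^ (-(k n : ℤ))) q.1 q.2.1 q.2.2) with hF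
  have hFm : ∀ n, Measurable (F n) := fun n => (measurable_om s _).ennreal_ofReal
  have hlim : ∀ q : E d × E d × E d, ENNReal.ofReal (mx q.1 q.2.1 q.2.2 ^ (-(2 * s))) ≤
      Filter.liminf (fun n => (S n).indicator (F n) q) Filter.atTop := by
    intro q
    have hmx0 : 0 ≤ mx q.1 q.2.1 q.2.2 := le_max_of_le_left (norm_nonneg _)
    rcases hmx0.eq_or_lt with h0 | h0
    · rw [← h0, Real.zero_rpow (by linarith), ENNReal.ofReal_zero]
      exact bot_le
    refine Filter.le_liminf_of_le (by isBoundedDefault) ?_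
    obtain ⟨N, hN⟩ := exists_nat_ge (max ‖q.1‖ (max ‖q.2.1‖ ‖q.2.2‖))
    obtain ⟨M, hM⟩ := exists_pow_lt_of_lt_one h0 (by norm_num : (1 / 2 : ℝ) < 1)
    filter_upwards [Filter.eventually_ge_atTop (max N M)] with n hn
    have hnN : (N : ℝ) ≤ n := by exact_mod_cast (le_max_left N M).trans hn
    have hnM : M ≤ k n := ((le_max_right N M).trans hn).trans (le_max_right _ _)
    have hq : q ∈ S n := by
      refine ⟨?_, ?_, ?_⟩ <;> rw [mem_closedBall_zero_iff]
      · exact ((le_max_left _ _).trans hN).trans hnN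
      · exact (((le_max_left _ _).trans (le_max_right _ _)).trans hN).trans hnN
      · exact (((le_max_right _ _).trans (le_max_right _ _)).trans hN).trans hnN
    rw [indicator_of_mem hq]
    simp only [hF]
    refine ENNReal.ofReal_le_ofReal ?_
    have he : (2 : ℝ) ^ (-(k n : ℤ)) ≤ mx q.1 q.2.1 q.2.2 := by
      have e1 : (2 : ℝ) ^ (-(k n : ℤ)) = (1 / 2) ^ (k n) := by
        rw [zpow_neg, zpow_natCast, one_div, inv_pow]
      rw [e1]
      exact (pow_le_pow_of_le_one (by norm_num) (by norm_num) hnM).trans hM.le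
    unfold om
    rw [max_eq_left he]
  have hint : ∀ n, ∫⁻ q, (S n).indicator (F n) q ∂(ν.prod (ν.prod ν)) ≤ (C : ℝ≥0∞) * μ A := by
    intro n
    rw [lintegral_indicator (hSm n), hS, ← Measure.prod_restrict, ← Measure.prod_restrict,
      hν, Measure.restrict_restrict measurableSet_closedBall]
    have hfin' : IsFiniteMeasure (μ.restrict (closedBall (0 : E d) n ∩ A)) := ⟨by
      rw [Measure.restrict_apply_univ]
      exact (measure_mono inter_subset_right).trans_lt (lt_top_iff_ne_top.2 hA')⟩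
    rw [← TRR_triple _ _ (hFm n)]
    refine (hn₀ n (k n) (le_max_left _ _)).trans ?_
    gcongr
    exact inter_subset_right
  calc ∫⁻ x in A, ∫⁻ y in A, ∫⁻ z in A, ENNReal.ofReal (mx x y z ^ (-(2 * s))) ∂μ ∂μ ∂μ
      = ∫⁻ q, ENNReal.ofReal (mx q.1 q.2.1 q.2.2 ^ (-(2 * s))) ∂(ν.prod (ν.prod ν)) :=
        TRR_triple ν (fun q => ENNReal.ofReal (mx q.1 q.2.1 q.2.2 ^ (-(2 * s))))
          (hmx.pow_const _).ennreal_ofReal
    _ ≤ ∫⁻ q, Filter.liminf (fun n => (S n).indicator (F n) q) Filter.atTop ∂(ν.prod (ν.prod ν)) :=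
        lintegral_mono hlim
    _ ≤ Filter.liminf (fun n => ∫⁻ q, (S n).indicator (F n) q ∂(ν.prod (ν.prod ν)))
          Filter.atTop := lintegral_liminf_le fun n => (hFm n).indicator (hSm n)
    _ ≤ (C : ℝ≥0∞) * μ A := by
        refine Filter.liminf_le_of_frequently_le' ?_
        exact Filter.Frequently.of_forall hint
    _ ≤ ((C + 1 : ℝ≥0) : ℝ≥0∞) * μ A := by
        gcongr
        exact le_self_add

theorem wb_of_RB0 {s : ℝ} (hs0 : 0 < s) (hs1 : s < 1) (μ : Measure (E d)) [IsLocallyFiniteMeasure μ]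
    (h : RB0 s μ) {G : ℝ} (hG0 : 0 < G) (hG : Growth s G μ) : WB s μ := by
  obtain ⟨CR, hCR⟩ := h
  obtain ⟨C', hC', hlow⟩ := low hs0
  obtain ⟨c, C, hc, hC, hpw⟩ := kh_pw hs0 hs1
  set D : ℝ≥0 := (3 * CR + (C * C' * G ^ 2).toNNReal) / c.toNNReal with hD
  have hc' : (c.toNNReal : ℝ≥0∞) ≠ 0 := by
    rw [ENNReal.coe_ne_zero]; exact (Real.toNNReal_pos.2 hc).ne'
  refine wb_of_U hs0 μ D fun A hA hAb => ⟨0, fun n _ => ?_⟩
  set ε : ℝ := (2 : ℝ) ^ (-(n : ℤ)) with hε
  have hε0 : 0 < ε := by positivity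
  have hμA : μ A < ∞ := hAb.measure_lt_top
  have hfin : IsFiniteMeasure (μ.restrict A) := ⟨by rwa [Measure.restrict_apply_univ]⟩
  set f : E d → ℝ := A.indicator (fun _ => (1 : ℝ)) with hf
  have hfL : MemLp f 2 μ := memLp_indicator_const 2 hA 1 (Or.inr hμA.ne)
  have hfs : ∃ R : ℝ, ∀ y : E d, R < ‖y‖ → f y = 0 := by
    obtain ⟨R, hR⟩ := hAb.subset_closedBall (0 : E d)
    refine ⟨R, fun y hy => indicator_of_notMem (fun hyA => ?_) _⟩
    exact absurd (mem_closedBall_zero_iff.1 (hR hyA)) (not_le.2 hy)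
  have hfn : ∫⁻ x, ‖f x‖ₑ ^ 2 ∂μ = μ A := by
    have e1 : (fun x => ‖f x‖ₑ ^ 2) = A.indicator (fun _ => (1 : ℝ≥0∞)) := by
      funext x
      by_cases hx : x ∈ A
      · simp [hf, hx]
      · simp [hf, hx]
    rw [e1, lintegral_indicator hA]
    simp
  have hset : ∀ x : E d, MeasurableSet {y : E d | ε < ‖x - y‖} := fun x =>
    measurableSet_lt measurable_const (measurable_const.sub measurable_id).norm
  have hker : ∀ x : E d, ∫ y in {y : E d | ε < ‖x - y‖}, (f y * ‖x - y‖ ^ (-(s + 1))) • (x - y) ∂μ =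
      ∫ y, kh s ε (x - y) ∂(μ.restrict A) := by
    intro x
    rw [← integral_indicator (hset x), ← integral_indicator hA]
    refine integral_congr_ae (Filter.Eventually.of_forall fun y => ?_)
    simp only [hf, kh]
    by_cases hy : y ∈ A <;> by_cases hxy : ε < ‖x - y‖ <;>
      simp [hy, hxy, indicator, ker]
  have h1 : ∫⁻ x, ‖∫ y, kh s ε (x - y) ∂(μ.restrict A)‖ₑ ^ 2 ∂(μ.restrict A) ≤
      (CR : ℝ≥0∞) * μ A := by
    calc _ ≤ ∫⁻ x, ‖∫ y, kh s ε (x - y) ∂(μ.restrict A)‖ₑ ^ 2 ∂μ := setLIntegral_le_lintegral _ _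
      _ = ∫⁻ x, ‖∫ y in {y : E d | ε < ‖x - y‖},
            (f y * ‖x - y‖ ^ (-(s + 1))) • (x - y) ∂μ‖ₑ ^ 2 ∂μ := by
          simp only [hker]
      _ ≤ _ := by
          rw [← hfn]
          exact hCR ε hε0 f hfL hfs
  have h2 := hlow d c C (ε ^ (-s)) G ε (kh s ε) (μ.restrict A) univ hc hC hG0.le hε0
    (measurable_kh s ε) (fun u => kh_norm hs0 hε0 u) hfin (hG.restrict A) (by simp)
    (fun x _ y _ z _ => hpw d ε hε0 x y z)
  rw [Measure.restrict_apply_univ] at h2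
  have h3 : (c.toNNReal : ℝ≥0∞) * U s ε (μ.restrict A) ≤
      ((3 * CR + (C * C' * G ^ 2).toNNReal : ℝ≥0) : ℝ≥0∞) * μ A := by
    refine h2.trans ?_
    push_cast
    rw [add_mul]
    refine add_le_add ?_ le_rfl
    rw [mul_assoc]
    exact mul_le_mul_right h1 3
  rw [hD, ENNReal.coe_div (by exact_mod_cast hc')]
  rw [mul_comm] at h3
  rw [ENNReal.div_eq_inv_mul, mul_assoc]
  rw [← ENNReal.div_eq_inv_mul]
  exact (ENNReal.le_div_iff_mul_le (Or.inl hc') (Or.inl ENNReal.coe_ne_top)).2 h3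

end Pool.Agent.RSF
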